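import Pool.Agent.Work.MP_c404d3_gt.B6

/-!
A15: the braids used close up to knots. Plan: compute perm on numbers by a computable fold
(perm w p = w.foldr (fun x u => if u = x.1 then x.1+1 else if u = x.1+1 then x.1 else u) p), and
check by decide (kernel) that every p < N is an iterate of 0.
-/

namespace Pool.Agent.Work.MP_c404d3_gt

/-- the permutation of a word, computed on numbers -/
def A15_app (w : Word) (p : ℕ) : ℕ :=
  w.foldr (fun x u => if u = x.1 then x.1 + 1 else if u = x.1 + 1 then x.1 else u) p

theorem A15_perm (w : Word) (p : ℕ) : perm w p = A15_app w p := by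
  induction w with
  | nil => rfl
  | cons x w ih =>
    have h : perm (x :: w) = Equiv.swap x.1 (x.1 + 1) * perm w := by simp [perm]
    rw [h, Equiv.Perm.mul_apply, ih, Equiv.swap_apply_def]
    rfl

/-- the same map, written with recursors for the kernel -/
noncomputable def A15_ap2 (w : Word) (p : ℕ) : ℕ :=
  List.rec p (fun x _ u => Bool.rec (Bool.rec u x.1 (Nat.beq u (Nat.succ x.1))) (Nat.succ x.1)
    (Nat.beq u x.1)) w

theorem A15_ap2_eq (w : Word) (p : ℕ) : A15_ap2 w p = A15_app w p := by
  induction w with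
  | nil => rfl
  | cons x w ih =>
    change Bool.rec (Bool.rec (A15_ap2 w p) x.1 (Nat.beq (A15_ap2 w p) (x.1 + 1))) (x.1 + 1)
      (Nat.beq (A15_ap2 w p) x.1) = if A15_app w p = x.1 then x.1 + 1 else
        if A15_app w p = x.1 + 1 then x.1 else A15_app w p
    rw [ih]
    split_ifs with h1 h2
    · rw [Nat.beq_eq.mpr h1]
    · rw [Bool.eq_false_iff.2 fun h => h1 (Nat.eq_of_beq_eq_true h),
        Nat.beq_eq.mpr h2]
    · rw [Bool.eq_false_iff.2 fun h => h1 (Nat.eq_of_beq_eq_true h),
        Bool.eq_false_iff.2 fun h => h2 (Nat.eq_of_beq_eq_true h)]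

/-- the first `n` points of the orbit of `u` -/
noncomputable def A15_orb (w : Word) : ℕ → ℕ → List ℕ
  | 0, _ => []
  | n + 1, u => u :: A15_orb w n (A15_ap2 w u)

theorem A15_same (w : Word) (n u p : ℕ) (h : p ∈ A15_orb w n u) : (perm w).SameCycle u p := by
  induction n generalizing u with
  | zero => simp [A15_orb] at h
  | succ n ih =>
    rcases List.mem_cons.1 h with rfl | h
    · exact Equiv.Perm.SameCycle.refl _ _
    · have h1 := ih _ h
      rw [A15_ap2_eq, ← A15_perm] at h1
      exact Equiv.Perm.sameCycle_apply_left.1 h1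

/-- the test -/
noncomputable def A15_chk (N : ℕ) (w : Word) : Bool :=
  decide (0 < N) && (w.all fun x => decide (x.1 + 1 < N)) &&
    (List.range N).all fun p => (A15_orb w N 0).contains p

theorem A15_isKnot {N : ℕ} {w : Word} (h : A15_chk N w = true) : IsKnot N w := by
  simp only [A15_chk, Bool.and_eq_true, decide_eq_true_eq, List.all_eq_true, List.mem_range,
    List.contains_iff_mem] at h
  exact ⟨h.1.1, h.1.2, fun p hp => A15_same w N 0 p (h.2 p hp)⟩

theorem isKnot_fig8 : IsKnot 3 fig8 := by
  exact A15_isKnot (by decide +kernel)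

theorem isKnot_tor6 : IsKnot 6 (tor 6) := by
  exact A15_isKnot (by decide +kernel)

theorem isKnot_rep7 : IsKnot 2 (List.replicate 7 (0, true)) := by
  exact A15_isKnot (by decide +kernel)

theorem isKnot_K1 : IsKnot 18 K1 := by
  exact A15_isKnot (by decide +kernel)

theorem isKnot_K2 : IsKnot 36 K2 := by
  exact A15_isKnot (by decide +kernel)

theorem isKnot_KK : IsKnot 38 KK := by
  exact A15_isKnot (by decide +kernel)

end Pool.Agent.Work.MP_c404d3_gt
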