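import Pool.Agent.Work.MP_c404d3_gt.B6

-- merged part: Pool.Agent.Work.MP_c404d3_gt.B4a
section
/-!
B4a: the recurrence for Y, and an abstract energy estimate.
Y_rec. With g0 = - br(2n) br(2n+1) br(2n-1), induction on K ≥ 1 gives
∑ k < K, (br(2n-1) P k (n+1) + β P k n + br(2n+1) P k (n-1)) = g0 * P (K-1) n + RHS, using
P (k+1) (n+1) = P k n br(n+k+1) br(n+k+2), P (k+1) (n-1) = P k n br(n-k-1) br(n-k-2), P_succ (each
step is a Laurent polynomial identity in zeta, zeta^n, zeta^k: field_simp, ring). For K = R/2 the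
term g0 * P (K-1) n vanishes: P_eq_zero unless n ≡ r or r+1 mod R, where br(2n+1) or br(2n-1) is 0.
energy. Let δ i = y (i+1) - y i, u = y (i+1), E w = δ^2 - w u δ + w u^2 ≥ (3/4) δ^2 for w in [0,1].
Homogeneous step δ' = c δ - w u: E' = c^2 δ^2 - c w u δ + w u^2 ≤ E + τ u^2/4. With
N i = E (w i) + θ^2 u^2 (θ small in terms of η, τ = θ^3) one gets N (i+1) ≤ (1 + C θ) N i + C D^2/θ
(use (a+b)^2 ≤ (1+θ) a^2 + (1+1/θ) b^2), then iterate and use u^2 ≤ N/θ^2.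
-/

namespace Pool.Agent.Work.MP_c404d3_gt

open scoped BigOperators Real Topology
open Finset Filter Complex

theorem B4a_P0 (R : ℕ) (m : ℤ) : P R 0 m = br R m := by
  simp [P]

theorem B4a_up (R k : ℕ) (n : ℤ) :
    P R (k + 1) (n + 1) = P R k n * (br R (n + k + 1) * br R (n + k + 2)) := by
  induction k with
  | zero =>
    rw [P_succ, B4a_P0, B4a_P0]
    simp only [Nat.cast_zero, zero_add, add_zero, add_sub_cancel_right]
    rw [show n + 1 + 1 = n + 2 by ring]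
    ring
  | succ k ih =>
    rw [P_succ, ih, P_succ]
    push_cast
    rw [show n + 1 + (k + 1 + 1) = n + (k + 1) + 2 by ring,
      show n + 1 - (k + 1 + 1) = n - (k + 1) by ring, show n + (k + 1) + 1 = n + k + 2 by ring,
      show n + (k + 1) = n + k + 1 by ring]
    ring

theorem B4a_down (R k : ℕ) (n : ℤ) :
    P R (k + 1) (n - 1) = P R k n * (br R (n - k - 1) * br R (n - k - 2)) := by
  induction k with
  | zero =>
    rw [P_succ, B4a_P0, B4a_P0]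
    simp only [Nat.cast_zero, zero_add, sub_zero, sub_add_cancel]
    rw [show n - 1 - 1 = n - 2 by ring]
    ring
  | succ k ih =>
    rw [P_succ, ih, P_succ]
    push_cast
    rw [show n - 1 - (k + 1 + 1) = n - (k + 1) - 2 by ring,
      show n - 1 + (k + 1 + 1) = n + (k + 1) by ring, show n - (k + 1) - 1 = n - k - 2 by ring,
      show n - (k + 1) = n - k - 1 by ring]
    ring

theorem B4a_br (R : ℕ) (m : ℤ) : br R m = zeta R ^ m - (zeta R ^ m)⁻¹ := by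
  rw [br, qb, zpow_neg]

theorem B4a_base (R : ℕ) (n : ℤ) :
    br R (2 * n - 1) * br R (n + 1) +
      br R (2 * n) * ((zeta R + (zeta R)⁻¹) ^ 2 + (zeta R ^ (2 * n) + zeta R ^ (-(2 * n))) -
        (zeta R ^ (2 * n) + zeta R ^ (-(2 * n))) ^ 2) * br R n +
      br R (2 * n + 1) * br R (n - 1) =
      -(br R (2 * n) * br R (2 * n + 1) * br R (2 * n - 1)) * br R n +
      (zeta R ^ n + zeta R ^ (-n)) * br R (2 * n + 1) * br R (2 * n - 1) := by
  have hq := zeta_ne R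
  have ha : zeta R ^ n ≠ 0 := zpow_ne_zero _ hq
  simp only [B4a_br, zpow_neg, two_mul, zpow_add₀ hq, zpow_sub₀ hq, zpow_one]
  generalize zeta R ^ n = a at ha
  generalize zeta R = q at hq
  field_simp
  ring

theorem B4a_id (R k : ℕ) (n : ℤ) :
    br R (2 * n - 1) * (br R (n + k + 1) * br R (n + k + 2)) +
      br R (2 * n) * ((zeta R + (zeta R)⁻¹) ^ 2 + (zeta R ^ (2 * n) + zeta R ^ (-(2 * n))) -
        (zeta R ^ (2 * n) + zeta R ^ (-(2 * n))) ^ 2) *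
        (br R (n + (k + 1)) * br R (n - (k + 1))) +
      br R (2 * n + 1) * (br R (n - k - 1) * br R (n - k - 2)) =
      -(br R (2 * n) * br R (2 * n + 1) * br R (2 * n - 1)) *
        (br R (n + (k + 1)) * br R (n - (k + 1)) - 1) := by
  have hq := zeta_ne R
  have ha : zeta R ^ n ≠ 0 := zpow_ne_zero _ hq
  have hb : zeta R ^ (k : ℤ) ≠ 0 := zpow_ne_zero _ hq
  simp only [B4a_br, zpow_neg, two_mul, zpow_add₀ hq, zpow_sub₀ hq, zpow_one, zpow_two]
  generalize zeta R ^ n = a at ha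
  generalize zeta R ^ (k : ℤ) = b at hb
  generalize zeta R = q at hq
  field_simp
  ring

theorem B4a_sum (R K : ℕ) (n : ℤ) :
    br R (2 * n - 1) * ∑ k ∈ range (K + 1), P R k (n + 1) +
      br R (2 * n) * ((zeta R + (zeta R)⁻¹) ^ 2 + (zeta R ^ (2 * n) + zeta R ^ (-(2 * n))) -
        (zeta R ^ (2 * n) + zeta R ^ (-(2 * n))) ^ 2) * ∑ k ∈ range (K + 1), P R k n +
      br R (2 * n + 1) * ∑ k ∈ range (K + 1), P R k (n - 1) =
      -(br R (2 * n) * br R (2 * n + 1) * br R (2 * n - 1)) * P R K n +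
      (zeta R ^ n + zeta R ^ (-n)) * br R (2 * n + 1) * br R (2 * n - 1) := by
  induction K with
  | zero => simpa only [zero_add, sum_range_one, B4a_P0] using B4a_base R n
  | succ K ih =>
    rw [sum_range_succ _ (K + 1), sum_range_succ _ (K + 1), sum_range_succ _ (K + 1), B4a_up,
      B4a_down, P_succ]
    linear_combination ih + P R K n * B4a_id R K n

theorem Y_rec {R : ℕ} (hR : Odd R) (h3 : 3 ≤ R) (n : ℤ) :
    br R (2 * n - 1) * Y R (n + 1) +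
      br R (2 * n) * ((zeta R + (zeta R)⁻¹) ^ 2 + (zeta R ^ (2 * n) + zeta R ^ (-(2 * n))) -
        (zeta R ^ (2 * n) + zeta R ^ (-(2 * n))) ^ 2) * Y R n +
      br R (2 * n + 1) * Y R (n - 1) =
      (zeta R ^ n + zeta R ^ (-n)) * br R (2 * n + 1) * br R (2 * n - 1) := by
  obtain ⟨r, rfl⟩ := hR
  obtain ⟨K, rfl⟩ : ∃ K, r = K + 1 := ⟨r - 1, by omega⟩
  have h0 : 0 < 2 * (K + 1) + 1 := by omega
  have hz : ∀ m l : ℤ, m = l * (2 * (K + 1) + 1 : ℕ) → br (2 * (K + 1) + 1) m = 0 := by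
    intro m l e
    rw [e, ← zero_add (l * _), br_per h0, B4a_br]
    simp
  have e : (2 * (K + 1) + 1) / 2 = K + 1 := by omega
  simp only [Y, e]
  rw [B4a_sum, add_eq_right]
  have h1 := Int.emod_add_mul_ediv n (2 * (K + 1) + 1 : ℕ)
  have h2 := Int.emod_nonneg n (show ((2 * (K + 1) + 1 : ℕ) : ℤ) ≠ 0 by omega)
  have h4 := Int.emod_lt_of_pos n (show 0 < ((2 * (K + 1) + 1 : ℕ) : ℤ) by omega)
  generalize n % (2 * (K + 1) + 1 : ℕ) = t at h1 h2 h4
  generalize n / (2 * (K + 1) + 1 : ℕ) = l at h1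
  push_cast at h1 h4
  rcases (show t ≤ K ∨ t = K + 1 ∨ t = K + 2 ∨ K + 3 ≤ t by omega) with h | h | h | h
  · rw [P_eq_zero h0 (l := l) (by
      push_cast
      rw [abs_le]
      constructor <;> linarith only [h2, h1, h]), mul_zero]
  · rw [hz (2 * n + 1) (2 * l + 1) (by push_cast; rw [← h1, h]; ring)]
    ring
  · rw [hz (2 * n - 1) (2 * l + 1) (by push_cast; rw [← h1, h]; ring)]
    ring
  · rw [P_eq_zero h0 (l := l + 1) (by
      push_cast
      rw [abs_le]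
      constructor <;> linarith only [h1, h, h4]), mul_zero]

theorem B4a_psd {w : ℝ} (h0 : 0 ≤ w) (h1 : w ≤ 1) (x y : ℝ) :
    3 / 4 * x ^ 2 ≤ x ^ 2 - w * y * x + w * y ^ 2 := by
  linarith only [h0, h1, mul_nonneg h0 (sq_nonneg (y - x / 2)), mul_nonneg (sub_nonneg.2 h1) (sq_nonneg x), sq_nonneg (y - x / (2 : ℝ)), sq_nonneg x]

theorem B4a_step {θ c w w' δ u d D : ℝ} (t0 : 0 < θ) (t1 : θ ≤ 1) (c0 : 0 ≤ c) (c1 : c ≤ 1)
    (w0 : 0 ≤ w) (w1 : w ≤ 1) (hc : (1 - c) * w ≤ θ ^ 3) (hw : |w' - w| ≤ θ ^ 3) (hd : |d| ≤ D)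
    {δ' u' : ℝ} (e1 : δ' = c * δ - w * u + d) (e2 : u' = u + δ') :
    θ * (δ' ^ 2 - w' * u' * δ' + w' * u' ^ 2 + θ ^ 2 * u' ^ 2) ≤
      (1 + 17 * θ) * (θ * (δ ^ 2 - w * u * δ + w * u ^ 2 + θ ^ 2 * u ^ 2)) + 18 * D ^ 2 := by
  obtain ⟨E, hE⟩ : ∃ E, E = δ ^ 2 - w * u * δ + w * u ^ 2 := ⟨_, rfl⟩
  obtain ⟨E1, hE1⟩ : ∃ E, E = c ^ 2 * δ ^ 2 - c * w * u * δ + w * u ^ 2 := ⟨_, rfl⟩
  obtain ⟨A, hA⟩ : ∃ E, E = δ' ^ 2 - w * u' * δ' + w * u' ^ 2 := ⟨_, rfl⟩
  have E0 : 0 ≤ E := by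
    have := B4a_psd w0 w1 δ u
    rw [← hE] at this
    linarith only [this, sq_nonneg δ]
  have hd2 : d ^ 2 ≤ D ^ 2 := by
    rw [← sq_abs d]
    exact pow_le_pow_left₀ (abs_nonneg _) hd 2
  have h1 : E1 ≤ E + θ ^ 3 * u ^ 2 / 4 := by
    have a1 : -((1 + c) * δ ^ 2) + w * u * δ ≤ w * u ^ 2 / 4 := by
      linarith only [mul_nonneg w0 (sq_nonneg (δ - u / 2)), mul_nonneg c0 (sq_nonneg δ),
        mul_nonneg (sub_nonneg.2 w1) (sq_nonneg δ)]
    have a2 := mul_le_mul_of_nonneg_left a1 (sub_nonneg.2 c1)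
    have a3 := mul_le_mul_of_nonneg_right hc (sq_nonneg u)
    rw [hE1, hE]
    linarith only [a2, a3]
  have h2 : θ * A ≤ θ * (1 + θ) * E1 + 2 * D ^ 2 := by
    have a1 := B4a_psd w0 w1 (θ * (c * δ - w * u) - d) (θ * (u + (c * δ - w * u)) - d)
    have a2 : θ * A = θ * (1 + θ) * E1 + (1 + θ) * d ^ 2 -
        ((θ * (c * δ - w * u) - d) ^ 2 -
          w * (θ * (u + (c * δ - w * u)) - d) * (θ * (c * δ - w * u) - d) +
          w * (θ * (u + (c * δ - w * u)) - d) ^ 2) := by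
      rw [hA, hE1, e2, e1]
      ring
    linarith only [a1, a2, sq_nonneg (θ * (c * δ - w * u) - d),
      mul_nonneg (sub_nonneg.2 t1) (sq_nonneg d), hd2]
  have h3 : 3 / 4 * δ' ^ 2 ≤ A := hA ▸ B4a_psd w0 w1 δ' u'
  have h4 : (w' - w) * (u' ^ 2 - u' * δ') ≤ θ ^ 3 * (3 / 2 * u' ^ 2 + δ' ^ 2 / 2) := by
    refine (le_abs_self _).trans ?_
    rw [abs_mul]
    refine mul_le_mul hw ?_ (abs_nonneg _) (by positivity)
    rw [abs_le]
    constructor <;> linarith only [sq_nonneg (u' + δ'), sq_nonneg (u' - δ'), sq_nonneg u']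
  have h5 : θ * u' ^ 2 ≤ θ * (1 + θ) * u ^ 2 + 2 * δ' ^ 2 := by
    rw [e2]
    linarith only [sq_nonneg (θ * u - δ'), mul_nonneg (sub_nonneg.2 t1) (sq_nonneg δ')]
  obtain ⟨U, hU⟩ : ∃ U, U = θ ^ 2 * u ^ 2 := ⟨_, rfl⟩
  obtain ⟨U', hU'⟩ : ∃ U, U = θ ^ 2 * u' ^ 2 := ⟨_, rfl⟩
  obtain ⟨Z, hZ⟩ : ∃ U, U = δ' ^ 2 := ⟨_, rfl⟩
  have U0 : 0 ≤ U := by rw [hU]; positivity
  have Z0 : 0 ≤ Z := by rw [hZ]; positivity
  have b5 : U' ≤ (1 + θ) * U + 2 * θ * Z := by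
    have := mul_le_mul_of_nonneg_left h5 t0.le
    rw [hU, hU', hZ]
    linarith only [this]
  have b4 : δ' ^ 2 - w' * u' * δ' + w' * u' ^ 2 + θ ^ 2 * u' ^ 2 ≤
      A + θ * Z / 2 + (1 + 3 / 2 * θ) * U' := by
    have : θ ^ 3 * δ' ^ 2 ≤ θ * δ' ^ 2 :=
      mul_le_mul_of_nonneg_right (pow_le_of_le_one t0.le t1 three_ne_zero) (sq_nonneg _)
    rw [hA, hU', hZ]
    linarith only [h4, this]
  have b6 : (1 + 3 / 2 * θ) * U' ≤ (1 + 4 * θ) * U + 5 * θ * Z := by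
    have a1 := mul_le_mul_of_nonneg_left b5 (show 0 ≤ 1 + 3 / 2 * θ by positivity)
    have a2 := mul_nonneg (mul_nonneg t0.le (sub_nonneg.2 t1)) U0
    have a3 := mul_nonneg (mul_nonneg t0.le (sub_nonneg.2 t1)) Z0
    linarith only [a1, a2, a3]
  have A0 : 0 ≤ A := by rw [← hZ] at h3; linarith only [h3, Z0]
  have b7 : δ' ^ 2 - w' * u' * δ' + w' * u' ^ 2 + θ ^ 2 * u' ^ 2 ≤
      (1 + 8 * θ) * A + (1 + 4 * θ) * U := by
    rw [← hZ] at h3
    have a1 := mul_le_mul_of_nonneg_left h3 t0.le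
    have a2 := mul_nonneg t0.le A0
    linarith only [a1, a2, b4, b6]
  have b1 : E1 ≤ E + θ * U / 4 := by
    rw [hU]
    linarith only [h1]
  have b2 : θ * A ≤ θ * (1 + θ) * (E + θ * U / 4) + 2 * D ^ 2 := by
    have := mul_le_mul_of_nonneg_left b1 (show 0 ≤ θ * (1 + θ) by positivity)
    linarith only [this, h2]
  have b3 := mul_le_mul_of_nonneg_left b2 (show 0 ≤ 1 + 8 * θ by positivity)
  have b8 := mul_le_mul_of_nonneg_left b7 t0.le
  have b9 : (1 + 8 * θ) * (1 + θ) ≤ 1 + 17 * θ := by linarith only [mul_nonneg t0.le (sub_nonneg.2 t1)]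
  have b10 := mul_le_mul_of_nonneg_right b9 (mul_nonneg t0.le E0)
  have b11 : (1 + 8 * θ) * (1 + θ) ≤ 18 := by linarith only [b9, t1]
  have b12 := mul_le_mul_of_nonneg_right b11 (mul_nonneg (sq_nonneg θ) U0)
  have b13 := mul_nonneg (sub_nonneg.2 t1) (sq_nonneg D)
  have b14 := mul_nonneg (sq_nonneg θ) U0
  rw [← hE, ← hU]
  linarith only [b3, b8, b10, b12, b13, b14]

theorem energy {η : ℝ} (hη : 0 < η) : ∃ τ > 0, ∃ C > 0, ∀ (n : ℕ) (y c w d : ℕ → ℝ) (D : ℝ),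
    (∀ i < n, y (i + 2) = y (i + 1) + c i * (y (i + 1) - y i) - w i * y (i + 1) + d i) →
    (∀ i < n, 0 ≤ c i ∧ c i ≤ 1 ∧ 0 ≤ w i ∧ w i ≤ 1 ∧ (1 - c i) * w i ≤ τ ∧ |d i| ≤ D) →
    (∀ i, i + 1 < n → |w (i + 1) - w i| ≤ τ) →
    ∀ i ≤ n + 1, |y i| ≤ C * (|y 0| + |y 1| + n * D) * Real.exp (η * n) := by
  obtain ⟨θ, t0, t1, t2⟩ : ∃ θ : ℝ, 0 < θ ∧ θ ≤ 1 ∧ 17 * θ ≤ 2 * η :=
    ⟨min 1 (η / 17), by positivity, min_le_left _ _, by linarith only [hη, min_le_right 1 (η / 17)]⟩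
  refine ⟨θ ^ 3, by positivity, 5 / θ ^ 2, by positivity, fun n y c w d D hy hc hw i hi => ?_⟩
  have hD : 0 ≤ (n : ℝ) * D := by
    rcases Nat.eq_zero_or_pos n with rfl | h
    · simp
    · exact mul_nonneg (Nat.cast_nonneg _) ((abs_nonneg _).trans (hc 0 h).2.2.2.2.2)
  have hx : 1 ≤ Real.exp (η * n) := Real.one_le_exp (by positivity)
  have hC : 1 ≤ 5 / θ ^ 2 := by
    rw [le_div_iff₀ (by positivity)]
    linarith only [pow_le_one₀ (n := 2) t0.le t1]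
  obtain ⟨s, hs⟩ : ∃ s, s = |y 0| + |y 1| := ⟨_, rfl⟩
  have s0 : |y 0| ≤ s := by rw [hs]; linarith only [abs_nonneg (y 1)]
  have s1 : |y 1| ≤ s := by rw [hs]; linarith only [abs_nonneg (y 0)]
  have s2 : 0 ≤ s := (abs_nonneg _).trans s0
  rw [← hs]
  have triv : ∀ z : ℝ, z ≤ s → z ≤ 5 / θ ^ 2 * (s + n * D) * Real.exp (η * n) := fun z hz =>
    hz.trans (by
      have a1 : s + n * D ≤ 5 / θ ^ 2 * (s + n * D) := le_mul_of_one_le_left (by linarith only [hD, hs, s0, s1]) hC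
      have a2 : 5 / θ ^ 2 * (s + n * D) ≤ 5 / θ ^ 2 * (s + n * D) * Real.exp (η * n) :=
        le_mul_of_one_le_right (by linarith only [hD, hs, s0, s1, a1]) hx
      linarith only [hD, a1, a2])
  rcases Nat.eq_zero_or_pos n with rfl | hn
  · rcases (show i = 0 ∨ i = 1 by omega) with rfl | rfl
    exacts [triv _ s0, triv _ s1]
  rcases i with _ | i
  · exact triv _ s0
  let v : ℕ → ℝ := fun j => w (min j (n - 1))
  have v0 : ∀ j, 0 ≤ v j ∧ v j ≤ 1 := fun j =>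
    ⟨(hc _ (by omega)).2.2.1, (hc _ (by omega)).2.2.2.1⟩
  let N : ℕ → ℝ := fun j => θ * ((y (j + 1) - y j) ^ 2 - v j * y (j + 1) * (y (j + 1) - y j) +
    v j * y (j + 1) ^ 2 + θ ^ 2 * y (j + 1) ^ 2)
  have step : ∀ j < n, N (j + 1) ≤ (1 + 17 * θ) * N j + 18 * D ^ 2 := by
    intro j hj
    obtain ⟨c0, c1, w0, w1, h1, h2⟩ := hc j hj
    have e : v j = w j := congrArg w (by omega)
    have e' : |v (j + 1) - w j| ≤ θ ^ 3 := by
      by_cases h : j + 1 < n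
      · rw [show v (j + 1) = w (j + 1) from congrArg w (by omega)]
        exact hw j h
      · rw [show v (j + 1) = w j from congrArg w (by omega), sub_self, abs_zero]
        positivity
    simp only [N, e]
    exact B4a_step t0 t1 c0 c1 w0 w1 h1 e' h2 (by rw [hy j hj]; ring) (by ring)
  have n0 : N 0 ≤ 4 * s ^ 2 := by
    have a1 : y 1 ^ 2 ≤ s ^ 2 := by
      rw [← sq_abs (y 1)]
      exact pow_le_pow_left₀ (abs_nonneg _) s1 2
    have a2 : (y 1 - y 0) ^ 2 ≤ s ^ 2 := by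
      rw [← sq_abs (y 1 - y 0)]
      exact pow_le_pow_left₀ (abs_nonneg _) ((abs_sub _ _).trans (by rw [hs, add_comm])) 2
    obtain ⟨a3, a4⟩ := v0 0
    have a5 : v 0 * (y 1 ^ 2 - y 1 * (y 1 - y 0)) ≤ 2 * s ^ 2 := by
      have a6 : y 1 ^ 2 - y 1 * (y 1 - y 0) ≤ 2 * s ^ 2 := by
        linarith only [sq_nonneg (y 1 + (y 1 - y 0)), a1, a2]
      have a7 := mul_le_mul_of_nonneg_left a6 a3
      linarith only [a7, mul_nonneg (sub_nonneg.2 a4) (sq_nonneg s)]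
    have a6 : θ ^ 2 * y 1 ^ 2 ≤ s ^ 2 :=
      (mul_le_of_le_one_left (sq_nonneg _) (pow_le_one₀ t0.le t1)).trans a1
    have a7 : (y 1 - y 0) ^ 2 - v 0 * y 1 * (y 1 - y 0) + v 0 * y 1 ^ 2 + θ ^ 2 * y 1 ^ 2 ≤
        4 * s ^ 2 := by linarith only [a2, a5, a6]
    have a8 := mul_le_mul_of_nonneg_left a7 t0.le
    have a9 := mul_nonneg (sub_nonneg.2 t1) (sq_nonneg s)
    change θ * ((y 1 - y 0) ^ 2 - v 0 * y 1 * (y 1 - y 0) + v 0 * y 1 ^ 2 + θ ^ 2 * y 1 ^ 2) ≤ _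
    linarith only [a8, a9]
  have it : ∀ j ≤ n, N j ≤ (1 + 17 * θ) ^ j * (4 * s ^ 2 + 18 * j * D ^ 2) := by
    intro j
    induction j with
    | zero => intro _; simpa using n0
    | succ j ih =>
      intro hj
      have a1 := mul_le_mul_of_nonneg_left (ih (by omega)) (show 0 ≤ 1 + 17 * θ by positivity)
      have a2 : 1 ≤ (1 + 17 * θ) ^ (j + 1) := one_le_pow₀ (by linarith only [t0])
      have a3 := mul_le_mul_of_nonneg_right a2 (sq_nonneg D)
      have a4 := step j (by omega)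
      push_cast
      rw [pow_succ (1 + 17 * θ) j] at a3 ⊢
      linarith only [a1, a3, a4]
  have hi' : i ≤ n := by omega
  have a1 : (1 + 17 * θ) ^ i ≤ Real.exp (η * n) ^ 2 := by
    rw [← Real.exp_nat_mul]
    refine (pow_le_pow_left₀ (by positivity) (by linarith only [Real.add_one_le_exp (17 * θ)] :
      1 + 17 * θ ≤ Real.exp (17 * θ)) i).trans ?_
    rw [← Real.exp_nat_mul, Real.exp_le_exp]
    have : (i : ℝ) ≤ n := by exact_mod_cast hi'
    push_cast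
    linarith only [mul_le_mul_of_nonneg_right this t0.le,
      mul_le_mul_of_nonneg_left t2 (Nat.cast_nonneg (α := ℝ) n)]
  have a2 : 4 * s ^ 2 + 18 * i * D ^ 2 ≤ 18 * (s + n * D) ^ 2 := by
    have b1 : (i : ℝ) ≤ n := by exact_mod_cast hi'
    have b2 : (1 : ℝ) ≤ n := by exact_mod_cast hn
    have b3 : (i : ℝ) ≤ n ^ 2 := by linarith only [b1, mul_le_mul_of_nonneg_left b2 (Nat.cast_nonneg (α := ℝ) n)]
    have b4 := mul_le_mul_of_nonneg_right b3 (sq_nonneg D)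
    linarith only [b4, mul_nonneg s2 hD, sq_nonneg s]
  have a3 : θ ^ 3 * y (i + 1) ^ 2 ≤ N i := by
    have b1 := B4a_psd (v0 i).1 (v0 i).2 (y (i + 1) - y i) (y (i + 1))
    have b2 : θ ^ 2 * y (i + 1) ^ 2 ≤ (y (i + 1) - y i) ^ 2 - v i * y (i + 1) * (y (i + 1) - y i) +
        v i * y (i + 1) ^ 2 + θ ^ 2 * y (i + 1) ^ 2 := by
      linarith only [b1, sq_nonneg (y (i + 1) - y i)]
    have b3 := mul_le_mul_of_nonneg_left b2 t0.le
    calc θ ^ 3 * y (i + 1) ^ 2 = θ * (θ ^ 2 * y (i + 1) ^ 2) := by ring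
      _ ≤ _ := b3
  have a4 : θ ^ 3 * y (i + 1) ^ 2 ≤ Real.exp (η * n) ^ 2 * (18 * (s + n * D) ^ 2) :=
    a3.trans ((it i hi').trans (mul_le_mul a1 a2 (by positivity) (by positivity)))
  refine abs_le_of_sq_le_sq' ?_ (by positivity) |> abs_le.2
  rw [mul_pow, mul_pow, div_pow, div_mul_eq_mul_div, div_mul_eq_mul_div,
    le_div_iff₀ (by positivity)]
  have a5 := mul_le_mul_of_nonneg_left a4 t0.le
  have a6 : 0 ≤ Real.exp (η * n) ^ 2 * (s + n * D) ^ 2 := by positivity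
  have a7 := mul_le_mul_of_nonneg_right t1 a6
  linarith only [a5, a6, a7]

end Pool.Agent.Work.MP_c404d3_gt
end

-- merged part: Pool.Agent.Work.MP_c404d3_gt.B8
section
-- merged part: Pool.Agent.Work.MP_c404d3_gt.B4
section
/-!
B4: Y is exponentially smaller near R/4. Plan. s m = sin (2π m/R), c0 = 2 cos (2π/R),
x n = 2 cos (4π n/R). Dividing Y_rec by br (2n-1):
Y(n+1) = Y n + c (Y n - Y(n-1)) - w Y n + d, c = s(2n+1)/s(2n-1), w = (c0 + x)(c0 - x + 1) s(2n)/s(2n-1),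
d = (ζ^n + ζ^-n) br(2n+1), |d| ≤ 4 (use s(2n-1) + s(2n+1) = c0 s(2n)). Apply energy to the real and
to the imaginary part, forwards from n0 = ⌈0.22 R⌉ for all n with 2n+1 ≤ R/2 (reaching n + 1), and
backwards (roles of n+1 and n-1 exchanged) from n1 = ⌊0.28 R⌋ for all n with 2n-1 ≥ R/2 + 1
(reaching n - 1); together they cover the window. There 0 ≤ c ≤ 1, 0 ≤ c0 + x ≤ 0.15, so
0 ≤ w ≤ 1; with B = |π - 4π n/R| ≤ 0.12 π: c0 + x ≤ B^2, the denominator sine is ≥ (2/π) B, so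
(1-c) w ≤ C/R and w = v ρ with v = (c0+x)(c0-x+1) Lipschitz (C/R per step) and v (1-ρ) ≤ C/R.
The initial values are bounded by R * exp((gam-δ0) R) via P_gap with η = 1/50; choose the η of
energy below δ0/2.
-/

namespace Pool.Agent.Work.MP_c404d3_gt

open scoped BigOperators Real Topology
open Finset Filter Complex

/-- the damping coefficient -/
noncomputable def B4_c (Δ B : ℝ) : ℝ := Real.sin (B - Δ) / Real.sin (B + Δ)

/-- the main part of the restoring coefficient -/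
noncomputable def B4_v (Δ B : ℝ) : ℝ :=
  (2 * Real.cos Δ - 2 * Real.cos B) * (2 * Real.cos Δ + 2 * Real.cos B + 1)

/-- the restoring coefficient -/
noncomputable def B4_w (Δ B : ℝ) : ℝ := B4_v Δ B * Real.sin B / Real.sin (B + Δ)

theorem B4_facts {Δ B : ℝ} (h0 : 0 < Δ) (h1 : Δ ≤ B) (h2 : B ≤ 2 / 5) :
    0 < Real.sin (B + Δ) ∧ 0 ≤ B4_c Δ B ∧ B4_c Δ B ≤ 1 ∧ 0 ≤ B4_w Δ B ∧ B4_w Δ B ≤ 1 ∧
      (1 - B4_c Δ B) * B4_w Δ B ≤ 8 * Δ ∧ |B4_w Δ B - B4_v Δ B| ≤ 4 * Δ := by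
  have hπ := Real.pi_gt_three
  have hπ' := Real.pi_lt_four
  have a1 : B / 2 ≤ Real.sin (B + Δ) := by
    have h := Real.mul_le_sin (x := B + Δ) (by linarith only [h0, h1]) (by linarith only [h0, h1, h2, hπ])
    have h' : 1 / 2 ≤ 2 / π := by
      rw [le_div_iff₀ (by linarith only [h0, h1, h2, hπ])]
      linarith only [hπ']
    exact le_trans (by linarith only [h0])
      ((mul_le_mul_of_nonneg_right h' (by linarith only [h0, h1])).trans h)
  have a2 : 0 < Real.sin (B + Δ) := by linarith only [a1, h0, h1]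
  have a3 : 0 ≤ Real.sin (B - Δ) := Real.sin_nonneg_of_nonneg_of_le_pi (sub_nonneg.2 h1)
    (by linarith only [h0, h2, hπ])
  have a4 : 0 ≤ Real.sin B := Real.sin_nonneg_of_nonneg_of_le_pi (h0.le.trans h1)
    (by linarith only [h2, hπ])
  have a5 : Real.sin (B - Δ) ≤ Real.sin (B + Δ) :=
    Real.sin_le_sin_of_le_of_le_pi_div_two (by linarith only [h1, hπ])
      (by linarith only [h1, h2, hπ]) (by linarith only [h0])
  have a6 : Real.sin B ≤ Real.sin (B + Δ) :=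
    Real.sin_le_sin_of_le_of_le_pi_div_two (by linarith only [h0, h1, hπ])
      (by linarith only [h1, h2, hπ]) (by linarith only [h0])
  have a7 : Real.sin (B + Δ) - Real.sin (B - Δ) ≤ 2 * Δ := by
    have h := (le_abs_self _).trans (Real.abs_sin_sub_sin_le (B + Δ) (B - Δ))
    rwa [show B + Δ - (B - Δ) = 2 * Δ by ring, abs_of_pos (by linarith only [h0])] at h
  have a8 : Real.sin (B + Δ) - Real.sin B ≤ Δ := by
    have h := (le_abs_self _).trans (Real.abs_sin_sub_sin_le (B + Δ) B)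
    rwa [add_sub_cancel_left, abs_of_pos h0] at h
  have b1 : Real.cos B ≤ Real.cos Δ :=
    Real.cos_le_cos_of_nonneg_of_le_pi h0.le (by linarith only [h2, hπ]) h1
  have b2 : 0 ≤ Real.cos B := Real.cos_nonneg_of_neg_pi_div_two_le_of_le
    (by linarith only [h0, h1, hπ]) (by linarith only [h2, hπ])
  have b3 := Real.cos_le_one Δ
  have b4 := Real.one_sub_sq_div_two_le_cos (x := B)
  have b5 := Real.cos_le_one B
  have c1 : 0 ≤ B4_v Δ B :=
    mul_nonneg (by linarith only [b1]) (by linarith only [b1, b2])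
  have c2 : B4_v Δ B ≤ 5 * B ^ 2 := by
    have h : B4_v Δ B ≤ B ^ 2 * 5 :=
      mul_le_mul (by linarith only [b3, b4]) (by linarith only [b1, b3])
        (by linarith only [b1, b2]) (sq_nonneg B)
    linarith only [h]
  have c3 : 0 ≤ B4_w Δ B := div_nonneg (mul_nonneg c1 a4) a2.le
  have c4 : B4_w Δ B ≤ B4_v Δ B := by
    rw [B4_w, div_le_iff₀ a2]
    exact mul_le_mul_of_nonneg_left a6 c1
  have c5 : B4_c Δ B ≤ 1 := (div_le_one a2).2 a5
  have hB : 0 < B := h0.trans_le h1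
  have d0 := mul_le_mul_of_nonneg_left h2 hB.le
  have d1 : B ^ 2 ≤ 4 / 5 * Real.sin (B + Δ) := by linarith only [d0, a1]
  refine ⟨a2, div_nonneg a3 a2.le, c5, c3, by linarith only [c2, c4, d0, h2], ?_, ?_⟩
  · have e : 1 - B4_c Δ B = (Real.sin (B + Δ) - Real.sin (B - Δ)) / Real.sin (B + Δ) := by
      rw [B4_c, sub_div, div_self a2.ne']
    rw [e, div_mul_eq_mul_div, div_le_iff₀ a2]
    have h : (Real.sin (B + Δ) - Real.sin (B - Δ)) * B4_w Δ B ≤
        2 * Δ * (4 * Real.sin (B + Δ)) :=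
      mul_le_mul a7 (by linarith only [c2, c4, d1]) c3 (by linarith only [h0])
    linarith only [h]
  · have e : B4_v Δ B - B4_w Δ B =
        (Real.sin (B + Δ) - Real.sin B) * B4_v Δ B / Real.sin (B + Δ) := by
      rw [B4_w]
      field_simp
    rw [abs_sub_comm, abs_of_nonneg (sub_nonneg.2 c4), e, div_le_iff₀ a2]
    have h : (Real.sin (B + Δ) - Real.sin B) * B4_v Δ B ≤ Δ * (4 * Real.sin (B + Δ)) :=
      mul_le_mul a8 (by linarith only [c2, d1]) c1 h0.le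
    linarith only [h]

theorem B4_lip (Δ B B' : ℝ) : |B4_v Δ B - B4_v Δ B'| ≤ 10 * |B - B'| := by
  have e : B4_v Δ B - B4_v Δ B' =
      (Real.cos B - Real.cos B') * (-(4 * Real.cos B + 4 * Real.cos B' + 2)) := by
    simp only [B4_v]
    ring
  have h1 : |-(4 * Real.cos B + 4 * Real.cos B' + 2)| ≤ 10 := by
    have := Real.cos_le_one B
    have := Real.cos_le_one B'
    have := Real.neg_one_le_cos B
    have := Real.neg_one_le_cos B'
    rw [abs_le]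
    constructor <;> linarith
  rw [e, abs_mul, mul_comm 10]
  exact mul_le_mul (Real.abs_cos_sub_cos_le B B') h1 (abs_nonneg _) (abs_nonneg _)

theorem B4_run {η : ℝ} (hη : 0 < η) : ∃ τ > 0, ∃ C > 0, ∀ (Δ B : ℝ) (n : ℕ) (y d : ℕ → ℂ),
    0 < Δ → 28 * Δ ≤ τ → B ≤ 2 / 5 → (∀ i < n, Δ ≤ B - 2 * Δ * i) →
    (∀ i < n, y (i + 2) = y (i + 1) + B4_c Δ (B - 2 * Δ * i) * (y (i + 1) - y i) -
      B4_w Δ (B - 2 * Δ * i) * y (i + 1) + d i) → (∀ i < n, ‖d i‖ ≤ 4) →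
    ‖y (n + 1)‖ ≤ 2 * (C * (‖y 0‖ + ‖y 1‖ + n * 4) * Real.exp (η * n)) := by
  obtain ⟨τ, hτ, C, hC, h⟩ := energy hη
  refine ⟨τ, hτ, C, hC, fun Δ B n y d h0 h1 h2 h3 h4 h5 => ?_⟩
  have hf : ∀ i < n, _ := fun i hi => B4_facts h0 (h3 i hi)
    (le_trans (sub_le_self _ (by positivity)) h2)
  have hw : ∀ i, i + 1 < n →
      |B4_w Δ (B - 2 * Δ * (i + 1 : ℕ)) - B4_w Δ (B - 2 * Δ * i)| ≤ τ := fun i hi => by
    have a1 := abs_le.1 (hf (i + 1) hi).2.2.2.2.2.2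
    have a2 := abs_le.1 (hf i (by omega)).2.2.2.2.2.2
    have a3 := B4_lip Δ (B - 2 * Δ * (i + 1 : ℕ)) (B - 2 * Δ * i)
    have e : B - 2 * Δ * (i + 1 : ℕ) - (B - 2 * Δ * i) = -(2 * Δ) := by
      push_cast
      ring
    rw [e, abs_neg, abs_of_pos (show 0 < 2 * Δ by linarith only [h0]), abs_le] at a3
    rw [abs_le]
    constructor <;> linarith only [h1, a1, a2, a3, a1.1, a1.2, a2.1, a2.2, a3.1, a3.2]
  have key : ∀ L : ℂ →L[ℝ] ℝ, (∀ z, |L z| ≤ ‖z‖) →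
      |L (y (n + 1))| ≤ C * (‖y 0‖ + ‖y 1‖ + n * 4) * Real.exp (η * n) := fun L hL => by
    refine (h n (fun i => L (y i)) (fun i => B4_c Δ (B - 2 * Δ * i))
      (fun i => B4_w Δ (B - 2 * Δ * i)) (fun i => L (d i)) 4 (fun i hi => ?_) (fun i hi => ?_) hw
      (n + 1) le_rfl).trans ?_
    · rw [h4 i hi, ← Complex.real_smul, ← Complex.real_smul]
      simp only [map_add, map_sub, map_smul, smul_eq_mul]
    · obtain ⟨-, b1, b2, b3, b4, b5, -⟩ := hf i hi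
      exact ⟨b1, b2, b3, b4, by linarith only [h0, h1, b5], (hL _).trans (h5 i hi)⟩
    · have := hL (y 0)
      have := hL (y 1)
      gcongr
  have k1 := key Complex.reCLM Complex.abs_re_le_norm
  have k2 := key Complex.imCLM Complex.abs_im_le_norm
  have k3 := Complex.norm_le_abs_re_add_abs_im (y (n + 1))
  simp only [Complex.reCLM_apply, Complex.imCLM_apply] at k1 k2
  linarith only [k1, k2, k3]

theorem B4_two_cos (R : ℕ) (m : ℤ) :
    zeta R ^ m + zeta R ^ (-m) = ((2 * Real.cos (2 * π * m / R) : ℝ) : ℂ) := by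
  rw [zeta_zpow, zeta_zpow]
  push_cast
  rw [Complex.two_cos]
  congr 2 <;> ring

theorem B4_step {R : ℕ} (hR : Odd R) (h3 : 3 ≤ R) (n : ℤ) {ε : ℤ} (hε : ε = 1 ∨ ε = -1) {B : ℝ}
    (hB : 2 * π * (2 * n : ℤ) / R = π - ε * B) (ha : 0 < Real.sin (B + 2 * π / R)) :
    ∃ d : ℂ, ‖d‖ ≤ 4 ∧ Y R (n + ε) = Y R n + B4_c (2 * π / R) B * (Y R n - Y R (n - ε)) -
      B4_w (2 * π / R) B * Y R n + d := by
  have hs : ∀ t : ℝ, Real.sin (π - ε * t) = ε * Real.sin t := fun t => by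
    rw [Real.sin_pi_sub]
    rcases hε with rfl | rfl <;> simp
  have hc : Real.cos (π - ε * B) = -Real.cos B := by
    rw [Real.cos_pi_sub]
    rcases hε with rfl | rfl <;> simp
  have e1 : br R (2 * n - ε) = 2 * I * ε * (Real.sin (B + 2 * π / R) : ℝ) := by
    have e : 2 * π * (2 * n - ε : ℤ) / R = π - ε * (B + 2 * π / R) := by
      rw [mul_add, ← sub_sub, ← hB]
      push_cast
      ring
    rw [br_eq, e, hs, Complex.ofReal_mul, Complex.ofReal_intCast, mul_assoc (2 * I)]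
  have e2 : br R (2 * n + ε) = 2 * I * ε * (Real.sin (B - 2 * π / R) : ℝ) := by
    have e : 2 * π * (2 * n + ε : ℤ) / R = π - ε * (B - 2 * π / R) := by
      rw [mul_sub, ← sub_add, ← hB]
      push_cast
      ring
    rw [br_eq, e, hs, Complex.ofReal_mul, Complex.ofReal_intCast, mul_assoc (2 * I)]
  have e3 : br R (2 * n) = 2 * I * ε * (Real.sin B : ℝ) := by
    rw [br_eq, hB, hs, Complex.ofReal_mul, Complex.ofReal_intCast, mul_assoc (2 * I)]
  have e4 : zeta R + (zeta R)⁻¹ = ((2 * Real.cos (2 * π / R) : ℝ) : ℂ) := by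
    have h := B4_two_cos R 1
    rwa [zpow_neg, zpow_one, Int.cast_one, mul_one] at h
  have e5 : zeta R ^ (2 * n) + zeta R ^ (-(2 * n)) = ((2 * -Real.cos B : ℝ) : ℂ) := by
    rw [B4_two_cos, hB, hc]
  have e6 : br R (2 * n - ε) * Y R (n + ε) +
      br R (2 * n) * ((zeta R + (zeta R)⁻¹) ^ 2 + (zeta R ^ (2 * n) + zeta R ^ (-(2 * n))) -
        (zeta R ^ (2 * n) + zeta R ^ (-(2 * n))) ^ 2) * Y R n +
      br R (2 * n + ε) * Y R (n - ε) =
      (zeta R ^ n + zeta R ^ (-n)) * br R (2 * n + ε) * br R (2 * n - ε) := by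
    have h := Y_rec hR h3 n
    rcases hε with rfl | rfl
    · exact h
    · simp only [sub_neg_eq_add, ← sub_eq_add_neg]
      linear_combination h
  refine ⟨(zeta R ^ n + zeta R ^ (-n)) * br R (2 * n + ε), ?_, ?_⟩
  · rw [norm_mul, norm_br, B4_two_cos, Complex.norm_real, Real.norm_eq_abs, abs_mul, abs_mul,
      abs_two]
    have a1 := Real.abs_cos_le_one (2 * π * n / R)
    have a2 := Real.abs_sin_le_one (2 * π * (2 * n + ε : ℤ) / R)
    linarith only [a2, a1, abs_nonneg (Real.cos (2 * π * n / R)),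
      abs_nonneg (Real.sin (2 * π * (2 * n + ε : ℤ) / R)), mul_nonneg_of_nonpos_of_nonpos (Mathlib.Tactic.Linarith.sub_nonpos_of_le a1) (Mathlib.Tactic.Linarith.sub_nonpos_of_le (abs_nonneg (Real.sin ((2 : ℝ) * π * ↑((2 : ℤ) * n + ε) / ↑R))))]
  · have e7 : ((Real.sin (B + 2 * π / R) : ℝ) : ℂ) + (Real.sin (B - 2 * π / R) : ℝ) =
        (2 * Real.cos (2 * π / R) : ℝ) * (Real.sin B : ℝ) := by
      rw [← Complex.ofReal_add, ← Complex.ofReal_mul, Real.sin_add, Real.sin_sub]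
      congr 1
      ring
    have h0 : ((Real.sin (B + 2 * π / R) : ℝ) : ℂ) ≠ 0 := Complex.ofReal_ne_zero.2 ha.ne'
    have h1 : 2 * I * (ε : ℂ) ≠ 0 := by
      rcases hε with rfl | rfl <;> simp
    rw [e1, e3, e4, e5] at e6
    nth_rewrite 1 [e2] at e6
    simp only [B4_c, B4_w, B4_v, Complex.ofReal_div, Complex.ofReal_mul, Complex.ofReal_add,
      Complex.ofReal_sub, Complex.ofReal_neg, Complex.ofReal_ofNat, Complex.ofReal_one] at e6 e7 ⊢
    generalize (zeta R ^ n + zeta R ^ (-n)) * br R (2 * n + ε) = d at e6 ⊢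
    generalize 2 * I * (ε : ℂ) = κ at e6 h1
    generalize ((Real.sin (B + 2 * π / R) : ℝ) : ℂ) = a at e6 e7 h0 ⊢
    generalize ((Real.sin (B - 2 * π / R) : ℝ) : ℂ) = b at e6 e7 ⊢
    generalize ((Real.cos (2 * π / R) : ℝ) : ℂ) = c at e6 e7 ⊢
    refine mul_left_cancel₀ h1 ?_
    field_simp
    linear_combination κ⁻¹ * e6 - Y R n * e7 + (d * a - a * Y R (n + ε) - b * Y R (n - ε) -
      (Real.sin B : ℝ) * ((2 * c) ^ 2 + 2 * -(Real.cos B : ℝ) - (2 * -(Real.cos B : ℝ)) ^ 2) *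
        Y R n) * mul_inv_cancel₀ h1

theorem B4_init : ∃ δ > 0, δ ≤ gam ∧ ∀ᶠ R : ℕ in atTop, Odd R → ∀ m : ℤ,
    (R : ℝ) / 50 ≤ |(m : ℝ) - R / 4| → |(m : ℝ) - R / 4| ≤ R / 10 →
    ‖Y R m‖ ≤ R * Real.exp ((gam - δ) * R) := by
  obtain ⟨δ, hδ, h⟩ := P_gap (η := 1 / 50) (by norm_num)
  refine ⟨min δ gam, lt_min hδ gam_pos, min_le_right _ _, ?_⟩
  filter_upwards [h, eventually_gt_atTop 0] with R h h0 hR m h1 h2
  have hp : (0 : ℝ) < R := by exact_mod_cast h0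
  obtain ⟨h3, h4⟩ := abs_le.1 h2
  have hk : ∀ k, ‖P R k m‖ ≤ Real.exp ((gam - min δ gam) * R) := fun k => by
    refine (h hR k m ?_ ?_ (Or.inl (by linarith only [h1])) (Or.inl ?_) (Or.inl ?_)).trans ?_
    · have : (0 : ℝ) ≤ m := by linarith only [hp, h3]
      exact_mod_cast this
    · have : (m : ℝ) < R := by linarith only [hp, h4]
      exact_mod_cast this
    · exact le_abs.2 (Or.inr (by linarith only [hp, h4]))
    · exact le_abs.2 (Or.inr (by linarith only [hp, h4]))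
    · gcongr
      exact min_le_left _ _
  refine (norm_sum_le_of_le _ fun k _ => hk k).trans ?_
  rw [sum_const, card_range, nsmul_eq_mul]
  gcongr
  exact Nat.div_le_self _ _

theorem Y_elliptic : ∃ δ > 0, ∀ᶠ R : ℕ in atTop, Odd R → ∀ m : ℤ,
    |(m : ℝ) - R / 4| ≤ R / 50 → ‖Y R m‖ ≤ Real.exp ((gam - δ) * R) := by
  obtain ⟨δ, hδ, hg, h1⟩ := B4_init
  obtain ⟨τ, hτ, C, hC, h2⟩ := B4_run (η := δ / 4) (by linarith)
  refine ⟨δ / 2, by linarith, ?_⟩
  filter_upwards [h1, eventually_ge_atTop 200,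
    tendsto_natCast_atTop_atTop.eventually_ge_atTop (224 / τ),
    tendsto_natCast_atTop_atTop.eventually_ge_atTop (384 * C / δ ^ 2)] with R h1 h3 h4 h5 hR m hm
  have hp : (200 : ℝ) ≤ R := by exact_mod_cast h3
  have hp0 : (0 : ℝ) < R := by linarith only [hp]
  have hπ := Real.pi_gt_three
  have hπ' := Real.pi_lt_d2
  obtain ⟨hm1, hm2⟩ := abs_le.1 hm
  obtain ⟨ε, n, hε, a1, a2, a3⟩ : ∃ ε n : ℤ, (ε = 1 ∨ ε = -1) ∧ 0 ≤ (ε : ℝ) * (R / 4 - m) ∧
      (R : ℝ) / 40 ≤ ε * (R / 4 - n) ∧ (ε : ℝ) * (R / 4 - n) ≤ R / 40 + 1 := by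
    rcases le_total (m : ℝ) (R / 4) with h | h
    · have b1 := Int.floor_le (9 * (R : ℝ) / 40)
      have b2 := Int.lt_floor_add_one (9 * (R : ℝ) / 40)
      refine ⟨1, ⌊9 * (R : ℝ) / 40⌋, Or.inl rfl, ?_, ?_, ?_⟩ <;> push_cast <;>
        linarith only [h, b1, b2]
    · have b1 := Int.le_ceil (11 * (R : ℝ) / 40)
      have b2 := Int.ceil_lt_add_one (11 * (R : ℝ) / 40)
      refine ⟨-1, ⌈11 * (R : ℝ) / 40⌉, Or.inr rfl, ?_, ?_, ?_⟩ <;> push_cast <;>
        linarith only [h, b1, b2]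
  have hε2 : (ε : ℝ) * ε = 1 := by rcases hε with rfl | rfl <;> simp
  obtain ⟨N, hN⟩ : ∃ N : ℕ, m = n + ε * N := by
    have b1 : (0 : ℝ) ≤ ε * (m - n) := by
      rcases hε with rfl | rfl <;> push_cast at a2 ⊢ <;> linarith only [a2, hm1, hm2, hp0]
    have b2 : 0 ≤ ε * (m - n) := by exact_mod_cast b1
    refine ⟨(ε * (m - n)).toNat, ?_⟩
    rw [Int.toNat_of_nonneg b2]
    rcases hε with rfl | rfl <;> ring
  have hN' : (N : ℝ) = ε * (R / 4 - n) - ε * (R / 4 - m) := by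
    rw [hN]
    push_cast
    linear_combination (-(N : ℝ)) * hε2
  have hNR : (N : ℝ) ≤ R := by linarith only [hN', a1, a3, hp]
  have hΔ : 0 < 2 * π / R := by positivity
  have hB : ∀ i < N, 2 * π / R ≤ 2 * (2 * π / R) * (ε * (R / 4 - n)) - 2 * (2 * π / R) * i :=
    fun i hi => by
      have b1 : (i : ℝ) + 1 ≤ N := by exact_mod_cast hi
      have b2 : (i : ℝ) + 1 ≤ ε * (R / 4 - n) := by linarith only [b1, hN', a1]
      have b3 := mul_le_mul_of_nonneg_left b2 hΔ.le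
      generalize 2 * π / R = Δ at b3 hΔ
      linarith only [b3, hΔ]
  have hB0 : 2 * (2 * π / R) * (ε * (R / 4 - n)) ≤ 2 / 5 := by
    rw [show 2 * (2 * π / R) * (ε * (R / 4 - n)) = 4 * π * (ε * (R / 4 - n)) / R by ring,
      div_le_iff₀ hp0]
    have b1 := mul_le_mul hπ'.le a3 (le_trans (by linarith only [hp0]) a2) (by norm_num)
    linarith only [b1, hp]
  have hstep : ∀ i < N, ∃ d : ℂ, ‖d‖ ≤ 4 ∧ Y R (n + ε * i + ε) = Y R (n + ε * i) +
      B4_c (2 * π / R) (2 * (2 * π / R) * (ε * (R / 4 - n)) - 2 * (2 * π / R) * i) *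
        (Y R (n + ε * i) - Y R (n + ε * i - ε)) -
      B4_w (2 * π / R) (2 * (2 * π / R) * (ε * (R / 4 - n)) - 2 * (2 * π / R) * i) *
        Y R (n + ε * i) + d := fun i hi => by
    refine B4_step hR (by omega) _ hε ?_
      (B4_facts hΔ (hB i hi) (le_trans (sub_le_self _ (by positivity)) hB0)).1
    push_cast
    field_simp
    linear_combination 4 * ((R : ℝ) - 4 * n) * hε2
  choose! d hd hd' using hstep
  have key := h2 (2 * π / R) _ N (fun i => Y R (n + ε * (i - 1))) d hΔ (by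
      rw [div_le_iff₀ hτ] at h4
      rw [← mul_div_assoc, div_le_iff₀ hp0]
      linarith only [h4, hπ']) hB0 hB (fun i hi => by
      have e1 : n + ε * (((i + 2 : ℕ) : ℤ) - 1) = n + ε * i + ε := by
        push_cast
        ring
      have e2 : n + ε * (((i + 1 : ℕ) : ℤ) - 1) = n + ε * i := by
        push_cast
        ring
      have e3 : n + ε * ((i : ℤ) - 1) = n + ε * i - ε := by ring
      simp only [e1, e2, e3]
      exact hd' i hi) hd
  have e1 : n + ε * (((N + 1 : ℕ) : ℤ) - 1) = m := by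
    rw [hN]
    push_cast
    ring
  have i0 : ‖Y R (n + ε * (((0 : ℕ) : ℤ) - 1))‖ ≤ R * Real.exp ((gam - δ) * R) := by
    refine h1 hR _ ?_ ?_
    · rcases hε with rfl | rfl <;> push_cast at a2 ⊢ <;> rw [le_abs]
      · exact Or.inr (by linarith only [a2, hp])
      · exact Or.inl (by linarith only [a2, hp])
    · rcases hε with rfl | rfl <;> push_cast at a2 a3 ⊢ <;> rw [abs_le] <;> constructor <;>
        linarith only [a2, a3, hp]
  have i1 : ‖Y R (n + ε * (((1 : ℕ) : ℤ) - 1))‖ ≤ R * Real.exp ((gam - δ) * R) := by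
    refine h1 hR _ ?_ ?_
    · rcases hε with rfl | rfl <;> push_cast at a2 ⊢ <;> rw [le_abs]
      · exact Or.inr (by linarith only [a2, hp])
      · exact Or.inl (by linarith only [a2, hp])
    · rcases hε with rfl | rfl <;> push_cast at a2 a3 ⊢ <;> rw [abs_le] <;> constructor <;>
        linarith only [a2, a3, hp]
  simp only [e1] at key
  have f1 : 1 ≤ Real.exp ((gam - δ) * R) := 
    Real.one_le_exp (mul_nonneg (by linarith only [hg]) hp0.le)
  have f2 : Real.exp (δ / 4 * N) ≤ Real.exp (δ / 4 * R) :=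
    Real.exp_le_exp.2 (mul_le_mul_of_nonneg_left hNR (by linarith only [hδ]))
  have f3 : 12 * C * R ≤ Real.exp (δ / 4 * R) := by
    have b1 := Real.quadratic_le_exp_of_nonneg (x := δ / 4 * R) (by positivity)
    rw [div_le_iff₀ (by positivity)] at h5
    have b2 : 0 ≤ δ / 4 * R := by positivity
    linarith only [b1, b2, mul_le_mul_of_nonneg_right h5 hp0.le]
  have f4 : ‖Y R (n + ε * (((0 : ℕ) : ℤ) - 1))‖ + ‖Y R (n + ε * (((1 : ℕ) : ℤ) - 1))‖ + N * 4 ≤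
      6 * R * Real.exp ((gam - δ) * R) := by
    linarith only [i0, i1, hNR, mul_le_mul_of_nonneg_left f1 hp0.le]
  calc ‖Y R m‖ ≤ 2 * (C * (6 * R * Real.exp ((gam - δ) * R)) * Real.exp (δ / 4 * R)) :=
        key.trans (by gcongr)
    _ = 12 * C * R * (Real.exp ((gam - δ) * R) * Real.exp (δ / 4 * R)) := by ring
    _ ≤ Real.exp (δ / 4 * R) * (Real.exp ((gam - δ) * R) * Real.exp (δ / 4 * R)) := by gcongr
    _ = Real.exp ((gam - δ / 2) * R) := by
      rw [← Real.exp_add, ← Real.exp_add]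
      congr 1
      ring

end Pool.Agent.Work.MP_c404d3_gt
end

-- merged part: Pool.Agent.Work.MP_c404d3_gt.B5
section
/-!
B5: position concentration. Reduce to 0 ≤ m < R by periodicity. YW_close: η = 1/100. If m is
within R/50 of R/4 (or of 3R/4: Y_neg, Y_per) then Y is small by Y_elliptic and W by P_gap
(k ∈ Kmid is far from R/6 and m is far from R/2); otherwise every term with k ∉ Kmid is small by
P_gap (|k - 5R/12| ≥ R/60). Absorb the factor R into the exponential.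
-/

namespace Pool.Agent.Work.MP_c404d3_gt

open scoped BigOperators Real Topology
open Finset Filter Complex

theorem B5_absorb {δ : ℝ} (hδ : 0 < δ) :
    ∀ᶠ R : ℕ in atTop, 2 * (R : ℝ) ≤ Real.exp (δ * R) ∧ (1 : ℝ) ≤ R := by
  have h1 : ∀ᶠ R : ℕ in atTop, 4 / δ ^ 2 ≤ (R : ℝ) :=
    tendsto_natCast_atTop_atTop.eventually_ge_atTop _
  have h2 : ∀ᶠ R : ℕ in atTop, (1 : ℝ) ≤ (R : ℝ) :=
    tendsto_natCast_atTop_atTop.eventually_ge_atTop _
  filter_upwards [h1, h2] with R hR h1R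
  refine ⟨?_, h1R⟩
  have hx : 0 ≤ δ * R := by positivity
  have hq := Real.quadratic_le_exp_of_nonneg hx
  have h4 : 4 ≤ δ ^ 2 * R := by
    rw [div_le_iff₀ (by positivity)] at hR
    linarith only [hR]
  have : 4 * (R : ℝ) ≤ δ ^ 2 * R * R := mul_le_mul_of_nonneg_right h4 (by positivity)
  linarith only [hx, hq, this]

theorem B5_sum {R : ℕ} {S : Finset ℕ} (hS : S ⊆ range (R / 2)) {f : ℕ → ℂ} {B : ℝ} (hB : 0 ≤ B)
    (h : ∀ k ∈ S, ‖f k‖ ≤ B) : ‖∑ k ∈ S, f k‖ ≤ R * B := by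
  have h1 : ‖∑ k ∈ S, f k‖ ≤ S.card * B := by
    refine (norm_sum_le _ _).trans ?_
    have := Finset.sum_le_card_nsmul S (fun k => ‖f k‖) B h
    simpa [nsmul_eq_mul] using this
  have h2 : S.card ≤ R := by
    have := Finset.card_le_card hS
    rw [Finset.card_range] at this
    omega
  have h3 : (S.card : ℝ) ≤ R := by exact_mod_cast h2
  exact h1.trans (mul_le_mul_of_nonneg_right h3 hB)

theorem B5_Kmid_sub (R : ℕ) : Kmid R ⊆ range (R / 2) := Finset.filter_subset _ _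

theorem B5_mul_exp {R : ℕ} {a δ : ℝ} (h : 2 * (R : ℝ) ≤ Real.exp (δ * R)) :
    2 * R * Real.exp (a * R) ≤ Real.exp ((a + δ) * R) := by
  rw [add_mul, Real.exp_add, mul_comm (Real.exp (a * R))]
  exact mul_le_mul_of_nonneg_right h (Real.exp_pos _).le

theorem B5_red {R : ℕ} (hR : (1 : ℝ) ≤ R) (m : ℤ) :
    ∃ m0 l : ℤ, 0 ≤ m0 ∧ m0 < R ∧ m = m0 + l * R := by
  have hR' : (0 : ℤ) < R := by
    have : (1 : ℕ) ≤ R := by exact_mod_cast hR
    omega
  refine ⟨m % R, m / R, Int.emod_nonneg _ hR'.ne', Int.emod_lt_of_pos _ hR', ?_⟩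
  have := Int.emod_add_mul_ediv m R
  linarith only [this]

theorem B5_Kmid_far {R k : ℕ} (hk : k ∈ Kmid R) {η : ℝ} (hη : η ≤ 1 / 100) :
    η * R ≤ |(k : ℝ) - R / 6| := by
  have h := (Finset.mem_filter.1 hk).2.1
  have h' : 2 * (R : ℝ) ≤ 5 * k := by exact_mod_cast h
  have hR : (0 : ℝ) ≤ R := Nat.cast_nonneg R
  have : η * R ≤ 1 / 100 * R := mul_le_mul_of_nonneg_right hη hR
  exact le_trans (by linarith only [h', this]) (le_abs_self _)

theorem Y_upper {ε : ℝ} (hε : 0 < ε) : ∀ᶠ R : ℕ in atTop, Odd R → ∀ m : ℤ,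
    ‖Y R m‖ ≤ Real.exp ((gam + ε) * R) := by
  filter_upwards [P_upper (half_pos hε), B5_absorb (half_pos hε)] with R hP hA hR m
  have h1 := B5_sum (Finset.Subset.refl (range (R / 2))) (f := fun k => P R k m)
    (Real.exp_pos ((gam + ε / 2) * R)).le (fun k _ => hP hR k m)
  have h2 := B5_mul_exp (a := gam + ε / 2) hA.1
  have h3 : gam + ε / 2 + ε / 2 = gam + ε := by ring
  rw [h3] at h2
  have h4 : 0 ≤ (R : ℝ) * Real.exp ((gam + ε / 2) * R) := by positivity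
  unfold Y
  linarith only [h1, h2, h4]

theorem W_upper {ε : ℝ} (hε : 0 < ε) : ∀ᶠ R : ℕ in atTop, Odd R → ∀ m : ℤ,
    ‖W R m‖ ≤ Real.exp ((gam + ε) * R) := by
  filter_upwards [P_upper (half_pos hε), B5_absorb (half_pos hε)] with R hP hA hR m
  have h1 := B5_sum (B5_Kmid_sub R) (f := fun k => P R k m)
    (Real.exp_pos ((gam + ε / 2) * R)).le (fun k _ => hP hR k m)
  have h2 := B5_mul_exp (a := gam + ε / 2) hA.1
  have h3 : gam + ε / 2 + ε / 2 = gam + ε := by ring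
  rw [h3] at h2
  have h4 : 0 ≤ (R : ℝ) * Real.exp ((gam + ε / 2) * R) := by positivity
  unfold W
  linarith only [h1, h2, h4]

theorem YW_close : ∃ δ > 0, ∀ᶠ R : ℕ in atTop, Odd R → ∀ m : ℤ,
    ‖Y R m - W R m‖ ≤ Real.exp ((gam - δ) * R) := by
  obtain ⟨δ1, hδ1, h1⟩ := P_gap (η := 1 / 100) (by norm_num)
  obtain ⟨δ2, hδ2, h2⟩ := Y_elliptic
  obtain ⟨δ, hδ, hd1, hd2⟩ : ∃ δ : ℝ, 0 < δ ∧ δ ≤ δ1 ∧ δ ≤ δ2 :=
    ⟨min δ1 δ2, lt_min hδ1 hδ2, min_le_left _ _, min_le_right _ _⟩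
  refine ⟨δ / 2, half_pos hδ, ?_⟩
  filter_upwards [h1, h2, B5_absorb (half_pos hδ)] with R hP hY hA hR m
  obtain ⟨hA, h1R⟩ := hA
  have hR0 : 0 < R := by
    have : (1 : ℕ) ≤ R := by exact_mod_cast h1R
    omega
  have hRr : (0 : ℝ) ≤ R := Nat.cast_nonneg R
  obtain ⟨m0, l, hm0, hm1, rfl⟩ := B5_red h1R m
  rw [Y_per hR0, W_per hR0]
  have hE := B5_mul_exp (a := gam - δ) hA
  have h3 : gam - δ + δ / 2 = gam - δ / 2 := by ring
  rw [h3] at hE
  have e1 : Real.exp ((gam - δ1) * R) ≤ Real.exp ((gam - δ) * R) :=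
    Real.exp_le_exp.2 (mul_le_mul_of_nonneg_right (by linarith only [hd1]) hRr)
  have e2 : Real.exp ((gam - δ2) * R) ≤ Real.exp ((gam - δ) * R) :=
    Real.exp_le_exp.2 (mul_le_mul_of_nonneg_right (by linarith only [hd2]) hRr)
  have hpos := Real.exp_pos ((gam - δ) * R)
  have hge : Real.exp ((gam - δ) * R) ≤ R * Real.exp ((gam - δ) * R) := by linarith only [h1R, hpos, mul_nonneg_of_nonpos_of_nonpos (Mathlib.Tactic.Linarith.sub_nonpos_of_le h1R) (le_of_lt (Mathlib.Tactic.Linarith.sub_neg_of_lt hpos))]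
  have hWsmall : 1 / 100 * (R : ℝ) ≤ |(m0 : ℝ) - R / 2| →
      ‖W R m0‖ ≤ R * Real.exp ((gam - δ) * R) := by
    intro hm
    refine B5_sum (B5_Kmid_sub R) (f := fun k => P R k m0) hpos.le (fun k hk => ?_)
    have hk' := B5_Kmid_far hk (le_refl (1 / 100 : ℝ))
    exact (hP hR k m0 hm0 hm1 (Or.inr hk') (Or.inr hk') (Or.inl hm)).trans e1
  by_cases ha : |(m0 : ℝ) - R / 4| ≤ R / 50
  · have hY1 := (hY hR m0 ha).trans e2
    have hW1 := hWsmall (by
      have := (abs_le.1 ha).2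
      rw [abs_sub_comm]
      exact le_trans (by linarith only [h1R, this]) (le_abs_self _))
    have := norm_sub_le (Y R m0) (W R m0)
    linarith only [hE, hge, hY1, hW1, this]
  by_cases hb : |(m0 : ℝ) - 3 * R / 4| ≤ R / 50
  · have hY0 : Y R m0 = -Y R (R - m0) := by
      rw [← Y_neg, ← Y_per hR0 (-((R : ℤ) - m0)) 1]
      congr 1
      ring
    have hY1 : ‖Y R m0‖ ≤ Real.exp ((gam - δ) * R) := by
      rw [hY0, norm_neg]
      refine (hY hR _ ?_).trans e2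
      push_cast
      have := abs_le.1 hb
      rw [abs_le]
      constructor <;> linarith only [this, this.1, this.2]
    have hW1 := hWsmall (by
      have := (abs_le.1 hb).1
      exact le_trans (by linarith only [h1R, this]) (le_abs_self _))
    have := norm_sub_le (Y R m0) (W R m0)
    linarith only [hE, hge, hY1, hW1, this]
  · push Not at ha hb
    have hsplit : Y R m0 - W R m0 =
        ∑ k ∈ (range (R / 2)).filter (fun k => ¬ (2 * R ≤ 5 * k ∧ 30 * k ≤ 13 * R)), P R k m0 := by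
      unfold Y W Kmid
      rw [← Finset.sum_filter_add_sum_filter_not (range (R / 2))
        (fun k => 2 * R ≤ 5 * k ∧ 30 * k ≤ 13 * R)]
      ring
    rw [hsplit]
    have := B5_sum (Finset.filter_subset (fun k => ¬ (2 * R ≤ 5 * k ∧ 30 * k ≤ 13 * R))
      (range (R / 2))) (f := fun k => P R k m0) hpos.le (fun k hk => by
        have hk' := (Finset.mem_filter.1 hk).2
        refine (hP hR k m0 hm0 hm1 (Or.inl (by linarith only [h1R, ha])) (Or.inl (by linarith only [h1R, hb]))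
          (Or.inr ?_)).trans e1
        by_cases h5 : 2 * R ≤ 5 * k
        · have h6 : 13 * R < 30 * k := by
            by_contra h7
            exact hk' ⟨h5, by omega⟩
          have h6' : 13 * (R : ℝ) < 30 * k := by exact_mod_cast h6
          exact le_trans (by linarith only [h1R, h6']) (le_abs_self _)
        · have h6 : 5 * k < 2 * R := by omega
          have h6' : 5 * (k : ℝ) < 2 * R := by exact_mod_cast h6
          rw [abs_sub_comm]
          exact le_trans (by linarith only [h1R, h6']) (le_abs_self _))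
    have h4 : 0 ≤ (R : ℝ) * Real.exp ((gam - δ) * R) := by positivity
    linarith only [hE, hpos, hge, this]

theorem W_far {η : ℝ} (hη : 0 < η) : ∃ δ > 0, ∀ᶠ R : ℕ in atTop, Odd R → ∀ m : ℤ,
    (∀ l : ℤ, η * R ≤ |(m : ℝ) - (l + 1 / 2) * R|) → ‖W R m‖ ≤ Real.exp ((gam - δ) * R) := by
  obtain ⟨η', hη', he1, he2⟩ : ∃ η' : ℝ, 0 < η' ∧ η' ≤ η ∧ η' ≤ 1 / 100 :=
    ⟨min η (1 / 100), lt_min hη (by norm_num), min_le_left _ _, min_le_right _ _⟩
  obtain ⟨δ, hδ, h1⟩ := P_gap hη'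
  refine ⟨δ / 2, half_pos hδ, ?_⟩
  filter_upwards [h1, B5_absorb (half_pos hδ)] with R hP hA hR m hm
  obtain ⟨hA, h1R⟩ := hA
  have hR0 : 0 < R := by
    have : (1 : ℕ) ≤ R := by exact_mod_cast h1R
    omega
  have hRr : (0 : ℝ) ≤ R := Nat.cast_nonneg R
  obtain ⟨m0, l, hm0, hm1, rfl⟩ := B5_red h1R m
  rw [W_per hR0]
  have hE := B5_mul_exp (a := gam - δ) hA
  have h3 : gam - δ + δ / 2 = gam - δ / 2 := by ring
  rw [h3] at hE
  have hpos := Real.exp_pos ((gam - δ) * R)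
  have hm' : η' * R ≤ |(m0 : ℝ) - R / 2| := by
    have h5 := hm l
    have h6 : (((m0 + l * R : ℤ) : ℝ)) - (l + 1 / 2) * R = (m0 : ℝ) - R / 2 := by
      push_cast
      ring
    rw [h6] at h5
    exact (mul_le_mul_of_nonneg_right he1 hRr).trans h5
  have hW : ‖W R m0‖ ≤ R * Real.exp ((gam - δ) * R) := by
    refine B5_sum (B5_Kmid_sub R) (f := fun k => P R k m0) hpos.le (fun k hk => ?_)
    have hk' := B5_Kmid_far hk he2
    exact hP hR k m0 hm0 hm1 (Or.inr hk') (Or.inr hk') (Or.inl hm')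
  have h4 : 0 ≤ (R : ℝ) * Real.exp ((gam - δ) * R) := by positivity
  linarith only [hE, hW, h4]

end Pool.Agent.Work.MP_c404d3_gt
end

-- merged part: Pool.Agent.Work.MP_c404d3_gt.B8
section
/-!
B8: one pass is a superposition of coherent states. Plan. m = 12k+1 - lR; k ∈ Ico (pk l) (pk (l+1))
iff 0 ≤ m < R; W (12k+1) = W m (W_per). Let χ m = (1/NR) ∑ u ∈ win, exp(-π (m-u)^2/R) ∈ [0,1] and
Wn m = ∑ v ∈ win, four v ζ^(m v). Then (1/NR) ∑ v, ∑ u, four v * el u v m = χ m * Wn m.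
For 0 ≤ m < R: ‖W m - χ m Wn m‖ ≤ (1 - χ m) ‖W m‖ + ‖W m - Wn m‖; the last term is small by
W_fourier and four_far; the first by gauss_tail (α = 1, β = 0, h = 1) and W_upper if
|m - R/2| ≤ η R/2, by W_far otherwise. For k outside the pass |m - u| ≥ (1/2 - η) R - 1, so these
terms are bounded by R * R^2 * exp((gam+ε) R) * gauss_tail (h = 12).
-/

namespace Pool.Agent.Work.MP_c404d3_gt

open scoped BigOperators Real Topology
open Finset Filter Complex

/-- the real Gaussian -/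
noncomputable def B8g (R : ℕ) (y : ℝ) : ℝ := Real.exp (-π * y ^ 2 / R)

theorem B8_norm_gauss (R : ℕ) (y : ℝ) : ‖gauss R 1 0 y‖ = B8g R y := by
  rw [norm_gauss, B8g]
  simp

theorem B8_el (R : ℕ) (u v m : ℤ) :
    el R u v m = zeta R ^ (m * v) * (B8g R ((m : ℝ) - u) : ℝ) := by
  rw [el, B8g]
  push_cast
  rfl

theorem B8_norm_el (R : ℕ) (u v m : ℤ) : ‖el R u v m‖ = B8g R ((m : ℝ) - u) := by
  rw [B8_el, norm_mul, norm_zeta_zpow, one_mul, Complex.norm_real, B8g,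
    Real.norm_of_nonneg (Real.exp_pos _).le]

theorem B8_summable {R : ℕ} (hR : 0 < R) {h : ℝ} (hh : 0 < h) (y0 : ℝ) :
    Summable fun k : ℤ => B8g R (h * k + y0) := by
  simpa only [B8_norm_gauss] using
    summable_gauss (R := R) (Nat.cast_pos.2 hR) (α := 1) (by simp) 0 hh y0

theorem B8_tail {h ρ : ℝ} (hh : 0 < h) (hρ : 0 < ρ) : ∃ δ > 0, ∀ᶠ R : ℕ in atTop, ∀ y0 : ℝ,
    ∀ s : Set ℤ, (∀ k ∈ s, ρ * R ≤ |h * k + y0|) →
      ∑' k : s, B8g R (h * (k : ℤ) + y0) ≤ Real.exp (-δ * R) := by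
  obtain ⟨η, hη, δ, hδ, H⟩ := gauss_tail (α := 1) (by simp) hh hρ
  refine ⟨δ, hδ, (tendsto_natCast_atTop_atTop.eventually H).mono fun R hR y0 s hs => ?_⟩
  have := hR 0 (by simpa using hη.le) y0 s hs
  simp only [B8_norm_gauss] at this
  rwa [tsum_subtype s fun k : ℤ => B8g R (h * k + y0)]

theorem B8_NR (R : ℕ) (m : ℤ) : NR R = ∑' u : ℤ, B8g R (1 * u + -(m : ℝ)) := by
  rw [NR, ← (Equiv.subRight m).tsum_eq]
  refine tsum_congr fun u => ?_
  simp [B8g, sub_eq_add_neg]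

theorem B8_pk {R : ℕ} (l k : ℤ) : k ∈ Ico (pk R l) (pk R (l + 1)) ↔
    0 ≤ 12 * k + 1 - l * R ∧ 12 * k + 1 - l * R < R := by
  rw [mem_Ico, pk, pk, add_mul, one_mul]
  omega

theorem B8_card_pk {R : ℕ} (hR : 0 < R) (l : ℤ) :
    (((Ico (pk R l) (pk R (l + 1))).card : ℕ) : ℝ) ≤ R := by
  rw [Nat.cast_le, Int.card_Ico, pk, pk, add_mul, one_mul]
  omega

theorem B8_card_filter (R : ℕ) (p : ℤ → Prop) [DecidablePred p] :
    ((((Ico (0 : ℤ) R).filter p).card : ℕ) : ℝ) ≤ R := by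
  rw [Nat.cast_le]
  exact (card_filter_le _ _).trans (by simp)

theorem B8_sum_le {β : Type} (s : Finset β) (f : β → ℂ) {C n : ℝ} (hC : 0 ≤ C)
    (hn : (s.card : ℝ) ≤ n) (hf : ∀ b ∈ s, ‖f b‖ ≤ C) : ‖∑ b ∈ s, f b‖ ≤ n * C := by
  refine (norm_sum_le_of_le s hf).trans ?_
  rw [sum_const, nsmul_eq_mul]
  exact mul_le_mul_of_nonneg_right hn hC

/-- the cutoff function -/
noncomputable def B8c (R : ℕ) (η : ℝ) (m : ℤ) : ℝ :=
  1 / NR R * ∑ u ∈ win R η, B8g R ((m : ℝ) - u)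

theorem B8c_eq {R : ℕ} (hR : 0 < R) (η : ℝ) (m : ℤ) : 1 - B8c R η m =
    1 / NR R * ∑' u : ((win R η : Set ℤ)ᶜ : Set ℤ), B8g R (1 * (u : ℤ) + -(m : ℝ)) := by
  have h0 : NR R ≠ 0 := (zero_lt_one.trans_le (one_le_NR hR)).ne'
  have h1 := (B8_summable hR one_pos (-(m : ℝ))).sum_add_tsum_compl (s := win R η)
  rw [← B8_NR] at h1
  have h2 : ∑ u ∈ win R η, B8g R ((m : ℝ) - u) = ∑ u ∈ win R η, B8g R (1 * u + -(m : ℝ)) :=
    sum_congr rfl fun u _ => by
      rw [B8g, B8g]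
      congr 2
      ring
  rw [B8c, h2, eq_sub_of_add_eq' h1, mul_sub, one_div_mul_cancel h0]

theorem B8_inv {R : ℕ} (hR : 0 < R) : 0 ≤ 1 / NR R ∧ 1 / NR R ≤ 1 :=
  ⟨div_nonneg zero_le_one (zero_le_one.trans (one_le_NR hR)),
    div_le_one_of_le₀ (one_le_NR hR) (zero_le_one.trans (one_le_NR hR))⟩

theorem B8c_mem {R : ℕ} (hR : 0 < R) (η : ℝ) (m : ℤ) : 0 ≤ B8c R η m ∧ B8c R η m ≤ 1 := by
  refine ⟨mul_nonneg (B8_inv hR).1 (sum_nonneg fun u _ => (Real.exp_pos _).le), ?_⟩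
  rw [← sub_nonneg, B8c_eq hR]
  exact mul_nonneg (B8_inv hR).1 (tsum_nonneg fun u => (Real.exp_pos _).le)

/-- the pointwise estimate inside the pass -/
theorem B8_point {R : ℕ} (hR : 0 < R) {η M E τ : ℝ} (hη' : η ≤ 1 / 10) (hE : 0 ≤ E)
    (hW : ∀ m, ‖W R m‖ ≤ M)
    (h1 : ∀ v : ℤ, 0 ≤ v → v < R → η * R ≤ |(v : ℝ) - R / 2| → ‖four R v‖ ≤ E)
    (h2 : ∀ m : ℤ, (∀ l : ℤ, η / 2 * R ≤ |(m : ℝ) - (l + 1 / 2) * R|) → ‖W R m‖ ≤ E)
    (h3 : ∀ y0 : ℝ, ∀ s : Set ℤ, (∀ k ∈ s, η / 2 * R ≤ |1 * (k : ℝ) + y0|) →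
      ∑' k : s, B8g R (1 * (k : ℤ) + y0) ≤ τ)
    (hτ : τ * M ≤ E) {m : ℤ} (hm0 : 0 ≤ m) (hm1 : m < R) :
    ‖W R m - (1 / NR R : ℝ) * ∑ v ∈ win R η, ∑ u ∈ win R η, four R v * el R u v m‖ ≤
      2 * R * E := by
  have hR1 : (1 : ℝ) ≤ R := Nat.one_le_cast.2 hR
  have hm0' : (0 : ℝ) ≤ m := Int.cast_nonneg hm0
  have hm1' : (m : ℝ) < R := by exact_mod_cast hm1
  obtain ⟨c0, c1⟩ := B8c_mem hR η m
  have e1 : ((1 / NR R : ℝ) : ℂ) * ∑ v ∈ win R η, ∑ u ∈ win R η, four R v * el R u v m =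
      (B8c R η m : ℝ) * ∑ v ∈ win R η, four R v * zeta R ^ (m * v) := by
    rw [B8c, Complex.ofReal_mul, Complex.ofReal_sum, mul_assoc, mul_comm (∑ u ∈ win R η, _),
      sum_mul_sum]
    simp only [B8_el, mul_assoc]
  have e2 : ‖W R m - ∑ v ∈ win R η, four R v * zeta R ^ (m * v)‖ ≤ R * E := by
    rw [W_fourier hR m, win, ← sum_filter_add_sum_filter_not (Ico (0 : ℤ) R)
      fun v : ℤ => |(v : ℝ) - R / 2| ≤ η * R, add_sub_cancel_left]
    refine B8_sum_le _ _ hE (B8_card_filter R _) fun v hv => ?_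
    rw [mem_filter, mem_Ico, not_le] at hv
    rw [norm_mul, norm_zeta_zpow, mul_one]
    exact h1 v hv.1.1 hv.1.2 hv.2.le
  have e3 : (1 - B8c R η m) * ‖W R m‖ ≤ E := by
    by_cases hm : |(m : ℝ) - R / 2| ≤ η / 2 * R
    · have h4 : 1 - B8c R η m ≤ τ := by
        rw [B8c_eq hR]
        refine (mul_le_of_le_one_left (tsum_nonneg fun u => (Real.exp_pos _).le)
          (B8_inv hR).2).trans (h3 _ _ fun u hu => ?_)
        have h5 : η * R ≤ |(u : ℝ) - R / 2| := by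
          by_contra h5
          refine hu (mem_coe.2 (mem_filter.2 ⟨mem_Ico.2 ⟨?_, ?_⟩, (not_le.1 h5).le⟩))
          · have : (0 : ℝ) ≤ u := by linarith only [hR1, h5, hη', (abs_lt.1 (not_le.1 h5)).1, mul_nonneg_of_nonpos_of_nonpos (Mathlib.Tactic.Linarith.sub_nonpos_of_le (Mathlib.Tactic.Linarith.natCast_nonneg ℝ R)) (Mathlib.Tactic.Linarith.sub_nonpos_of_le hη')]
            exact_mod_cast this
          · have : (u : ℝ) < R := by linarith only [hR1, h5, hη', (abs_lt.1 (not_le.1 h5)).2, mul_nonneg_of_nonpos_of_nonpos (Mathlib.Tactic.Linarith.sub_nonpos_of_le (Mathlib.Tactic.Linarith.natCast_nonneg ℝ R)) (Mathlib.Tactic.Linarith.sub_nonpos_of_le hη')]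
            exact_mod_cast this
        have h6 := abs_sub_le (u : ℝ) m (R / 2)
        rw [one_mul, ← sub_eq_add_neg]
        linarith only [hm, h5, h6]
      exact (mul_le_mul h4 (hW m) (norm_nonneg _) ((sub_nonneg.2 c1).trans h4)).trans hτ
    · refine (mul_le_of_le_one_left (norm_nonneg _) (by linarith only [c0])).trans (h2 m fun l => ?_)
      rcases lt_trichotomy l 0 with hl | rfl | hl
      · have : (l : ℝ) ≤ -1 := by exact_mod_cast (show l ≤ -1 by omega)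
        exact le_abs.2 (Or.inl (by linarith only [hR1, hm0', hη', this, mul_nonneg_of_nonpos_of_nonpos (Mathlib.Tactic.Linarith.sub_nonpos_of_le (Mathlib.Tactic.Linarith.natCast_nonneg ℝ R)) (Mathlib.Tactic.Linarith.sub_nonpos_of_le hη'), mul_nonneg_of_nonpos_of_nonpos (Mathlib.Tactic.Linarith.sub_nonpos_of_le (Mathlib.Tactic.Linarith.natCast_nonneg ℝ R)) (Mathlib.Tactic.Linarith.sub_nonpos_of_le this)]))
      · rw [Int.cast_zero, zero_add, one_div, inv_mul_eq_div]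
        exact (not_le.1 hm).le
      · have : (1 : ℝ) ≤ l := by exact_mod_cast (show 1 ≤ l by omega)
        exact le_abs.2 (Or.inr (by linarith only [hR1, hm1', hη', this, mul_nonneg_of_nonpos_of_nonpos (Mathlib.Tactic.Linarith.sub_nonpos_of_le (Mathlib.Tactic.Linarith.natCast_nonneg ℝ R)) (Mathlib.Tactic.Linarith.sub_nonpos_of_le hη'), mul_nonneg_of_nonpos_of_nonpos (Mathlib.Tactic.Linarith.sub_nonpos_of_le (Mathlib.Tactic.Linarith.natCast_nonneg ℝ R)) (Mathlib.Tactic.Linarith.sub_nonpos_of_le this)]))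
  rw [e1]
  have e4 : ∀ a b : ℂ, ∀ x : ℝ, a - x * b = ((1 - x : ℝ) : ℂ) * a + x * (a - b) := fun a b x => by
    push_cast
    ring
  rw [e4]
  refine (norm_add_le _ _).trans ?_
  rw [norm_mul, norm_mul, Complex.norm_real, Complex.norm_real,
    Real.norm_of_nonneg (sub_nonneg.2 c1), Real.norm_of_nonneg c0]
  have e5 := (mul_le_of_le_one_left (norm_nonneg _) c1).trans e2
  linarith only [e3, e5, hE, hR1, mul_nonneg_of_nonpos_of_nonpos (Mathlib.Tactic.Linarith.sub_nonpos_of_le hE) (Mathlib.Tactic.Linarith.sub_nonpos_of_le hR1)]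

theorem B8_split {f : ℤ → ℂ} {g : ℤ → ℝ} {C : ℝ} (hg : Summable g) (hb : ∀ k, ‖f k‖ ≤ C * g k)
    (s : Finset ℤ) :
    ‖∑' k, f k - ∑ k ∈ s, f k‖ ≤ C * ∑' k : ((s : Set ℤ)ᶜ : Set ℤ), g k := by
  rw [← (Summable.of_norm_bounded (hg.mul_left C) hb).sum_add_tsum_compl (s := s),
    add_sub_cancel_left]
  exact tsum_of_norm_bounded ((hg.subtype _).hasSum.mul_left C) fun k => hb k

/-- the terms outside the pass -/
theorem B8_out {R : ℕ} (hR : 0 < R) {η τ : ℝ} (hη' : η ≤ 1 / 10)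
    (h4 : ∀ y0 : ℝ, ∀ s : Set ℤ, (∀ k ∈ s, 2 / 5 * R ≤ |12 * (k : ℝ) + y0|) →
      ∑' k : s, B8g R (12 * (k : ℤ) + y0) ≤ τ)
    {c : ℤ → ℂ} (hc : ∀ k, ‖c k‖ ≤ R) (l : ℤ) {u : ℤ} (hu : u ∈ win R η) (v : ℤ) :
    ‖∑' k : ℤ, c k * el R u v (12 * k + 1 - l * R) -
      ∑ k ∈ Ico (pk R l) (pk R (l + 1)), c k * el R u v (12 * k + 1 - l * R)‖ ≤ R * τ := by
  have hR0 : (0 : ℝ) ≤ R := Nat.cast_nonneg R
  have hs := B8_summable hR (h := 12) (by norm_num) (1 - l * R - u)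
  have e : ∀ k : ℤ, ((12 * k + 1 - l * R : ℤ) : ℝ) - u = 12 * k + (1 - l * R - u) := fun k => by
    push_cast
    ring
  have hb : ∀ k : ℤ, ‖c k * el R u v (12 * k + 1 - l * R)‖ ≤
      R * B8g R (12 * k + (1 - l * R - u)) := fun k => by
    rw [norm_mul, B8_norm_el, e]
    exact mul_le_mul_of_nonneg_right (hc k) (Real.exp_pos _).le
  refine (B8_split hs hb (Ico (pk R l) (pk R (l + 1)))).trans
    (mul_le_mul_of_nonneg_left (h4 _ _ fun k hk => ?_) hR0)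
  have h5 := abs_le.1 (mem_filter.1 hu).2
  rw [Set.mem_compl_iff, mem_coe, B8_pk, not_and_or, not_le, not_lt] at hk
  rw [← e]
  rcases hk with hk | hk
  · have : ((12 * k + 1 - l * R : ℤ) : ℝ) < 0 := by exact_mod_cast hk
    exact le_abs.2 (Or.inr (by linarith only [h5, this, hη', h5.1, mul_nonneg_of_nonpos_of_nonpos (Mathlib.Tactic.Linarith.sub_nonpos_of_le (Mathlib.Tactic.Linarith.natCast_nonneg ℝ R)) (Mathlib.Tactic.Linarith.sub_nonpos_of_le hη')]))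
  · have : (R : ℝ) ≤ ((12 * k + 1 - l * R : ℤ) : ℝ) := by exact_mod_cast hk
    exact le_abs.2 (Or.inl (by linarith only [h5, this, hη', h5.2, mul_nonneg_of_nonpos_of_nonpos (Mathlib.Tactic.Linarith.sub_nonpos_of_le (Mathlib.Tactic.Linarith.natCast_nonneg ℝ R)) (Mathlib.Tactic.Linarith.sub_nonpos_of_le hη')]))

theorem B8_core {R : ℕ} (hR : 0 < R) {η M E τ : ℝ} (hη' : η ≤ 1 / 10) (hE : 0 ≤ E) (hτ0 : 0 ≤ τ)
    (hW : ∀ m, ‖W R m‖ ≤ M)
    (h1 : ∀ v : ℤ, 0 ≤ v → v < R → η * R ≤ |(v : ℝ) - R / 2| → ‖four R v‖ ≤ E)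
    (h2 : ∀ m : ℤ, (∀ l : ℤ, η / 2 * R ≤ |(m : ℝ) - (l + 1 / 2) * R|) → ‖W R m‖ ≤ E)
    (h3 : ∀ y0 : ℝ, ∀ s : Set ℤ, (∀ k ∈ s, η / 2 * R ≤ |1 * (k : ℝ) + y0|) →
      ∑' k : s, B8g R (1 * (k : ℤ) + y0) ≤ τ)
    (h4 : ∀ y0 : ℝ, ∀ s : Set ℤ, (∀ k ∈ s, 2 / 5 * R ≤ |12 * (k : ℝ) + y0|) →
      ∑' k : s, B8g R (12 * (k : ℤ) + y0) ≤ τ)
    (hτ : τ * M ≤ E) {c : ℤ → ℂ} (hc : ∀ k, ‖c k‖ ≤ R) (l : ℤ) :
    ‖∑ k ∈ Ico (pk R l) (pk R (l + 1)), c k * W R (12 * k + 1) -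
      (1 / NR R : ℝ) * ∑ v ∈ win R η, ∑ u ∈ win R η,
        four R v * ∑' k : ℤ, c k * el R u v (12 * k + 1 - l * R)‖ ≤ 3 * R ^ 3 * E := by
  have hR0 : (0 : ℝ) ≤ R := Nat.cast_nonneg R
  have hM : 0 ≤ M := (norm_nonneg _).trans (hW 0)
  have e1 : ∑ k ∈ Ico (pk R l) (pk R (l + 1)), c k * W R (12 * k + 1) -
      (1 / NR R : ℝ) * ∑ v ∈ win R η, ∑ u ∈ win R η,
        four R v * ∑' k : ℤ, c k * el R u v (12 * k + 1 - l * R) =
      ∑ k ∈ Ico (pk R l) (pk R (l + 1)), c k * (W R (12 * k + 1 - l * R) -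
        (1 / NR R : ℝ) * ∑ v ∈ win R η, ∑ u ∈ win R η,
          four R v * el R u v (12 * k + 1 - l * R)) -
      (1 / NR R : ℝ) * ∑ v ∈ win R η, ∑ u ∈ win R η,
        four R v * (∑' k : ℤ, c k * el R u v (12 * k + 1 - l * R) -
          ∑ k ∈ Ico (pk R l) (pk R (l + 1)), c k * el R u v (12 * k + 1 - l * R)) := by
    have e2 : ∀ k : ℤ, W R (12 * k + 1 - l * R) = W R (12 * k + 1) := fun k => by
      rw [← W_per hR _ l, sub_add_cancel]
    have e3 : ∑ k ∈ Ico (pk R l) (pk R (l + 1)), c k * ((1 / NR R : ℝ) *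
        ∑ v ∈ win R η, ∑ u ∈ win R η, four R v * el R u v (12 * k + 1 - l * R)) =
        (1 / NR R : ℝ) * ∑ v ∈ win R η, ∑ u ∈ win R η, four R v *
          ∑ k ∈ Ico (pk R l) (pk R (l + 1)), c k * el R u v (12 * k + 1 - l * R) := by
      simp only [mul_sum]
      rw [sum_comm]
      refine sum_congr rfl fun v _ => ?_
      rw [sum_comm]
      exact sum_congr rfl fun u _ => sum_congr rfl fun k _ => by ring
    simp only [e2, mul_sub, sum_sub_distrib, e3]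
    ring
  rw [e1]
  refine (norm_sub_le _ _).trans ?_
  have b1 := B8_sum_le (Ico (pk R l) (pk R (l + 1))) (fun k => c k * (W R (12 * k + 1 - l * R) -
      (1 / NR R : ℝ) * ∑ v ∈ win R η, ∑ u ∈ win R η,
        four R v * el R u v (12 * k + 1 - l * R))) (C := R * (2 * R * E)) (by positivity)
    (B8_card_pk hR l) fun k hk => by
      rw [B8_pk] at hk
      rw [norm_mul]
      exact mul_le_mul (hc k) (B8_point hR hη' hE hW h1 h2 h3 hτ hk.1 hk.2) (norm_nonneg _) hR0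
  have b2 := B8_sum_le (win R η) (fun v => ∑ u ∈ win R η,
      four R v * (∑' k : ℤ, c k * el R u v (12 * k + 1 - l * R) -
        ∑ k ∈ Ico (pk R l) (pk R (l + 1)), c k * el R u v (12 * k + 1 - l * R)))
    (C := R * (M * (R * τ))) (by positivity) (B8_card_filter R _) fun v _ =>
      B8_sum_le _ _ (by positivity) (B8_card_filter R _) fun u hu => by
        rw [norm_mul]
        exact mul_le_mul (four_le hR hW v) (B8_out hR hη' h4 hc l hu v) (norm_nonneg _) hM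
  rw [norm_mul, Complex.norm_real, Real.norm_of_nonneg (B8_inv hR).1]
  have b3 := (mul_le_of_le_one_left (norm_nonneg _) (B8_inv hR).2).trans b2
  have b4 := mul_le_mul_of_nonneg_left hτ (pow_nonneg hR0 3)
  refine (add_le_add b1 b3).trans ?_
  linarith only [b4]

theorem B8_poly {δ : ℝ} (hδ : 0 < δ) :
    ∀ᶠ R : ℕ in atTop, 3 * (R : ℝ) ^ 3 ≤ Real.exp (δ * R) := by
  have h := (isLittleO_pow_exp_pos_mul_atTop 3 hδ).bound (c := 1 / 3) (by norm_num)
  refine (tendsto_natCast_atTop_atTop.eventually h).mono fun R hR => ?_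
  rw [Real.norm_of_nonneg (by positivity), Real.norm_of_nonneg (Real.exp_pos _).le] at hR
  linarith only [hR]

theorem one_pass {η : ℝ} (hη : 0 < η) (hη' : η ≤ 1 / 10) : ∃ δ > 0, ∀ᶠ R : ℕ in atTop, Odd R →
    ∀ c : ℤ → ℂ, (∀ k, ‖c k‖ ≤ R) → ∀ l : ℤ,
    ‖∑ k ∈ Ico (pk R l) (pk R (l + 1)), c k * W R (12 * k + 1) -
      (1 / NR R : ℝ) * ∑ v ∈ win R η, ∑ u ∈ win R η,
        four R v * ∑' k : ℤ, c k * el R u v (12 * k + 1 - l * R)‖ ≤
      Real.exp ((gam - δ) * R) := by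
  obtain ⟨δ1, p1, H1⟩ := four_far hη
  obtain ⟨δ2, p2, H2⟩ := W_far (half_pos hη)
  obtain ⟨δ3, p3, H3⟩ := B8_tail one_pos (half_pos hη)
  obtain ⟨δ4, p4, H4⟩ := B8_tail (h := 12) (ρ := 2 / 5) (by norm_num) (by norm_num)
  obtain ⟨δ, p, q1, q2, q3, q4⟩ : ∃ δ > 0, δ ≤ δ1 ∧ δ ≤ δ2 ∧ 2 * δ ≤ δ3 ∧ 2 * δ ≤ δ4 := by
    refine ⟨min (min δ1 δ2) (min (δ3 / 2) (δ4 / 2)), by positivity,
      (min_le_left _ _).trans (min_le_left _ _), (min_le_left _ _).trans (min_le_right _ _),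
      ?_, ?_⟩
    · linarith only [(min_le_right (min δ1 δ2) _).trans (min_le_left (δ3 / 2) (δ4 / 2))]
    · linarith only [(min_le_right (min δ1 δ2) _).trans (min_le_right (δ3 / 2) (δ4 / 2))]
  refine ⟨δ / 2, half_pos p, ?_⟩
  filter_upwards [H1, H2, H3, H4, W_upper p, B8_poly (half_pos p)]
    with R h1 h2 h3 h4 h5 h6 hR c hc l
  have hR0 : (0 : ℝ) ≤ R := Nat.cast_nonneg R
  refine (B8_core hR.pos (M := Real.exp ((gam + δ) * R)) (E := Real.exp ((gam - δ) * R))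
    (τ := Real.exp (-(2 * δ) * R)) hη' (Real.exp_pos _).le (Real.exp_pos _).le (h5 hR)
    (fun v a b d => (h1 hR v a b d).trans (Real.exp_le_exp.2 (by linarith only [q1, mul_nonneg_of_nonpos_of_nonpos (Mathlib.Tactic.Linarith.sub_nonpos_of_le (Mathlib.Tactic.Linarith.natCast_nonneg ℝ R)) (Mathlib.Tactic.Linarith.sub_nonpos_of_le q1)])))
    (fun m a => (h2 hR m a).trans (Real.exp_le_exp.2 (by linarith only [q2, mul_nonneg_of_nonpos_of_nonpos (Mathlib.Tactic.Linarith.sub_nonpos_of_le (Mathlib.Tactic.Linarith.natCast_nonneg ℝ R)) (Mathlib.Tactic.Linarith.sub_nonpos_of_le q2)])))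
    (fun y s a => (h3 y s a).trans (Real.exp_le_exp.2 (by linarith only [q3, mul_nonneg_of_nonpos_of_nonpos (Mathlib.Tactic.Linarith.sub_nonpos_of_le (Mathlib.Tactic.Linarith.natCast_nonneg ℝ R)) (Mathlib.Tactic.Linarith.sub_nonpos_of_le q3)])))
    (fun y s a => (h4 y s a).trans (Real.exp_le_exp.2 (by linarith only [q4, mul_nonneg_of_nonpos_of_nonpos (Mathlib.Tactic.Linarith.sub_nonpos_of_le (Mathlib.Tactic.Linarith.natCast_nonneg ℝ R)) (Mathlib.Tactic.Linarith.sub_nonpos_of_le q4)])))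
    (by rw [← Real.exp_add]; exact Real.exp_le_exp.2 (le_of_eq (by ring))) hc l).trans ?_
  refine (mul_le_mul_of_nonneg_right h6 (Real.exp_pos _).le).trans ?_
  rw [← Real.exp_add]
  exact Real.exp_le_exp.2 (le_of_eq (by ring))

end Pool.Agent.Work.MP_c404d3_gt
end
end
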