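import Pool.Agent.Work.MP_c404d3_gt.B6
import Pool.Agent.Work.MP_c404d3_gt.B8

-- merged part: Pool.Agent.Work.MP_c404d3_gt.B7c
section
/-!
B7c: the pass sums with the weight Psi. Constants: α = 1 - i/6, α1 = α - 10 i/144,
α2 = 25/(36 α1) - 10 i (so α1 α2 = -10 i α, Re α2 > 0), β = bet, β2 = (5 i/6) β/α1,
aR = - cj R 1 * (R/α1)^(1/2) (R/α2)^(1/2) / (R/α)^(1/2), ‖aR‖^2 = R/10.
Fix l ∈ [-6, 6), κ = 2l+1, M = R/5, j1 the odd integer with 0 < 6 j1 - 5 κ < 12, j2 = j1 + 2;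
(cj j1 + cj j2)/2 = chi l * cj 1 (cj_add_two, 12 cases). Jsum = -(1/2) ∑ i < M, ∑' k, (normal form)
* psi (k+i). For i < M and j ∈ {j1, j2} put ρ = i + 1/2 - j R/20 + (κ R/2 - 1)/12; psi_form gives
gauss α β y * psi (k+i) = cj j * exp(10 π i ρ^2/R) * gauss α1 (β + 5 i ρ/(6R)) y, y = 12 k + y0.
Use j1 for i below the midpoint i* of the two centres and j2 above; then |ρ| ≤ 11 R/120 + 2, so
gauss_sum (h = 12, t = 1/300) applies, and exp(10 π i ρ^2/R) * gmain α1 (β + 5 i ρ/(6R)) =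
gmain α1 β * gauss α2 β2 ρ. The omitted i ∈ ℤ have |ρ| ≥ R/120 - 2 (gauss_tail, h = 1), and
gauss_sum (h = 1) evaluates the full sum as gmain α2 β2. Finally gmain α1 β * gmain α2 β2 =
(R/α1)^(1/2) (R/α2)^(1/2) exp(π R β^2/α) because 1/α1 - (25/36)/(α1^2 α2) = 1/α. Choose η so small
that norm_gmain_le for gmain α1 β does not spoil the errors.
-/

namespace Pool.Agent.Work.MP_c404d3_gt

open scoped BigOperators Real Topology
open Finset Filter Complex

noncomputable def aR (R : ℕ) : ℂ :=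
  -cj R 1 * ((R : ℂ) / (1 - I / 6 - 10 * I / 144)) ^ (1 / 2 : ℂ) *
    ((R : ℂ) / (25 / (36 * (1 - I / 6 - 10 * I / 144)) - 10 * I)) ^ (1 / 2 : ℂ) /
    ((R : ℂ) / (1 - I / 6)) ^ (1 / 2 : ℂ)

/-- the constants of the two Gaussian summations -/
noncomputable def al1 : ℂ := 1 - I / 6 - 10 * I / 144

noncomputable def al2 : ℂ := 25 / (36 * al1) - 10 * I

/-- the shift of the second summation -/
noncomputable def rr (R : ℕ) (j l : ℤ) : ℝ := 5 / 12 - (6 * j - 5 * (2 * l + 1)) * R / 120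

lemma al1_re : al1.re = 1 := by simp [al1]

lemma al1_ne : al1 ≠ 0 := fun h => by have := al1_re; rw [h] at this; simp at this

lemma one_le_norm_al1 : 1 ≤ ‖al1‖ := by
  have := Complex.re_le_norm al1
  rwa [al1_re] at this

lemma al0_ne : (1 - I / 6 : ℂ) ≠ 0 := fun h => by simpa using congrArg Complex.re h

lemma al_mul : al1 * al2 = -10 * I * (1 - I / 6) := by
  have h := al1_ne
  have e : al1 * al2 = 25 / 36 - 10 * I * al1 := by
    unfold al2
    field_simp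
  rw [e]
  unfold al1
  linear_combination (100 / 144 : ℂ) * I_mul_I

lemma al2_ne : al2 ≠ 0 := fun h => by
  have e := al_mul
  rw [h, mul_zero] at e
  exact mul_ne_zero (mul_ne_zero (by norm_num) I_ne_zero) al0_ne e.symm

lemma al2_re : 0 < al2.re := by
  have e : al2 = 25 / 36 * al1⁻¹ - 10 * I := by
    have h := al1_ne
    unfold al2
    field_simp
  have h1 : 0 < al1⁻¹.re := by
    rw [Complex.inv_re, al1_re]
    exact div_pos one_pos (Complex.normSq_pos.2 al1_ne)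
  have h2 : (25 / 36 : ℂ) = ((25 / 36 : ℝ) : ℂ) := by push_cast; rfl
  rw [e, h2, Complex.sub_re, Complex.re_ofReal_mul]
  simp only [Complex.mul_re, Complex.I_re, Complex.I_im, Complex.re_ofNat, Complex.im_ofNat]
  linarith only [h1]

lemma norm_cj (R : ℕ) (j : ℤ) : ‖cj R j‖ = 1 := by
  have e1 : -5 * π * I / (2 * R) = ((-5 * π / (2 * R) : ℝ) : ℂ) * I := by push_cast; ring
  have e2 : π * I * j / 2 = ((π * j / 2 : ℝ) : ℂ) * I := by push_cast; ring
  have e3 : -π * I * j ^ 2 * R / 40 = ((-π * j ^ 2 * R / 40 : ℝ) : ℂ) * I := by push_cast; ring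
  unfold cj
  rw [norm_mul, norm_mul, e1, e2, e3, norm_exp_ofReal_mul_I, norm_exp_ofReal_mul_I,
    norm_exp_ofReal_mul_I]
  norm_num

lemma norm_half (z : ℂ) : ‖z ^ (1 / 2 : ℂ)‖ = Real.sqrt ‖z‖ := by
  rw [show (1 / 2 : ℂ) = ((1 / 2 : ℝ) : ℂ) by push_cast; rfl, norm_cpow_real,
    Real.sqrt_eq_rpow]

lemma aR_eq (R : ℕ) : aR R = -cj R 1 * ((R : ℂ) / al1) ^ (1 / 2 : ℂ) *
    ((R : ℂ) / al2) ^ (1 / 2 : ℂ) / ((R : ℂ) / (1 - I / 6)) ^ (1 / 2 : ℂ) := rfl

theorem norm_aR {R : ℕ} (hR : 0 < R) : ‖aR R‖ = Real.sqrt (R / 10) := by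
  have hR' : (0 : ℝ) < R := by exact_mod_cast hR
  have h0 := norm_pos_iff.2 al0_ne
  have h1 := norm_pos_iff.2 al1_ne
  have h2 := norm_pos_iff.2 al2_ne
  have e : ‖al1‖ * ‖al2‖ = 10 * ‖(1 - I / 6 : ℂ)‖ := by
    rw [← norm_mul, al_mul, norm_mul, norm_mul, norm_I, norm_neg]
    simp
  rw [aR_eq, norm_div, norm_mul, norm_mul, norm_neg, norm_cj, one_mul, norm_half, norm_half,
    norm_half, ← Real.sqrt_mul (norm_nonneg _), ← Real.sqrt_div (by positivity)]
  congr 1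
  rw [norm_div, norm_div, norm_div, Complex.norm_natCast, div_mul_div_comm, e]
  generalize ‖(1 - I / 6 : ℂ)‖ = z at *
  field_simp

lemma jc_step {R : ℕ} (hR : Odd R) (h5 : 5 ∣ R) {j : ℤ} (hj : Odd j) (l k i : ℤ) (β : ℂ) :
    gauss R (1 - I / 6) β (12 * k + (1 - (2 * l + 1) * R / 2)) * psi R (k + i) =
      cj R j * cexp (10 * π * I * ((i + rr R j l : ℝ) : ℂ) ^ 2 / R) *
        gauss R al1 (β + 5 * I * ((i + rr R j l : ℝ) : ℂ) / (6 * R))
          (12 * k + (1 - (2 * l + 1) * R / 2)) := by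
  have h0 : (R : ℂ) ≠ 0 := by exact_mod_cast hR.pos.ne'
  rw [psi_form hR h5 hj, mul_left_comm, mul_assoc (cj R j)]
  congr 1
  unfold gauss rr al1
  rw [← Complex.exp_add, ← Complex.exp_add]
  congr 1
  push_cast
  field_simp
  ring

lemma jc_main {R : ℕ} (hR : 0 < R) (β : ℂ) (ρ : ℝ) :
    cexp (10 * π * I * (ρ : ℂ) ^ 2 / R) * gmain R al1 (β + 5 * I * (ρ : ℂ) / (6 * R)) =
      gmain R al1 β * gauss R al2 (5 * I / 6 * β / al1) ρ := by
  have h0 : (R : ℂ) ≠ 0 := by exact_mod_cast hR.ne'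
  have h1 := al1_ne
  unfold gmain gauss al2
  rw [mul_left_comm, mul_assoc (_ ^ _), ← Complex.exp_add, ← Complex.exp_add]
  congr 2
  push_cast
  field_simp
  linear_combination (900 * (ρ : ℂ) ^ 2) * I_mul_I

lemma jc_prod (R : ℕ) (β : ℂ) :
    gmain R al1 β * gmain R al2 (5 * I / 6 * β / al1) =
      ((R : ℂ) / al1) ^ (1 / 2 : ℂ) * ((R : ℂ) / al2) ^ (1 / 2 : ℂ) *
        cexp (π * R * β ^ 2 / (1 - I / 6)) := by
  have h0 := al0_ne
  have h1 := al1_ne
  have h2 := al2_ne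
  have e : 1 / al1 + (5 * I / 6 / al1) ^ 2 / al2 = 1 / (1 - I / 6) := by
    have e1 : (5 * I / 6 / al1) ^ 2 / al2 = (5 * I / 6) ^ 2 / (al1 * (al1 * al2)) := by
      field_simp
    have e2 : (5 * I / 6) ^ 2 = -10 * I * (-10 * I / 144 * -I * I) := by
      linear_combination (25 / 36 * I ^ 2 : ℂ) * I_mul_I
    have e3 : -10 * I / 144 * -I * I = -10 * I / 144 := by
      linear_combination (10 * I / 144 : ℂ) * I_mul_I
    have h3 : (-10 * I : ℂ) ≠ 0 := mul_ne_zero (by norm_num) I_ne_zero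
    rw [e1, al_mul, e2, e3, mul_left_comm, mul_div_mul_left _ _ h3,
      div_add_div _ _ h1 (mul_ne_zero h1 h0), div_eq_div_iff (mul_ne_zero h1 (mul_ne_zero h1 h0)) h0]
    unfold al1
    ring
  unfold gmain
  rw [mul_mul_mul_comm, ← Complex.exp_add]
  push_cast
  congr 2
  linear_combination (π * R * β ^ 2 : ℂ) * e

lemma jc_window {g : ℤ → ℂ} (hg : Summable fun k => ‖g k‖) (S : Finset ℤ) (G : ℂ) :
    ‖∑ i ∈ S, g i - G‖ ≤
      ‖∑' k, g k - G‖ + ∑' k, ((S : Set ℤ)ᶜ).indicator (fun k => ‖g k‖) k := by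
  have h1 := hg.of_norm.sum_add_tsum_compl (s := S)
  have h2 : ‖∑' k : ((S : Set ℤ)ᶜ : Set ℤ), g k‖ ≤ ∑' k : ((S : Set ℤ)ᶜ : Set ℤ), ‖g k‖ :=
    norm_tsum_le_tsum_norm (hg.subtype _)
  rw [tsum_subtype ((S : Set ℤ)ᶜ) fun k => ‖g k‖] at h2
  rw [show ∑ i ∈ S, g i - G = (∑' k, g k - G) - ∑' k : ((S : Set ℤ)ᶜ : Set ℤ), g k by
    rw [← h1]; ring]
  exact (norm_sub_le _ _).trans (by linarith)

/-- the contribution of the indices close to one centre -/
lemma jc_piece {R : ℕ} (hR : Odd R) (h5 : 5 ∣ R) {j : ℤ} (hj : Odd j) (l : ℤ) (β : ℂ)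
    (S : Finset ℤ) {e1 e2 e3 : ℝ}
    (H1 : ∀ i ∈ S, ‖∑' k : ℤ, gauss R al1 (β + 5 * I * ((i + rr R j l : ℝ) : ℂ) / (6 * R))
        (12 * k + (1 - (2 * l + 1) * R / 2)) -
      gmain R al1 (β + 5 * I * ((i + rr R j l : ℝ) : ℂ) / (6 * R)) / ((12 : ℝ) : ℂ)‖ ≤ e1)
    (H2 : ‖∑' k : ℤ, gauss R al2 (5 * I / 6 * β / al1) (1 * k + rr R j l) -
      gmain R al2 (5 * I / 6 * β / al1) / ((1 : ℝ) : ℂ)‖ ≤ e2)
    (H3 : ∑' k : ℤ, ((S : Set ℤ)ᶜ).indicator
      (fun k => ‖gauss R al2 (5 * I / 6 * β / al1) (1 * k + rr R j l)‖) k ≤ e3) :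
    ‖∑ i ∈ S, ∑' k : ℤ, gauss R (1 - I / 6) β (12 * k + (1 - (2 * l + 1) * R / 2)) *
        psi R (k + i) -
      cj R j * (gmain R al1 β * gmain R al2 (5 * I / 6 * β / al1) / 12)‖ ≤
      #S * e1 + ‖gmain R al1 β‖ * (e2 + e3) := by
  have hR0 : (0 : ℝ) < R := by exact_mod_cast hR.pos
  have hw := jc_window (summable_gauss hR0 al2_re (5 * I / 6 * β / al1) one_pos (rr R j l)) S
    (gmain R al2 (5 * I / 6 * β / al1))
  rw [Complex.ofReal_one, div_one] at H2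
  have hw' := hw.trans (add_le_add H2 H3)
  simp only [one_mul] at hw'
  have key : ∀ i ∈ S, ‖∑' k : ℤ, gauss R (1 - I / 6) β (12 * k + (1 - (2 * l + 1) * R / 2)) *
      psi R (k + i) - cj R j * (gmain R al1 β *
        gauss R al2 (5 * I / 6 * β / al1) (i + rr R j l) / 12)‖ ≤ e1 := fun i hi => by
    have h1 : ‖cexp (10 * π * I * ((i + rr R j l : ℝ) : ℂ) ^ 2 / R)‖ = 1 := by
      rw [show 10 * π * I * ((i + rr R j l : ℝ) : ℂ) ^ 2 / R =
        ((10 * π * (i + rr R j l) ^ 2 / R : ℝ) : ℂ) * I by push_cast; ring, norm_exp_ofReal_mul_I]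
    simp only [jc_step hR h5 hj l _ i β]
    rw [tsum_mul_left, ← jc_main hR.pos, mul_div_assoc (cexp _), ← mul_assoc (cj R j), ← mul_sub,
      norm_mul, norm_mul, norm_cj, h1, one_mul, one_mul]
    simpa only [Complex.ofReal_ofNat] using H1 i hi
  have e : ∑ i ∈ S, ∑' k : ℤ, gauss R (1 - I / 6) β (12 * k + (1 - (2 * l + 1) * R / 2)) *
        psi R (k + i) - cj R j * (gmain R al1 β * gmain R al2 (5 * I / 6 * β / al1) / 12) =
      ∑ i ∈ S, (∑' k : ℤ, gauss R (1 - I / 6) β (12 * k + (1 - (2 * l + 1) * R / 2)) *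
        psi R (k + i) - cj R j * (gmain R al1 β *
          gauss R al2 (5 * I / 6 * β / al1) (i + rr R j l) / 12)) +
      cj R j * (gmain R al1 β * (∑ i ∈ S, gauss R al2 (5 * I / 6 * β / al1) (i + rr R j l) -
        gmain R al2 (5 * I / 6 * β / al1)) / 12) := by
    rw [sum_sub_distrib, ← mul_sum, ← sum_div, ← mul_sum]
    ring
  rw [e]
  refine (norm_add_le _ _).trans (add_le_add ((norm_sum_le _ _).trans ?_) ?_)
  · simpa only [nsmul_eq_mul] using sum_le_card_nsmul _ _ _ key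
  · rw [norm_mul, norm_cj, one_mul, norm_div, norm_mul]
    have h1 : ‖(12 : ℂ)‖ = 12 := by simp
    rw [h1]
    refine (div_le_self (by positivity) (by norm_num)).trans ?_
    gcongr

lemma jc_expand {R : ℕ} (hR : Odd R) (u v l : ℤ) :
    Jsum R u v l = -(1 / 2) * (pre R u v * om R l) * ∑ i ∈ Ico (0 : ℤ) (R / 5 : ℕ),
      ∑' k : ℤ, gauss R (1 - I / 6) (bet R u v) (12 * k + (1 - (2 * l + 1) * R / 2)) *
        psi R (k + i) := by
  have hR0 : (0 : ℝ) < R := by exact_mod_cast hR.pos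
  have hs := summable_gauss hR0 (α := 1 - I / 6) (by simp) (bet R u v) (h := 12) (by norm_num)
    (1 - (2 * l + 1) * R / 2)
  rw [← Summable.tsum_finsetSum fun i _ => Summable.of_norm (by
    simpa only [norm_mul, norm_psi, mul_one] using hs), ← tsum_mul_left]
  unfold Jsum
  refine tsum_congr fun k => ?_
  have e : ∑ i ∈ range (R / 5), psi R (k + i) = ∑ i ∈ Ico (0 : ℤ) (R / 5 : ℕ), psi R (k + i) := by
    refine sum_bij (fun i _ => (i : ℤ)) (fun i hi => ?_) (fun a _ b _ h => by exact_mod_cast h)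
      (fun b hb => ?_) fun _ _ => rfl
    · exact mem_Ico.2 ⟨by positivity, by exact_mod_cast mem_range.1 hi⟩
    · obtain ⟨h1, h2⟩ := mem_Ico.1 hb
      lift b to ℕ using h1
      exact ⟨b, mem_range.2 (by exact_mod_cast h2), rfl⟩
  rw [mul_right_comm, normal_form hR, Psi, e, ← mul_sum]
  ring

lemma jc_choice {R : ℕ} (hR : Odd R) (h5 : 5 ∣ R) {l : ℤ} (hl : l ∈ Ico (-6 : ℤ) 6) :
    ∃ j : ℤ, Odd j ∧ 1 ≤ 6 * j - 5 * (2 * l + 1) ∧ 6 * j - 5 * (2 * l + 1) ≤ 11 ∧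
      cj R j + cj R (j + 2) = 2 * chi l * cj R 1 := by
  obtain ⟨a1, b1⟩ := cj_add_two hR h5 (-3)
  obtain ⟨a2, b2⟩ := cj_add_two hR h5 (-2)
  obtain ⟨a3, b3⟩ := cj_add_two hR h5 (-1)
  obtain ⟨a4, -⟩ := cj_add_two hR h5 0
  obtain ⟨a5, b5⟩ := cj_add_two hR h5 1
  obtain ⟨a6, b6⟩ := cj_add_two hR h5 2
  obtain ⟨-, b7⟩ := cj_add_two hR h5 3
  norm_num at a1 b1 a2 b2 a3 b3 a4 a5 b5 a6 b6 b7
  obtain ⟨h1, h2⟩ := mem_Ico.1 hl
  interval_cases l
  · exact ⟨-9, by decide, by norm_num, by norm_num, by norm_num [chi, a1, b1, b2]⟩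
  · exact ⟨-7, by decide, by norm_num, by norm_num, by norm_num [chi, a2, b2, two_mul]⟩
  · exact ⟨-5, by decide, by norm_num, by norm_num, by norm_num [chi, a2, b2, b3]⟩
  · exact ⟨-3, by decide, by norm_num, by norm_num, by norm_num [chi, a3, b3, two_mul, add_mul]⟩
  · exact ⟨-1, by decide, by norm_num, by norm_num, by norm_num [chi, a3, b3]⟩
  · exact ⟨1, by decide, by norm_num, by norm_num, by norm_num [chi, a4, two_mul]⟩
  · exact ⟨1, by decide, by norm_num, by norm_num, by norm_num [chi, a4, two_mul]⟩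
  · exact ⟨3, by decide, by norm_num, by norm_num, by norm_num [chi, a4, b5]⟩
  · exact ⟨5, by decide, by norm_num, by norm_num, by norm_num [chi, a5, b5, two_mul, add_mul]⟩
  · exact ⟨7, by decide, by norm_num, by norm_num, by norm_num [chi, a5, b5, b6]⟩
  · exact ⟨9, by decide, by norm_num, by norm_num, by norm_num [chi, a6, b6, two_mul]⟩
  · exact ⟨11, by decide, by norm_num, by norm_num, by norm_num [chi, a6, b6, b7]⟩

/-- the two windows and the distance to the centres -/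
lemma jc_geom {R : ℕ} (h5 : 5 ∣ R) (hR : 400 ≤ R) {j l : ℤ} (h1 : 1 ≤ 6 * j - 5 * (2 * l + 1))
    (h2 : 6 * j - 5 * (2 * l + 1) ≤ 11) : ∃ m : ℤ, 0 ≤ m ∧ m ≤ (R / 5 : ℕ) ∧
    (∀ i ∈ Ico 0 m, |i + rr R j l| ≤ 11 * R / 120 + 1) ∧
    (∀ i ∈ ((Ico 0 m : Finset ℤ) : Set ℤ)ᶜ, 1 / 120 * R ≤ |1 * i + rr R j l|) ∧
    (∀ i ∈ Ico m (R / 5 : ℕ), |i + rr R (j + 2) l| ≤ 11 * R / 120 + 1) ∧
    (∀ i ∈ ((Ico m (R / 5 : ℕ) : Finset ℤ) : Set ℤ)ᶜ, 1 / 120 * R ≤ |1 * i + rr R (j + 2) l|) := by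
  obtain ⟨M, rfl⟩ := h5
  rw [Nat.mul_div_cancel_left M (by norm_num)]
  obtain ⟨D, hD⟩ : ∃ D : ℤ, D = (6 * j - 5 * (2 * l + 1)) * M := ⟨_, rfl⟩
  have hM : (80 : ℤ) ≤ M := by omega
  have d1 : (M : ℤ) ≤ D := by linarith only [hD, h1, mul_nonneg_of_nonpos_of_nonpos (Mathlib.Tactic.Linarith.sub_nonpos_of_le (Mathlib.Tactic.Linarith.natCast_nonneg ℤ M)) (Mathlib.Tactic.Linarith.sub_nonpos_of_le h1)]
  have d2 : D ≤ 11 * M := by linarith only [hD, h2, mul_nonneg_of_nonpos_of_nonpos (Mathlib.Tactic.Linarith.sub_nonpos_of_le (Mathlib.Tactic.Linarith.natCast_nonneg ℤ M)) (Mathlib.Tactic.Linarith.sub_nonpos_of_le h2)]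
  have r1 : rr (5 * M) j l = 5 / 12 - D / 24 := by
    unfold rr; rw [hD]; push_cast; ring
  have r2 : rr (5 * M) (j + 2) l = 5 / 12 - D / 24 - M / 2 := by
    unfold rr; rw [hD]; push_cast; ring
  obtain ⟨m, m1, m2⟩ : ∃ m : ℤ, 24 * m ≤ D + 6 * M ∧ D + 6 * M < 24 * m + 24 :=
    ⟨(D + 6 * M) / 24, by omega, by omega⟩
  have hM' : (80 : ℝ) ≤ M := by exact_mod_cast hM
  have d1' : (M : ℝ) ≤ D := by exact_mod_cast d1
  have d2' : (D : ℝ) ≤ 11 * M := by exact_mod_cast d2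
  have m1' : 24 * (m : ℝ) ≤ D + 6 * M := by exact_mod_cast m1
  have m2' : (D : ℝ) + 6 * M < 24 * m + 24 := by exact_mod_cast m2
  rw [r1, r2]
  push_cast
  refine ⟨m, by omega, by omega, fun i hi => ?_, fun i hi => ?_, fun i hi => ?_, fun i hi => ?_⟩
  · obtain ⟨a, b⟩ := mem_Ico.1 hi
    have a' : (0 : ℝ) ≤ i := by exact_mod_cast a
    have b' : (i : ℝ) < m := by exact_mod_cast b
    rw [abs_le]; constructor <;> linarith only [d2', a', hM', m1', b']
  · have hi' : ¬ (0 ≤ i ∧ i < m) := by simpa only [coe_Ico, Set.mem_compl_iff, Set.mem_Ico] using hi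
    rcases not_and_or.1 hi' with a | a
    · have a' : (i : ℝ) ≤ -1 := by exact_mod_cast (by omega : i ≤ -1)
      exact le_abs.2 (Or.inr (by linarith only [d1', a']))
    · have a' : (m : ℝ) ≤ i := by exact_mod_cast not_lt.1 a
      exact le_abs.2 (Or.inl (by linarith only [hM', m2', a']))
  · obtain ⟨a, b⟩ := mem_Ico.1 hi
    have a' : (m : ℝ) ≤ i := by exact_mod_cast a
    have b' : (i : ℝ) < M := by exact_mod_cast b
    rw [abs_le]; constructor <;> linarith only [hM', m2', a', d1', b']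
  · have hi' : ¬ (m ≤ i ∧ i < M) := by simpa only [coe_Ico, Set.mem_compl_iff, Set.mem_Ico] using hi
    rcases not_and_or.1 hi' with a | a
    · have a' : (i : ℝ) + 1 ≤ m := by exact_mod_cast (by omega : i + 1 ≤ m)
      exact le_abs.2 (Or.inr (by linarith only [hM', m1', a']))
    · have a' : (M : ℝ) ≤ i := by exact_mod_cast not_lt.1 a
      exact le_abs.2 (Or.inl (by linarith only [d2', a']))

theorem J_main : ∃ η > 0, ∃ δ > 0, ∀ᶠ R : ℕ in atTop, Odd R → 5 ∣ R → ∀ u v : ℤ,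
    ∀ l ∈ Ico (-6 : ℤ) 6, |(u : ℝ) - R / 2| ≤ η * R → |(v : ℝ) - R / 2| ≤ η * R →
    ‖Jsum R u v l - chi l * aR R *
      (pre R u v * om R l * gmain R (1 - I / 6) (bet R u v) / 12)‖ ≤ Real.exp (-δ * R) := by
  obtain ⟨η1, hη1, δ1, hδ1, G1⟩ := gauss_sum (α := al1) (by rw [al1_re]; exact one_pos)
    (h := 12) (t := 1 / 300) (by norm_num) (by norm_num)
  obtain ⟨η2, hη2, δ2, hδ2, G2⟩ := gauss_sum al2_re (h := 1) (t := 1 / 2) one_pos (by norm_num)
  obtain ⟨η3, hη3, δ3, hδ3, G3⟩ := gauss_tail al2_re (h := 1) (ρ := 1 / 120) one_pos (by norm_num)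
  obtain ⟨δ, hδ, d1, d2, d3⟩ : ∃ δ > 0, δ ≤ δ1 ∧ δ ≤ δ2 ∧ δ ≤ δ3 :=
    ⟨min δ1 (min δ2 δ3), by positivity, min_le_left _ _,
      (min_le_right _ _).trans (min_le_left _ _), (min_le_right _ _).trans (min_le_right _ _)⟩
  obtain ⟨η, hη, n1, n2, n3, n4, n5⟩ : ∃ η > 0, η ≤ η1 ∧ η ≤ η2 / 2 ∧ η ≤ η3 / 2 ∧ η ≤ δ ∧
      η ≤ 1 / 1000 :=
    ⟨min (min η1 (η2 / 2)) (min (η3 / 2) (min δ (1 / 1000))), by positivity,
      (min_le_left _ _).trans (min_le_left _ _), (min_le_left _ _).trans (min_le_right _ _),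
      (min_le_right _ _).trans (min_le_left _ _),
      (min_le_right _ _).trans ((min_le_right _ _).trans (min_le_left _ _)),
      (min_le_right _ _).trans ((min_le_right _ _).trans (min_le_right _ _))⟩
  have tn := tendsto_natCast_atTop_atTop (R := ℝ)
  refine ⟨η, hη, δ / 4, by positivity, ?_⟩
  filter_upwards [tn.eventually G1, tn.eventually G2, tn.eventually G3, eventually_ge_atTop 400,
    tn.eventually_ge_atTop (160 / δ ^ 2)] with R G1 G2 G3 hR hRδ ho h5 u v l hl hu hv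
  have hR' : (400 : ℝ) ≤ R := by exact_mod_cast hR
  have hR0 : (0 : ℝ) < R := by linarith only [hη, n5, hR']
  have hb : bet R u v = (((u - R / 2) / R : ℝ) : ℂ) + (((v - R / 2) / R : ℝ) : ℂ) * I := by
    unfold bet; push_cast; ring
  have bre : |(bet R u v).re| ≤ η := by
    rw [hb, Complex.add_re, Complex.ofReal_re, Complex.re_ofReal_mul, I_re, mul_zero, add_zero,
      abs_div, abs_of_pos hR0, div_le_iff₀ hR0]
    exact hu
  have bim : |(bet R u v).im| ≤ η := by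
    rw [hb, Complex.add_im, Complex.ofReal_im, Complex.im_ofReal_mul, I_im, mul_one, zero_add,
      abs_div, abs_of_pos hR0, div_le_iff₀ hR0]
    exact hv
  rw [jc_expand ho]
  generalize bet R u v = β at *
  have hβ : ‖β‖ ≤ 2 * η := (Complex.norm_le_abs_re_add_abs_im β).trans (by linarith only [bre, bim])
  have hβ2 : ‖5 * I / 6 * β / al1‖ ≤ 2 * η := by
    rw [norm_div, norm_mul, norm_div, norm_mul, norm_I]
    refine (div_le_self (by positivity) one_le_norm_al1).trans ?_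
    have h1 : ‖(5 : ℂ)‖ = 5 := by simp
    have h2 : ‖(6 : ℂ)‖ = 6 := by simp
    rw [h1, h2]
    linarith only [hβ, norm_nonneg β]
  have b2re := (Complex.abs_re_le_norm _).trans hβ2
  have b2im := (Complex.abs_im_le_norm _).trans hβ2
  have ex : ∀ d, δ ≤ d → Real.exp (-d * R) ≤ Real.exp (-δ * R) := fun d hd =>
    Real.exp_le_exp.2 (by linarith only [mul_le_mul_of_nonneg_right hd hR0.le])
  have piece : ∀ j : ℤ, Odd j → ∀ S : Finset ℤ, (∀ i ∈ S, |i + rr R j l| ≤ 11 * R / 120 + 1) →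
      (∀ i ∈ (S : Set ℤ)ᶜ, 1 / 120 * R ≤ |1 * i + rr R j l|) →
      ‖∑ i ∈ S, ∑' k : ℤ, gauss R (1 - I / 6) β (12 * k + (1 - (2 * l + 1) * R / 2)) *
        psi R (k + i) - cj R j * (gmain R al1 β * gmain R al2 (5 * I / 6 * β / al1) / 12)‖ ≤
      #S * Real.exp (-δ * R) + ‖gmain R al1 β‖ * (Real.exp (-δ * R) + Real.exp (-δ * R)) := by
    intro j hj S s1 s2
    refine jc_piece ho h5 hj l β S (fun i hi => ?_)
      ((G2 _ (by linarith only [b2re, n2]) (by linarith only [b2im, n2, n5]) _).trans (ex _ d2))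
      ((G3 _ (by linarith only [b2re, n3]) _ _ s2).trans (ex _ d3))
    have h1 := s1 i hi
    generalize (i : ℝ) + rr R j l = ρ at *
    have e : 5 * I * (ρ : ℂ) / (6 * R) = ((5 * ρ / (6 * R) : ℝ) : ℂ) * I := by push_cast; ring
    refine (G1 _ ?_ ?_ _).trans (ex _ d1)
    · rw [e, Complex.add_re, Complex.re_ofReal_mul, I_re, mul_zero, add_zero]
      linarith only [bre, n1]
    · rw [e, Complex.add_im, Complex.im_ofReal_mul, I_im, mul_one]
      have h2 : |5 * ρ / (6 * R)| ≤ 79 / 1000 := by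
        rw [abs_div, abs_mul, abs_of_pos (by positivity : (0 : ℝ) < 6 * R),
          abs_of_pos (by norm_num : (0 : ℝ) < 5), div_le_iff₀ (by linarith only [hR0])]
        linarith only [h1, hR']
      refine (abs_add_le _ _).trans ?_
      linarith only [h2, bim, n5]
  obtain ⟨j, hj, j1, j2, hcj⟩ := jc_choice ho h5 hl
  obtain ⟨m, m0, m1, s1, s2, s3, s4⟩ := jc_geom h5 hR j1 j2
  have p1 := piece j hj _ s1 s2
  have p2 := piece (j + 2) (hj.add_even even_two) _ s3 s4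
  have hcard : (#(Ico 0 m) : ℝ) + #(Ico m (R / 5 : ℕ)) ≤ R := by
    have h1 : #(Ico 0 m) + #(Ico m (R / 5 : ℕ)) ≤ R := by
      rw [Int.card_Ico, Int.card_Ico]; omega
    exact_mod_cast h1
  have hg : ‖gmain R al1 β‖ ≤ R * Real.exp (δ / 2 * R) := by
    refine (norm_gmain_le hR0 al1_ne β).trans (mul_le_mul ?_ (Real.exp_le_exp.2 ?_)
      (Real.exp_pos _).le hR0.le)
    · refine Real.sqrt_le_iff.2 ⟨hR0.le, (div_le_self hR0.le one_le_norm_al1).trans ?_⟩
      linarith only [hR0, mul_le_mul_of_nonneg_right hR' hR0.le]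
    · refine (div_le_self (by positivity) one_le_norm_al1).trans ?_
      have h1 : ‖β‖ ^ 2 ≤ δ / 8 := by
        have h2 : ‖β‖ ^ 2 ≤ (2 * η) ^ 2 := pow_le_pow_left₀ (norm_nonneg _) hβ 2
        linarith only [h2, n4, hδ, mul_le_mul_of_nonneg_left n5 hη.le]
      calc π * R * ‖β‖ ^ 2 ≤ 4 * R * (δ / 8) :=
            mul_le_mul (mul_le_mul_of_nonneg_right Real.pi_le_four hR0.le) h1 (sq_nonneg _)
              (by linarith only [hR0])
        _ = _ := by ring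
  have hne : ((R : ℂ) / (1 - I / 6)) ^ (1 / 2 : ℂ) ≠ 0 := by
    rw [Ne, Complex.cpow_eq_zero_iff, not_and_or]
    exact Or.inl (div_ne_zero (by exact_mod_cast hR0.ne') al0_ne)
  have hmain : chi l * aR R * (pre R u v * om R l * gmain R (1 - I / 6) β / 12) =
      -(1 / 2) * (pre R u v * om R l) *
        (cj R j * (gmain R al1 β * gmain R al2 (5 * I / 6 * β / al1) / 12) +
          cj R (j + 2) * (gmain R al1 β * gmain R al2 (5 * I / 6 * β / al1) / 12)) := by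
    rw [← add_mul, hcj, jc_prod, aR_eq, gmain]
    push_cast
    generalize ((R : ℂ) / (1 - I / 6)) ^ (1 / 2 : ℂ) = z at hne ⊢
    generalize ((R : ℂ) / al1) ^ (1 / 2 : ℂ) = z1
    generalize ((R : ℂ) / al2) ^ (1 / 2 : ℂ) = z2
    generalize Complex.exp _ = z3
    linear_combination (-(chi l * cj R 1 * z1 * z2 * pre R u v * om R l * z3 / 12)) *
      mul_inv_cancel₀ hne
  rw [hmain, ← Ico_union_Ico_eq_Ico m0 m1, sum_union (Ico_disjoint_Ico_consecutive _ _ _),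
    ← mul_sub, add_sub_add_comm, norm_mul, norm_mul, norm_mul, norm_om, mul_one]
  have hp := norm_pre_le ho.pos u v
  have hh : ‖(-(1 / 2) : ℂ)‖ ≤ 1 := by rw [norm_neg]; norm_num
  have e0 := Real.exp_pos (-δ * R)
  have e1 : 1 ≤ Real.exp (δ / 2 * R) := Real.one_le_exp (by positivity)
  have e2 : 5 * R ≤ Real.exp (δ / 4 * R) := by
    have h1 := Real.quadratic_le_exp_of_nonneg (x := δ / 4 * R) (by positivity)
    rw [div_le_iff₀ (by positivity)] at hRδ
    have h2 : 0 ≤ δ / 4 * R := by positivity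
    linarith only [h1, h2, mul_le_mul_of_nonneg_right hRδ hR0.le]
  have e3 : Real.exp (δ / 4 * R) * (Real.exp (δ / 2 * R) * Real.exp (-δ * R)) =
      Real.exp (-(δ / 4) * R) := by
    rw [← Real.exp_add, ← Real.exp_add]
    congr 1
    ring
  refine (mul_le_of_le_one_left (norm_nonneg _) (mul_le_one₀ hh (norm_nonneg _) hp)).trans
    ((norm_add_le _ _).trans ((add_le_add p1 p2).trans ?_))
  rw [← e3]
  calc _ = ((#(Ico 0 m) : ℝ) + #(Ico m (R / 5 : ℕ))) * (1 * Real.exp (-δ * R)) +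
        4 * ‖gmain R al1 β‖ * Real.exp (-δ * R) := by ring
    _ ≤ R * (Real.exp (δ / 2 * R) * Real.exp (-δ * R)) +
        4 * (R * Real.exp (δ / 2 * R)) * Real.exp (-δ * R) := by gcongr
    _ = 5 * R * (Real.exp (δ / 2 * R) * Real.exp (-δ * R)) := by ring
    _ ≤ _ := by gcongr

end Pool.Agent.Work.MP_c404d3_gt
end

-- merged part: Pool.Agent.Work.MP_c404d3_gt.B10
section
-- merged part: Pool.Agent.Work.MP_c404d3_gt.B9
section
/-!
B9: no cancellation in the first pass. Plan. r = R/2. P_phase: for k ∈ Kmid and 0 ≤ m < R,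
P R k m = i (-1)^(m - r) ‖P R k m‖ up to one global sign σ R that does not depend on k, m (count
the negative sines: j with m + j > r; the term vanishes if m ≤ k or m + k ≥ R).
Write y = m - R/2 (half-integer), b y = ‖P R k (R/2 + y)‖, even in y (P_neg, P_per). For y ≥ 1/2:
b (y+1) sin (a - u) = b y sin (a + u) with a = (2k+1) π/R ∈ [0.8π, 0.87π], u = (2y+1) π/R, so
b (y+1) ≤ b y exp(-2.7 u) while a + u < π (afterwards b = 0), and b (y+1) ≥ b y exp(-14 u) for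
u ≤ 0.1. Hence b y ≤ b(1/2) exp(-8 (y^2 - 1/4)/R), and b y ≥ 0.4 b(1/2) for |y| ≤ √R/7.
On m = 12k'+1 the factor chirp is a unit constant times exp(π i y^2/(6R)); its real part is
≥ 0.9 for |y| ≤ √R/7 (at least √R/42 - 1 such m), ≥ 0 for y^2 ≤ 3R, and the tail y^2 > 3R
contributes at most 1e-9 (1 + √R) b(1/2). So Re ≥ b(1/2) for large R, for each k ∈ Kmid; sum over k
and use P_lower. Y_top: all terms of W r have the same phase, P_lower and YW_close.
-/

namespace Pool.Agent.Work.MP_c404d3_gt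

open scoped BigOperators Real Topology
open Finset Filter Complex

/-- abstract positivity lemma for a sequence with controlled ratios -/
lemma b9_seq {R r M : ℕ} (hM : M ^ 2 ≤ R) (hM' : R < (M + 1) ^ 2) (hM0 : 1000 ≤ M)
    (hr : 2 * M ≤ r) (β : ℕ → ℝ) (h0 : ∀ n, 0 ≤ β n)
    (hup : ∀ n, n < r → β (n + 1) ≤ β n * (1 - 9 * (n + 1) / R))
    (hlo : ∀ n, n < r → β n * (1 - 48 * (n + 1) / R) ≤ β (n + 1))
    (A C : Finset ℕ) (hA : A ⊆ range r) (hC : C ⊆ A) (hC1 : ∀ n ∈ C, n < M / 7)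
    (hC2 : M / 84 ≤ C.card) :
    β 0 ≤ ∑ n ∈ A, Real.cos (π * ((n : ℝ) + 1 / 2) ^ 2 / (6 * R)) * β n := by
  have hMr : (1000 : ℝ) ≤ M := by exact_mod_cast hM0
  have hRM : (M : ℝ) ^ 2 ≤ R := by exact_mod_cast hM
  have hRM' : (R : ℝ) ≤ ((M : ℝ) + 1) ^ 2 := by exact_mod_cast hM'.le
  have hM1 : (0 : ℝ) < M := by linarith only [hMr]
  have hR : (0 : ℝ) < R := (pow_pos hM1 2).trans_le hRM
  have hMM := mul_le_mul_of_nonneg_right hMr hM1.le
  have hpi := Real.pi_pos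
  have hpi4 := Real.pi_le_four
  have l1 : ∀ n, n ≤ r → β 0 * (1 - 24 * (n * (n + 1)) / R) ≤ β n := by
    intro n
    induction n with
    | zero => intro _; simp
    | succ n ih =>
      intro hn
      have h1 := ih (by omega)
      have h2 := hlo n (by omega)
      have e : (1 - 24 * (((n + 1 : ℕ) : ℝ) * ((n + 1 : ℕ) + 1)) / R)
          = (1 - 24 * (n * (n + 1)) / R) - 48 * (n + 1) / R := by push_cast; ring
      rw [e]
      have p1 : (0 : ℝ) ≤ 24 * (n * (n + 1)) / R := by positivity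
      have p2 : (0 : ℝ) ≤ 48 * (n + 1) / R := by positivity
      generalize (24 * ((n : ℝ) * (n + 1)) / R) = S at *
      generalize (48 * ((n : ℝ) + 1) / R) = x at *
      rcases le_total x 1 with h | h
      · have h3 := mul_le_mul_of_nonneg_right h1 (sub_nonneg.2 h)
        have h4 := mul_nonneg (h0 0) (mul_nonneg p1 p2)
        linarith only [h2, h3, h4]
      · have h3 := mul_nonneg (h0 0) (by linarith only [h, p1] : 0 ≤ -(1 - S - x))
        linarith only [h3, h0 (n + 1)]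
  have l2 : ∀ n, n ≤ r → β n ≤ β 0 * Real.exp (-(9 * (n * (n + 1)) / (2 * R))) := by
    intro n
    induction n with
    | zero => intro _; simp
    | succ n ih =>
      intro hn
      have h1 := ih (by omega)
      have h2 := hup n (by omega)
      have e : -(9 * (((n + 1 : ℕ) : ℝ) * ((n + 1 : ℕ) + 1)) / (2 * R))
          = -(9 * (n * (n + 1)) / (2 * R)) + -(9 * (n + 1) / R) := by
        push_cast; field_simp; ring
      rw [e, Real.exp_add, ← mul_assoc]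
      have h3 : 1 - 9 * ((n : ℝ) + 1) / R ≤ Real.exp (-(9 * (n + 1) / R)) := by
        linarith only [Real.add_one_le_exp (-(9 * ((n : ℝ) + 1) / R))]
      exact h2.trans ((mul_le_mul_of_nonneg_left h3 (h0 n)).trans
        (mul_le_mul_of_nonneg_right h1 (Real.exp_pos _).le))
  obtain ⟨n0, hn0⟩ : ∃ n0, n0 = 3 * M / 2 := ⟨_, rfl⟩
  have hn1 : (3 * (M : ℝ) - 1) / 2 ≤ n0 := by
    have : 3 * M ≤ 2 * n0 + 1 := by omega
    have : (3 * M : ℝ) ≤ 2 * n0 + 1 := by exact_mod_cast this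
    linarith only [this]
  have hn2 : (n0 : ℝ) ≤ 3 * M / 2 := by
    have : 2 * n0 ≤ 3 * M := by omega
    have : (2 * n0 : ℝ) ≤ 3 * M := by exact_mod_cast this
    linarith only [this]
  have hn3 : n0 ≤ r := by omega
  have l3 : ∀ N, n0 ≤ N → N ≤ r → 9 * ((n0 : ℝ) + 1) / R * ∑ n ∈ Ico n0 N, β n ≤ β n0 - β N := by
    intro N hN
    induction N, hN using Nat.le_induction with
    | base => intro _; simp
    | succ N hN ih =>
      intro h
      have h1 := ih (by omega)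
      have h2 := hup N (by omega)
      rw [sum_Ico_succ_top hN, mul_add]
      have h3 : 9 * ((n0 : ℝ) + 1) / R ≤ 9 * (N + 1) / R := by
        gcongr
      have h4 := mul_le_mul_of_nonneg_right h3 (h0 N)
      linarith only [h1, h2, h4]
  have l4 : β n0 ≤ β 0 / 512 := by
    refine (l2 n0 hn3).trans ?_
    rw [div_eq_mul_inv]
    refine mul_le_mul_of_nonneg_left ?_ (h0 0)
    rw [Real.exp_neg]
    refine inv_anti₀ (by norm_num) ?_
    have h1 : (9 : ℝ) ≤ 9 * (n0 * (n0 + 1)) / (2 * R) := by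
      rw [le_div_iff₀ (mul_pos two_pos hR)]
      linarith only [hRM', hMr, hMM, hn1, mul_self_le_mul_self (by linarith only [hMr]) hn1]
    refine le_trans ?_ (Real.exp_le_exp.2 h1)
    have h2 : (2 : ℝ) ≤ Real.exp 1 := by linarith only [Real.add_one_le_exp (1 : ℝ)]
    calc (512 : ℝ) = 2 ^ 9 := by norm_num
      _ ≤ Real.exp 1 ^ 9 := pow_le_pow_left₀ (by norm_num) h2 9
      _ = Real.exp 9 := by rw [← Real.exp_nat_mul]; norm_num
  have l5 : ∑ n ∈ Ico n0 r, β n ≤ M / 5000 * β 0 := by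
    have h1 := l3 r hn3 le_rfl
    have h2 : 0 ≤ ∑ n ∈ Ico n0 r, β n := sum_nonneg fun n _ => h0 n
    have h3 : 10 / (M : ℝ) ≤ 9 * ((n0 : ℝ) + 1) / R := by
      rw [div_le_div_iff₀ hM1 hR]
      linarith only [hRM', hMr, hMM, mul_le_mul_of_nonneg_right hn1 hM1.le]
    have h4 := mul_le_mul_of_nonneg_right h3 h2
    have h5 : 10 / (M : ℝ) * ∑ n ∈ Ico n0 r, β n ≤ β 0 / 512 := by
      linarith only [h0 r, h1, h4, l4]
    rw [div_mul_eq_mul_div, div_le_iff₀ hM1] at h5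
    have h6 := mul_nonneg (h0 0) hM1.le
    linarith only [h5, h6]
  have l6 : ∀ n ∈ A, (if n ∈ C then β 0 / 4 else 0) - (if n0 ≤ n then β n else 0)
      ≤ Real.cos (π * ((n : ℝ) + 1 / 2) ^ 2 / (6 * R)) * β n := by
    intro n hn
    have hnr : n < r := mem_range.1 (hA hn)
    have hx0 : 0 ≤ π * ((n : ℝ) + 1 / 2) ^ 2 / (6 * R) := by positivity
    have hn0' : (0 : ℝ) ≤ n := Nat.cast_nonneg n
    by_cases h1 : n ∈ C
    · have h2 := hC1 n h1
      have h3 : 7 * ((n : ℝ) + 1) ≤ M := by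
        have : 7 * (n + 1) ≤ M := by omega
        exact_mod_cast this
      have h4 : 49 * ((n : ℝ) + 1) ^ 2 ≤ R := by
        linarith only [hRM, mul_self_le_mul_self (by linarith only [hn0']) h3]
      rw [if_pos h1, if_neg (by omega), sub_zero]
      have h5 : π * ((n : ℝ) + 1 / 2) ^ 2 / (6 * R) ≤ 1 := by
        rw [div_le_one (by linarith only [hR])]
        linarith only [h4, hn0', hR, mul_le_mul_of_nonneg_right hpi4 (sq_nonneg ((n : ℝ) + 1 / 2))]
      have h6 : 1 / 2 ≤ Real.cos (π * ((n : ℝ) + 1 / 2) ^ 2 / (6 * R)) := by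
        refine le_trans ?_ Real.one_sub_sq_div_two_le_cos
        have h6 := pow_le_one₀ hx0 h5 (n := 2)
        generalize (π * ((n : ℝ) + 1 / 2) ^ 2 / (6 * R)) ^ 2 = y at h6
        linarith only [h6]
      have h7 : 24 * ((n : ℝ) * (n + 1)) / R ≤ 1 / 2 := by
        rw [div_le_iff₀ hR]
        linarith only [h4, hn0', sq_nonneg (n : ℝ)]
      have h8 := l1 n hnr.le
      have h9 := mul_le_mul_of_nonneg_left h7 (h0 0)
      have h10 := mul_le_mul_of_nonneg_right h6 (h0 n)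
      generalize 24 * ((n : ℝ) * (n + 1)) / R = y at h8 h9
      linarith only [h8, h9, h10]
    · rw [if_neg h1]
      split_ifs with h2
      · have h3 := mul_le_mul_of_nonneg_right
          (Real.neg_one_le_cos (π * ((n : ℝ) + 1 / 2) ^ 2 / (6 * R))) (h0 n)
        linarith only [h3]
      · rw [sub_zero]
        refine mul_nonneg (Real.cos_nonneg_of_neg_pi_div_two_le_of_le
          (by linarith only [hx0, hpi]) ?_) (h0 n)
        have h3 : (n : ℝ) + 1 ≤ n0 := by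
          have : n + 1 ≤ n0 := by omega
          exact_mod_cast this
        have h4 : ((n : ℝ) + 1 / 2) ^ 2 ≤ 3 * R := by
          linarith only [hRM, hR, mul_self_le_mul_self (by linarith only [hn0'])
            (show (n : ℝ) + 1 / 2 ≤ 3 * M / 2 by linarith only [h3, hn2])]
        rw [div_le_div_iff₀ (by linarith only [hR]) two_pos]
        linarith only [mul_le_mul_of_nonneg_left h4 hpi.le]
  refine le_trans ?_ (sum_le_sum l6)
  rw [sum_sub_distrib, ← sum_filter, ← sum_filter, filter_mem_eq_inter, inter_eq_right.2 hC,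
    sum_const, nsmul_eq_mul]
  have l7 : ∑ n ∈ A with n0 ≤ n, β n ≤ ∑ n ∈ Ico n0 r, β n :=
    sum_le_sum_of_subset_of_nonneg (fun n hn => mem_Ico.2
      ⟨(mem_filter.1 hn).2, mem_range.1 (hA (mem_filter.1 hn).1)⟩) fun n _ _ => h0 n
  have l8 : ((M : ℝ) - 83) / 84 ≤ C.card := by
    have : M ≤ 84 * C.card + 83 := by omega
    have : (M : ℝ) ≤ 84 * C.card + 83 := by exact_mod_cast this
    linarith only [this]
  have l9 := mul_le_mul_of_nonneg_right l8 (h0 0)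
  have l10 := mul_le_mul_of_nonneg_right hMr (h0 0)
  linarith only [h0 0, l5, l7, l9, l10]

lemma b9_shift (R k : ℕ) (m : ℤ) :
    P R k (m + 1) * br R (m - k) = P R k m * br R (m + k + 1) := by
  induction k with
  | zero => simp [P, mul_comm]
  | succ k ih =>
    rw [P_succ, P_succ]
    push_cast
    have e1 : m + 1 - ((k : ℤ) + 1) = m - k := by ring
    have e2 : m + ((k : ℤ) + 1) = m + k + 1 := by ring
    have e3 : m + 1 + ((k : ℤ) + 1) = m + k + 1 + 1 := by ring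
    rw [e1, e2, e3]
    linear_combination (br R (m + k + 1 + 1) * br R (m - (k + 1))) * ih

lemma b9_symm {R : ℕ} (hR : 0 < R) (k : ℕ) (m : ℤ) : P R k (R - m) = -P R k m := by
  rw [← P_neg, ← P_per hR k (-m) 1]
  congr 1
  ring

lemma b9_brsymm {R : ℕ} (hR : 0 < R) (m : ℤ) : br R (R - m) = -br R m := by
  rw [← br_neg, ← br_per hR (-m) 1]
  congr 1
  ring

lemma b9_sin_nonneg {r : ℕ} {m : ℤ} (h0 : 0 ≤ m) (h1 : m ≤ r) :
    0 ≤ Real.sin (2 * π * m / (2 * r + 1 : ℕ)) := by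
  have hpi := Real.pi_pos
  have a0 : (0 : ℝ) ≤ m := by exact_mod_cast h0
  have a1 : (m : ℝ) ≤ r := by exact_mod_cast h1
  refine Real.sin_nonneg_of_nonneg_of_le_pi (by positivity) ?_
  rw [div_le_iff₀ (by positivity)]
  push_cast
  linarith only [hpi, a1, mul_nonneg_of_nonpos_of_nonpos (le_of_lt (Mathlib.Tactic.Linarith.sub_neg_of_lt hpi)) (Mathlib.Tactic.Linarith.sub_nonpos_of_le a1)]

lemma b9_mid {r : ℕ} (k : ℕ) (hk : k ≤ r) :
    ∃ c : ℝ, 0 ≤ c ∧ P (2 * r + 1) k r = I * c := by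
  induction k with
  | zero =>
    refine ⟨2 * Real.sin (2 * π * (r : ℤ) / (2 * r + 1 : ℕ)),
      mul_nonneg two_pos.le (b9_sin_nonneg (by positivity) le_rfl), ?_⟩
    simp only [P, Nat.cast_zero, neg_zero, Icc_self, prod_singleton, add_zero, br_eq]
    push_cast
    ring
  | succ k ih =>
    obtain ⟨c, hc, h⟩ := ih (by omega)
    have e : (r : ℤ) + (k + 1) = (2 * r + 1 : ℕ) - ((r : ℤ) - k) := by push_cast; ring
    have s1 := b9_sin_nonneg (r := r) (m := (r : ℤ) - k) (by omega) (by omega)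
    have s2 := b9_sin_nonneg (r := r) (m := (r : ℤ) - (k + 1)) (by omega) (by omega)
    refine ⟨c * (4 * (Real.sin _ * Real.sin _)),
      mul_nonneg hc (mul_nonneg (by norm_num) (mul_nonneg s1 s2)), ?_⟩
    rw [P_succ, h, e, b9_brsymm (by omega), br_eq, br_eq]
    simp only [ofReal_mul, ofReal_ofNat]
    linear_combination (-4 * I * c * (Real.sin (2 * π * (((r : ℤ) - k : ℤ) : ℝ) / (2 * r + 1 : ℕ)) : ℝ)
      * (Real.sin (2 * π * (((r : ℤ) - (k + 1) : ℤ) : ℝ) / (2 * r + 1 : ℕ)) : ℝ)) * I_mul_I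

lemma b9_norm {z : ℂ} {c : ℝ} (n : ℕ) (hc : 0 ≤ c) (h : z = I * (-1) ^ n * c) : ‖z‖ = c := by
  rw [h, norm_mul, norm_mul, norm_pow, norm_neg, norm_one, one_pow, norm_I, norm_real,
    Real.norm_eq_abs, abs_of_nonneg hc, one_mul, one_mul]

/-- the recursion to the right of the middle -/
lemma b9_rec (k d n : ℕ) :
    P (2 * (k + d) + 1) k ((k + d + 1 + (n + 1) : ℕ) : ℤ) *
        (Real.sin (2 * π * ((d + (n + 1) : ℕ) : ℤ) / (2 * (k + d) + 1 : ℕ)) : ℝ)
      = -P (2 * (k + d) + 1) k ((k + d + 1 + n : ℕ) : ℤ) *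
        (Real.sin (2 * π * ((d : ℤ) - (n + 1 : ℕ) : ℤ) / (2 * (k + d) + 1 : ℕ)) : ℝ) := by
  have h := b9_shift (2 * (k + d) + 1) k ((k + d + 1 + n : ℕ) : ℤ)
  have e1 : ((k + d + 1 + n : ℕ) : ℤ) + 1 = ((k + d + 1 + (n + 1) : ℕ) : ℤ) := by push_cast; ring
  have e2 : ((k + d + 1 + n : ℕ) : ℤ) - k = ((d + (n + 1) : ℕ) : ℤ) := by push_cast; ring
  have e3 : ((k + d + 1 + n : ℕ) : ℤ) + k + 1
      = (2 * (k + d) + 1 : ℕ) - ((d : ℤ) - (n + 1 : ℕ)) := by push_cast; ring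
  rw [e1, e2, e3, b9_brsymm (by omega), br_eq, br_eq] at h
  have h2 : (2 * I : ℂ) ≠ 0 := mul_ne_zero two_ne_zero I_ne_zero
  refine mul_left_cancel₀ h2 ?_
  linear_combination h

lemma b9_zero {k d : ℕ} (n : ℕ) (h1 : d ≤ n) (h2 : n ≤ k + d) :
    P (2 * (k + d) + 1) k ((k + d + 1 + n : ℕ) : ℤ) = 0 := by
  refine P_eq_zero (l := 1) (by omega) ?_
  rw [abs_le]
  push_cast
  constructor <;> omega

lemma b9_sin_pos {k d n : ℕ} (hd : d ≤ k) (hn : n < d) :
    0 < Real.sin (2 * π * ((d + (n + 1) : ℕ) : ℤ) / (2 * (k + d) + 1 : ℕ)) := by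
  have hpi := Real.pi_pos
  have a1 : (d : ℝ) ≤ k := by exact_mod_cast hd
  have a2 : (n : ℝ) + 1 ≤ d := by exact_mod_cast hn
  refine Real.sin_pos_of_pos_of_lt_pi (by push_cast; positivity) ?_
  rw [div_lt_iff₀ (by positivity)]
  push_cast
  linarith only [hpi, a1, a2, mul_nonneg_of_nonpos_of_nonpos (le_of_lt (Mathlib.Tactic.Linarith.sub_neg_of_lt hpi)) (Mathlib.Tactic.Linarith.sub_nonpos_of_le a1), mul_nonneg_of_nonpos_of_nonpos (le_of_lt (Mathlib.Tactic.Linarith.sub_neg_of_lt hpi)) (Mathlib.Tactic.Linarith.sub_nonpos_of_le a2)]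

lemma b9_phase {k d : ℕ} (hd : d ≤ k) (n : ℕ) (hn : n ≤ k + d) :
    ∃ c : ℝ, 0 ≤ c ∧ P (2 * (k + d) + 1) k ((k + d + 1 + n : ℕ) : ℤ) = I * (-1) ^ (n + 1) * c := by
  induction n with
  | zero =>
    obtain ⟨c, hc, h⟩ := b9_mid (r := k + d) k (by omega)
    refine ⟨c, hc, ?_⟩
    have e : ((k + d + 1 + 0 : ℕ) : ℤ) = (2 * (k + d) + 1 : ℕ) - ((k + d : ℕ) : ℤ) := by
      push_cast; ring
    rw [e, b9_symm (by omega), h]
    ring
  | succ n ih =>
    by_cases h1 : n < d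
    · obtain ⟨c, hc, h⟩ := ih (by omega)
      have h2 := b9_rec k d n
      have s1 := b9_sin_pos hd h1
      have s2 := b9_sin_nonneg (r := k + d) (m := (d : ℤ) - (n + 1 : ℕ)) (by omega) (by omega)
      refine ⟨c * Real.sin _ / Real.sin _, div_nonneg (mul_nonneg hc s2) s1.le, ?_⟩
      have s3 := ofReal_ne_zero.2 s1.ne'
      rw [ofReal_div, ← mul_div_assoc, eq_div_iff s3, h2, h, ofReal_mul]
      ring
    · exact ⟨0, le_rfl, by rw [b9_zero _ (by omega) hn]; simp⟩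

lemma b9_trig {s t : ℝ} (t0 : 0 ≤ t) (t1 : t ≤ s) (t2 : s ≤ 1 / 10) (t3 : 1 / 15 ≤ s + t) :
    9 * t * Real.sin (2 * π * s + 2 * π * t) ≤ 2 * Real.cos (2 * π * s) * Real.sin (2 * π * t) ∧
    2 * Real.cos (2 * π * s) * Real.sin (2 * π * t) ≤
      48 * t * Real.sin (2 * π * s + 2 * π * t) := by
  have hpi := Real.pi_gt_d2
  have hpi' := Real.pi_lt_d2
  have u0 : 0 ≤ 2 * π * t := mul_nonneg Real.two_pi_pos.le t0
  have u4 : 2 * π * t ≤ 2 * π * s := mul_le_mul_of_nonneg_left t1 Real.two_pi_pos.le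
  have u3 : 2 * π * s ≤ 63 / 100 := by
    linarith only [hpi', mul_le_mul_of_nonneg_left t2 Real.pi_pos.le]
  have u1 := u4.trans u3
  have u2 := u0.trans u4
  have c1 : 4 / 5 ≤ Real.cos (2 * π * s) := by
    refine le_trans ?_ Real.one_sub_sq_div_two_le_cos
    linarith only [pow_le_pow_left₀ u2 u3 2]
  have c2 := Real.cos_le_one (2 * π * s)
  have c3 : Real.sin (2 * π * t) ≤ 2 * π * t := Real.sin_le u0
  have c4 : 9 / 10 * (2 * π * t) ≤ Real.sin (2 * π * t) := by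
    rcases u0.eq_or_lt with h0 | h0
    · rw [← h0]; simp
    · have c5 := Real.sin_gt_sub_cube h0
      have c6 : (2 * π * t) ^ 2 ≤ 2 / 5 := by linarith only [pow_le_pow_left₀ u0 u1 2]
      linarith only [c5, u0, mul_le_mul_of_nonneg_left c6 u0]
  have c5 := Real.sin_le_one (2 * π * s + 2 * π * t)
  have c6 : 4 / 15 ≤ Real.sin (2 * π * s + 2 * π * t) := by
    refine le_trans ?_ (Real.mul_le_sin (add_nonneg u2 u0) (by linarith only [u1, u3, hpi]))
    have : 2 / π * (2 * π * s + 2 * π * t) = 4 * (s + t) := by field_simp; ring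
    rw [this]
    linarith only [t3]
  have d2 : 4 / 5 * (9 / 10 * (2 * π * t)) ≤ Real.cos (2 * π * s) * Real.sin (2 * π * t) :=
    mul_le_mul c1 c4 (by linarith only [u0]) (by linarith only [c1])
  have d3 : Real.cos (2 * π * s) * Real.sin (2 * π * t) ≤ 1 * (2 * π * t) :=
    mul_le_mul c2 c3 (by linarith only [c4, u0]) zero_le_one
  exact ⟨by linarith only [d2, t0, mul_le_mul_of_nonneg_left c5 t0,
      mul_le_mul_of_nonneg_right hpi.le t0],
    by linarith only [d3, t0, mul_le_mul_of_nonneg_left c6 t0,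
      mul_le_mul_of_nonneg_right hpi'.le t0]⟩

lemma b9_ratio {k d : ℕ} (h1 : 10 * d ≤ 2 * (k + d) + 1) (h2 : 2 * (k + d) + 1 ≤ 15 * (d + 1))
    (n : ℕ) (hn : n < k + d) :
    ‖P (2 * (k + d) + 1) k ((k + d + 1 + (n + 1) : ℕ) : ℤ)‖
      ≤ ‖P (2 * (k + d) + 1) k ((k + d + 1 + n : ℕ) : ℤ)‖ *
        (1 - 9 * (n + 1) / (2 * (k + d) + 1 : ℕ)) ∧
    ‖P (2 * (k + d) + 1) k ((k + d + 1 + n : ℕ) : ℤ)‖ *
        (1 - 48 * (n + 1) / (2 * (k + d) + 1 : ℕ))
      ≤ ‖P (2 * (k + d) + 1) k ((k + d + 1 + (n + 1) : ℕ) : ℤ)‖ := by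
  by_cases h3 : n < d
  swap
  · rw [b9_zero n (by omega) hn.le, b9_zero (n + 1) (by omega) hn]
    simp
  have hd : d ≤ k := by omega
  have s1 := b9_sin_pos hd h3
  have s2 := b9_sin_nonneg (r := k + d) (m := (d : ℤ) - (n + 1 : ℕ)) (by omega) (by omega)
  have h := congrArg norm (b9_rec k d n)
  rw [norm_mul, norm_mul, norm_neg, norm_real, norm_real, Real.norm_eq_abs, Real.norm_eq_abs,
    abs_of_pos s1, abs_of_nonneg s2] at h
  have hb := norm_nonneg (P (2 * (k + d) + 1) k ((k + d + 1 + n : ℕ) : ℤ))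
  generalize ‖P (2 * (k + d) + 1) k ((k + d + 1 + (n + 1) : ℕ) : ℤ)‖ = b' at *
  generalize ‖P (2 * (k + d) + 1) k ((k + d + 1 + n : ℕ) : ℤ)‖ = b at *
  have a1 : (10 * d : ℝ) ≤ (2 * (k + d) + 1 : ℕ) := by exact_mod_cast h1
  have a2 : ((2 * (k + d) + 1 : ℕ) : ℝ) ≤ 15 * (d + 1) := by exact_mod_cast h2
  have a3 : (n : ℝ) + 1 ≤ d := by exact_mod_cast h3
  have a4 : (0 : ℝ) < (2 * (k + d) + 1 : ℕ) := by positivity
  have a5 : (0 : ℝ) ≤ n := Nat.cast_nonneg n
  generalize ((2 * (k + d) + 1 : ℕ) : ℝ) = R at *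
  obtain ⟨s, hs⟩ : ∃ s : ℝ, s = d / R := ⟨_, rfl⟩
  obtain ⟨t, ht⟩ : ∃ t : ℝ, t = (n + 1) / R := ⟨_, rfl⟩
  have e1 : 2 * π * (((d + (n + 1) : ℕ) : ℤ) : ℝ) / R = 2 * π * s + 2 * π * t := by
    rw [hs, ht]; push_cast; ring
  have e2 : 2 * π * (((d : ℤ) - (n + 1 : ℕ) : ℤ) : ℝ) / R = 2 * π * s - 2 * π * t := by
    rw [hs, ht]; push_cast; ring
  have e3 : 9 * ((n : ℝ) + 1) / R = 9 * t := by rw [ht]; ring
  have e4 : 48 * ((n : ℝ) + 1) / R = 48 * t := by rw [ht]; ring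
  rw [e1] at h s1
  rw [e2] at h
  rw [e3, e4]
  have t0 : 0 ≤ t := ht ▸ div_nonneg (by linarith only [a5]) a4.le
  have t1 : t ≤ s := by rw [hs, ht]; exact div_le_div_of_nonneg_right a3 a4.le
  have t2 : s ≤ 1 / 10 := by rw [hs, div_le_iff₀ a4]; linarith only [a1]
  have t3 : 1 / 15 ≤ s + t := by
    rw [hs, ht, ← add_div, le_div_iff₀ a4]; linarith only [a2, a5]
  have key : Real.sin (2 * π * s - 2 * π * t) = Real.sin (2 * π * s + 2 * π * t)
      - 2 * Real.cos (2 * π * s) * Real.sin (2 * π * t) := by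
    rw [Real.sin_sub, Real.sin_add]; ring
  obtain ⟨d1, d2⟩ := b9_trig t0 t1 t2 t3
  rw [key] at h
  generalize Real.sin (2 * π * s + 2 * π * t) = X at h s1 d1 d2
  generalize 2 * Real.cos (2 * π * s) * Real.sin (2 * π * t) = Z at h d1 d2
  constructor
  · refine le_of_mul_le_mul_right ?_ s1
    linarith only [h, mul_le_mul_of_nonneg_left d1 hb]
  · refine le_of_mul_le_mul_right ?_ s1
    linarith only [h, mul_le_mul_of_nonneg_left d2 hb]

/-- distance from the middle -/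
def nu (r m : ℕ) : ℕ := if m ≤ r then r - m else m - r - 1

lemma b9_odd {k d : ℕ} (hd : d ≤ k) (j : ℕ) (hj : 2 * j + 1 ≤ 2 * (k + d)) :
    P (2 * (k + d) + 1) k ((2 * j + 1 : ℕ) : ℤ) = I * (-1) ^ (k + d + 1) *
      (‖P (2 * (k + d) + 1) k ((k + d + 1 + nu (k + d) (2 * j + 1) : ℕ) : ℤ)‖ : ℝ) := by
  obtain ⟨c, hc, h⟩ := b9_phase hd (nu (k + d) (2 * j + 1)) (by unfold nu; split_ifs <;> omega)
  rw [b9_norm _ hc h]
  unfold nu at h
  split_ifs at h with h1
  · obtain ⟨n, hn⟩ := Nat.exists_eq_add_of_le h1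
    have e : ((2 * j + 1 : ℕ) : ℤ)
        = (2 * (k + d) + 1 : ℕ) - ((k + d + 1 + (k + d - (2 * j + 1)) : ℕ) : ℤ) := by omega
    rw [e, b9_symm (by omega), h, show k + d - (2 * j + 1) = n by omega, hn]
    simp only [pow_add, pow_mul]
    ring
  · obtain ⟨n, hn⟩ : ∃ n, 2 * j + 1 = k + d + 1 + n := ⟨2 * j - (k + d), by omega⟩
    rw [show 2 * j + 1 - (k + d) - 1 = n by omega, ← hn] at h
    rw [h]
    have e : (-1 : ℂ) ^ (k + d + 1) * (-1) ^ n = -1 := by
      rw [← pow_add, ← hn, pow_succ, pow_mul]; ring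
    have e2 : (-1 : ℂ) ^ n * (-1) ^ n = 1 := by rw [← mul_pow]; simp
    linear_combination (-I * c * (-1) ^ n) * e + (I * c * (-1) ^ (k + d + 1)) * e2

lemma b9_chirp {r : ℕ} (j : ℕ) :
    chirp (2 * r + 1) j = cexp (-(π * (1 / 2 - r) ^ 2 / (6 * (2 * r + 1)) : ℝ) * I) *
      cexp ((π * ((nu r (12 * j + 1) : ℝ) + 1 / 2) ^ 2 / (6 * (2 * r + 1 : ℕ)) : ℝ) * I) := by
  have e : ((nu r (12 * j + 1) : ℝ) + 1 / 2) ^ 2 = (12 * j + (1 / 2 - r)) ^ 2 := by
    unfold nu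
    split_ifs with h
    · rw [Nat.cast_sub h]; push_cast; ring
    · rw [Nat.sub_sub, Nat.cast_sub (by omega)]; push_cast; ring
  rw [e, chirp, zeta_zpow, ← Complex.exp_add, Complex.exp_eq_exp_iff_exists_int]
  refine ⟨j, ?_⟩
  have h : (2 * r + 1 : ℂ) ≠ 0 := by exact_mod_cast (by omega : 2 * r + 1 ≠ 0)
  push_cast
  field_simp
  ring

lemma b9_Kmid {r k : ℕ} (hk : k ∈ Kmid (2 * r + 1)) : ∃ d, r = k + d ∧ d ≤ k ∧
    10 * d ≤ 2 * (k + d) + 1 ∧ 2 * (k + d) + 1 ≤ 15 * (d + 1) := by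
  obtain ⟨h1, h2, h3⟩ := mem_filter.1 hk
  have h4 := mem_range.1 h1
  exact ⟨r - k, by omega, by omega, by omega, by omega⟩

lemma b9_top {r k : ℕ} : ‖P (2 * r + 1) k ((r + 1 + 0 : ℕ) : ℤ)‖ = ‖P (2 * r + 1) k r‖ := by
  have e : ((r + 1 + 0 : ℕ) : ℤ) = (2 * r + 1 : ℕ) - (r : ℤ) := by push_cast; ring
  rw [e, b9_symm (by omega), norm_neg]

lemma b9_one {r k : ℕ} (hr : 500000 ≤ r) (hk : k ∈ Kmid (2 * r + 1)) :
    ‖P (2 * r + 1) k r‖ ≤ ∑ j ∈ range ((2 * r + 11) / 12),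
      Real.cos (π * ((nu r (12 * j + 1) : ℝ) + 1 / 2) ^ 2 / (6 * (2 * r + 1 : ℕ))) *
        ‖P (2 * r + 1) k ((r + 1 + nu r (12 * j + 1) : ℕ) : ℤ)‖ := by
  obtain ⟨d, hd, -, h1, h2⟩ := b9_Kmid hk
  have hM := Nat.sqrt_le' (2 * r + 1)
  have hM' := Nat.lt_succ_sqrt' (2 * r + 1)
  have hM0 : 1000 ≤ (2 * r + 1).sqrt := Nat.le_sqrt'.2 (by omega)
  set M := (2 * r + 1).sqrt
  have hMr : 2 * M ≤ r := by nlinarith only [hr, hM, hM0]
  have hinj : Set.InjOn (fun j => nu r (12 * j + 1)) (range ((2 * r + 11) / 12) : Finset ℕ) := by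
    intro a _ b _ h
    simp only [nu] at h
    split_ifs at h <;> omega
  have hsub : Ico ((r + 11) / 12) ((r + 11) / 12 + M / 84) ⊆ range ((2 * r + 11) / 12) := by
    intro j hj
    rw [mem_Ico] at hj
    rw [mem_range]
    omega
  have key := b9_seq hM hM' hM0 hMr (fun n => ‖P (2 * r + 1) k ((r + 1 + n : ℕ) : ℤ)‖)
    (fun _ => norm_nonneg _) (fun n hn => by subst hd; exact (b9_ratio h1 h2 n hn).1)
    (fun n hn => by subst hd; exact (b9_ratio h1 h2 n hn).2)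
    ((range ((2 * r + 11) / 12)).image fun j => nu r (12 * j + 1))
    ((Ico ((r + 11) / 12) ((r + 11) / 12 + M / 84)).image fun j => nu r (12 * j + 1))
    (fun n hn => by
      obtain ⟨j, hj, rfl⟩ := mem_image.1 hn
      rw [mem_range] at hj ⊢
      unfold nu
      split_ifs <;> omega)
    (image_subset_image hsub)
    (fun n hn => by
      obtain ⟨j, hj, rfl⟩ := mem_image.1 hn
      rw [mem_Ico] at hj
      unfold nu
      split_ifs <;> omega)
    (by rw [card_image_of_injOn (hinj.mono hsub), Nat.card_Ico]; omega)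
  rw [sum_image hinj, b9_top] at key
  exact key

lemma b9_lam0 {r : ℕ} (hr : 500000 ≤ r) :
    ∑ k ∈ Kmid (2 * r + 1), ‖P (2 * r + 1) k r‖ ≤ ‖lam0 (2 * r + 1)‖ := by
  have e0 : Ico (pk (2 * r + 1) 0) (pk (2 * r + 1) 1)
      = (range ((2 * r + 11) / 12)).image (Nat.cast : ℕ → ℤ) := by
    ext j
    simp only [pk, mem_Ico, mem_image, mem_range]
    constructor
    · rintro ⟨h1, h2⟩
      exact ⟨j.toNat, by omega, by omega⟩
    · rintro ⟨a, h1, rfl⟩
      omega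
  set z : ℂ := ∑ k ∈ Kmid (2 * r + 1), ∑ j ∈ range ((2 * r + 11) / 12),
    cexp ((π * ((nu r (12 * j + 1) : ℝ) + 1 / 2) ^ 2 / (6 * (2 * r + 1 : ℕ)) : ℝ) * I) *
      (‖P (2 * r + 1) k ((r + 1 + nu r (12 * j + 1) : ℕ) : ℤ)‖ : ℝ) with hz
  have e1 : lam0 (2 * r + 1) = cexp (-(π * (1 / 2 - r) ^ 2 / (6 * (2 * r + 1)) : ℝ) * I) *
      (I * (-1) ^ (r + 1)) * z := by
    rw [lam0, e0, sum_image fun a _ b _ h => Nat.cast_injective h, hz, sum_comm, mul_sum]
    refine sum_congr rfl fun j hj => ?_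
    rw [W, mul_sum, mul_sum]
    refine sum_congr rfl fun k hk => ?_
    obtain ⟨d, hd, h0, -, -⟩ := b9_Kmid hk
    have h1 := mem_range.1 hj
    have h2 := b9_odd h0 (6 * j) (by omega)
    rw [← hd, show 2 * (6 * j) + 1 = 12 * j + 1 by ring] at h2
    rw [b9_chirp, show (12 * (j : ℤ) + 1) = ((12 * j + 1 : ℕ) : ℤ) by push_cast; ring, h2]
    ring
  have e2 : ‖lam0 (2 * r + 1)‖ = ‖z‖ := by
    rw [e1, norm_mul, norm_mul, ← ofReal_neg, norm_exp_ofReal_mul_I]
    simp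
  rw [e2]
  refine le_trans ?_ (re_le_norm z)
  rw [hz, re_sum]
  refine sum_le_sum fun k hk => (b9_one hr hk).trans_eq ?_
  rw [re_sum]
  refine sum_congr rfl fun j _ => ?_
  rw [re_mul_ofReal, exp_ofReal_mul_I_re]

theorem lam0_lower {ε : ℝ} (hε : 0 < ε) : ∀ᶠ R : ℕ in atTop, Odd R →
    Real.exp ((gam - ε) * R) ≤ ‖lam0 R‖ := by
  filter_upwards [P_lower hε, eventually_ge_atTop 1000001] with R h hR hodd
  obtain ⟨h1, h2⟩ := h hodd
  obtain ⟨r, rfl⟩ := hodd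
  rw [show (2 * r + 1) / 2 = r by omega] at h2
  exact h2.trans ((single_le_sum (f := fun k => ‖P (2 * r + 1) k r‖)
    (fun _ _ => norm_nonneg _) h1).trans (b9_lam0 (by omega)))

theorem Y_top {ε : ℝ} (hε : 0 < ε) : ∀ᶠ R : ℕ in atTop, Odd R →
    Real.exp ((gam - ε) * R) ≤ ‖Y R ((R / 2 : ℕ) : ℤ)‖ := by
  obtain ⟨δ, hδ, hc⟩ := YW_close
  have hη : 0 < min ε δ / 2 := by positivity
  have ht : Tendsto (fun R : ℕ => min ε δ / 2 * (R : ℝ)) atTop atTop :=
    tendsto_natCast_atTop_atTop.const_mul_atTop hη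
  filter_upwards [P_lower hη, hc, ht.eventually_ge_atTop 1] with R h hc h3 hodd
  obtain ⟨h1, h2⟩ := h hodd
  have h4 := hc hodd ((R / 2 : ℕ) : ℤ)
  obtain ⟨r, rfl⟩ := hodd
  rw [show (2 * r + 1) / 2 = r by omega] at h2 h4 ⊢
  have e1 : W (2 * r + 1) r = I * (∑ k ∈ Kmid (2 * r + 1), ‖P (2 * r + 1) k r‖ : ℝ) := by
    rw [W, ofReal_sum, mul_sum]
    refine sum_congr rfl fun k hk => ?_
    obtain ⟨d, hd, -⟩ := b9_Kmid hk
    obtain ⟨c, hc, h⟩ := b9_mid (r := r) k (by omega)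
    rw [b9_norm 0 hc (by rw [h]; ring), h]
  have e2 : ‖P (2 * r + 1) (5 * (2 * r + 1) / 12) r‖ ≤ ‖W (2 * r + 1) r‖ := by
    rw [e1, norm_mul, norm_I, one_mul, norm_real, Real.norm_eq_abs]
    exact (single_le_sum (f := fun k => ‖P (2 * r + 1) k r‖)
      (fun _ _ => norm_nonneg _) h1).trans (le_abs_self _)
  have e3 := norm_sub_norm_le (W (2 * r + 1) r) (Y (2 * r + 1) r)
  rw [norm_sub_rev] at e3
  have hR : (0 : ℝ) ≤ (2 * r + 1 : ℕ) := Nat.cast_nonneg _
  generalize ((2 * r + 1 : ℕ) : ℝ) = R at *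
  have f1 : Real.exp ((gam - ε) * R) ≤ Real.exp ((gam - min ε δ) * R) :=
    Real.exp_le_exp.2 (mul_le_mul_of_nonneg_right (by linarith only [min_le_left ε δ]) hR)
  have f2 : Real.exp ((gam - δ) * R) ≤ Real.exp ((gam - min ε δ) * R) :=
    Real.exp_le_exp.2 (mul_le_mul_of_nonneg_right (by linarith only [min_le_right ε δ]) hR)
  have f3 : Real.exp ((gam - min ε δ / 2) * R)
      = Real.exp ((gam - min ε δ) * R) * Real.exp (min ε δ / 2 * R) := by
    rw [← Real.exp_add]; congr 1; ring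
  have f4 : 2 ≤ Real.exp (min ε δ / 2 * R) := by
    linarith only [h3, Real.add_one_le_exp (min ε δ / 2 * R)]
  have f5 := mul_le_mul_of_nonneg_left f4 (Real.exp_pos ((gam - min ε δ) * R)).le
  linarith only [e2, e3, h2, h4, f1, f2, f3, f5]

end Pool.Agent.Work.MP_c404d3_gt
end

-- merged part: Pool.Agent.Work.MP_c404d3_gt.B10
section
/-!
B10: asymptotics of Ssum and of Tsum.
-/

namespace Pool.Agent.Work.MP_c404d3_gt

open scoped BigOperators Real Topology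
open Finset Filter Complex

theorem absorb {δ : ℝ} (hδ : 0 < δ) (C : ℝ) (p : ℕ) :
    ∀ᶠ R : ℕ in atTop, C * (R : ℝ) ^ p ≤ Real.exp (δ * R) := by
  have h1 : Tendsto (fun x : ℝ => Real.exp (δ * x) / x ^ (p : ℝ)) atTop atTop :=
    tendsto_exp_mul_div_rpow_atTop p δ hδ
  have h2 := (h1.comp tendsto_natCast_atTop_atTop).eventually_ge_atTop C
  filter_upwards [h2, eventually_gt_atTop 0] with R hR hR0
  have hp : (0 : ℝ) < (R : ℝ) ^ p := by positivity
  simp only [Function.comp, Real.rpow_natCast] at hR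
  exact (le_div_iff₀ hp).1 hR

theorem exp_mono {R : ℕ} {a b : ℝ} (h : a ≤ b) : Real.exp (a * R) ≤ Real.exp (b * R) :=
  Real.exp_le_exp.2 (mul_le_mul_of_nonneg_right h (Nat.cast_nonneg R))

theorem absorb' {R : ℕ} {a δ c : ℝ} (h : c ≤ Real.exp (δ / 2 * R)) :
    c * Real.exp ((a - δ) * R) ≤ Real.exp ((a - δ / 2) * R) := by
  calc c * Real.exp ((a - δ) * R) ≤ Real.exp (δ / 2 * R) * Real.exp ((a - δ) * R) :=
        mul_le_mul_of_nonneg_right h (Real.exp_pos _).le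
    _ = _ := by rw [← Real.exp_add]; congr 1; ring

theorem card_win_le (R : ℕ) (η : ℝ) : ((win R η).card : ℝ) ≤ R := by
  have : (win R η).card ≤ (Ico (0 : ℤ) R).card := Finset.card_filter_le _ _
  simp only [Int.card_Ico, sub_zero, Int.toNat_natCast] at this
  exact_mod_cast this

theorem win_bound {R : ℕ} (hR : 0 < R) (η : ℝ) {M b : ℝ} (hM0 : 0 ≤ M) (hb0 : 0 ≤ b)
    (hM : ∀ v, ‖four R v‖ ≤ M) (D : ℤ → ℤ → ℂ)
    (hD : ∀ u ∈ win R η, ∀ v ∈ win R η, ‖D u v‖ ≤ b) :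
    ‖((1 / NR R : ℝ) : ℂ) * ∑ v ∈ win R η, ∑ u ∈ win R η, four R v * D u v‖ ≤
      (R : ℝ) ^ 2 * (M * b) := by
  have h1 : ‖((1 / NR R : ℝ) : ℂ)‖ ≤ 1 := by
    have := one_le_NR hR
    rw [Complex.norm_real, Real.norm_eq_abs, abs_of_pos (by positivity)]
    exact (div_le_one (by linarith)).2 this
  have hc := card_win_le R η
  have h2 : ‖∑ v ∈ win R η, ∑ u ∈ win R η, four R v * D u v‖ ≤ (R : ℝ) ^ 2 * (M * b) := by
    calc _ ≤ ∑ v ∈ win R η, ‖∑ u ∈ win R η, four R v * D u v‖ := norm_sum_le _ _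
      _ ≤ ∑ _v ∈ win R η, (R : ℝ) * (M * b) := by
        refine Finset.sum_le_sum fun v hv => ?_
        calc _ ≤ ∑ u ∈ win R η, ‖four R v * D u v‖ := norm_sum_le _ _
          _ ≤ ∑ _u ∈ win R η, M * b := by
            refine Finset.sum_le_sum fun u hu => ?_
            rw [norm_mul]
            exact mul_le_mul (hM v) (hD u hu v hv) (norm_nonneg _) hM0
          _ ≤ _ := by
            rw [Finset.sum_const, nsmul_eq_mul]
            exact mul_le_mul_of_nonneg_right hc (by positivity)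
      _ ≤ _ := by
        rw [Finset.sum_const, nsmul_eq_mul, sq, mul_assoc]
        exact mul_le_mul_of_nonneg_right hc (by positivity)
  rw [norm_mul]
  calc _ ≤ 1 * ((R : ℝ) ^ 2 * (M * b)) := mul_le_mul h1 h2 (norm_nonneg _) zero_le_one
    _ = _ := one_mul _

theorem passes : ∃ δ > 0, ∃ G : ℕ → ℂ, ∀ᶠ R : ℕ in atTop, Odd R → 5 ∣ R →
    ∀ l ∈ Ico (-6 : ℤ) 6,
      ‖∑ k ∈ Ico (pk R l) (pk R (l + 1)), chirp R k * W R (12 * k + 1) - om R l * G R‖ ≤
        Real.exp ((gam - δ) * R) ∧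
      ‖∑ k ∈ Ico (pk R l) (pk R (l + 1)), chirp R k * Psi R k * W R (12 * k + 1) -
        chi l * aR R * om R l * G R‖ ≤ Real.exp ((gam - δ) * R) := by
  obtain ⟨ηI, hηI, δI, hδI, hI⟩ := I_main
  obtain ⟨ηJ, hηJ, δJ, hδJ, hJ⟩ := J_main
  set η := min (min ηI ηJ) (1 / 10) with hηdef
  have hη : 0 < η := lt_min (lt_min hηI hηJ) (by norm_num)
  have hη1 : η ≤ ηI := (min_le_left _ _).trans (min_le_left _ _)
  have hη2 : η ≤ ηJ := (min_le_left _ _).trans (min_le_right _ _)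
  obtain ⟨δ1, hδ1, h1⟩ := one_pass hη (min_le_right _ _)
  set δ := min δ1 (min δI δJ / 2) with hδdef
  have hδ : 0 < δ := lt_min hδ1 (by have := lt_min hδI hδJ; linarith only [this])
  have hδa : δ ≤ δ1 := min_le_left _ _
  have hδb : 2 * δ ≤ δI := by
    have := min_le_right δ1 (min δI δJ / 2); have := min_le_left δI δJ; linarith
  have hδc : 2 * δ ≤ δJ := by
    have := min_le_right δ1 (min δI δJ / 2); have := min_le_right δI δJ; linarith
  refine ⟨δ / 2, by linarith, fun R => ((1 / NR R : ℝ) : ℂ) * ∑ v ∈ win R η, ∑ u ∈ win R η,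
    four R v * (pre R u v * gmain R (1 - I / 6) (bet R u v) / 12), ?_⟩
  filter_upwards [hI, hJ, h1, W_upper hδ, absorb (half_pos hδ) 2 2, eventually_ge_atTop 1]
    with R hI hJ h1 hW hab hR1 hodd h5 l hl
  have hR : 0 < R := hR1
  have hR1' : (1 : ℝ) ≤ R := by exact_mod_cast hR1
  have hfour := four_le hR (hW hodd)
  have hwin : ∀ {u : ℤ} {η' : ℝ}, η ≤ η' → u ∈ win R η → |(u : ℝ) - R / 2| ≤ η' * R := by
    intro u η' h hu
    exact (Finset.mem_filter.1 hu).2.trans (mul_le_mul_of_nonneg_right h (by positivity))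
  have fin : ∀ {x y z : ℂ} {d : ℝ}, 2 * δ ≤ d → ‖x - y‖ ≤ Real.exp ((gam - δ1) * R) →
      ‖y - z‖ ≤ (R : ℝ) ^ 2 * (Real.exp ((gam + δ) * R) * Real.exp (-d * R)) →
      ‖x - z‖ ≤ Real.exp ((gam - δ / 2) * R) := by
    intro x y z d hd hxy hyz
    have e1 : Real.exp ((gam + δ) * R) * Real.exp (-d * R) ≤ Real.exp ((gam - δ) * R) := by
      rw [← Real.exp_add, ← add_mul]
      exact exp_mono (by linarith only [hd])
    have e2 : Real.exp ((gam - δ1) * R) ≤ Real.exp ((gam - δ) * R) := exp_mono (by linarith only [hδa])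
    have e3 : (1 : ℝ) ≤ (R : ℝ) ^ 2 := one_le_pow₀ hR1'
    have e0 := Real.exp_pos ((gam - δ) * R)
    calc ‖x - z‖ ≤ ‖x - y‖ + ‖y - z‖ := norm_sub_le_norm_sub_add_norm_sub _ _ _
      _ ≤ 2 * (R : ℝ) ^ 2 * Real.exp ((gam - δ) * R) := by
        linarith only [hxy, hyz, e2, mul_le_mul_of_nonneg_right e3 e0.le,
          mul_le_mul_of_nonneg_left e1 (sq_nonneg (R : ℝ))]
      _ ≤ _ := absorb' hab
  constructor
  · refine fin hδb (h1 hodd (chirp R) (fun k => by rw [norm_chirp]; exact hR1') l) ?_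
    have := win_bound hR η (Real.exp_pos _).le (Real.exp_pos (-δI * R)).le hfour
      (fun u v => Isum R u v l - pre R u v * om R l * gmain R (1 - I / 6) (bet R u v) / 12)
      (fun u hu v hv => hI hodd u v l (hwin hη1 hu) (hwin hη1 hv))
    convert this using 2
    simp only [Isum, mul_sub, Finset.sum_sub_distrib, Finset.mul_sum]
    congr 1
    refine Finset.sum_congr rfl fun v _ => Finset.sum_congr rfl fun u _ => ?_
    ring
  · refine fin hδc (h1 hodd (fun k => chirp R k * Psi R k) (fun k => by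
      rw [norm_mul, norm_chirp, one_mul]; exact norm_Psi_le R k) l) ?_
    have := win_bound hR η (Real.exp_pos _).le (Real.exp_pos (-δJ * R)).le hfour
      (fun u v => Jsum R u v l - chi l * aR R *
        (pre R u v * om R l * gmain R (1 - I / 6) (bet R u v) / 12))
      (fun u hu v hv => hJ hodd h5 u v l hl (hwin hη2 hu) (hwin hη2 hv))
    convert this using 2
    simp only [Jsum, mul_sub, Finset.sum_sub_distrib, Finset.mul_sum]
    congr 1
    refine Finset.sum_congr rfl fun v _ => Finset.sum_congr rfl fun u _ => ?_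
    ring

theorem sum_split (a : ℤ → ℤ) (ha : Monotone a) (f : ℤ → ℂ) (s : ℤ) (N : ℕ) :
    ∑ l ∈ Ico s (s + N), ∑ k ∈ Ico (a l) (a (l + 1)), f k = ∑ k ∈ Ico (a s) (a (s + N)), f k := by
  induction N with
  | zero => simp
  | succ N ih =>
    have e : s + ((N + 1 : ℕ) : ℤ) = s + N + 1 := by push_cast; ring
    rw [e, ← Finset.insert_Ico_right_eq_Ico_add_one (by omega), Finset.sum_insert (by simp), ih,
      ← Finset.Ico_union_Ico_eq_Ico (ha (by omega : s ≤ s + N)) (ha (by omega : s + N ≤ s + N + 1)),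
      Finset.sum_union (Finset.Ico_disjoint_Ico_consecutive _ _ _), add_comm]

theorem pk_mono (R : ℕ) : Monotone (pk R) := by
  intro a b h
  unfold pk
  refine Int.ediv_le_ediv (by norm_num) ?_
  have : a * (R : ℤ) ≤ b * R := mul_le_mul_of_nonneg_right h (by positivity)
  omega

theorem replace_YW {R n : ℕ} (hodd : Odd R) (h20 : 20 ≤ R) (hn1 : 12 * R ≤ 25 * n)
    (hn2 : n ≤ R / 2) {e : ℝ} (he : 0 ≤ e) (hYW : ∀ m : ℤ, ‖Y R m - W R m‖ ≤ e)
    (hfar : ∀ m : ℤ, (∀ l : ℤ, 1 / 5 * (R : ℝ) ≤ |(m : ℝ) - (l + 1 / 2) * R|) → ‖W R m‖ ≤ e)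
    (c : ℤ → ℂ) (hc : ∀ k, ‖c k‖ ≤ R) :
    ‖∑ k ∈ Ioo (-(n : ℤ)) n, c k * Y R (12 * k + 1) -
      ∑ k ∈ Ico (pk R (-6)) (pk R 6), c k * W R (12 * k + 1)‖ ≤ 2 * (R : ℝ) ^ 2 * e := by
  obtain ⟨r, hr⟩ := hodd
  have p1 : pk R (-6) = -r := by unfold pk; omega
  have p2 : pk R 6 = r + 1 := by unfold pk; omega
  rw [p1, p2]
  have hsub : Ioo (-(n : ℤ)) n ⊆ Ico (-(r : ℤ)) (r + 1) := by
    intro k hk
    have := mem_Ioo.1 hk
    exact mem_Ico.2 (by omega)
  have hcard : ((Ico (-(r : ℤ)) (r + 1)).card : ℝ) = R := by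
    have : (Ico (-(r : ℤ)) (r + 1)).card = R := by rw [Int.card_Ico]; omega
    exact_mod_cast this
  have hR0 : (0 : ℝ) ≤ R := Nat.cast_nonneg R
  rw [← Finset.sum_sdiff hsub]
  have b1 : ‖∑ k ∈ Ioo (-(n : ℤ)) n, c k * Y R (12 * k + 1) -
      ∑ k ∈ Ioo (-(n : ℤ)) n, c k * W R (12 * k + 1)‖ ≤ (R : ℝ) ^ 2 * e := by
    rw [← Finset.sum_sub_distrib]
    calc _ ≤ ∑ k ∈ Ioo (-(n : ℤ)) n, ‖c k * Y R (12 * k + 1) - c k * W R (12 * k + 1)‖ :=
          norm_sum_le _ _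
      _ ≤ ∑ _k ∈ Ioo (-(n : ℤ)) n, (R : ℝ) * e := by
        refine Finset.sum_le_sum fun k _ => ?_
        rw [← mul_sub, norm_mul]
        exact mul_le_mul (hc k) (hYW _) (norm_nonneg _) hR0
      _ ≤ _ := by
        rw [Finset.sum_const, nsmul_eq_mul, sq, mul_assoc]
        refine mul_le_mul_of_nonneg_right ?_ (by positivity)
        rw [← hcard]
        exact_mod_cast Finset.card_le_card hsub
  have b2 : ‖∑ k ∈ Ico (-(r : ℤ)) (r + 1) \ Ioo (-(n : ℤ)) n, c k * W R (12 * k + 1)‖ ≤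
      (R : ℝ) ^ 2 * e := by
    calc _ ≤ ∑ k ∈ Ico (-(r : ℤ)) (r + 1) \ Ioo (-(n : ℤ)) n, ‖c k * W R (12 * k + 1)‖ :=
          norm_sum_le _ _
      _ ≤ ∑ _k ∈ Ico (-(r : ℤ)) (r + 1) \ Ioo (-(n : ℤ)) n, (R : ℝ) * e := by
        refine Finset.sum_le_sum fun k hk => ?_
        rw [norm_mul]
        refine mul_le_mul (hc k) (hfar _ fun l => ?_) (norm_nonneg _) hR0
        obtain ⟨hk1, hk2⟩ := Finset.mem_sdiff.1 hk
        have hk1' := mem_Ico.1 hk1
        rw [mem_Ioo] at hk2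
        have hRr : (R : ℝ) = 2 * r + 1 := by exact_mod_cast hr
        have h20' : (20 : ℝ) ≤ R := by exact_mod_cast h20
        have hn1' : (12 : ℝ) * R ≤ 25 * n := by exact_mod_cast hn1
        have ha : (-(r : ℝ)) ≤ k := by exact_mod_cast hk1'.1
        have hb : (k : ℝ) ≤ r := by exact_mod_cast (by omega : k ≤ r)
        push_cast
        rcases le_or_gt (n : ℤ) k with h | h
        · have hk3 : (n : ℝ) ≤ k := by exact_mod_cast h
          rcases le_or_gt l 5 with h' | h'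
          · have : (l : ℝ) ≤ 5 := by exact_mod_cast h'
            refine le_trans ?_ (le_abs_self _)
            linarith only [hk3, hn1', h20', mul_le_mul_of_nonneg_right this hR0]
          · have : (6 : ℝ) ≤ l := by exact_mod_cast (by omega : 6 ≤ l)
            refine le_trans ?_ (neg_le_abs _)
            linarith only [hb, hRr, h20', mul_le_mul_of_nonneg_right this hR0]
        · have hk3 : (k : ℝ) ≤ -n := by exact_mod_cast (by omega : k ≤ -(n : ℤ))
          rcases le_or_gt (-6) l with h' | h'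
          · have : (-6 : ℝ) ≤ l := by exact_mod_cast h'
            refine le_trans ?_ (neg_le_abs _)
            linarith only [hk3, hn1', h20', mul_le_mul_of_nonneg_right this hR0]
          · have : (l : ℝ) ≤ -7 := by exact_mod_cast (by omega : l ≤ -7)
            refine le_trans ?_ (le_abs_self _)
            linarith only [ha, hRr, h20', mul_le_mul_of_nonneg_right this hR0]
      _ ≤ _ := by
        rw [Finset.sum_const, nsmul_eq_mul, sq, mul_assoc]
        refine mul_le_mul_of_nonneg_right ?_ (by positivity)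
        rw [← hcard]
        exact_mod_cast Finset.card_le_card Finset.sdiff_subset
  calc _ = ‖(∑ k ∈ Ioo (-(n : ℤ)) n, c k * Y R (12 * k + 1) -
      ∑ k ∈ Ioo (-(n : ℤ)) n, c k * W R (12 * k + 1)) -
      ∑ k ∈ Ico (-(r : ℤ)) (r + 1) \ Ioo (-(n : ℤ)) n, c k * W R (12 * k + 1)‖ := by
        congr 1; ring
    _ ≤ _ := (norm_sub_le _ _).trans (by linarith only [b1, b2])

theorem norm_kappa_le (R : ℕ) : ‖2 * cexp (π * I / 3) * (1 - cexp (2 * π * I * R / 3))‖ ≤ 4 := by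
  have h1 : ‖cexp (π * I / 3)‖ = 1 := by
    have : (π * I / 3 : ℂ) = ((π / 3 : ℝ) : ℂ) * I := by push_cast; ring
    rw [this, Complex.norm_exp_ofReal_mul_I]
  have h2 : ‖cexp (2 * π * I * R / 3)‖ = 1 := by
    have : (2 * π * I * R / 3 : ℂ) = ((2 * π * R / 3 : ℝ) : ℂ) * I := by push_cast; ring
    rw [this, Complex.norm_exp_ofReal_mul_I]
  have h3 : ‖1 - cexp (2 * π * I * R / 3)‖ ≤ 2 := by
    refine (norm_sub_le _ _).trans ?_
    rw [h2, norm_one]; norm_num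
  rw [norm_mul, norm_mul, h1]
  simp only [Complex.norm_ofNat]
  linarith only [h3]

theorem norm_kappa_ge {R : ℕ} (h3 : ¬ 3 ∣ R) :
    2 ≤ ‖2 * cexp (π * I / 3) * (1 - cexp (2 * π * I * R / 3))‖ := by
  have h1 : ‖cexp (π * I / 3)‖ = 1 := by
    have : (π * I / 3 : ℂ) = ((π / 3 : ℝ) : ℂ) * I := by push_cast; ring
    rw [this, Complex.norm_exp_ofReal_mul_I]
  have h2 : (cexp (2 * π * I * R / 3)).re = -1 / 2 := by
    have : (2 * π * I * R / 3 : ℂ) = ((2 * π * R / 3 : ℝ) : ℂ) * I := by push_cast; ring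
    rw [this, Complex.exp_ofReal_mul_I_re]
    have hc : Real.cos (2 * π / 3) = -1 / 2 := by
      have : 2 * π / 3 = π - π / 3 := by ring
      rw [this, Real.cos_pi_sub, Real.cos_pi_div_three]; norm_num
    obtain ⟨t, ht | ht⟩ : ∃ t : ℕ, R = 3 * t + 1 ∨ R + 1 = 3 * t := by
      rcases (by omega : R % 3 = 1 ∨ R % 3 = 2) with h | h
      · exact ⟨R / 3, Or.inl (by omega)⟩
      · exact ⟨R / 3 + 1, Or.inr (by omega)⟩
    · have : 2 * π * R / 3 = 2 * π / 3 + t * (2 * π) := by rw [ht]; push_cast; ring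
      rw [this, Real.cos_add_nat_mul_two_pi, hc]
    · have hR : (R : ℝ) = 3 * t - 1 := by
        have : ((R + 1 : ℕ) : ℝ) = ((3 * t : ℕ) : ℝ) := by rw [ht]
        push_cast at this; linarith only [this]
      have : 2 * π * R / 3 = -(2 * π / 3) + t * (2 * π) := by rw [hR]; ring
      rw [this, Real.cos_add_nat_mul_two_pi, Real.cos_neg, hc]
  have h4 : 1 ≤ ‖1 - cexp (2 * π * I * R / 3)‖ := by
    refine le_trans ?_ (Complex.re_le_norm _)
    rw [Complex.sub_re, h2]; norm_num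
  rw [norm_mul, norm_mul, h1]
  simp only [Complex.norm_ofNat]
  linarith only [h4]

theorem S_asym : ∃ δ > 0, ∀ᶠ R : ℕ in atTop, Odd R → 5 ∣ R → ∀ n : ℕ, 12 * R ≤ 25 * n →
    n ≤ R / 2 →
    ‖Ssum R n + aR R * (2 * cexp (π * I / 3) * (1 - cexp (2 * π * I * R / 3))) * lam0 R‖ ≤
      Real.exp ((gam - δ) * R) := by
  obtain ⟨δ1, hδ1, G, h1⟩ := passes
  obtain ⟨δ2, hδ2, h2⟩ := YW_close
  obtain ⟨δ3, hδ3, h3⟩ := W_far (η := 1 / 5) (by norm_num)
  obtain ⟨δ, hδ, ha, hb, hc⟩ : ∃ δ > 0, δ ≤ δ1 ∧ δ ≤ δ2 ∧ δ ≤ δ3 :=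
    ⟨min δ1 (min δ2 δ3), lt_min hδ1 (lt_min hδ2 hδ3), min_le_left _ _,
      (min_le_right _ _).trans (min_le_left _ _), (min_le_right _ _).trans (min_le_right _ _)⟩
  refine ⟨δ / 2, half_pos hδ, ?_⟩
  filter_upwards [h1, h2, h3, absorb (half_pos hδ) 40 3, eventually_ge_atTop 20]
    with R h1 h2 h3 hab h20 hodd h5 n hn1 hn2
  set e := Real.exp ((gam - δ) * R) with he
  have he0 : 0 < e := Real.exp_pos _
  have hR1 : (20 : ℝ) ≤ R := by exact_mod_cast h20
  have hrep := replace_YW hodd h20 hn1 hn2 he0.le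
    (fun m => (h2 hodd m).trans (exp_mono (by linarith only [hb])))
    (fun m hm => (h3 hodd m hm).trans (exp_mono (by linarith only [hc])))
  have hA := hrep (chirp R) (fun k => by rw [norm_chirp]; linarith only [hR1])
  have hB := hrep (fun k => chirp R k * Psi R k) (fun k => by
    rw [norm_mul, norm_chirp, one_mul]; exact norm_Psi_le R k)
  have hs := fun f => sum_split (pk R) (pk_mono R) f (-6) 12
  have e6 : (-6 : ℤ) + ((12 : ℕ) : ℤ) = 6 := by norm_num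
  rw [e6] at hs
  rw [← hs] at hA hB
  have hc12 : ((Ico (-6 : ℤ) 6).card : ℝ) = 12 := by simp
  have hA' : ‖∑ l ∈ Ico (-6 : ℤ) 6, ∑ k ∈ Ico (pk R l) (pk R (l + 1)),
      chirp R k * W R (12 * k + 1)‖ ≤ 12 * e := by
    have : ∑ l ∈ Ico (-6 : ℤ) 6, ∑ k ∈ Ico (pk R l) (pk R (l + 1)),
        chirp R k * W R (12 * k + 1) = ∑ l ∈ Ico (-6 : ℤ) 6, (∑ k ∈ Ico (pk R l) (pk R (l + 1)),
        chirp R k * W R (12 * k + 1) - om R l * G R) := by
      rw [Finset.sum_sub_distrib, ← Finset.sum_mul, om_sum hodd]; ring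
    rw [this]
    refine (norm_sum_le _ _).trans ?_
    rw [← hc12, ← nsmul_eq_mul, ← Finset.sum_const]
    exact Finset.sum_le_sum fun l hl => (h1 hodd h5 l hl).1.trans (exp_mono (by linarith only [ha]))
  set κ := 2 * cexp (π * I / 3) * (1 - cexp (2 * π * I * R / 3)) with hκ
  have hB' : ‖∑ l ∈ Ico (-6 : ℤ) 6, ∑ k ∈ Ico (pk R l) (pk R (l + 1)),
      chirp R k * Psi R k * W R (12 * k + 1) - aR R * κ * G R‖ ≤ 12 * e := by
    have : ∑ l ∈ Ico (-6 : ℤ) 6, ∑ k ∈ Ico (pk R l) (pk R (l + 1)),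
        chirp R k * Psi R k * W R (12 * k + 1) - aR R * κ * G R =
        ∑ l ∈ Ico (-6 : ℤ) 6, (∑ k ∈ Ico (pk R l) (pk R (l + 1)),
        chirp R k * Psi R k * W R (12 * k + 1) - chi l * aR R * om R l * G R) := by
      rw [Finset.sum_sub_distrib, hκ, ← chi_om_sum hodd, Finset.mul_sum, Finset.sum_mul]
      congr 1
      exact Finset.sum_congr rfl fun l _ => by ring
    rw [this]
    refine (norm_sum_le _ _).trans ?_
    rw [← hc12, ← nsmul_eq_mul, ← Finset.sum_const]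
    exact Finset.sum_le_sum fun l hl => (h1 hodd h5 l hl).2.trans (exp_mono (by linarith only [ha]))
  have hL : ‖lam0 R - G R‖ ≤ e := by
    have := (h1 hodd h5 0 (by simp)).1
    have ho : om R 0 = 1 := by simp [om]
    rw [ho, one_mul, zero_add] at this
    exact this.trans (exp_mono (by linarith only [ha]))
  have haR : ‖aR R‖ ≤ R := by
    rw [norm_aR (by omega)]
    refine Real.sqrt_le_iff.2 ⟨Nat.cast_nonneg R, by
      linarith only [hR1, mul_le_mul_of_nonneg_right hR1 (Nat.cast_nonneg R)]⟩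
  have hκ4 : ‖κ‖ ≤ 4 := norm_kappa_le R
  rw [Ssum_eq hodd h5]
  set A0 := ∑ k ∈ Ioo (-(n : ℤ)) n, chirp R k * Y R (12 * k + 1)
  set B0 := ∑ k ∈ Ioo (-(n : ℤ)) n, chirp R k * Psi R k * Y R (12 * k + 1)
  set A1 := ∑ l ∈ Ico (-6 : ℤ) 6, ∑ k ∈ Ico (pk R l) (pk R (l + 1)), chirp R k * W R (12 * k + 1)
  set B1 := ∑ l ∈ Ico (-6 : ℤ) 6, ∑ k ∈ Ico (pk R l) (pk R (l + 1)),
      chirp R k * Psi R k * W R (12 * k + 1)
  have nA : ‖A0‖ ≤ (2 * (R : ℝ) ^ 2 + 12) * e := by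
    calc ‖A0‖ = ‖(A0 - A1) + A1‖ := by congr 1; ring
      _ ≤ _ := (norm_add_le _ _).trans (by linarith only [hA', hA])
  have n1 : ‖Psi R n * A0‖ ≤ R * ((2 * (R : ℝ) ^ 2 + 12) * e) := by
    rw [norm_mul]
    exact mul_le_mul (norm_Psi_le R n) nA (norm_nonneg _) (by linarith only [hR1])
  have n2 : ‖aR R * κ * (lam0 R - G R)‖ ≤ R * 4 * e := by
    rw [norm_mul, norm_mul]
    exact mul_le_mul (mul_le_mul haR hκ4 (norm_nonneg _) (by linarith only [hR1])) hL (norm_nonneg _)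
      (by linarith only [hR1])
  calc _ = ‖Psi R n * A0 - (B0 - B1) - (B1 - aR R * κ * G R) + aR R * κ * (lam0 R - G R)‖ := by
        congr 1; ring
    _ ≤ ‖Psi R n * A0‖ + ‖B0 - B1‖ + ‖B1 - aR R * κ * G R‖ + ‖aR R * κ * (lam0 R - G R)‖ := by
        refine (norm_add_le _ _).trans (add_le_add_left ?_ _)
        refine (norm_sub_le _ _).trans (add_le_add_left (norm_sub_le _ _) _)
    _ ≤ (R * (2 * (R : ℝ) ^ 2 + 12) + 2 * (R : ℝ) ^ 2 + 12 + R * 4) * e := by linarith only [hB', hB, n1, n2]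
    _ ≤ 40 * (R : ℝ) ^ 3 * e := by
        refine mul_le_mul_of_nonneg_right ?_ he0.le
        linarith only [hR1, mul_le_mul_of_nonneg_right hR1 (Nat.cast_nonneg R),
          mul_le_mul_of_nonneg_right hR1 (sq_nonneg (R : ℝ))]
    _ ≤ _ := absorb' hab

theorem Ssum_le {R n : ℕ} (hn : n ≤ R / 2) {U : ℝ} (hU : ∀ m : ℤ, ‖Y R m‖ ≤ U) :
    ‖Ssum R n‖ ≤ (R : ℝ) ^ 2 * U := by
  have hU0 : 0 ≤ U := (norm_nonneg _).trans (hU 0)
  unfold Ssum
  calc _ ≤ ∑ s ∈ range n, ‖psi R s * ∑ k ∈ Icc (-(s : ℤ)) s, chirp R k * Y R (12 * k + 1)‖ :=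
        norm_sum_le _ _
    _ ≤ ∑ _s ∈ range n, (R : ℝ) * U := by
      refine Finset.sum_le_sum fun s hs => ?_
      have hs' := mem_range.1 hs
      rw [norm_mul, norm_psi, one_mul]
      calc _ ≤ ∑ k ∈ Icc (-(s : ℤ)) s, ‖chirp R k * Y R (12 * k + 1)‖ := norm_sum_le _ _
        _ ≤ ∑ _k ∈ Icc (-(s : ℤ)) s, U := by
          refine Finset.sum_le_sum fun k _ => ?_
          rw [norm_mul, norm_chirp, one_mul]
          exact hU _
        _ ≤ _ := by
          rw [Finset.sum_const, nsmul_eq_mul]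
          refine mul_le_mul_of_nonneg_right ?_ hU0
          have : (Icc (-(s : ℤ)) s).card ≤ R := by rw [Int.card_Icc]; omega
          exact_mod_cast this
    _ ≤ _ := by
      rw [Finset.sum_const, nsmul_eq_mul, card_range, sq, mul_assoc]
      refine mul_le_mul_of_nonneg_right ?_ (by positivity)
      exact_mod_cast (by omega : n ≤ R)

theorem T_upper : ∃ δ > 0, ∀ᶠ R : ℕ in atTop, Odd R → 15 ∣ R →
    Tsum R ≤ Real.exp ((4 * gam - δ) * R) := by
  obtain ⟨δ1, hδ1, h1⟩ := S_asym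
  obtain ⟨δ2, hδ2, h2⟩ := YW_close
  obtain ⟨δ3, hδ3, h3⟩ := W_far (η := 1 / 50) (by norm_num)
  obtain ⟨δ, hδ, ha, hb, hc⟩ : ∃ δ > 0, δ ≤ δ1 ∧ δ ≤ δ2 ∧ δ ≤ δ3 :=
    ⟨min δ1 (min δ2 δ3), lt_min hδ1 (lt_min hδ2 hδ3), min_le_left _ _,
      (min_le_right _ _).trans (min_le_left _ _), (min_le_right _ _).trans (min_le_right _ _)⟩
  refine ⟨δ / 2, half_pos hδ, ?_⟩
  filter_upwards [h1, h2, h3, Y_upper (half_pos hδ), absorb (half_pos hδ) 4 6,
    eventually_ge_atTop 1] with R h1 h2 h3 hY hab hR1 hodd h15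
  set e := Real.exp ((gam - δ) * R) with he
  set U := Real.exp ((gam + δ / 2) * R) with hU
  have he0 : 0 < e := Real.exp_pos _
  have hU0 : 0 < U := Real.exp_pos _
  have hR1' : (1 : ℝ) ≤ R := by exact_mod_cast hR1
  have h5 : 5 ∣ R := Dvd.dvd.trans (by norm_num) h15
  have hz : cexp (2 * π * I * R / 3) = 1 := by
    obtain ⟨t, ht⟩ := h15
    have : (2 * π * I * R / 3 : ℂ) = ((5 * t : ℕ) : ℂ) * (2 * π * I) := by
      rw [ht]; push_cast; ring
    rw [this, Complex.exp_nat_mul_two_pi_mul_I]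
  have hterm : ∀ n ∈ Icc 1 (R / 2), ‖Y R n / br R n * Ssum R n‖ ≤ 2 * (R : ℝ) ^ 3 * (e * U) := by
    intro n hn
    obtain ⟨hn1, hn2⟩ := mem_Icc.1 hn
    have hbr := norm_br_ge hodd hn1 (by omega)
    have hbr0 : 0 < ‖br R n‖ := lt_of_lt_of_le (by positivity) hbr
    have key : ‖Y R n‖ * ‖Ssum R n‖ ≤ 2 * (R : ℝ) ^ 2 * (e * U) := by
      rcases le_or_gt (12 * R) (25 * n) with h | h
      · have hS := h1 hodd h5 n h hn2
        rw [hz, sub_self, mul_zero, mul_zero, zero_mul, add_zero] at hS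
        have hS' : ‖Ssum R n‖ ≤ e := hS.trans (exp_mono (by linarith only [ha]))
        have := mul_le_mul (hY hodd n) hS' (norm_nonneg _) hU0.le
        have e3 : (1 : ℝ) ≤ (R : ℝ) ^ 2 := one_le_pow₀ hR1'
        linarith only [this, mul_pos he0 hU0,
          mul_le_mul_of_nonneg_right e3 (mul_pos he0 hU0).le]
      · have hW : ‖W R n‖ ≤ e := by
          refine (h3 hodd n fun l => ?_).trans (exp_mono (by linarith only [hc]))
          have h' : (25 : ℝ) * n ≤ 12 * R := by exact_mod_cast h.le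
          have hn0 : (0 : ℝ) ≤ n := Nat.cast_nonneg n
          push_cast
          rcases le_or_gt 0 l with hl | hl
          · have : (0 : ℝ) ≤ l := by exact_mod_cast hl
            refine le_trans ?_ (neg_le_abs _)
            linarith only [h', mul_le_mul_of_nonneg_right this (Nat.cast_nonneg (α := ℝ) R)]
          · have : (l : ℝ) ≤ -1 := by exact_mod_cast (by omega : l ≤ -1)
            refine le_trans ?_ (le_abs_self _)
            linarith only [hn0, hR1',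
              mul_le_mul_of_nonneg_right this (Nat.cast_nonneg (α := ℝ) R)]
        have hYn : ‖Y R n‖ ≤ 2 * e := by
          calc ‖Y R n‖ = ‖(Y R n - W R n) + W R n‖ := by congr 1; ring
            _ ≤ _ := (norm_add_le _ _).trans (by
              have := (h2 hodd n).trans (exp_mono (by linarith only [hb] : gam - δ2 ≤ gam - δ))
              linarith only [hW, this])
        have := mul_le_mul hYn (Ssum_le hn2 (hY hodd)) (norm_nonneg _) (by positivity)
        linarith only [this]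
    rw [norm_mul, norm_div, div_mul_eq_mul_div, div_le_iff₀ hbr0]
    have : (1 : ℝ) ≤ R * ‖br R n‖ := by
      rw [div_le_iff₀ (by linarith only [hR1'])] at hbr; linarith only [hbr]
    calc _ ≤ 2 * (R : ℝ) ^ 2 * (e * U) * 1 := by linarith only [key]
      _ ≤ 2 * (R : ℝ) ^ 2 * (e * U) * (R * ‖br R n‖) :=
        mul_le_mul_of_nonneg_left this (by positivity)
      _ = _ := by ring
  have hsum : ∑ n ∈ Icc 1 (R / 2), ‖Y R n / br R n * Ssum R n‖ ^ 2 ≤
      R * (2 * (R : ℝ) ^ 3 * (e * U)) ^ 2 := by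
    calc _ ≤ ∑ _n ∈ Icc 1 (R / 2), (2 * (R : ℝ) ^ 3 * (e * U)) ^ 2 :=
          Finset.sum_le_sum fun n hn => pow_le_pow_left₀ (norm_nonneg _) (hterm n hn) 2
      _ ≤ _ := by
        rw [Finset.sum_const, nsmul_eq_mul]
        refine mul_le_mul_of_nonneg_right ?_ (by positivity)
        have : (Icc 1 (R / 2)).card ≤ R := by rw [Nat.card_Icc]; omega
        exact_mod_cast this
  have heU : (e * U) ^ 2 = Real.exp ((4 * gam - δ) * R) := by
    rw [he, hU, ← Real.exp_add, sq, ← Real.exp_add]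
    congr 1; ring
  unfold Tsum
  rw [div_le_iff₀ (by linarith only [hR1'])]
  calc _ ≤ R * (2 * (R : ℝ) ^ 3 * (e * U)) ^ 2 := hsum
    _ = (4 * (R : ℝ) ^ 6 * Real.exp ((4 * gam - δ) * R)) * R := by rw [← heU]; ring
    _ ≤ _ := mul_le_mul_of_nonneg_right (absorb' hab) (by linarith only [hR1'])

theorem T_lower {ε : ℝ} (hε : 0 < ε) : ∀ᶠ R : ℕ in atTop, Odd R → 5 ∣ R → ¬ 3 ∣ R →
    Real.exp ((4 * gam - ε) * R) ≤ Tsum R := by
  obtain ⟨δ, hδ, h1⟩ := S_asym
  set ε' := min δ (ε / 8) with hε'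
  have h0 : 0 < ε' := lt_min hδ (by linarith only [hε])
  have ha : ε' ≤ δ := min_le_left _ _
  have hb : ε' ≤ ε / 8 := min_le_right _ _
  filter_upwards [h1, lam0_lower h0, Y_top h0, absorb (half_pos hε) 4 1,
    eventually_ge_atTop 25] with R h1 hl hY hab h25 hodd h5 h3
  set L := Real.exp ((gam - ε') * R) with hL
  have hL0 : 0 < L := Real.exp_pos _
  have hR : (25 : ℝ) ≤ R := by exact_mod_cast h25
  have hS := (h1 hodd h5 (R / 2) (by omega) le_rfl).trans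
    (exp_mono (by linarith only [ha] : gam - δ ≤ gam - ε'))
  have haR : 1 ≤ ‖aR R‖ := by
    rw [norm_aR (by omega)]
    exact Real.one_le_sqrt.2 (by linarith only [hR])
  have hmain : 2 * L ≤
      ‖aR R * (2 * cexp (π * I / 3) * (1 - cexp (2 * π * I * R / 3))) * lam0 R‖ := by
    rw [norm_mul, norm_mul (aR R)]
    have h2 := norm_kappa_ge h3
    have h4 : 2 ≤ ‖aR R‖ * ‖2 * cexp (π * I / 3) * (1 - cexp (2 * π * I * R / 3))‖ :=
      (one_mul (2 : ℝ)).ge.trans (mul_le_mul haR h2 zero_le_two (norm_nonneg _))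
    exact mul_le_mul h4 (hl hodd) hL0.le (by linarith only [h4])
  have hSl : L ≤ ‖Ssum R (R / 2)‖ := by
    have := norm_sub_le (Ssum R (R / 2) +
      aR R * (2 * cexp (π * I / 3) * (1 - cexp (2 * π * I * R / 3))) * lam0 R) (Ssum R (R / 2))
    rw [add_sub_cancel_left] at this
    linarith only [hS, hmain, this]
  have hbr0 : 0 < ‖br R ((R / 2 : ℕ) : ℤ)‖ :=
    lt_of_lt_of_le (by positivity) (norm_br_ge hodd (by omega) (by omega))
  have hbr2 : ‖br R ((R / 2 : ℕ) : ℤ)‖ ≤ 2 := by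
    rw [norm_br, abs_mul, abs_two]
    have := Real.abs_sin_le_one (2 * π * (((R / 2 : ℕ) : ℤ) : ℝ) / R)
    linarith only [this]
  have hterm : L * L / 2 ≤ ‖Y R ((R / 2 : ℕ) : ℤ) / br R ((R / 2 : ℕ) : ℤ) * Ssum R (R / 2)‖ := by
    rw [norm_mul, norm_div, div_mul_eq_mul_div]
    exact div_le_div₀ (by positivity) (mul_le_mul (hY hodd) hSl hL0.le (norm_nonneg _)) hbr0 hbr2
  have hsum : (L * L / 2) ^ 2 ≤ ∑ n ∈ Icc 1 (R / 2), ‖Y R n / br R n * Ssum R n‖ ^ 2 :=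
    (pow_le_pow_left₀ (by positivity) hterm 2).trans
      (Finset.single_le_sum (f := fun n : ℕ => ‖Y R n / br R n * Ssum R n‖ ^ 2)
        (fun n _ => by positivity) (mem_Icc.2 ⟨by omega, le_rfl⟩))
  have hL4 : Real.exp ((4 * gam - ε / 2) * R) ≤ L ^ 4 := by
    rw [hL, ← Real.exp_nat_mul, ← mul_assoc]
    exact exp_mono (by push_cast; linarith only [hb])
  unfold Tsum
  rw [le_div_iff₀ (by linarith only [hR])]
  have h4 := absorb' (a := 4 * gam) hab
  rw [pow_one] at h4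
  linarith only [h4, hsum, hL4]

end Pool.Agent.Work.MP_c404d3_gt
end
end
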