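import Pool.Agent.Work.MP_c404d3_gt.Defs

-- merged part: Pool.Agent.Work.MP_c404d3_gt.Core
section
-- merged part: Pool.Agent.Work.MP_c404d3_gt.Core
section
/-!
Finite-dimensional weight modules over quantum sl2 as matrices, braidings, braid representations.
Only definitions and trivial lemmas.
-/

namespace Pool.Agent.Work.MP_c404d3_gt

open scoped BigOperators Real Kronecker
open Matrix Finset

/-- quantum integer -/
noncomputable def qi (q : ℂ) (n : ℤ) : ℂ := (q ^ n - q ^ (-n)) / (q - q⁻¹)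

/-- `q ^ n - q ^ (-n)` -/
noncomputable def qb (q : ℂ) (n : ℤ) : ℂ := q ^ n - q ^ (-n)

/-- symmetric Gaussian binomial, defined by the Pascal recursion -/
noncomputable def qbin (q : ℂ) : ℕ → ℕ → ℂ
  | _, 0 => 1
  | 0, _ + 1 => 0
  | n + 1, k + 1 => q ^ (k + 1) * qbin q n (k + 1) + q ^ ((k : ℤ) - n) * qbin q n k

/-- generic parameter -/
def Gen (q : ℂ) : Prop := q ≠ 0 ∧ ∀ n : ℤ, n ≠ 0 → qi q n ≠ 0

/-- module data on a basis of weight vectors; matrices act on columns, entries are (out, in) -/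
structure QD (ι : Type) where
  wt : ι → ℤ
  E : Matrix ι ι ℂ
  F : Matrix ι ι ℂ

section
variable {ι κ ι' κ' : Type} [Fintype ι] [DecidableEq ι] [Fintype κ] [DecidableEq κ]
  [Fintype ι'] [DecidableEq ι'] [Fintype κ'] [DecidableEq κ']

structure IsMod (q : ℂ) (X : QD ι) : Prop where
  E_wt : ∀ i j, X.E i j ≠ 0 → X.wt i = X.wt j + 2
  F_wt : ∀ i j, X.F i j ≠ 0 → X.wt i + 2 = X.wt j
  comm : X.E * X.F - X.F * X.E = Matrix.diagonal fun i => qi q (X.wt i)

noncomputable def Kp (q : ℂ) (X : QD ι) : Matrix ι ι ℂ := Matrix.diagonal fun i => q ^ X.wt i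

noncomputable def Km (q : ℂ) (X : QD ι) : Matrix ι ι ℂ := Matrix.diagonal fun i => q ^ (-X.wt i)

noncomputable def tensor (q : ℂ) (X : QD ι) (Y : QD κ) : QD (ι × κ) where
  wt p := X.wt p.1 + Y.wt p.2
  E := X.E ⊗ₖ (1 : Matrix κ κ ℂ) + Kp q X ⊗ₖ Y.E
  F := X.F ⊗ₖ Km q Y + (1 : Matrix ι ι ℂ) ⊗ₖ Y.F

structure IsHom (X : QD ι) (Y : QD κ) (T : Matrix κ ι ℂ) : Prop where
  wt : ∀ a b, T a b ≠ 0 → Y.wt a = X.wt b
  E : T * X.E = Y.E * T
  F : T * X.F = Y.F * T

/-- the irreducible module of highest weight `m` (dimension `m + 1`) -/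
noncomputable def irr (q : ℂ) (m : ℕ) : QD (Fin (m + 1)) where
  wt i := (m : ℤ) - 2 * (i : ℕ)
  E := Matrix.of fun a b => if (b : ℕ) = a + 1 then qi q ((m : ℤ) - (a : ℕ)) else 0
  F := Matrix.of fun a b => if (a : ℕ) = b + 1 then qi q ((a : ℕ) : ℤ) else 0

def sg (ε : Bool) : ℤ := if ε then 1 else -1

/-- `c` is the braiding of sign `ε` from `X ⊗ Y` to `Y ⊗ X` (with `q = A ^ 2`). -/
structure IsBraid (A : ℂ) (ε : Bool) (X : QD ι) (Y : QD κ) (c : Matrix (κ × ι) (ι × κ) ℂ) :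
    Prop where
  hom : IsHom (tensor (A ^ 2) X Y) (tensor (A ^ 2) Y X) c
  tri : ∀ o p, c o p ≠ 0 → sg ε * X.wt o.2 ≤ sg ε * X.wt p.1
  lead : ∀ o p, X.wt o.2 = X.wt p.1 →
    c o p = if o.2 = p.1 ∧ o.1 = p.2 then A ^ (sg ε * (X.wt p.1 * Y.wt p.2)) else 0

/-- `θ` is the twist of `X`: it acts by `A ^ (m (m + 2))` on every copy of `irr m`. -/
def IsTwist (A : ℂ) (X : QD ι) (θ : Matrix ι ι ℂ) : Prop :=
  ∀ (m : ℕ) (i : Matrix ι (Fin (m + 1)) ℂ), IsHom (irr (A ^ 2) m) X i →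
    θ * i = A ^ ((m : ℤ) * (m + 2)) • i

/-- tensor power -/
noncomputable def pow (q : ℂ) (W : QD ι) (M : ℕ) : QD (Fin M → ι) where
  wt x := ∑ k, W.wt (x k)
  E := Matrix.of fun y x => ∑ k, if (∀ l, l ≠ k → y l = x l) then
    W.E (y k) (x k) * q ^ (∑ l ∈ univ.filter (· < k), W.wt (x l)) else 0
  F := Matrix.of fun y x => ∑ k, if (∀ l, l ≠ k → y l = x l) then
    W.F (y k) (x k) * q ^ (-∑ l ∈ univ.filter (k < ·), W.wt (x l)) else 0

/-- concatenation of configurations -/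
def app {a b M : ℕ} (h : a + b = M) : (Fin a → ι) × (Fin b → ι) ≃ (Fin M → ι) :=
  (Fin.appendEquiv a b).trans (Equiv.arrowCongr (finCongr h) (Equiv.refl ι))

omit [Fintype ι] [DecidableEq ι] in
theorem app_apply {a b M : ℕ} (h : a + b = M) (x : Fin a → ι) (y : Fin b → ι) (k : Fin M) :
    app h (x, y) k = if hk : (k : ℕ) < a then x ⟨k, hk⟩ else y ⟨k - a, by omega⟩ := by
  subst h
  simp only [app, Equiv.trans_apply, Equiv.arrowCongr_apply, finCongr_refl, Equiv.refl_symm,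
    Equiv.coe_refl, Function.comp, id, Fin.appendEquiv_apply]
  refine Fin.addCases (fun i => ?_) (fun i => ?_) k
  · simp
  · simp

/-- the matrix of one letter on `N` strands -/
noncomputable def gen (c : Bool → Matrix (ι × ι) (ι × ι) ℂ) (N : ℕ) (x : ℕ × Bool) :
    Matrix (Fin N → ι) (Fin N → ι) ℂ :=
  if h : x.1 + 1 < N then
    Matrix.of fun y z =>
      if (∀ k : Fin N, (k : ℕ) ≠ x.1 → (k : ℕ) ≠ x.1 + 1 → y k = z k) then
        c x.2 (y ⟨x.1, by omega⟩, y ⟨x.1 + 1, h⟩) (z ⟨x.1, by omega⟩, z ⟨x.1 + 1, h⟩)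
      else 0
  else 1

/-- the braid representation -/
noncomputable def rho (c : Bool → Matrix (ι × ι) (ι × ι) ℂ) (N : ℕ) (w : Word) :
    Matrix (Fin N → ι) (Fin N → ι) ℂ :=
  (w.map (gen c N)).prod

theorem rho_append (c : Bool → Matrix (ι × ι) (ι × ι) ℂ) (N : ℕ) (v w : Word) :
    rho c N (v ++ w) = rho c N v * rho c N w := by
  simp [rho]

theorem rho_cons (c : Bool → Matrix (ι × ι) (ι × ι) ℂ) (N : ℕ) (x : ℕ × Bool) (w : Word) :
    rho c N (x :: w) = gen c N x * rho c N w := by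
  simp [rho]

@[simp] theorem rho_nil (c : Bool → Matrix (ι × ι) (ι × ι) ℂ) (N : ℕ) : rho c N [] = 1 := by
  simp [rho]

/-- tensor product of a family of matrices -/
noncomputable def tens {N : ℕ} (S : Fin N → Matrix κ ι ℂ) : Matrix (Fin N → κ) (Fin N → ι) ℂ :=
  Matrix.of fun y x => ∏ k, S k (y k) (x k)

/-- `τ` on the first strand -/
noncomputable def at0 (N : ℕ) (τ : Matrix ι ι ℂ) : Matrix (Fin N → ι) (Fin N → ι) ℂ :=
  tens fun k => if (k : ℕ) = 0 then τ else 1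

noncomputable def mu (q : ℂ) (X : QD ι) (i : ι) : ℂ := (-q⁻¹) ^ X.wt i

/-- quantum trace -/
noncomputable def qtr (q : ℂ) (X : QD ι) (T : Matrix ι ι ℂ) : ℂ := ∑ i, mu q X i * T i i

/-- trace on the weight space of weight `w` -/
noncomputable def ch (X : QD ι) (T : Matrix ι ι ℂ) (w : ℤ) : ℂ :=
  ∑ i, if X.wt i = w then T i i else 0

/-- invariant of the closed braid coloured by `W`, with `τ` inserted on the first strand -/
noncomputable def Finv (q : ℂ) (W : QD ι) (c : Bool → Matrix (ι × ι) (ι × ι) ℂ) (N : ℕ)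
    (w : Word) (τ : Matrix ι ι ℂ) : ℂ :=
  qtr q (pow q W N) (rho c N w * at0 N τ)

/-- the cabled crossing, from `pow W b ⊗ pow W a` to `pow W a ⊗ pow W b` -/
noncomputable def cross (c : Bool → Matrix (ι × ι) (ι × ι) ℂ) (a b : ℕ) (ε : Bool) :
    Matrix ((Fin a → ι) × (Fin b → ι)) ((Fin b → ι) × (Fin a → ι)) ℂ :=
  (rho c (a + b) (crossWord a b 0 ε)).submatrix (app rfl) (app (Nat.add_comm b a))

end

/-- The explicit braiding of `irr n ⊗ irr n`. Input `(i, j)`, output `(j', i')`. -/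
noncomputable def cV (A : ℂ) (n : ℕ) (ε : Bool) :
    Matrix (Fin (n + 1) × Fin (n + 1)) (Fin (n + 1) × Fin (n + 1)) ℂ :=
  Matrix.of fun o p =>
    if (o.1 : ℕ) + o.2 = p.1 + p.2 then
      if ε then
        if (p.1 : ℕ) ≤ o.2 then
          A ^ (((n : ℤ) - 2 * (o.1 : ℕ)) * ((n : ℤ) - 2 * (o.2 : ℕ))) *
            (A ^ 2) ^ (((o.2 : ℕ) - p.1).choose 2) * qbin (A ^ 2) o.2 (o.2 - p.1) *
            ∏ s ∈ range ((o.2 : ℕ) - p.1), qb (A ^ 2) ((n : ℤ) - (p.2 : ℕ) + (s + 1))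
        else 0
      else
        if (o.2 : ℕ) ≤ p.1 then
          (-1) ^ ((p.1 : ℕ) - o.2) *
            A ^ (-(((n : ℤ) - 2 * (p.1 : ℕ)) * ((n : ℤ) - 2 * (p.2 : ℕ)))) *
            ((A ^ 2)⁻¹) ^ (((p.1 : ℕ) - o.2).choose 2) * qbin (A ^ 2) o.1 (p.1 - o.2) *
            ∏ s ∈ range ((p.1 : ℕ) - o.2), qb (A ^ 2) ((n : ℤ) - (p.1 : ℕ) + (s + 1))
        else 0
    else 0

/-- the framed coloured Jones invariant with colour `irr m` -/
noncomputable def J (A : ℂ) (N : ℕ) (w : Word) (m : ℕ) : ℂ :=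
  qtr (A ^ 2) (pow (A ^ 2) (irr (A ^ 2) m) N) (rho (cV A m) N w)

/-- cup and cap coefficient matrix on the basis `0, 1` of `irr 1` -/
noncomputable def cupM (A : ℂ) : Matrix (Fin 2) (Fin 2) ℂ :=
  !![0, Complex.I * A⁻¹; -Complex.I * A, 0]

/-- the Temperley-Lieb generator -/
noncomputable def tlU (A : ℂ) : Matrix (Fin 2 × Fin 2) (Fin 2 × Fin 2) ℂ :=
  Matrix.of fun o p => cupM A o.1 o.2 * cupM A p.1 p.2

/-- the Kauffman crossing -/
noncomputable def cK (A : ℂ) (ε : Bool) : Matrix (Fin 2 × Fin 2) (Fin 2 × Fin 2) ℂ :=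
  (if ε then A else A⁻¹) • (1 : Matrix (Fin 2 × Fin 2) (Fin 2 × Fin 2) ℂ) +
    (if ε then A⁻¹ else A) • tlU A

/-- Habiro's sum for the figure-eight knot, `N` the dimension of the colour -/
noncomputable def Hab (q : ℂ) (N : ℕ) : ℂ :=
  ∑ k ∈ range N, ∏ j ∈ range k, qb q ((N : ℤ) + (j + 1)) * qb q ((N : ℤ) - (j + 1))

def shift (s : ℕ) (w : Word) : Word := w.map fun x => (x.1 + s, x.2)

def tor (q : ℕ) : Word := (List.range (q - 1)).map fun i => (i, true)

def fig8 : Word := [(0, true), (1, false), (0, true), (1, false)]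

def K1 : Word := cable 6 fig8 ++ tor 6

def K2 : Word := cable 2 K1 ++ List.replicate 7 (0, true)

/-- the counterexample, on 38 strands -/
def KK : Word := K2 ++ shift 35 fig8

end Pool.Agent.Work.MP_c404d3_gt
end

-- merged part: Pool.Agent.Work.MP_c404d3_gt.An0
section
/-!
Definitions for the analytic part. R is the odd level 2 r + 1.
-/

namespace Pool.Agent.Work.MP_c404d3_gt

open scoped BigOperators Real Topology
open Finset Filter Complex

noncomputable def zeta (R : ℕ) : ℂ := cexp (2 * π * I / R)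

noncomputable def br (R : ℕ) (m : ℤ) : ℂ := qb (zeta R) m

noncomputable def P (R k : ℕ) (m : ℤ) : ℂ := ∏ j ∈ Icc (-(k : ℤ)) k, br R (m + j)

noncomputable def Y (R : ℕ) (m : ℤ) : ℂ := ∑ k ∈ range (R / 2), P R k m

/-- the indices `k` near `5 R / 12` -/
def Kmid (R : ℕ) : Finset ℕ := (range (R / 2)).filter fun k => 2 * R ≤ 5 * k ∧ 30 * k ≤ 13 * R

noncomputable def W (R : ℕ) (m : ℤ) : ℂ := ∑ k ∈ Kmid R, P R k m

noncomputable def psi (R : ℕ) (s : ℤ) : ℂ := (-1) ^ s * zeta R ^ (5 * (s ^ 2 + s))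

noncomputable def Psi (R : ℕ) (s : ℤ) : ℂ := -(1 / 2) * ∑ i ∈ range (R / 5), psi R (s + i)

noncomputable def chirp (R : ℕ) (k : ℤ) : ℂ := zeta R ^ (12 * k ^ 2 + 2 * k)

noncomputable def Ssum (R n : ℕ) : ℂ :=
  ∑ s ∈ range n, psi R s * ∑ k ∈ Icc (-(s : ℤ)) s, chirp R k * Y R (12 * k + 1)

noncomputable def Tsum (R : ℕ) : ℝ :=
  (∑ n ∈ Icc 1 (R / 2), ‖Y R n / br R n * Ssum R n‖ ^ 2) / R

/-- minus the Lobachevsky function -/
noncomputable def Lob (θ : ℝ) : ℝ := ∫ u in (0 : ℝ)..θ, Real.log (2 * Real.sin u)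

/-- the growth rate: vol(4_1) / (4 π) -/
noncomputable def gam : ℝ := Lob (5 * π / 6) / π

/-- discrete Fourier coefficients of `W` -/
noncomputable def four (R : ℕ) (v : ℤ) : ℂ :=
  (1 / R) * ∑ m ∈ range R, W R m * zeta R ^ (-((m : ℤ) * v))

noncomputable def gauss (R : ℝ) (α β : ℂ) (y : ℝ) : ℂ :=
  cexp (-π * α * y ^ 2 / R + 2 * π * β * y)

noncomputable def gmain (R : ℝ) (α β : ℂ) : ℂ :=
  ((R : ℂ) / α) ^ (1 / 2 : ℂ) * cexp (π * R * β ^ 2 / α)

/-- coherent state with centre `u` and frequency `v` -/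
noncomputable def el (R : ℕ) (u v m : ℤ) : ℂ :=
  zeta R ^ (m * v) * cexp (-π * ((m : ℂ) - u) ^ 2 / R)

noncomputable def om (R : ℕ) (l : ℤ) : ℂ :=
  (-1) ^ l * cexp (π * I * l / 3) * cexp (-π * I * l * (l + 1) * R / 6)

noncomputable def chi (l : ℤ) : ℂ :=
  if l = 0 ∨ l = -1 ∨ l = 4 ∨ l = -5 then 1 else if l = 2 ∨ l = -3 then -1 else 0

noncomputable def Isum (R : ℕ) (u v l : ℤ) : ℂ :=
  ∑' k : ℤ, chirp R k * el R u v (12 * k + 1 - l * R)

noncomputable def Jsum (R : ℕ) (u v l : ℤ) : ℂ :=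
  ∑' k : ℤ, chirp R k * Psi R k * el R u v (12 * k + 1 - l * R)

/-- the least `k` with `l R ≤ 12 k + 1` -/
def pk (R : ℕ) (l : ℤ) : ℤ := (l * R + 10) / 12

/-- the integers of `[0, R)` within `η R` of `R / 2` -/
noncomputable def win (R : ℕ) (η : ℝ) : Finset ℤ :=
  (Ico (0 : ℤ) R).filter fun v => |(v : ℝ) - R / 2| ≤ η * R

noncomputable def NR (R : ℕ) : ℝ := ∑' v : ℤ, Real.exp (-π * (v : ℝ) ^ 2 / R)

noncomputable def lam0 (R : ℕ) : ℂ :=
  ∑ k ∈ Ico (pk R 0) (pk R 1), chirp R k * W R (12 * k + 1)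

end Pool.Agent.Work.MP_c404d3_gt
end

-- merged part: Pool.Agent.Work.MP_c404d3_gt.B0
section
/-!
B0: elementary facts (periodicity, oddness, norms, the primitive Psi, the sums of phases).
Psi_succ: psi (s + R/5) = - psi s for R odd and 5 ∣ R, then telescope. Psi_neg: psi (-1-s) = - psi s,
so D s = Psi s - Psi (-s) satisfies D (s+1) = D s. Ssum_eq: exchange the sums, ∑ s from |k| to
n-1 of psi s = Psi n - Psi |k|. om_sum, chi_om_sum: write R = 2 r + 1, e = exp(-π i R / 3), w =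
exp(π i / 3) with w^2 = w - 1; exp(-π i R) = -1.
-/

namespace Pool.Agent.Work.MP_c404d3_gt

open scoped BigOperators Real Topology
open Finset Filter Complex

theorem zeta_ne (R : ℕ) : zeta R ≠ 0 := by
  exact Complex.exp_ne_zero _

theorem norm_zeta_zpow (R : ℕ) (m : ℤ) : ‖zeta R ^ m‖ = 1 := by
  have h : ‖zeta R‖ = 1 := by
    have : zeta R = cexp (((2 * π / R : ℝ) : ℂ) * I) := by
      unfold zeta; congr 1; push_cast; ring
    rw [this, Complex.norm_exp_ofReal_mul_I]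
  rw [norm_zpow, h, one_zpow]

theorem zeta_zpow (R : ℕ) (m : ℤ) : zeta R ^ m = cexp (2 * π * I * m / R) := by
  unfold zeta
  rw [← Complex.exp_int_mul]
  congr 1; ring

theorem zeta_zpow_mul {R : ℕ} (hR : 0 < R) (m : ℤ) : zeta R ^ (m * R) = 1 := by
  have hR' : (R : ℂ) ≠ 0 := by exact_mod_cast hR.ne'
  rw [zeta_zpow, ← Complex.exp_int_mul_two_pi_mul_I m]
  congr 1
  push_cast
  field_simp

theorem br_eq (R : ℕ) (m : ℤ) : br R m = 2 * I * (Real.sin (2 * π * m / R) : ℝ) := by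
  unfold br qb
  rw [zeta_zpow, zeta_zpow, Complex.ofReal_sin, Complex.sin]
  have h1 : (2 * π * I * ((-m : ℤ) : ℂ) / R : ℂ) = -((2 * π * m / R : ℝ) : ℂ) * I := by
    push_cast; ring
  have h2 : (2 * π * I * (m : ℂ) / R : ℂ) = ((2 * π * m / R : ℝ) : ℂ) * I := by
    push_cast; ring
  rw [h1, h2]
  have hI : I * I = -1 := Complex.I_mul_I
  linear_combination
    (cexp (((2 * π * m / R : ℝ) : ℂ) * I) - cexp (-((2 * π * m / R : ℝ) : ℂ) * I)) * hI

theorem norm_br (R : ℕ) (m : ℤ) : ‖br R m‖ = |2 * Real.sin (2 * π * m / R)| := by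
  rw [br_eq, norm_mul, norm_mul, Complex.norm_I, Complex.norm_real, Real.norm_eq_abs, abs_mul]
  simp

theorem br_neg (R : ℕ) (m : ℤ) : br R (-m) = -br R m := by
  unfold br qb
  rw [neg_neg]; ring

theorem br_per {R : ℕ} (hR : 0 < R) (m l : ℤ) : br R (m + l * R) = br R m := by
  unfold br qb
  have h1 : zeta R ^ (m + l * R) = zeta R ^ m := by
    rw [zpow_add₀ (zeta_ne R), zeta_zpow_mul hR, mul_one]
  have h2 : zeta R ^ (-(m + l * R)) = zeta R ^ (-m) := by
    have : -(m + l * (R : ℤ)) = -m + (-l) * R := by ring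
    rw [this, zpow_add₀ (zeta_ne R), zeta_zpow_mul hR, mul_one]
  rw [h1, h2]

theorem br_ne {R : ℕ} (hR : Odd R) {m : ℤ} (hm : ¬ (R : ℤ) ∣ m) : br R m ≠ 0 := by
  have hpos : 0 < R := hR.pos
  have hR' : (R : ℝ) ≠ 0 := by exact_mod_cast hpos.ne'
  intro h
  have h0 : ‖br R m‖ = 0 := by rw [h, norm_zero]
  rw [norm_br, abs_eq_zero] at h0
  have h1 : Real.sin (2 * π * m / R) = 0 := by linarith only [h0]
  obtain ⟨n, hn⟩ := Real.sin_eq_zero_iff.1 h1
  have h2 : (n : ℝ) * R = 2 * m := by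
    have hp := Real.pi_ne_zero
    field_simp at hn
    linarith only [hn]
  have h3 : n * (R : ℤ) = 2 * m := by exact_mod_cast h2
  obtain ⟨r, hr⟩ := hR
  apply hm
  refine ⟨m - r * n, ?_⟩
  have hr' : (R : ℤ) = 2 * r + 1 := by exact_mod_cast hr
  rw [hr'] at h3 ⊢
  linear_combination (r : ℤ) * h3

theorem b0_sin_half {R t : ℕ} (h1 : 1 ≤ t) (h2 : 2 * t ≤ R) :
    1 / (R : ℝ) ≤ Real.sin (π * t / R) := by
  have hR : (0 : ℝ) < R := by
    have : 0 < R := by omega
    exact_mod_cast this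
  have ht : (1 : ℝ) ≤ t := by exact_mod_cast h1
  have ht2 : 2 * (t : ℝ) ≤ R := by exact_mod_cast h2
  have hp := Real.pi_pos
  have hx0 : 0 ≤ π * t / R := by positivity
  have hx1 : π * t / R ≤ π / 2 := by
    rw [div_le_div_iff₀ hR two_pos]
    linarith only [ht2, hp, mul_nonneg_of_nonpos_of_nonpos (Mathlib.Tactic.Linarith.sub_nonpos_of_le ht2) (le_of_lt (Mathlib.Tactic.Linarith.sub_neg_of_lt hp))]
  have h := Real.mul_le_sin hx0 hx1
  refine le_trans ?_ h
  have e : 2 / π * (π * t / R) = 2 * t / R := by field_simp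
  rw [e]
  exact div_le_div_of_nonneg_right (by linarith only [ht]) hR.le

theorem b0_sin_ge {R t : ℕ} (h1 : 1 ≤ t) (h2 : t < R) :
    1 / (R : ℝ) ≤ Real.sin (π * t / R) := by
  rcases le_or_gt (2 * t) R with h | h
  · exact b0_sin_half h1 h
  · have hR : (0 : ℝ) < R := by
      have : 0 < R := by omega
      exact_mod_cast this
    have := b0_sin_half (R := R) (t := R - t) (by omega) (by omega)
    have e : π * ((R - t : ℕ) : ℝ) / R = π - π * t / R := by
      rw [Nat.cast_sub h2.le]; field_simp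
    rwa [e, Real.sin_pi_sub] at this

theorem norm_br_ge {R : ℕ} (hR : Odd R) {n : ℕ} (h1 : 1 ≤ n) (h2 : n < R) :
    1 / (R : ℝ) ≤ ‖br R n‖ := by
  have hpos : 0 < R := hR.pos
  have hR' : (0 : ℝ) < R := by exact_mod_cast hpos
  obtain ⟨r, hr⟩ := hR
  rw [norm_br, abs_mul]
  have key : 1 / (R : ℝ) ≤ |Real.sin (2 * π * ((n : ℤ) : ℝ) / R)| := by
    rcases lt_or_ge (2 * n) R with h | h
    · have := b0_sin_ge (R := R) (t := 2 * n) (by omega) h
      have e : (2 * π * ((n : ℤ) : ℝ) / R) = π * ((2 * n : ℕ) : ℝ) / R := by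
        push_cast; ring
      rw [e]
      exact this.trans (le_abs_self _)
    · have := b0_sin_ge (R := R) (t := 2 * n - R) (by omega) (by omega)
      have e : (2 * π * ((n : ℤ) : ℝ) / R) = π * ((2 * n - R : ℕ) : ℝ) / R + π := by
        rw [Nat.cast_sub h]; push_cast; field_simp; ring
      rw [e, Real.sin_add_pi, abs_neg]
      exact this.trans (le_abs_self _)
  have h0 := abs_nonneg (Real.sin (2 * π * ((n : ℤ) : ℝ) / R))
  have h22 : |(2 : ℝ)| = 2 := abs_of_pos two_pos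
  rw [h22]
  linarith only [key, h0]

theorem b0_P_zero (R : ℕ) (m : ℤ) : P R 0 m = br R m := by
  simp [P]

theorem b0_P_succ (R k : ℕ) (m : ℤ) :
    P R (k + 1) m = P R k m * (br R (m + (k + 1)) * br R (m - (k + 1))) := by
  unfold P
  have e : Icc (-((k + 1 : ℕ) : ℤ)) ((k + 1 : ℕ) : ℤ) =
      insert ((k : ℤ) + 1) (insert (-((k : ℤ) + 1)) (Icc (-(k : ℤ)) k)) := by
    ext j
    simp only [mem_Icc, mem_insert]
    push_cast
    omega
  rw [e, prod_insert, prod_insert]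
  · rw [sub_eq_add_neg]; ring
  · simp only [mem_Icc]; omega
  · simp only [mem_Icc, mem_insert]; omega

theorem P_neg (R k : ℕ) (m : ℤ) : P R k (-m) = -P R k m := by
  induction k with
  | zero => rw [b0_P_zero, b0_P_zero, br_neg]
  | succ k ih =>
    rw [b0_P_succ, b0_P_succ, ih]
    have e1 : -m + ((k : ℤ) + 1) = -(m - (k + 1)) := by ring
    have e2 : -m - ((k : ℤ) + 1) = -(m + (k + 1)) := by ring
    rw [e1, e2, br_neg, br_neg]; ring

theorem P_per {R : ℕ} (hR : 0 < R) (k : ℕ) (m l : ℤ) : P R k (m + l * R) = P R k m := by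
  unfold P
  refine prod_congr rfl fun j _ => ?_
  have : m + l * R + j = m + j + l * R := by ring
  rw [this, br_per hR]

theorem P_succ (R k : ℕ) (m : ℤ) :
    P R (k + 1) m = P R k m * (br R (m + (k + 1)) * br R (m - (k + 1))) := by
  exact b0_P_succ R k m

theorem P_eq_zero {R : ℕ} (hR : 0 < R) {k : ℕ} {m l : ℤ} (h : |m - l * R| ≤ k) : P R k m = 0 := by
  unfold P
  refine prod_eq_zero (i := l * R - m) ?_ ?_
  · rw [abs_le] at h
    rw [mem_Icc]
    constructor <;> linarith only [h, h.1, h.2]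
  · have : m + (l * R - m) = 0 + l * R := by ring
    rw [this, br_per hR]
    simp [br, qb]

theorem Y_neg (R : ℕ) (m : ℤ) : Y R (-m) = -Y R m := by
  unfold Y
  rw [← sum_neg_distrib]
  exact sum_congr rfl fun k _ => P_neg R k m

theorem Y_per {R : ℕ} (hR : 0 < R) (m l : ℤ) : Y R (m + l * R) = Y R m := by
  unfold Y
  exact sum_congr rfl fun k _ => P_per hR k m l

theorem W_neg (R : ℕ) (m : ℤ) : W R (-m) = -W R m := by
  unfold W
  rw [← sum_neg_distrib]
  exact sum_congr rfl fun k _ => P_neg R k m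

theorem W_per {R : ℕ} (hR : 0 < R) (m l : ℤ) : W R (m + l * R) = W R m := by
  unfold W
  exact sum_congr rfl fun k _ => P_per hR k m l

theorem b0_P_prod (R k : ℕ) (m : ℤ) :
    P R k m = br R m * ∏ j ∈ range k, br R (m + (j + 1)) * br R (m - (j + 1)) := by
  induction k with
  | zero => simp [b0_P_zero]
  | succ k ih => rw [b0_P_succ, prod_range_succ, ih]; ring

theorem b0_P_big {R : ℕ} (hR : Odd R) {k : ℕ} (hk : R / 2 ≤ k) (m : ℤ) : P R k m = 0 := by
  have hpos : 0 < R := hR.pos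
  obtain ⟨r, hr⟩ := hR
  have hr2 : R / 2 = r := by omega
  have hR' : (0 : ℤ) < R := by exact_mod_cast hpos
  refine P_eq_zero hpos (l := (m + r) / R) ?_
  have h1 := Int.emod_add_mul_ediv (m + r) R
  have h2 := Int.emod_nonneg (m + r) hR'.ne'
  have h3 := Int.emod_lt_of_pos (m + r) hR'
  have hr' : (R : ℤ) = 2 * r + 1 := by exact_mod_cast hr
  have hk' : (r : ℤ) ≤ k := by
    have : r ≤ k := by omega
    exact_mod_cast this
  have e : m - (m + r) / R * R = (m + r) % R - r := by linear_combination -h1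
  rw [e, abs_le]
  constructor <;> linarith only [hk, hr2, h2, hr, h3]

theorem b0_Hab_nat {R : ℕ} (hR : Odd R) (N : ℕ) :
    qb (zeta R) N * Hab (zeta R) N = Y R N := by
  have hpos : 0 < R := hR.pos
  have h1 : qb (zeta R) N * Hab (zeta R) N = ∑ k ∈ range N, P R k N := by
    unfold Hab
    rw [mul_sum]
    refine sum_congr rfl fun k _ => ?_
    rw [b0_P_prod]; rfl
  have h2 : ∑ k ∈ range N, P R k N = ∑ k ∈ range (N + R / 2), P R k N := by
    refine sum_subset (range_subset_range.2 (by omega)) fun k _ hk => ?_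
    refine P_eq_zero hpos (l := 0) ?_
    rw [mem_range, not_lt] at hk
    rw [zero_mul, sub_zero, Nat.abs_cast]
    exact_mod_cast hk
  have h3 : Y R N = ∑ k ∈ range (N + R / 2), P R k N := by
    unfold Y
    refine sum_subset (range_subset_range.2 (by omega)) fun k _ hk => ?_
    rw [mem_range, not_lt] at hk
    exact b0_P_big hR hk _
  rw [h1, h2, h3]

/-- the Habiro sum at the root of unity is the periodic function `Y` -/
theorem qb_Hab_eq {R : ℕ} (hR : Odd R) (m : ℤ) :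
    qb (zeta R) m * Hab (zeta R) m.natAbs = Y R m := by
  obtain ⟨N, rfl | rfl⟩ := Int.eq_nat_or_neg m
  · rw [Int.natAbs_natCast]; exact b0_Hab_nat hR N
  · rw [Int.natAbs_neg, Int.natAbs_natCast, Y_neg, ← b0_Hab_nat hR N]
    have := br_neg R (N : ℤ)
    unfold br at this
    rw [this]; ring

theorem norm_psi (R : ℕ) (s : ℤ) : ‖psi R s‖ = 1 := by
  unfold psi
  rw [norm_mul, norm_zeta_zpow, norm_zpow, norm_neg, norm_one, one_zpow, mul_one]

theorem norm_chirp (R : ℕ) (k : ℤ) : ‖chirp R k‖ = 1 := by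
  exact norm_zeta_zpow R _

theorem norm_Psi_le (R : ℕ) (s : ℤ) : ‖Psi R s‖ ≤ R := by
  unfold Psi
  have h1 : ‖∑ i ∈ range (R / 5), psi R (s + i)‖ ≤ R := by
    refine (norm_sum_le _ _).trans ?_
    simp only [norm_psi, sum_const, card_range, nsmul_eq_mul, mul_one]
    exact_mod_cast Nat.div_le_self R 5
  have h2 : ‖(-(1 / 2) : ℂ)‖ = 1 / 2 := by simp
  rw [norm_mul, h2]
  have := norm_nonneg (∑ i ∈ range (R / 5), psi R (s + i))
  linarith only [h1]

theorem b0_psi_shift {R : ℕ} (hR : Odd R) (h5 : 5 ∣ R) (s : ℤ) :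
    psi R (s + ((R / 5 : ℕ) : ℤ)) = -psi R s := by
  have hpos : 0 < R := hR.pos
  obtain ⟨t, ht⟩ := h5
  have ht5 : R / 5 = t := by omega
  have hto : Odd (t : ℤ) := by
    obtain ⟨r, hr⟩ := hR
    exact ⟨(r : ℤ) - 2 * t, by omega⟩
  have hRt : (R : ℤ) = 5 * t := by exact_mod_cast ht
  rw [ht5]
  unfold psi
  have e : 5 * ((s + t) ^ 2 + (s + t)) = 5 * (s ^ 2 + s) + (2 * s + t + 1) * (R : ℤ) := by
    rw [hRt]; ring
  rw [e, zpow_add₀ (zeta_ne R), zeta_zpow_mul hpos, mul_one,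
    zpow_add₀ (by norm_num : (-1 : ℂ) ≠ 0), hto.neg_one_zpow]
  ring

theorem b0_psi_refl (R : ℕ) (s : ℤ) : psi R (-(s + 1)) = -psi R s := by
  unfold psi
  have e : 5 * ((-(s + 1)) ^ 2 + -(s + 1)) = 5 * (s ^ 2 + s) := by ring
  have e2 : (-1 : ℂ) ^ (-(s + 1)) = -(-1) ^ s := by
    rcases Int.even_or_odd s with h | h
    · rw [h.neg_one_zpow, (h.add_one.neg).neg_one_zpow]
    · rw [h.neg_one_zpow, (h.add_one.neg).neg_one_zpow]; ring
  rw [e, e2]; ring

theorem Psi_succ {R : ℕ} (hR : Odd R) (h5 : 5 ∣ R) (s : ℤ) :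
    Psi R (s + 1) - Psi R s = psi R s := by
  unfold Psi
  have h1 := sum_range_succ (fun i : ℕ => psi R (s + i)) (R / 5)
  have h2 := sum_range_succ' (fun i : ℕ => psi R (s + i)) (R / 5)
  have h3 : ∑ i ∈ range (R / 5), psi R (s + 1 + i) =
      ∑ i ∈ range (R / 5), psi R (s + ((i + 1 : ℕ) : ℤ)) := by
    refine sum_congr rfl fun i _ => ?_
    congr 1; push_cast; ring
  have h4 := b0_psi_shift hR h5 s
  simp only [Nat.cast_zero, add_zero] at h2
  rw [h3]
  rw [h4] at h1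
  linear_combination (1 / 2 : ℂ) * h2 - (1 / 2 : ℂ) * h1

theorem Psi_neg {R : ℕ} (hR : Odd R) (h5 : 5 ∣ R) (s : ℤ) : Psi R (-s) = Psi R s := by
  have step : ∀ s : ℤ, Psi R (-(s + 1)) - Psi R (s + 1) = Psi R (-s) - Psi R s := by
    intro s
    have h1 := Psi_succ hR h5 s
    have h2 := Psi_succ hR h5 (-(s + 1))
    have e : -(s + 1) + 1 = -s := by ring
    rw [e, b0_psi_refl] at h2
    linear_combination -h1 - h2
  have hnat : ∀ n : ℕ, Psi R (-(n : ℤ)) = Psi R n := by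
    intro n
    induction n with
    | zero => simp
    | succ n ih =>
      have := step n
      push_cast
      linear_combination this + ih
  obtain ⟨N, rfl | rfl⟩ := Int.eq_nat_or_neg s
  · exact hnat N
  · rw [neg_neg]; exact (hnat N).symm

theorem Ssum_eq {R : ℕ} (hR : Odd R) (h5 : 5 ∣ R) (n : ℕ) :
    Ssum R n = Psi R n * ∑ k ∈ Ioo (-(n : ℤ)) n, chirp R k * Y R (12 * k + 1) -
      ∑ k ∈ Ioo (-(n : ℤ)) n, chirp R k * Psi R k * Y R (12 * k + 1) := by
  have main : Ssum R n = ∑ k ∈ Ioo (-(n : ℤ)) n,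
      chirp R k * Y R (12 * k + 1) * (Psi R n - Psi R k) := by
    induction n with
    | zero => simp [Ssum]
    | succ n ih =>
      have e : Ioo (-((n + 1 : ℕ) : ℤ)) ((n + 1 : ℕ) : ℤ) = Icc (-(n : ℤ)) n := by
        ext j
        simp only [mem_Icc, mem_Ioo]
        push_cast
        omega
      have h1 : Ssum R (n + 1) = Ssum R n +
          psi R n * ∑ k ∈ Icc (-(n : ℤ)) n, chirp R k * Y R (12 * k + 1) := by
        unfold Ssum; rw [sum_range_succ]
      have h2 : ∑ k ∈ Ioo (-(n : ℤ)) n, chirp R k * Y R (12 * k + 1) * (Psi R n - Psi R k) =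
          ∑ k ∈ Icc (-(n : ℤ)) n, chirp R k * Y R (12 * k + 1) * (Psi R n - Psi R k) := by
        refine sum_subset Ioo_subset_Icc_self fun k hk hk' => ?_
        rw [mem_Icc] at hk
        rw [mem_Ioo] at hk'
        have : k = n ∨ k = -(n : ℤ) := by omega
        rcases this with rfl | rfl
        · simp
        · rw [Psi_neg hR h5]; simp
      rw [h1, ih, h2, e, mul_sum, ← sum_add_distrib]
      refine sum_congr rfl fun k _ => ?_
      have h3 := Psi_succ hR h5 (n : ℤ)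
      push_cast
      linear_combination (-(chirp R k * Y R (12 * k + 1))) * h3
  rw [main, mul_sum, ← sum_sub_distrib]
  refine sum_congr rfl fun k _ => ?_
  ring

theorem norm_om (R : ℕ) (l : ℤ) : ‖om R l‖ = 1 := by
  unfold om
  have h1 : cexp (π * I * l / 3) = cexp (((π * l / 3 : ℝ) : ℂ) * I) := by
    congr 1; push_cast; ring
  have h2 : cexp (-π * I * l * (l + 1) * R / 6) =
      cexp (((-π * l * (l + 1) * R / 6 : ℝ) : ℂ) * I) := by
    congr 1; push_cast; ring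
  rw [norm_mul, norm_mul, h1, h2, Complex.norm_exp_ofReal_mul_I, Complex.norm_exp_ofReal_mul_I,
    norm_zpow, norm_neg, norm_one, one_zpow]
  norm_num

theorem b0_Ico_sum (f : ℤ → ℂ) : ∑ l ∈ Ico (-6 : ℤ) 6, f l =
    f (-6) + f (-5) + f (-4) + f (-3) + f (-2) + f (-1) + f 0 + f 1 + f 2 + f 3 + f 4 + f 5 := by
  have e : Ico (-6 : ℤ) 6 = {-6, -5, -4, -3, -2, -1, 0, 1, 2, 3, 4, 5} := by decide
  rw [e]
  repeat rw [sum_insert (by decide)]
  rw [sum_singleton]
  ring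

theorem b0_om_data {R : ℕ} (hR : Odd R) : ∃ u e : ℂ, u ^ 2 + u + 1 = 0 ∧ e ^ 3 = -1 ∧
    cexp (π * I / 3) = -u ∧ cexp (2 * π * I * R / 3) = -e ∧
    ∀ (l : ℤ) (a T : ℕ), (3 : ℤ) ∣ l - a → l * (l + 1) = 2 * T → om R l = u ^ a * e ^ T := by
  have hw3 : cexp (π * I / 3) ^ 3 = -1 := by
    rw [← Complex.exp_nat_mul, ← Complex.exp_pi_mul_I]
    congr 1; push_cast; ring
  have hw1 : cexp (π * I / 3) + 1 ≠ 0 := by
    intro h
    have h1 : cexp (π * I / 3) = cexp (((π / 3 : ℝ) : ℂ) * I) := by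
      congr 1; push_cast; ring
    have h2 := congrArg Complex.re h
    rw [h1, Complex.add_re, Complex.exp_ofReal_mul_I_re, Real.cos_pi_div_three] at h2
    norm_num at h2
  have hu : (-cexp (π * I / 3)) ^ 2 + (-cexp (π * I / 3)) + 1 = 0 := by
    apply mul_left_cancel₀ hw1
    linear_combination hw3
  have hpR : cexp (π * I * R) = -1 := by
    have : cexp (π * I * R) = cexp (π * I) ^ R := by
      rw [← Complex.exp_nat_mul]; congr 1; ring
    rw [this, Complex.exp_pi_mul_I, hR.neg_one_pow]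
  have hmR : cexp (-π * I * R) = -1 := by
    have : cexp (-π * I * R) = (cexp (π * I * R))⁻¹ := by
      rw [← Complex.exp_neg]; congr 1; ring
    rw [this, hpR]; norm_num
  refine ⟨-cexp (π * I / 3), cexp (-π * I * R / 3), hu, ?_, by ring, ?_, ?_⟩
  · rw [← Complex.exp_nat_mul, ← hmR]
    congr 1; push_cast; ring
  · have : cexp (2 * π * I * R / 3) = cexp (-π * I * R / 3) * cexp (π * I * R) := by
      rw [← Complex.exp_add]; congr 1; ring
    rw [this, hpR]; ring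
  · intro l a T ha hT
    unfold om
    have hu3 : (-cexp (π * I / 3)) ^ (3 : ℤ) = 1 := by
      rw [zpow_ofNat]; linear_combination -hw3
    have hu0 : -cexp (π * I / 3) ≠ 0 := neg_ne_zero.2 (Complex.exp_ne_zero _)
    have h1 : (-1 : ℂ) ^ l * cexp (π * I * l / 3) = (-cexp (π * I / 3)) ^ l := by
      have : cexp (π * I * l / 3) = cexp (π * I / 3) ^ l := by
        rw [← Complex.exp_int_mul]; congr 1; ring
      rw [this, ← mul_zpow, neg_one_mul]
    have h2 : (-cexp (π * I / 3)) ^ l = (-cexp (π * I / 3)) ^ a := by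
      obtain ⟨c, hc⟩ := ha
      have : l = 3 * c + a := by linarith only [hc]
      rw [this, zpow_add₀ hu0, zpow_mul, hu3, one_zpow, one_mul, zpow_natCast]
    have h3 : cexp (-π * I * l * (l + 1) * R / 6) = cexp (-π * I * R / 3) ^ T := by
      rw [← Complex.exp_nat_mul]
      congr 1
      have hT' : (l : ℂ) * (l + 1) = 2 * T := by exact_mod_cast hT
      linear_combination (-π * I * R / 6) * hT'
    rw [h1, h2, h3]

theorem om_sum {R : ℕ} (hR : Odd R) : ∑ l ∈ Ico (-6 : ℤ) 6, om R l = 0 := by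
  obtain ⟨u, e, hu, he, _, _, hom⟩ := b0_om_data hR
  rw [b0_Ico_sum]
  rw [hom (-6) 0 15 (by norm_num) (by norm_num), hom (-5) 1 10 (by norm_num) (by norm_num),
    hom (-4) 2 6 (by norm_num) (by norm_num), hom (-3) 0 3 (by norm_num) (by norm_num),
    hom (-2) 1 1 (by norm_num) (by norm_num), hom (-1) 2 0 (by norm_num) (by norm_num),
    hom 0 0 0 (by norm_num) (by norm_num), hom 1 1 1 (by norm_num) (by norm_num),
    hom 2 2 3 (by norm_num) (by norm_num), hom 3 0 6 (by norm_num) (by norm_num),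
    hom 4 1 10 (by norm_num) (by norm_num), hom 5 2 15 (by norm_num) (by norm_num)]
  have e6 : e ^ 6 = 1 := by linear_combination (e ^ 3 - 1) * he
  have e10 : e ^ 10 = -e := by linear_combination (e ^ 4) * e6 + e * he
  have e15 : e ^ 15 = -1 := by linear_combination (e ^ 9 + e ^ 3) * e6 + he
  rw [e6, e10, e15, he]
  ring

theorem chi_om_sum {R : ℕ} (hR : Odd R) :
    ∑ l ∈ Ico (-6 : ℤ) 6, chi l * om R l =
      2 * cexp (π * I / 3) * (1 - cexp (2 * π * I * R / 3)) := by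
  obtain ⟨u, e, hu, he, hw, hE, hom⟩ := b0_om_data hR
  rw [b0_Ico_sum, hw, hE]
  rw [hom (-5) 1 10 (by norm_num) (by norm_num), hom (-3) 0 3 (by norm_num) (by norm_num),
    hom (-1) 2 0 (by norm_num) (by norm_num), hom 0 0 0 (by norm_num) (by norm_num),
    hom 2 2 3 (by norm_num) (by norm_num), hom 4 1 10 (by norm_num) (by norm_num)]
  have e6 : e ^ 6 = 1 := by linear_combination (e ^ 3 - 1) * he
  have e10 : e ^ 10 = -e := by linear_combination (e ^ 4) * e6 + e * he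
  rw [e10, he]
  simp only [chi]
  norm_num
  linear_combination 2 * hu

theorem one_le_NR {R : ℕ} (hR : 0 < R) : 1 ≤ NR R := by
  unfold NR
  have hR' : (0 : ℝ) < R := by exact_mod_cast hR
  have hs : Summable fun v : ℤ => Real.exp (-π * (v : ℝ) ^ 2 / R) := by
    have := summable_pow_mul_jacobiTheta₂_term_bound 0 (T := 1 / (R : ℝ)) (by positivity) 0
    refine this.congr fun v => ?_
    rw [pow_zero, one_mul]
    congr 1
    ring
  have := hs.le_tsum 0 fun j _ => (Real.exp_pos _).le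
  simpa using this

end Pool.Agent.Work.MP_c404d3_gt
end

-- merged part: Pool.Agent.Work.MP_c404d3_gt.B7a
section
/-!
B7a: Gaussian sums. gauss_sum: expand the square, gauss R α β (h k + y0) = gauss R α β y0 *
exp(-π a k^2 + 2π b k) with a = α h^2/R, b = β h - α h y0/R, and apply
Complex.tsum_exp_neg_quadratic. The dual term n equals
(1/h) (R/α)^(1/2) exp(π R (β - i n/h)^2/α) exp(2π i n y0/h) (up to n ↦ -n); n = 0 is gmain/h, and
Re ((β - iν)^2/α) ≤ (β.re^2 (α.re + 2 α.im^2/α.re) - (β.im - ν)^2 α.re/2)/|α|^2 with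
|β.im - n/h| ≥ t + (|n| - 1)/h for n ≠ 0. gauss_tail: ‖gauss y‖ = exp(-π α.re y^2/R + 2π β.re y)
≤ exp(-π α.re ρ |y|/2) for |y| ≥ ρ R and η ≤ α.re ρ/4; split off exp(-π α.re ρ^2 R/4) and bound the
remaining geometric sum uniformly in y0.
-/

namespace Pool.Agent.Work.MP_c404d3_gt

open scoped BigOperators Real Topology
open Finset Filter Complex

theorem norm_gauss (R : ℝ) (α β : ℂ) (y : ℝ) :
    ‖gauss R α β y‖ = Real.exp (-π * α.re * y ^ 2 / R + 2 * π * β.re * y) := by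
  unfold gauss
  rw [Complex.norm_exp]
  congr 1
  have : -(π : ℂ) * α * (y : ℂ) ^ 2 / R + 2 * π * β * y
      = ((-π * y ^ 2 / R : ℝ) : ℂ) * α + ((2 * π * y : ℝ) : ℂ) * β := by
    push_cast; ring
  rw [this, add_re, re_ofReal_mul, re_ofReal_mul]
  ring

theorem b7a_geo {a : ℝ} (ha : 0 < a) : Summable fun j : ℤ => Real.exp (-a * |(j : ℝ)|) := by
  have h : Summable fun n : ℕ => Real.exp (-a) ^ n :=
    summable_geometric_of_lt_one (Real.exp_pos _).le (Real.exp_lt_one_iff.2 (by linarith))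
  refine Summable.of_nat_of_neg (h.congr fun n => ?_) (h.congr fun n => ?_)
  · rw [← Real.exp_nat_mul]; simp [mul_comm]
  · rw [← Real.exp_nat_mul]; simp [mul_comm]

theorem b7a_shift {c h : ℝ} (hc : 0 < c) (hh : 0 < h) : ∃ C : ℝ, ∀ y0 : ℝ,
    Summable (fun k : ℤ => Real.exp (-c * |h * k + y0|)) ∧
      ∑' k : ℤ, Real.exp (-c * |h * k + y0|) ≤ C := by
  have hg := b7a_geo (mul_pos hc hh)
  refine ⟨Real.exp (c * h) * ∑' j : ℤ, Real.exp (-(c * h) * |(j : ℝ)|), fun y0 => ?_⟩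
  set m : ℤ := ⌊y0 / h⌋
  have h1 : h * m ≤ y0 := by
    have := Int.floor_le (y0 / h)
    rw [le_div_iff₀ hh] at this; linarith only [this]
  have h2 : y0 < h * m + h := by
    have := Int.lt_floor_add_one (y0 / h)
    rw [div_lt_iff₀ hh] at this; linarith only [this]
  have hs : Summable fun k : ℤ => Real.exp (-(c * h) * |((k + m : ℤ) : ℝ)|) :=
    hg.comp_injective (i := fun k : ℤ => k + m) (add_left_injective m)
  have hle : ∀ k : ℤ, Real.exp (-c * |h * k + y0|) ≤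
      Real.exp (c * h) * Real.exp (-(c * h) * |((k + m : ℤ) : ℝ)|) := fun k => by
    rw [← Real.exp_add]
    refine Real.exp_le_exp.2 ?_
    have e : h * |((k + m : ℤ) : ℝ)| ≤ |h * k + y0| + h := by
      rw [← abs_of_pos hh, ← abs_mul, abs_of_pos hh]
      push_cast
      refine abs_le.2 ⟨?_, ?_⟩
      · linarith only [neg_abs_le (h * k + y0), h2]
      · linarith only [le_abs_self (h * k + y0), h1, hh]
    linarith only [mul_le_mul_of_nonneg_left e hc.le]
  have hs' := Summable.of_nonneg_of_le (fun _ => (Real.exp_pos _).le) hle (hs.mul_left _)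
  refine ⟨hs', (hs'.tsum_le_tsum hle (hs.mul_left _)).trans (le_of_eq ?_)⟩
  rw [tsum_mul_left]
  congr 1
  exact (Equiv.addRight m).tsum_eq fun j : ℤ => Real.exp (-(c * h) * |(j : ℝ)|)

theorem b7a_ev (C : ℝ) {κ : ℝ} (hκ : 0 < κ) : ∀ᶠ R : ℝ in atTop, C * R ≤ Real.exp (κ * R) := by
  filter_upwards [eventually_ge_atTop (2 * |C| / κ ^ 2), eventually_gt_atTop 0] with R h1 h2
  have h3 := Real.quadratic_le_exp_of_nonneg (mul_pos hκ h2).le
  rw [div_le_iff₀ (by positivity)] at h1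
  have h4 : C * R ≤ |C| * R := mul_le_mul_of_nonneg_right (le_abs_self C) h2.le
  have h5 : 2 * |C| * R ≤ R * κ ^ 2 * R := mul_le_mul_of_nonneg_right h1 h2.le
  have h6 := mul_pos hκ h2
  linarith only [h3, h4, h5, h6]

theorem summable_gauss {R : ℝ} (hR : 0 < R) {α : ℂ} (hα : 0 < α.re) (β : ℂ) {h : ℝ}
    (hh : 0 < h) (y0 : ℝ) : Summable fun k : ℤ => ‖gauss R α β (h * k + y0)‖ := by
  obtain ⟨C, hC⟩ := b7a_shift one_pos hh
  have hA : 0 < π * α.re / R := by have := Real.pi_pos; positivity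
  refine Summable.of_nonneg_of_le (fun _ => norm_nonneg _) (fun k => ?_)
    ((hC y0).1.mul_left (Real.exp ((|2 * π * β.re| + 1) ^ 2 / (4 * (π * α.re / R)))))
  rw [norm_gauss, ← Real.exp_add]
  refine Real.exp_le_exp.2 ?_
  generalize h * k + y0 = y
  have e1 : -π * α.re * y ^ 2 / R = -(π * α.re / R) * |y| ^ 2 := by rw [sq_abs]; ring
  have e2 : 2 * π * β.re * y ≤ |2 * π * β.re| * |y| := by rw [← abs_mul]; exact le_abs_self _
  rw [e1]
  generalize π * α.re / R = A at hA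
  generalize |2 * π * β.re| = B at e2
  have e3 : (B + 1) * |y| - A * |y| ^ 2 ≤ (B + 1) ^ 2 / (4 * A) := by
    rw [le_div_iff₀ (by positivity)]
    linarith only [sq_nonneg (B + 1 - 2 * A * |y|), sq_nonneg (B + (1 : ℝ) - (2 : ℝ) * A * |y|)]
  linarith only [e2, e3]

theorem b7a_norm_root (R : ℝ) (hR : 0 < R) (α : ℂ) :
    ‖((R : ℂ) / α) ^ (1 / 2 : ℂ)‖ = Real.sqrt (R / ‖α‖) := by
  have : (1 / 2 : ℂ) = ((1 / 2 : ℝ) : ℂ) := by push_cast; rfl
  rw [this, Complex.norm_cpow_real, Real.sqrt_eq_rpow, norm_div, Complex.norm_real,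
    Real.norm_of_nonneg hR.le]

theorem norm_gmain_le {R : ℝ} (hR : 0 < R) {α : ℂ} (hα : α ≠ 0) (β : ℂ) :
    ‖gmain R α β‖ ≤ Real.sqrt (R / ‖α‖) * Real.exp (π * R * ‖β‖ ^ 2 / ‖α‖) := by
  unfold gmain
  rw [norm_mul, b7a_norm_root R hR]
  refine mul_le_mul_of_nonneg_left ((Complex.norm_exp_le_exp_norm _).trans (le_of_eq ?_))
    (Real.sqrt_nonneg _)
  congr 1
  rw [norm_div, norm_mul, norm_mul, norm_pow, Complex.norm_real, Complex.norm_real,
    Real.norm_of_nonneg hR.le, Real.norm_of_nonneg Real.pi_pos.le]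

theorem b7a_root {R h : ℝ} (hR : 0 < R) (hh : 0 < h) {α : ℂ} (hα : 0 < α.re) :
    1 / (α * h ^ 2 / R) ^ (1 / 2 : ℂ) = ((R : ℂ) / α) ^ (1 / 2 : ℂ) / h := by
  have h0 : α ≠ 0 := fun e => by simp [e] at hα
  have harg : α.arg ≠ π := fun e => by
    have := (Complex.arg_eq_pi_iff.1 e).1
    linarith
  have hR' : (R : ℂ) ≠ 0 := ofReal_ne_zero.2 hR.ne'
  have hh' : (h : ℂ) ≠ 0 := ofReal_ne_zero.2 hh.ne'
  have e1 : α * h ^ 2 / R = ((h ^ 2 / R : ℝ) : ℂ) * α := by push_cast; ring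
  have e2 : (R : ℂ) / α = (R : ℂ) * α⁻¹ := div_eq_mul_inv _ _
  have e3 : (h : ℂ) = cexp (Real.log h) := by rw [← ofReal_exp, Real.exp_log hh]
  rw [cpow_def_of_ne_zero (by positivity), cpow_def_of_ne_zero (div_ne_zero hR' h0), e1, e2,
    log_ofReal_mul (by positivity) h0, log_ofReal_mul hR (inv_ne_zero h0), log_inv _ harg,
    Real.log_div (by positivity) hR.ne', Real.log_pow, one_div, ← Complex.exp_neg]
  conv_rhs => rw [e3]
  rw [← Complex.exp_sub]
  congr 1
  push_cast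
  ring

/-- Poisson summation -/
theorem b7a_poisson {R h : ℝ} (hR : 0 < R) (hh : 0 < h) {α : ℂ} (hα : 0 < α.re) (β : ℂ) (y0 : ℝ) :
    ∑' k : ℤ, gauss R α β (h * k + y0) = ∑' n : ℤ, ((R : ℂ) / α) ^ (1 / 2 : ℂ) / h *
      cexp (π * R * (β - I * n / h) ^ 2 / α + ((2 * π * n * y0 / h : ℝ) : ℂ) * I) := by
  have h0 : α ≠ 0 := fun e => by simp [e] at hα
  have hR' : (R : ℂ) ≠ 0 := ofReal_ne_zero.2 hR.ne'
  have hh' : (h : ℂ) ≠ 0 := ofReal_ne_zero.2 hh.ne'
  have ha : 0 < (α * h ^ 2 / R).re := by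
    have e1 : α * h ^ 2 / R = ((h ^ 2 / R : ℝ) : ℂ) * α := by push_cast; ring
    rw [e1, re_ofReal_mul]; positivity
  have key := Complex.tsum_exp_neg_quadratic ha (β * h - α * h * y0 / R)
  have e : ∀ k : ℤ, gauss R α β (h * k + y0) = cexp (-π * α * y0 ^ 2 / R + 2 * π * β * y0) *
      cexp (-π * (α * h ^ 2 / R) * k ^ 2 + 2 * π * (β * h - α * h * y0 / R) * k) := fun k => by
    unfold gauss
    rw [← Complex.exp_add]
    congr 1
    push_cast
    ring
  simp_rw [e]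
  rw [tsum_mul_left, key, b7a_root hR hh hα, tsum_mul_left, mul_left_comm, ← tsum_mul_left]
  congr 1
  refine tsum_congr fun n => ?_
  rw [← Complex.exp_add]
  congr 1
  push_cast
  field_simp
  ring_nf
  simp only [I_sq]
  ring

theorem b7a_re {α : ℂ} (hα : 0 < α.re) (z : ℂ) :
    (z ^ 2 / α).re ≤
      (z.re ^ 2 * (α.re + 2 * α.im ^ 2 / α.re) - z.im ^ 2 * α.re / 2) / normSq α := by
  have h0 : α ≠ 0 := fun e => by simp [e] at hα
  have hn : 0 < normSq α := normSq_pos.2 h0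
  rw [div_re, ← add_div]
  refine div_le_div_of_nonneg_right ?_ hn.le
  simp only [sq, mul_re, mul_im]
  have e : z.re * z.re * (α.re + 2 * (α.im * α.im) / α.re) - z.im * z.im * α.re / 2
      - ((z.re * z.re - z.im * z.im) * α.re + (z.re * z.im + z.im * z.re) * α.im)
      = (z.im * α.re - 2 * z.re * α.im) ^ 2 / (2 * α.re) := by
    field_simp
    ring
  have : 0 ≤ (z.im * α.re - 2 * z.re * α.im) ^ 2 / (2 * α.re) := by positivity
  linarith only [e, this]

theorem gauss_sum {α : ℂ} (hα : 0 < α.re) {h t : ℝ} (hh : 0 < h) (ht : 0 < t) :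
    ∃ η > 0, ∃ δ > 0, ∀ᶠ R : ℝ in atTop, ∀ β : ℂ, |β.re| ≤ η → |β.im| ≤ 1 / h - t → ∀ y0 : ℝ,
      ‖∑' k : ℤ, gauss R α β (h * k + y0) - gmain R α β / h‖ ≤ Real.exp (-δ * R) := by
  have h0 : α ≠ 0 := fun e => by simp [e] at hα
  have hn : 0 < normSq α := normSq_pos.2 h0
  have hpi := Real.pi_pos
  set τ : ℝ := min t (1 / h) with hτ
  have hτ0 : 0 < τ := lt_min ht (by positivity)
  set κ : ℝ := π * (τ ^ 2 * α.re / 2 / normSq α) with hκ
  have hκ0 : 0 < κ := by positivity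
  set M : ℝ := α.re + 2 * α.im ^ 2 / α.re with hM
  have hM0 : 0 < M := by positivity
  have hg := b7a_geo (half_pos hκ0)
  refine ⟨Real.sqrt (τ ^ 2 * α.re / 8 / M), by positivity, κ / 8, by positivity, ?_⟩
  filter_upwards [eventually_ge_atTop 1, b7a_ev (Real.sqrt (1 / ‖α‖) / h *
    ∑' j : ℤ, Real.exp (-(κ / 2) * |(j : ℝ)|)) (κ := κ / 8) (by positivity)] with R hR hev β hb1 hb2 y0
  have hR0 : 0 < R := by linarith only [hR]
  rw [b7a_poisson hR0 hh hα]
  set D : ℤ → ℂ := fun n => ((R : ℂ) / α) ^ (1 / 2 : ℂ) / h *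
      cexp (π * R * (β - I * n / h) ^ 2 / α + ((2 * π * n * y0 / h : ℝ) : ℂ) * I) with hD
  have hx : β.re ^ 2 * M ≤ τ ^ 2 * α.re / 8 := by
    have := Real.sq_sqrt (show 0 ≤ τ ^ 2 * α.re / 8 / M by positivity)
    have h2 : β.re ^ 2 ≤ τ ^ 2 * α.re / 8 / M := by
      rw [← this, ← sq_abs]
      exact pow_le_pow_left₀ (abs_nonneg _) hb1 2
    rwa [le_div_iff₀ hM0] at h2
  have hb : ∀ n : ℤ, n ≠ 0 → ‖D n‖ ≤ Real.sqrt (R / ‖α‖) / h * Real.exp (-(κ / 4) * R) *
      Real.exp (-(κ / 2) * |(n : ℝ)|) := fun n hn0 => by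
    have hn1 : (1 : ℝ) ≤ |(n : ℝ)| := by
      rw [← Int.cast_abs]; exact_mod_cast Int.one_le_abs hn0
    simp only [hD]
    rw [norm_mul, norm_div, b7a_norm_root R hR0, Complex.norm_real, Real.norm_of_nonneg hh.le,
      Complex.norm_exp, mul_assoc _ (Real.exp _), ← Real.exp_add]
    refine mul_le_mul_of_nonneg_left (Real.exp_le_exp.2 ?_) (by positivity)
    have e1 : (π : ℂ) * R * (β - I * n / h) ^ 2 / α
        = ((π * R : ℝ) : ℂ) * ((β - ((n / h : ℝ) : ℂ) * I) ^ 2 / α) := by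
      push_cast; ring
    rw [add_re, e1, re_ofReal_mul, re_ofReal_mul, I_re, mul_zero, add_zero]
    have e2 := b7a_re hα (β - ((n / h : ℝ) : ℂ) * I)
    rw [← hM] at e2
    simp only [sub_re, sub_im, re_ofReal_mul, im_ofReal_mul, I_re, I_im, mul_zero, mul_one,
      sub_zero] at e2
    have e3 : τ * |(n : ℝ)| ≤ |β.im - n / h| := by
      have a1 : |(n : ℝ) / h| - |β.im| ≤ |β.im - n / h| := by
        rw [abs_sub_comm]; exact abs_sub_abs_le_abs_sub _ _
      rw [abs_div, abs_of_pos hh] at a1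
      have a2 : τ ≤ t := min_le_left _ _
      have a3 : τ ≤ 1 / h := min_le_right _ _
      have a4 : τ * (|(n : ℝ)| - 1) ≤ 1 / h * (|(n : ℝ)| - 1) :=
        mul_le_mul_of_nonneg_right a3 (sub_nonneg.2 hn1)
      have a5 : |(n : ℝ)| / h = 1 / h * |(n : ℝ)| := by ring
      linarith only [a1, hb2, a2, a4, a5]
    have e4 : τ ^ 2 * |(n : ℝ)| ≤ (β.im - n / h) ^ 2 := by
      rw [← sq_abs (β.im - n / h)]
      refine le_trans ?_ (pow_le_pow_left₀ (mul_nonneg hτ0.le (abs_nonneg _)) e3 2)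
      rw [mul_pow]
      exact mul_le_mul_of_nonneg_left (le_self_pow₀ hn1 two_ne_zero) (sq_nonneg _)
    have e5 : ((β - ((n / h : ℝ) : ℂ) * I) ^ 2 / α).re ≤
        (τ ^ 2 * α.re / 2 / normSq α) * (1 / 4 - |(n : ℝ)|) := by
      refine e2.trans ?_
      rw [div_mul_eq_mul_div _ (normSq α)]
      refine div_le_div_of_nonneg_right ?_ hn.le
      have := mul_le_mul_of_nonneg_right e4 hα.le
      linarith only [this, hx]
    have e6 := mul_le_mul_of_nonneg_left e5 (mul_pos hpi hR0).le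
    refine e6.trans ?_
    have e7 : π * R * (τ ^ 2 * α.re / 2 / normSq α * (1 / 4 - |(n : ℝ)|))
        = κ * (R * (1 / 4 - |(n : ℝ)|)) := by rw [hκ]; ring
    rw [e7]
    have e8 : R * (1 / 4 - |(n : ℝ)|) ≤ -(1 / 4) * R - 1 / 2 * |(n : ℝ)| := by
      linarith only [hR, hn1, mul_nonneg (sub_nonneg.2 hR) (sub_nonneg.2 hn1)]
    linarith only [mul_le_mul_of_nonneg_left e8 hκ0.le]
  have hg' := hg.mul_left (Real.sqrt (R / ‖α‖) / h * Real.exp (-(κ / 4) * R))
  have hs : Summable D := by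
    refine hg'.of_norm_bounded_eventually ?_
    filter_upwards [(Set.finite_singleton (0 : ℤ)).compl_mem_cofinite] with n hn0
    exact hb n hn0
  have hD0 : D 0 = gmain R α β / h := by
    simp only [hD, gmain]
    simp
    ring
  rw [hs.tsum_eq_add_tsum_ite 0, hD0, add_sub_cancel_left]
  refine (tsum_of_norm_bounded hg'.hasSum fun n => ?_).trans ?_
  · split_ifs with e
    · rw [norm_zero]; positivity
    · exact hb n e
  · rw [tsum_mul_left]
    have hS : 0 ≤ ∑' j : ℤ, Real.exp (-(κ / 2) * |(j : ℝ)|) :=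
      tsum_nonneg fun _ => (Real.exp_pos _).le
    generalize ∑' j : ℤ, Real.exp (-(κ / 2) * |(j : ℝ)|) = S at hev hS
    have a1 : Real.sqrt (R / ‖α‖) ≤ Real.sqrt (1 / ‖α‖) * R := by
      have : R / ‖α‖ = 1 / ‖α‖ * R := by ring
      rw [this, Real.sqrt_mul (by positivity)]
      refine mul_le_mul_of_nonneg_left ?_ (Real.sqrt_nonneg _)
      rw [Real.sqrt_le_left hR0.le]
      exact le_self_pow₀ hR two_ne_zero
    have a2 : Real.exp (-(κ / 8) * R) = Real.exp (κ / 8 * R) * Real.exp (-(κ / 4) * R) := by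
      rw [← Real.exp_add]; congr 1; ring
    rw [a2]
    have a3 : Real.sqrt (R / ‖α‖) / h * S ≤ Real.sqrt (1 / ‖α‖) / h * S * R := by
      have := mul_le_mul_of_nonneg_right a1 (div_nonneg hS hh.le)
      calc _ = Real.sqrt (R / ‖α‖) * (S / h) := by ring
        _ ≤ _ := this
        _ = _ := by ring
    calc _ = Real.sqrt (R / ‖α‖) / h * S * Real.exp (-(κ / 4) * R) := by ring
      _ ≤ _ := mul_le_mul_of_nonneg_right (a3.trans hev) (Real.exp_pos _).le

theorem gauss_tail {α : ℂ} (hα : 0 < α.re) {h ρ : ℝ} (hh : 0 < h) (hρ : 0 < ρ) :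
    ∃ η > 0, ∃ δ > 0, ∀ᶠ R : ℝ in atTop, ∀ β : ℂ, |β.re| ≤ η → ∀ y0 : ℝ, ∀ s : Set ℤ,
      (∀ k ∈ s, ρ * R ≤ |h * k + y0|) →
      ∑' k : ℤ, s.indicator (fun k => ‖gauss R α β (h * k + y0)‖) k ≤ Real.exp (-δ * R) := by
  have hpi := Real.pi_pos
  have hc : 0 < π * α.re * ρ / 4 := by positivity
  obtain ⟨C, hC⟩ := b7a_shift hc hh
  set κ : ℝ := π * α.re * ρ ^ 2 / 4 with hκ
  have hκ0 : 0 < κ := by positivity
  refine ⟨α.re * ρ / 4, by positivity, κ / 2, by positivity, ?_⟩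
  filter_upwards [eventually_ge_atTop 1, b7a_ev |C| (κ := κ / 2) (by positivity)]
    with R hR hev β hb y0 s hs
  have hR0 : 0 < R := by linarith only [hR]
  have hle : ∀ k : ℤ, s.indicator (fun k => ‖gauss R α β (h * k + y0)‖) k ≤
      Real.exp (-κ * R) * Real.exp (-(π * α.re * ρ / 4) * |h * k + y0|) := fun k => by
    by_cases hk : k ∈ s
    · rw [Set.indicator_of_mem hk, norm_gauss, ← Real.exp_add]
      refine Real.exp_le_exp.2 ?_
      have h1 := hs k hk
      generalize h * k + y0 = y at h1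
      have e1 : ρ * |y| ≤ y ^ 2 / R := by
        rw [le_div_iff₀ hR0, ← sq_abs]
        linarith only [h1, abs_nonneg y, mul_nonneg_of_nonpos_of_nonpos (Mathlib.Tactic.Linarith.sub_nonpos_of_le h1) (Mathlib.Tactic.Linarith.sub_nonpos_of_le (abs_nonneg y))]
      have e2 : β.re * y ≤ α.re * ρ / 4 * |y| :=
        (le_abs_self _).trans (by
          rw [abs_mul]; exact mul_le_mul_of_nonneg_right hb (abs_nonneg _))
      have e3 := mul_le_mul_of_nonneg_left e1 (mul_pos hpi hα).le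
      have e4 := mul_le_mul_of_nonneg_left e2 hpi.le
      have e5 := mul_le_mul_of_nonneg_left h1 hc.le
      have e6 : -π * α.re * y ^ 2 / R = -(π * α.re * (y ^ 2 / R)) := by ring
      rw [e6, hκ]
      linarith only [e3, e4, e5]
    · rw [Set.indicator_of_notMem hk]; positivity
  have hs1 := (hC y0).1.mul_left (Real.exp (-κ * R))
  have hs2 := Summable.of_nonneg_of_le
    (fun k => Set.indicator_nonneg (fun _ _ => norm_nonneg _) k) hle hs1
  refine (hs2.tsum_le_tsum hle hs1).trans ?_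
  rw [tsum_mul_left]
  have a2 : Real.exp (-(κ / 2) * R) = Real.exp (-κ * R) * Real.exp (κ / 2 * R) := by
    rw [← Real.exp_add]; congr 1; ring
  rw [a2]
  refine mul_le_mul_of_nonneg_left ((hC y0).2.trans (le_trans ?_ hev)) (Real.exp_pos _).le
  linarith only [hR, le_abs_self C, abs_nonneg C, mul_nonneg_of_nonpos_of_nonpos (Mathlib.Tactic.Linarith.sub_nonpos_of_le hR) (Mathlib.Tactic.Linarith.sub_nonpos_of_le (abs_nonneg C))]

end Pool.Agent.Work.MP_c404d3_gt
end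

-- merged part: Pool.Agent.Work.MP_c404d3_gt.B7b
section
/-!
B7b: normal form of one pass, and comparison of the passes. normal_form is an identity of
exponentials modulo 2π i ℤ (checked numerically): with m = 12k+1, κ = 2l+1, y = m - κ R/2,
chirp = exp(π i (m^2-1)/(6R)), m^2 = κ^2 R^2/4 + κ R y + y^2, exp(π i κ m/6) = exp(π i κ/6),
ζ^(m v) = exp(π i m) exp(π i κ ξ) exp(2π i y ξ/R) and exp(2π i l ξ) = (-1)^l (ξ = v - R/2).
psi_form: for odd j and 5 M = R, psi s = cj R j * exp(10 π i τ^2/R) with τ = s + 1/2 - j M/4.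
I_cmp: gauss_sum with h = 12, α = 1 - i/6, t = 1/24, both for l and for 0.
-/

namespace Pool.Agent.Work.MP_c404d3_gt

open scoped BigOperators Real Topology
open Finset Filter Complex

/-- the unit factor common to all passes, times the Gaussian prefactor -/
noncomputable def pre (R : ℕ) (u v : ℤ) : ℂ :=
  -cexp (-π * I / (6 * R)) * cexp (π * I * (v - R / 2)) * cexp (π * I / 6) *
    cexp (-π * I * R / 24) * cexp (-π * ((u : ℂ) - R / 2) ^ 2 / R)

noncomputable def bet (R : ℕ) (u v : ℤ) : ℂ := ((u : ℂ) - R / 2) / R + I * ((v : ℂ) - R / 2) / R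

noncomputable def cj (R : ℕ) (j : ℤ) : ℂ :=
  cexp (-5 * π * I / (2 * R)) * cexp (π * I * j / 2) * cexp (-π * I * j ^ 2 * R / 40)

lemma nf_zeta (R : ℕ) (n : ℤ) : zeta R ^ n = cexp (n * (2 * π * I / R)) := by
  unfold zeta; rw [Complex.exp_int_mul]

lemma nf_sign (n : ℤ) : (-1 : ℂ) ^ n = cexp (n * (π * I)) := by
  rw [Complex.exp_int_mul, Complex.exp_pi_mul_I]

lemma nf_neg (z : ℂ) : -cexp z = cexp (π * I + z) := by
  rw [Complex.exp_add, Complex.exp_pi_mul_I]; ring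

lemma nf_norm_om (R : ℕ) (l : ℤ) : ‖om R l‖ = 1 := by
  have e1 : ∀ x : ℝ, ‖cexp (x * I)‖ = 1 := Complex.norm_exp_ofReal_mul_I
  have a1 : π * I * l / 3 = ((π * l / 3 : ℝ) : ℂ) * I := by push_cast; ring
  have a2 : -π * I * l * (l + 1) * R / 6 = ((-π * l * (l + 1) * R / 6 : ℝ) : ℂ) * I := by
    push_cast; ring
  unfold om
  rw [a1, a2]
  simp only [norm_mul, e1, norm_zpow, norm_neg, norm_one, one_zpow, mul_one]

theorem norm_pre_le {R : ℕ} (hR : 0 < R) (u v : ℤ) : ‖pre R u v‖ ≤ 1 := by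
  have h0 : (0 : ℝ) < R := by exact_mod_cast hR
  have e1 : ∀ x : ℝ, ‖cexp (x * I)‖ = 1 := Complex.norm_exp_ofReal_mul_I
  have a1 : -π * I / (6 * R) = ((-π / (6 * R) : ℝ) : ℂ) * I := by push_cast; ring
  have a2 : π * I * ((v : ℂ) - R / 2) = ((π * (v - R / 2) : ℝ) : ℂ) * I := by push_cast; ring
  have a3 : π * I / 6 = ((π / 6 : ℝ) : ℂ) * I := by push_cast; ring
  have a4 : -π * I * R / 24 = ((-π * R / 24 : ℝ) : ℂ) * I := by push_cast; ring
  have a5 : -π * ((u : ℂ) - R / 2) ^ 2 / R = ((-π * (u - R / 2) ^ 2 / R : ℝ) : ℂ) := by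
    push_cast; ring
  unfold pre
  rw [a1, a2, a3, a4, a5]
  simp only [norm_mul, norm_neg, e1, one_mul, Complex.norm_exp_ofReal, Real.exp_le_one_iff]
  have : 0 ≤ π * ((u : ℝ) - R / 2) ^ 2 / R := by positivity
  rw [neg_mul, neg_div]
  linarith only [this]

theorem normal_form {R : ℕ} (hR : Odd R) (u v l k : ℤ) :
    chirp R k * el R u v (12 * k + 1 - l * R) =
      pre R u v * om R l *
        gauss R (1 - I / 6) (bet R u v) (12 * k + (1 - (2 * l + 1) * R / 2)) := by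
  obtain ⟨r, hr⟩ := hR
  have h0 : (R : ℂ) ≠ 0 := by exact_mod_cast (by omega : R ≠ 0)
  have hR' : (R : ℂ) = 2 * r + 1 := by exact_mod_cast hr
  unfold chirp el pre om gauss bet
  rw [nf_zeta, nf_zeta, nf_sign, nf_neg]
  simp only [← Complex.exp_add]
  rw [Complex.exp_eq_exp_iff_exists_int]
  refine ⟨k * (2 * l + 1) + 6 * k - l * (r + 1), ?_⟩
  have hr' : (r : ℂ) = (R - 1) / 2 := by rw [hR']; ring
  push_cast
  rw [hr']
  field_simp
  ring

theorem psi_form {R : ℕ} (hR : Odd R) (h5 : 5 ∣ R) {j : ℤ} (hj : Odd j) (s : ℤ) :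
    psi R s = cj R j * cexp (10 * π * I * ((s : ℂ) + 1 / 2 - j * R / 20) ^ 2 / R) := by
  obtain ⟨r, hr⟩ := hR
  obtain ⟨i, rfl⟩ := hj
  have h0 : (R : ℂ) ≠ 0 := by exact_mod_cast (by omega : R ≠ 0)
  unfold psi cj
  rw [nf_zeta, nf_sign]
  simp only [← Complex.exp_add]
  rw [Complex.exp_eq_exp_iff_exists_int]
  refine ⟨s * (i + 1), ?_⟩
  push_cast
  field_simp
  ring

theorem cj_add_two {R : ℕ} (hR : Odd R) (h5 : 5 ∣ R) (i : ℤ) :
    cj R (4 * i + 3) = cj R (4 * i + 1) ∧ cj R (4 * i + 1) = (-1) ^ i * cj R 1 := by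
  obtain ⟨M, rfl⟩ := h5
  obtain ⟨r, rfl⟩ : Odd M := (Nat.odd_mul.1 hR).2
  unfold cj
  rw [nf_sign]
  simp only [← Complex.exp_add]
  rw [Complex.exp_eq_exp_iff_exists_int, Complex.exp_eq_exp_iff_exists_int]
  refine ⟨⟨-(2 * i * r + i + r), ?_⟩, ⟨-(i * (2 * i * r + i + r)), ?_⟩⟩
  · push_cast
    ring
  · push_cast
    ring

theorem I_main : ∃ η > 0, ∃ δ > 0, ∀ᶠ R : ℕ in atTop, Odd R → ∀ u v l : ℤ,
    |(u : ℝ) - R / 2| ≤ η * R → |(v : ℝ) - R / 2| ≤ η * R →
    ‖Isum R u v l - pre R u v * om R l * gmain R (1 - I / 6) (bet R u v) / 12‖ ≤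
      Real.exp (-δ * R) := by
  obtain ⟨η, hη, δ, hδ, H⟩ := gauss_sum (α := 1 - I / 6) (by simp) (h := 12) (t := 1 / 24)
    (by norm_num) (by norm_num)
  refine ⟨min η (1 / 24), lt_min hη (by norm_num), δ, hδ, ?_⟩
  filter_upwards [tendsto_natCast_atTop_atTop.eventually H] with R HR hR u v l hu hv
  have hR0 : 0 < R := hR.pos
  have h0 : (0 : ℝ) < R := by exact_mod_cast hR0
  have hb : bet R u v = (((u - R / 2) / R : ℝ) : ℂ) + (((v - R / 2) / R : ℝ) : ℂ) * I := by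
    unfold bet; push_cast; ring
  have hre : (bet R u v).re = (u - R / 2) / R := by
    rw [hb]; simp only [add_re, ofReal_re, mul_re, I_re, ofReal_im, I_im]; ring
  have him : (bet R u v).im = (v - R / 2) / R := by
    rw [hb]; simp only [add_im, ofReal_re, mul_im, I_re, ofReal_im, I_im]; ring
  have h1 : |(bet R u v).re| ≤ η := by
    rw [hre, abs_div, abs_of_pos h0, div_le_iff₀ h0]
    exact hu.trans (mul_le_mul_of_nonneg_right (min_le_left _ _) h0.le)
  have h2 : |(bet R u v).im| ≤ 1 / 12 - 1 / 24 := by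
    rw [him, abs_div, abs_of_pos h0, div_le_iff₀ h0]
    exact hv.trans (mul_le_mul_of_nonneg_right ((min_le_right _ _).trans (by norm_num)) h0.le)
  have h3 := HR (bet R u v) h1 h2 (1 - (2 * l + 1) * R / 2)
  have h4 : Isum R u v l - pre R u v * om R l * gmain R (1 - I / 6) (bet R u v) / 12 =
      pre R u v * om R l * (∑' k : ℤ, gauss R (1 - I / 6) (bet R u v)
        (12 * k + (1 - (2 * l + 1) * R / 2)) - gmain R (1 - I / 6) (bet R u v) / (12 : ℝ)) := by
    unfold Isum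
    simp only [normal_form hR]
    rw [tsum_mul_left]
    push_cast
    ring
  rw [h4, norm_mul, norm_mul, nf_norm_om, mul_one]
  exact (mul_le_of_le_one_left (norm_nonneg _) (norm_pre_le hR0 u v)).trans h3

end Pool.Agent.Work.MP_c404d3_gt
end

-- merged part: Pool.Agent.Work.MP_c404d3_gt.B1
section
/-!
B1: the function Lob. Plan: log (2 sin u) = log 2 + log (sin u) a.e., interval integrable
(intervalIntegrable_log_sin), integral over [0, π] vanishes (integral_log_sin_zero_pi), π-periodic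
integrand (Real.log_neg_eq_log). The integrand is negative on (0, π/6) and (5π/6, π), positive on
(π/6, 5π/6), so on [0, π] the maximum of Lob is attained only at 5π/6. Lob_gap: reduce mod π and
use monotonicity on the three pieces (or compactness).
-/

namespace Pool.Agent.Work.MP_c404d3_gt

open scoped BigOperators Real Topology
open Finset Filter Complex

theorem intInt_logsin (a b : ℝ) :
    IntervalIntegrable (fun u => Real.log (2 * Real.sin u)) MeasureTheory.volume a b := by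
  have h : AnalyticOnNhd ℝ (fun u : ℝ => 2 * Real.sin u) (Set.uIcc a b) :=
    analyticOnNhd_const.mul Real.analyticOnNhd_sin
  exact h.meromorphicOn.intervalIntegrable_log

theorem Lob_continuous : Continuous Lob :=
  intervalIntegral.continuous_primitive intInt_logsin 0

theorem Lob_sub (a b : ℝ) : Lob b - Lob a = ∫ u in a..b, Real.log (2 * Real.sin u) :=
  intervalIntegral.integral_interval_sub_left (intInt_logsin 0 b) (intInt_logsin 0 a)

theorem B1_pi : Lob π = 0 := by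
  rw [Lob, intervalIntegral.integral_congr_Ioo_of_le Real.pi_pos.le
    (g := fun u => Real.log 2 + Real.log (Real.sin u)) fun u hu =>
      Real.log_mul two_ne_zero (Real.sin_pos_of_pos_of_lt_pi hu.1 hu.2).ne',
    intervalIntegral.integral_add intervalIntegrable_const (by apply intervalIntegrable_log_sin),
    integral_log_sin_zero_pi]
  simp [mul_comm]

theorem Lob_add_pi (θ : ℝ) : Lob (θ + π) = Lob θ := by
  have h : Function.Periodic (fun u => Real.log (2 * Real.sin u)) π := fun u => by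
    simp only [Real.sin_add_pi, mul_neg, Real.log_neg_eq_log]
  rw [← sub_eq_zero, Lob_sub, h.intervalIntegral_add_eq θ 0, zero_add]
  exact B1_pi

theorem Lob_neg (θ : ℝ) : Lob (-θ) = -Lob θ := by
  have h := intervalIntegral.integral_comp_neg (a := 0) (b := θ)
    (fun u => Real.log (2 * Real.sin u))
  simp only [Real.sin_neg, mul_neg, Real.log_neg_eq_log, neg_zero] at h
  rw [Lob, Lob, h, intervalIntegral.integral_symm]

theorem B1_per (θ : ℝ) (k : ℤ) : Lob (θ - k * π) = Lob θ :=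
  Function.Periodic.sub_int_mul_eq (f := Lob) Lob_add_pi k

theorem B1_red (θ c : ℝ) : ∃ k : ℤ, c ≤ θ - k * π ∧ θ - k * π < c + π := by
  obtain ⟨k, hk, -⟩ := existsUnique_sub_zsmul_mem_Ico Real.pi_pos θ c
  exact ⟨k, by simpa using hk⟩

theorem Lob_uniformContinuous : UniformContinuous Lob := by
  have h := Metric.uniformContinuousOn_iff.1
    ((isCompact_Icc (a := (-1 : ℝ)) (b := π + 1)).uniformContinuousOn_of_continuous
      Lob_continuous.continuousOn)
  refine Metric.uniformContinuous_iff.2 fun ε hε => ?_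
  obtain ⟨δ, hδ, h⟩ := h ε hε
  refine ⟨min δ 1, lt_min hδ one_pos, fun {x y} hxy => ?_⟩
  obtain ⟨k, h1, h2⟩ := B1_red x 0
  have h3 := abs_lt.1 (show |x - y| < 1 from hxy.trans_le (min_le_right _ _))
  rw [← B1_per x k, ← B1_per y k]
  refine h _ ⟨by linarith, by linarith⟩ _ ⟨by linarith [h3.2], by linarith [h3.1]⟩ ?_
  rw [dist_sub_right]
  exact hxy.trans_le (min_le_left _ _)

theorem B1_small {u : ℝ} (h0 : 0 < u) (h1 : u < π / 6) : Real.log (2 * Real.sin u) < 0 := by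
  have h2 := Real.sin_pos_of_pos_of_lt_pi h0 (by linarith only [h0, h1, Real.pi_pos])
  have h3 := Real.sin_lt_sin_of_lt_of_le_pi_div_two (by linarith only [h0, h1, Real.pi_pos])
    (by linarith only [h0, h1, Real.pi_pos]) h1
  rw [Real.sin_pi_div_six] at h3
  exact Real.log_neg (by linarith only [h2]) (by linarith)

theorem B1_large {u : ℝ} (h0 : π / 6 < u) (h1 : u < 5 * π / 6) : 0 < Real.log (2 * Real.sin u) := by
  have key : ∀ v, π / 6 < v → v ≤ π / 2 → 1 / 2 < Real.sin v := fun v h h' => by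
    rw [← Real.sin_pi_div_six]
    exact Real.sin_lt_sin_of_lt_of_le_pi_div_two (by linarith only [h0, h1, Real.pi_pos]) h' h
  refine Real.log_pos ?_
  rcases le_total u (π / 2) with h | h
  · linarith only [key, h0, h, key u h0 h]
  · have := key (π - u) (by linarith only [h1]) (by linarith only [h])
    rw [Real.sin_pi_sub] at this
    linarith only [this]

theorem B1_dec {a b : ℝ} (hab : a < b) (h : ∀ u ∈ Set.Ioo a b, Real.log (2 * Real.sin u) < 0) :
    Lob b < Lob a := by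
  have h1 := intervalIntegral.intervalIntegral_pos_of_pos_on (intInt_logsin a b).neg
    (fun u hu => neg_pos.2 (h u hu)) hab
  simp only [Pi.neg_apply, intervalIntegral.integral_neg, ← Lob_sub] at h1
  linarith

theorem B1_lt {θ : ℝ} (h0 : π / 6 ≤ θ) (h1 : θ ≤ π / 6 + π) (h2 : θ ≠ 5 * π / 6) :
    Lob θ < Lob (5 * π / 6) := by
  have hp := Real.pi_pos
  have key : ∀ t, 5 * π / 6 < t → t ≤ π → Lob t < Lob (5 * π / 6) := fun t h h' =>
    B1_dec h fun u hu => by
      rw [← Real.sin_pi_sub]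
      exact B1_small (by linarith only [h', hu, hu.2]) (by linarith only [hu, hu.1])
  rcases h2.lt_or_gt with h | h
  · rw [← sub_pos, Lob_sub]
    exact intervalIntegral.intervalIntegral_pos_of_pos_on (intInt_logsin _ _)
      (fun u hu => B1_large (h0.trans_lt hu.1) hu.2) h
  · rcases le_or_gt θ π with h3 | h3
    · exact key θ h h3
    · refine (B1_dec h3 fun u hu => ?_).trans (key π (by linarith only [h1, h3]) le_rfl)
      have := B1_small (u := u - π) (by linarith only [hu, hu.1]) (by linarith only [h1, hu, hu.2])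
      rwa [Real.sin_sub_pi, mul_neg, Real.log_neg_eq_log] at this

theorem B1_gam : π * gam = Lob (5 * π / 6) := mul_div_cancel₀ _ Real.pi_ne_zero

theorem gam_pos : 0 < gam := by
  have h := B1_lt (θ := π) (by linarith only [Real.pi_pos]) (by linarith [Real.pi_pos])
    (by linarith [Real.pi_pos])
  rw [B1_pi] at h
  exact div_pos h Real.pi_pos

theorem Lob_le (θ : ℝ) : Lob θ ≤ π * gam := by
  obtain ⟨k, h1, h2⟩ := B1_red θ (π / 6)
  rw [B1_gam, ← B1_per θ k]
  by_cases h : θ - k * π = 5 * π / 6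
  · rw [h]
  · exact (B1_lt h1 h2.le h).le

theorem Lob_gap {η : ℝ} (hη : 0 < η) : ∃ δ > 0, ∀ θ : ℝ,
    (∀ k : ℤ, η ≤ |θ - 5 * π / 6 - k * π|) → Lob θ ≤ π * gam - δ := by
  have hK : IsCompact (Set.Icc (π / 6) (π / 6 + π) ∩ {θ | η ≤ |θ - 5 * π / 6|}) :=
    isCompact_Icc.inter_right (isClosed_le continuous_const (by fun_prop))
  obtain ⟨δ, hδ, h⟩ := hK.exists_forall_le' (f := fun θ => Lob (5 * π / 6) - Lob θ)
    (continuous_const.sub Lob_continuous).continuousOn (a := 0) fun θ hθ =>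
      sub_pos.2 (B1_lt hθ.1.1 hθ.1.2 fun e => by
        have := hθ.2
        rw [Set.mem_ofPred_eq, e, sub_self, abs_zero] at this
        linarith only [hη, this])
  refine ⟨δ, hδ, fun θ hθ => ?_⟩
  obtain ⟨k, h1, h2⟩ := B1_red θ (π / 6)
  have h3 := h (θ - k * π) ⟨⟨h1, h2.le⟩, by
    rw [Set.mem_ofPred_eq, sub_right_comm]
    exact hθ k⟩
  rw [B1_per] at h3
  rw [B1_gam]
  linarith only [h3]

end Pool.Agent.Work.MP_c404d3_gt
end

-- merged part: Pool.Agent.Work.MP_c404d3_gt.B2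
section
/-!
B2: sums of log (2 sin) against Lob. Plan, Δ = 2π/R, r = R/2, h u = log (2 sin u).
Upper bound. h is concave on (0, π) and on (π, 2π) (strictConcaveOn_log composed with sin, or the
chord inequality sin of a convex combination), so (h u + h (u+Δ))/2 * Δ ≤ ∫ over [u, u+Δ]; for
1 ≤ a ≤ b ≤ r this gives ∑ j ∈ Icc a b, h (jΔ) ≤ (Lob (bΔ) - Lob (aΔ))/Δ + log 2; the same for
r < a ≤ b < R (symmetry j ↦ R - j); join the two pieces with Lob_uniformContinuous (the missing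
piece is |Lob ((r+1)Δ) - Lob (rΔ)|/Δ ≤ ε R). Monotonicity of h on the four quarter periods is an
alternative to concavity.
Lower bound. ∏ j ∈ Icc 1 (R-1), |2 sin (jΔ)| = R ≥ 1 (IsPrimitiveRoot.prod_one_sub_pow_eq_order
for zeta^2), so the sum over Icc a b is at least minus the upper bounds for Icc 1 (a-1) and
Icc (b+1) (R-1); use Lob (2π) = Lob 0 = 0 and uniform continuity.
-/

namespace Pool.Agent.Work.MP_c404d3_gt

open scoped BigOperators Real Topology
open Finset Filter Complex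

/-- The midpoint rule on an interval inside `[0, π]`. -/
theorem B2_mid {s y : ℝ} (hs : 0 < s) (h1 : s ≤ y) (h2 : y + s ≤ π) :
    Lob (y + s) - Lob (y - s) ≤ 2 * s * Real.log (2 * Real.sin y) := by
  have e1 : Lob (y + s) - Lob y = ∫ t in (0 : ℝ)..s, Real.log (2 * Real.sin (y + t)) := by
    rw [Lob_sub, intervalIntegral.integral_comp_add_left (fun u => Real.log (2 * Real.sin u)),
      add_zero]
  have e2 : Lob y - Lob (y - s) = ∫ t in (0 : ℝ)..s, Real.log (2 * Real.sin (y - t)) := by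
    rw [Lob_sub, intervalIntegral.integral_comp_sub_left (fun u => Real.log (2 * Real.sin u)),
      sub_zero]
  have i1 : IntervalIntegrable (fun t => Real.log (2 * Real.sin (y + t))) MeasureTheory.volume
      0 s := by simpa using (intInt_logsin y (y + s)).comp_add_left y
  have i2 : IntervalIntegrable (fun t => Real.log (2 * Real.sin (y - t))) MeasureTheory.volume
      0 s := by simpa using (intInt_logsin y (y - s)).comp_sub_left y
  have h3 := intervalIntegral.integral_mono_on_of_le_Ioo hs.le (i1.add i2)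
    (intervalIntegrable_const (c := 2 * Real.log (2 * Real.sin y))) fun t ht => by
      have p1 : 0 < Real.sin (y + t) :=
        Real.sin_pos_of_pos_of_lt_pi (by linarith [ht.1]) (by linarith [ht.2])
      have p2 : 0 < Real.sin (y - t) :=
        Real.sin_pos_of_pos_of_lt_pi (by linarith [ht.2]) (by linarith [ht.1])
      rw [← Real.log_mul (by positivity) (by positivity)]
      refine (Real.log_le_log (y := (2 * Real.sin y) ^ 2) (by positivity) ?_).trans_eq ?_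
      · rw [Real.sin_add, Real.sin_sub]
        linarith only [Real.sin_sq_add_cos_sq t, sq_nonneg (Real.sin y * Real.sin t),
          sq_nonneg (Real.cos y * Real.sin t), sq_nonneg (Real.cos y * Real.sin t), sq_nonneg (Real.sin y * Real.sin t), Mathlib.Tactic.Linarith.mul_zero_eq (Mathlib.Tactic.Linarith.sub_nonpos_of_le (sq_nonneg ((2 : ℝ) * Real.sin y))) (sub_eq_zero_of_eq (Real.sin_sq_add_cos_sq t))]
      · rw [Real.log_pow]
        norm_num
  rw [intervalIntegral.integral_add i1 i2, intervalIntegral.integral_const, smul_eq_mul,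
    ← e1, ← e2] at h3
  linarith

theorem B2_step {R j : ℕ} (hR : Odd R) (h1 : 0 < j) (h2 : j < R) :
    Lob (2 * π * (j + 1 : ℕ) / R - π / R) - Lob (2 * π * j / R - π / R) ≤
      2 * (π / R) * Real.log (2 * Real.sin (2 * π * j / R)) := by
  have hR0 : (0 : ℝ) < R := Nat.cast_pos.2 hR.pos
  have hs : 0 < π / R := div_pos Real.pi_pos hR0
  have e0 : π = R * (π / R) := by field_simp
  have e1 : 2 * π * j / R = 2 * j * (π / R) := by ring
  have e2 : 2 * π * (j + 1 : ℕ) / R - π / R = 2 * π * j / R + π / R := by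
    push_cast
    ring
  rw [e2]
  obtain ⟨r, hr⟩ := hR
  rcases le_or_gt j r with h | h
  · have a1 : (1 : ℝ) ≤ j := by exact_mod_cast h1
    have a2 : (2 * j + 1 : ℝ) ≤ R := by exact_mod_cast (by omega : 2 * j + 1 ≤ R)
    exact B2_mid hs (by rw [e1]; linarith only [hs, a1, mul_nonneg_of_nonpos_of_nonpos (le_of_lt (Mathlib.Tactic.Linarith.sub_neg_of_lt hs)) (Mathlib.Tactic.Linarith.sub_nonpos_of_le a1)]) (by rw [e1]; linarith only [e0, hs, a2, mul_nonneg_of_nonpos_of_nonpos (le_of_lt (Mathlib.Tactic.Linarith.sub_neg_of_lt hs)) (Mathlib.Tactic.Linarith.sub_nonpos_of_le a2)])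
  · have a1 : (R + 1 : ℝ) ≤ 2 * j := by exact_mod_cast (by omega : R + 1 ≤ 2 * j)
    have a2 : (j + 1 : ℝ) ≤ R := by exact_mod_cast h2
    have h3 := B2_mid (y := 2 * π * j / R - π) hs (by rw [e1]; linarith only [e0, hs, a1, mul_nonneg_of_nonpos_of_nonpos (le_of_lt (Mathlib.Tactic.Linarith.sub_neg_of_lt hs)) (Mathlib.Tactic.Linarith.sub_nonpos_of_le a1)]) (by rw [e1]; linarith only [hs, e0, a2, mul_nonneg_of_nonpos_of_nonpos (le_of_lt (Mathlib.Tactic.Linarith.sub_neg_of_lt hs)) (Mathlib.Tactic.Linarith.sub_nonpos_of_le a2)])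
    rw [← Lob_add_pi (_ + _), ← Lob_add_pi (_ - π / R), Real.sin_sub_pi, mul_neg,
      Real.log_neg_eq_log] at h3
    convert h3 using 3 <;> ring

theorem B2_low {R a c : ℕ} (hR : Odd R) (h1 : 0 < a) (h2 : a ≤ c) (h3 : c ≤ R) :
    Lob (2 * π * c / R - π / R) - Lob (2 * π * a / R - π / R) ≤
      2 * (π / R) * ∑ j ∈ Ico a c, Real.log (2 * Real.sin (2 * π * j / R)) := by
  rw [← Finset.sum_Ico_sub (fun j : ℕ => Lob (2 * π * j / R - π / R)) h2, Finset.mul_sum]
  refine Finset.sum_le_sum fun j hj => ?_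
  have := Finset.mem_Ico.1 hj
  exact B2_step hR (by omega) (by omega)

theorem B2_tot {R : ℕ} (hR : Odd R) :
    ∑ j ∈ Ico 1 R, Real.log (2 * Real.sin (2 * π * j / R)) = Real.log R := by
  obtain ⟨n, rfl⟩ : ∃ n, R = n + 1 := ⟨R - 1, by have := hR.pos; omega⟩
  have h1 := (Complex.isPrimitiveRoot_exp_of_coprime 2 (n + 1) n.succ_ne_zero
    (Nat.coprime_two_left.2 hR)).prod_one_sub_pow_eq_order
  have h2 := congrArg norm h1
  have h3 : ∀ k : ℕ, ‖1 - cexp (2 * π * I * (((2 : ℕ) : ℂ) / ((n + 1 : ℕ) : ℂ))) ^ (k + 1)‖ =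
      |2 * Real.sin (2 * π * ((1 + k : ℕ) : ℝ) / ((n + 1 : ℕ) : ℝ))| := by
    intro k
    have := Complex.norm_exp_I_mul_ofReal_sub_one
      (2 * (2 * π * ((1 + k : ℕ) : ℝ) / ((n + 1 : ℕ) : ℝ)))
    rw [mul_div_cancel_left₀ _ two_ne_zero, Real.norm_eq_abs] at this
    rw [← this, norm_sub_rev, ← Complex.exp_nat_mul]
    congr 3
    push_cast
    ring
  rw [norm_prod, Finset.prod_congr rfl fun k _ => h3 k, ← Nat.cast_succ, Complex.norm_natCast]
    at h2
  have h4 : ((n + 1 : ℕ) : ℝ) ≠ 0 := Nat.cast_ne_zero.2 n.succ_ne_zero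
  rw [Finset.sum_Ico_eq_sum_range, Nat.add_sub_cancel]
  refine Eq.trans ?_ (congrArg Real.log h2)
  rw [Real.log_prod (Finset.prod_ne_zero_iff.1 (h2.trans_ne h4))]
  exact Finset.sum_congr rfl fun k _ => (Real.log_abs _).symm

theorem sum_log {ε : ℝ} (hε : 0 < ε) : ∀ᶠ R : ℕ in atTop, Odd R → ∀ a b : ℕ, 0 < a → a ≤ b →
    b < R → |∑ j ∈ Icc a b, Real.log (2 * Real.sin (2 * π * j / R)) -
      R / (2 * π) * (Lob (2 * π * b / R) - Lob (2 * π * a / R))| ≤ ε * R := by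
  obtain ⟨δ, hδ, hU⟩ := Metric.uniformContinuous_iff.1 Lob_uniformContinuous (ε * π / 4)
    (by positivity)
  have t1 : ∀ᶠ R : ℕ in atTop, π / R < δ :=
    (tendsto_const_div_atTop_nhds_zero_nat π).eventually (gt_mem_nhds hδ)
  have t2 : ∀ᶠ R : ℕ in atTop, ‖Real.log R‖ ≤ ε / 2 * ‖(R : ℝ)‖ :=
    tendsto_natCast_atTop_atTop.eventually (Real.isLittleO_log_id_atTop.def (half_pos hε))
  filter_upwards [t1, t2] with R hs hl hR a b ha hab hb
  have hR0 : (0 : ℝ) < R := Nat.cast_pos.2 hR.pos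
  have hs0 : 0 < π / R := div_pos Real.pi_pos hR0
  have hl' : Real.log R ≤ ε / 2 * R := by
    rw [Real.norm_natCast] at hl
    exact (le_abs_self _).trans hl
  have u1 : ∀ x, |Lob (x + π / R) - Lob x| < ε * π / 4 := fun x => hU (by
    rwa [Real.dist_eq, add_sub_cancel_left, abs_of_pos hs0])
  have u2 : ∀ x, |Lob (x - π / R) - Lob x| < ε * π / 4 := fun x => hU (by
    rwa [Real.dist_eq, sub_sub_cancel_left, abs_neg, abs_of_pos hs0])
  have l1 := B2_low hR Nat.one_pos ha (by omega : a ≤ R)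
  have l2 := B2_low hR ha (by omega : a ≤ b + 1) hb
  have l3 := B2_low hR (Nat.succ_pos b) hb le_rfl
  have s1 := Finset.sum_Ico_consecutive
    (fun j : ℕ => Real.log (2 * Real.sin (2 * π * j / R))) ha (by omega : a ≤ b + 1)
  have s2 := Finset.sum_Ico_consecutive
    (fun j : ℕ => Real.log (2 * Real.sin (2 * π * j / R))) (Nat.succ_pos b) hb
  have s3 := B2_tot hR
  have e1 : 2 * π * (b + 1 : ℕ) / R - π / R = 2 * π * b / R + π / R := by
    push_cast
    ring
  have e2 : 2 * π * (1 : ℕ) / R - π / R = 0 + π / R := by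
    push_cast
    ring
  have e3 : Lob (2 * π * R / R - π / R) = Lob (0 - π / R) := by
    rw [← Lob_add_pi (0 - _), ← Lob_add_pi (0 - _ + _), mul_div_cancel_right₀ _ hR0.ne']
    congr 1
    ring
  rw [e1] at l2 l3
  rw [e2] at l1
  rw [e3] at l3
  have v1 := abs_lt.1 (u1 0)
  have v2 := abs_lt.1 (u2 0)
  have v3 := abs_lt.1 (u1 (2 * π * b / R))
  have v4 := abs_lt.1 (u2 (2 * π * a / R))
  rw [← Finset.Ico_add_one_right_eq_Icc]
  set S := ∑ j ∈ Ico a (b + 1), Real.log (2 * Real.sin (2 * π * j / R))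
  set D := Lob (2 * π * b / R) - Lob (2 * π * a / R) with hD
  have w1 : -(ε * π / 2) ≤ 2 * (π / R) * S - D := by
    linarith only [l2, hD, v3.1, v4.2]
  have w2 : 2 * (π / R) * S - D ≤ 2 * (π / R) * Real.log R + ε * π := by
    rw [← s3, ← s2, ← s1, mul_add, mul_add]
    linarith only [l1, l3, hD, v1.2, v2.1, v3.2, v4.1]
  have hc : 0 < R / (2 * π) := by positivity
  have k1 : S - R / (2 * π) * D = R / (2 * π) * (2 * (π / R) * S - D) := by
    field_simp
  have k2 : R / (2 * π) * (2 * (π / R) * Real.log R + ε * π) = Real.log R + ε / 2 * R := by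
    field_simp
  have k3 : R / (2 * π) * -(ε * π / 2) = -(ε / 4 * R) := by
    field_simp
    ring
  have m1 := mul_le_mul_of_nonneg_left w1 hc.le
  have m2 := mul_le_mul_of_nonneg_left w2 hc.le
  have m3 : 0 < ε * R := by positivity
  rw [k1, abs_le]
  rw [k3] at m1
  rw [k2] at m2
  exact ⟨le_trans (by linarith only [m3]) m1, m2.trans (by linarith only [hl'])⟩

end Pool.Agent.Work.MP_c404d3_gt
end
end

-- merged part: Pool.Agent.Work.MP_c404d3_gt.A0
section
/-!
A0: basic closure properties (all direct computations).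
Plan: isMod_tensor: expand with mul_kronecker_mul; use E * Kp = q^(-2) Kp * E type relations
(entrywise from E_wt, F_wt) and qi (a+b) = qi a * q^(-b) + q^a * qi b.
isMod_irr: entrywise; qi (a+1) * qi (m-a) - qi a * qi (m-a+1) = qi (m-2a).
-/

namespace Pool.Agent.Work.MP_c404d3_gt

open scoped BigOperators Real Kronecker
open Matrix Finset

variable {ι κ ι' κ' : Type} [Fintype ι] [DecidableEq ι] [Fintype κ] [DecidableEq κ]
  [Fintype ι'] [DecidableEq ι'] [Fintype κ'] [DecidableEq κ']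

theorem gen_of_real {a : ℝ} (ha : 1 < a) : Gen (((a : ℂ)) ^ 2) := by
  have hb : 1 < a ^ 2 := one_lt_pow₀ ha two_ne_zero
  have h : ∀ n : ℤ, n ≠ 0 → ((a : ℂ) ^ 2) ^ n - ((a : ℂ) ^ 2) ^ (-n) ≠ 0 := fun n hn h => by
    have h1 : (a ^ 2) ^ n = (a ^ 2) ^ (-n) := by exact_mod_cast sub_eq_zero.1 h
    have := zpow_right_injective₀ (zero_lt_one.trans hb) hb.ne' h1
    omega
  refine ⟨pow_ne_zero _ (Complex.ofReal_ne_zero.2 (zero_lt_one.trans ha).ne'),
    fun n hn => div_ne_zero (h n hn) ?_⟩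
  simpa using h 1 one_ne_zero

theorem A0_qi_inv (q : ℂ) (n : ℤ) : qi q⁻¹ n = qi q n := by
  rw [qi, qi, inv_inv, _root_.inv_zpow', _root_.inv_zpow', neg_neg, ← neg_div_neg_eq, neg_sub,
    neg_sub]

theorem A0_sub_ne {q : ℂ} (hq : Gen q) : q - q⁻¹ ≠ 0 := fun h =>
  hq.2 1 one_ne_zero (by rw [qi, h, div_zero])

theorem Gen.inv {q : ℂ} (hq : Gen q) : Gen q⁻¹ := by
  exact ⟨inv_ne_zero hq.1, fun n hn => by rw [A0_qi_inv]; exact hq.2 n hn⟩

theorem qi_inv (q : ℂ) (n : ℤ) : qi q⁻¹ n = qi q n := by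
  exact A0_qi_inv q n

theorem qb_eq {q : ℂ} (hq : Gen q) (n : ℤ) : qb q n = (q - q⁻¹) * qi q n := by
  rw [qi, mul_div_cancel₀ _ (A0_sub_ne hq), qb]

theorem IsHom.id (X : QD ι) : IsHom X X 1 := by
  refine ⟨fun a b h => ?_, by simp, by simp⟩
  rw [by_contra fun h' : ¬a = b => h (one_apply_ne h')]

theorem IsHom.zero (X : QD ι) (Y : QD κ) : IsHom X Y 0 := by
  exact ⟨fun _ _ h => (h rfl).elim, by simp, by simp⟩

theorem IsHom.mul {X : QD ι} {Y : QD κ} {Z : QD ι'} {S : Matrix ι' κ ℂ} {T : Matrix κ ι ℂ}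
    (hS : IsHom Y Z S) (hT : IsHom X Y T) : IsHom X Z (S * T) := by
  refine ⟨fun a b h => ?_, by rw [Matrix.mul_assoc, hT.E, ← Matrix.mul_assoc, hS.E, Matrix.mul_assoc],
    by rw [Matrix.mul_assoc, hT.F, ← Matrix.mul_assoc, hS.F, Matrix.mul_assoc]⟩
  obtain ⟨c, -, hc⟩ := exists_ne_zero_of_sum_ne_zero h
  exact (hS.wt a c (left_ne_zero_of_mul hc)).trans (hT.wt c b (right_ne_zero_of_mul hc))

theorem IsHom.add {X : QD ι} {Y : QD κ} {S T : Matrix κ ι ℂ}
    (hS : IsHom X Y S) (hT : IsHom X Y T) : IsHom X Y (S + T) := by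
  refine ⟨fun a b h => ?_, by rw [Matrix.add_mul, Matrix.mul_add, hS.E, hT.E],
    by rw [Matrix.add_mul, Matrix.mul_add, hS.F, hT.F]⟩
  by_cases h1 : S a b = 0
  · exact hT.wt a b (by simpa [h1] using h)
  · exact hS.wt a b h1

theorem IsHom.sub {X : QD ι} {Y : QD κ} {S T : Matrix κ ι ℂ}
    (hS : IsHom X Y S) (hT : IsHom X Y T) : IsHom X Y (S - T) := by
  refine ⟨fun a b h => ?_, by rw [Matrix.sub_mul, Matrix.mul_sub, hS.E, hT.E],
    by rw [Matrix.sub_mul, Matrix.mul_sub, hS.F, hT.F]⟩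
  by_cases h1 : S a b = 0
  · exact hT.wt a b (by simpa [h1] using h)
  · exact hS.wt a b h1

theorem IsHom.smul {X : QD ι} {Y : QD κ} {T : Matrix κ ι ℂ} (a : ℂ)
    (hT : IsHom X Y T) : IsHom X Y (a • T) := by
  exact ⟨fun x y h => hT.wt x y (right_ne_zero_of_mul h),
    by rw [Matrix.smul_mul, Matrix.mul_smul, hT.E], by rw [Matrix.smul_mul, Matrix.mul_smul, hT.F]⟩

theorem IsHom.sum {X : QD ι} {Y : QD κ} {β : Type} (s : Finset β) {T : β → Matrix κ ι ℂ}
    (hT : ∀ b ∈ s, IsHom X Y (T b)) : IsHom X Y (∑ b ∈ s, T b) := by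
  exact Finset.sum_induction T (IsHom X Y) (fun _ _ => IsHom.add) (IsHom.zero X Y) hT

theorem IsHom.pow {X : QD ι} {T : Matrix ι ι ℂ} (hT : IsHom X X T) (n : ℕ) :
    IsHom X X (T ^ n) := by
  induction n with
  | zero => exact (pow_zero T).symm ▸ IsHom.id X
  | succ n ih => exact (pow_succ T n).symm ▸ ih.mul hT

theorem A0_diag {T : Matrix κ ι ℂ} {f : ι → ℂ} {g : κ → ℂ} (h : ∀ a b, T a b ≠ 0 → f b = g a) :
    T * diagonal f = diagonal g * T := by
  ext a b
  rw [mul_diagonal, diagonal_mul]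
  by_cases h0 : T a b = 0
  · simp [h0]
  · rw [h a b h0, mul_comm]

theorem IsHom.Kp_comm (q : ℂ) {X : QD ι} {Y : QD κ} {T : Matrix κ ι ℂ} (hT : IsHom X Y T) :
    T * Kp q X = Kp q Y * T := by
  exact A0_diag fun a b h => by rw [hT.wt a b h]

theorem IsHom.Km_comm (q : ℂ) {X : QD ι} {Y : QD κ} {T : Matrix κ ι ℂ} (hT : IsHom X Y T) :
    T * Km q X = Km q Y * T := by
  exact A0_diag fun a b h => by rw [hT.wt a b h]

theorem IsHom.kron (q : ℂ) {X : QD ι} {Y : QD κ} {X' : QD ι'} {Y' : QD κ'}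
    {S : Matrix ι' ι ℂ} {T : Matrix κ' κ ℂ} (hS : IsHom X X' S) (hT : IsHom Y Y' T) :
    IsHom (tensor q X Y) (tensor q X' Y') (S ⊗ₖ T) := by
  refine ⟨fun a b h => ?_, ?_, ?_⟩
  · exact congrArg₂ (· + ·) (hS.wt _ _ (left_ne_zero_of_mul h)) (hT.wt _ _ (right_ne_zero_of_mul h))
  · simp only [tensor, Matrix.mul_add, Matrix.add_mul, ← mul_kronecker_mul, hS.E, hT.E,
      hS.Kp_comm q, Matrix.mul_one, Matrix.one_mul]
  · simp only [tensor, Matrix.mul_add, Matrix.add_mul, ← mul_kronecker_mul, hS.F, hT.F,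
      hT.Km_comm q, Matrix.mul_one, Matrix.one_mul]

omit [DecidableEq ι] [DecidableEq κ] in
theorem A0_tr (f : ℤ → ℂ) {X : QD ι} {Y : QD κ} {S : Matrix ι κ ℂ} {T : Matrix κ ι ℂ}
    (hT : ∀ a b, T a b ≠ 0 → Y.wt a = X.wt b) :
    ∑ i, f (X.wt i) * (S * T) i i = ∑ k, f (Y.wt k) * (T * S) k k := by
  simp only [Matrix.mul_apply, mul_sum]
  rw [sum_comm]
  refine sum_congr rfl fun a _ => sum_congr rfl fun b _ => ?_
  by_cases h0 : T a b = 0
  · simp [h0]
  · rw [hT a b h0, mul_comm (S b a)]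

/-- cyclicity of the quantum trace for weight-preserving matrices -/
theorem qtr_comm (q : ℂ) {X : QD ι} {Y : QD κ} {S : Matrix ι κ ℂ} {T : Matrix κ ι ℂ}
    (hT : ∀ a b, T a b ≠ 0 → Y.wt a = X.wt b) : qtr q X (S * T) = qtr q Y (T * S) := by
  exact A0_tr (fun w => (-q⁻¹) ^ w) hT

theorem ch_comm {X : QD ι} {Y : QD κ} {S : Matrix ι κ ℂ} {T : Matrix κ ι ℂ}
    (hT : ∀ a b, T a b ≠ 0 → Y.wt a = X.wt b) (w : ℤ) : ch X (S * T) w = ch Y (T * S) w := by
  simpa [ch] using A0_tr (fun v => if v = w then 1 else 0) (S := S) hT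

theorem A0_qi_add {q : ℂ} (hq : q ≠ 0) (a b : ℤ) :
    qi q (a + b) = qi q a * q ^ (-b) + q ^ a * qi q b := by
  simp only [qi, neg_add, zpow_add₀ hq]
  ring

theorem isMod_tensor {q : ℂ} (hq : Gen q) {X : QD ι} {Y : QD κ} (hX : IsMod q X)
    (hY : IsMod q Y) : IsMod q (tensor q X Y) := by
  have d1 : ∀ {α : Type} [DecidableEq α] {f : α → ℂ} {a b : α}, diagonal f a b ≠ 0 → a = b :=
    fun h => by_contra fun h' => h (diagonal_apply_ne _ h')
  refine ⟨fun i j h => ?_, fun i j h => ?_, ?_⟩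
  · by_cases h1 : X.E i.1 j.1 * (1 : Matrix κ κ ℂ) i.2 j.2 = 0
    · have h2 : Kp q X i.1 j.1 * Y.E i.2 j.2 ≠ 0 := fun h2 => h (by simp [tensor, h1, h2])
      simp only [tensor, d1 (left_ne_zero_of_mul h2), hY.E_wt _ _ (right_ne_zero_of_mul h2),
        add_assoc]
    · simp only [tensor, d1 (right_ne_zero_of_mul h1), hX.E_wt _ _ (left_ne_zero_of_mul h1)]
      ring
  · by_cases h1 : X.F i.1 j.1 * Km q Y i.2 j.2 = 0
    · have h2 : (1 : Matrix ι ι ℂ) i.1 j.1 * Y.F i.2 j.2 ≠ 0 := fun h2 =>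
        h (by simp [tensor, h1, h2])
      simp only [tensor, d1 (left_ne_zero_of_mul h2), ← hY.F_wt _ _ (right_ne_zero_of_mul h2),
        add_assoc]
    · simp only [tensor, d1 (right_ne_zero_of_mul h1), ← hX.F_wt _ _ (left_ne_zero_of_mul h1)]
      ring
  have h1 : X.F * Kp q X = q ^ (2 : ℤ) • (Kp q X * X.F) := by
    rw [← Matrix.smul_mul, Kp, ← diagonal_smul]
    exact A0_diag fun a b h => by
      rw [← hX.F_wt a b h, zpow_add₀ hq.1, mul_comm, Pi.smul_apply, smul_eq_mul]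
  have h2 : Y.E * Km q Y = q ^ (2 : ℤ) • (Km q Y * Y.E) := by
    rw [← Matrix.smul_mul, Km, ← diagonal_smul]
    exact A0_diag fun a b h => by
      rw [Pi.smul_apply, smul_eq_mul, ← zpow_add₀ hq.1, hY.E_wt a b h]
      congr 1
      ring
  have h3 : diagonal (fun i => qi q ((tensor q X Y).wt i)) =
      (X.E * X.F - X.F * X.E) ⊗ₖ Km q Y + Kp q X ⊗ₖ (Y.E * Y.F - Y.F * Y.E) := by
    rw [hX.comm, hY.comm, Km, Kp, diagonal_kronecker_diagonal, diagonal_kronecker_diagonal,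
      diagonal_add]
    exact congrArg _ (funext fun i => A0_qi_add hq.1 _ _)
  rw [h3]
  simp only [tensor, Matrix.mul_add, Matrix.add_mul, ← mul_kronecker_mul, Matrix.mul_one,
    Matrix.one_mul, h1, h2, smul_kronecker, kronecker_smul, sub_eq_add_neg, add_kronecker,
    kronecker_add, ← neg_one_smul ℂ (X.F * X.E), ← neg_one_smul ℂ (Y.F * Y.E)]
  module

theorem isMod_irr {q : ℂ} (hq : Gen q) (m : ℕ) : IsMod q (irr q m) := by
  have z : qi q 0 = 0 := by simp [qi]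
  refine ⟨fun i j h => ?_, fun i j h => ?_, ?_⟩
  · have : (j : ℕ) = i + 1 := by_contra fun h' => h (if_neg h')
    simp only [irr]
    omega
  · have : (i : ℕ) = j + 1 := by_contra fun h' => h (if_neg h')
    simp only [irr]
    omega
  ext a c
  have h1 : ((irr q m).E * (irr q m).F) a c =
      if a = c then qi q ((m : ℤ) - (a : ℕ)) * qi q ((a : ℕ) + 1) else 0 := by
    simp only [irr, Matrix.mul_apply, of_apply]
    by_cases h : (a : ℕ) + 1 < m + 1
    · rw [sum_eq_single ⟨a + 1, h⟩ (fun b _ hb => by rw [if_neg fun e => hb (Fin.ext e), zero_mul])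
        (by simp)]
      simp [Fin.ext_iff]
    · rw [sum_eq_zero fun b _ => by rw [if_neg (by omega), zero_mul],
        show (m : ℤ) - (a : ℕ) = 0 by omega, z, zero_mul, ite_self]
  have h2 : ((irr q m).F * (irr q m).E) a c =
      if a = c then qi q (a : ℕ) * qi q ((m : ℤ) - (a : ℕ) + 1) else 0 := by
    simp only [irr, Matrix.mul_apply, of_apply]
    by_cases h : (a : ℕ) = 0
    · rw [sum_eq_zero fun b _ => by rw [if_neg (by omega), zero_mul], h, Nat.cast_zero, z,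
        zero_mul, ite_self]
    · rw [sum_eq_single ⟨a - 1, by omega⟩ (fun b _ hb => by
        rw [if_neg fun e => hb (Fin.ext (by simp only; omega)), zero_mul]) (by simp),
        if_pos (by simp only; omega)]
      by_cases e : a = c
      · rw [if_pos e, if_pos (by simp only [← e]; omega)]
        congr 2
        simp only
        omega
      · rw [if_neg e, if_neg fun e' => e (Fin.ext (by simp only at e'; omega)), mul_zero]
  rw [Matrix.sub_apply, h1, h2, diagonal_apply]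
  split_ifs
  · have h3 := A0_sub_ne hq
    have h4 := zpow_ne_zero (m : ℤ) hq.1
    have h5 := zpow_ne_zero ((a : ℕ) : ℤ) hq.1
    have h6 := hq.1
    simp only [irr, qi, two_mul, _root_.zpow_neg, zpow_sub₀ hq.1, zpow_add₀ hq.1, zpow_one]
    rw [div_mul_div_comm, div_mul_div_comm, ← sub_div, div_eq_div_iff (mul_ne_zero h3 h3) h3]
    field_simp
    ring
  · simp

theorem qtr_irr_one {q : ℂ} (hq : Gen q) (m : ℕ) :
    qtr q (irr q m) 1 = (-1) ^ m * qi q ((m : ℤ) + 1) := by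
  have h : ∀ i : ℕ, (-q⁻¹) ^ ((m : ℤ) - 2 * i) * (q - q⁻¹) =
      (-1) ^ m * (q ^ (2 * ((i + 1 : ℕ) : ℤ) - (m + 1)) - q ^ (2 * (i : ℤ) - (m + 1))) := by
    intro i
    rw [neg_eq_neg_one_mul, mul_zpow, zpow_sub₀ (by norm_num), _root_.zpow_mul,
      _root_.inv_zpow', mul_assoc, mul_sub, ← zpow_add_one₀ hq.1, ← zpow_sub_one₀ hq.1]
    congr 1
    · norm_num
    · congr 2 <;> push_cast <;> ring
  simp only [qtr, mu, irr, one_apply_eq, mul_one]
  rw [Fin.sum_univ_eq_sum_range (fun i => (-q⁻¹) ^ ((m : ℤ) - 2 * i)), qi, ← mul_div_assoc,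
    eq_div_iff (A0_sub_ne hq), sum_mul, sum_congr rfl fun i _ => h i, ← mul_sum,
    sum_range_sub fun i : ℕ => q ^ (2 * (i : ℤ) - (m + 1))]
  congr 3 <;> push_cast <;> ring

end Pool.Agent.Work.MP_c404d3_gt
end

-- merged part: Pool.Agent.Work.MP_c404d3_gt.B6
section
-- merged part: Pool.Agent.Work.MP_c404d3_gt.B3
section
/-!
B3: size of the terms. For 0 ≤ m < R, P R k m = 0 unless k < m and m + k < R (P_eq_zero), and then
log ‖P R k m‖ = ∑ j ∈ Icc (m-k) (m+k), log (2 sin (2π j/R)) (br_ne, norm_br), which sum_log compares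
with R/(2π) (Lob ((m+k)Δ) - Lob ((m-k)Δ)) ≤ R/(2π) * 2 π gam (Lob_le, Lob_neg). P_gap: if both
(m+k)Δ is η'-close to 5π/6 + πℤ and (m-k)Δ is η'-close to π/6 + πℤ (both in (0, 2π), and
(m-k)Δ ≤ (m+k)Δ) then (m,k) is close to (R/4, R/6), (3R/4, R/6) or (R/2, 5R/12); otherwise Lob_gap
applies to one of them. P_lower: continuity of Lob at 11π/6 and π/6.
-/

namespace Pool.Agent.Work.MP_c404d3_gt

open scoped BigOperators Real Topology
open Finset Filter Complex

theorem B3_key {ε : ℝ} (hε : 0 < ε) : ∀ᶠ R : ℕ in atTop, Odd R → ∀ (k : ℕ) (m : ℤ), k < m →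
    m + k < R → ∃ S : ℝ, ‖P R k m‖ = Real.exp S ∧
      |S - R / (2 * π) * (Lob (2 * π * (m + k) / R) - Lob (2 * π * (m - k) / R))| ≤ ε * R := by
  filter_upwards [sum_log hε] with R h hR k m h1 h2
  obtain ⟨a, rfl⟩ : ∃ a : ℕ, m = a + k := ⟨(m - k).toNat, by omega⟩
  have h3 := h hR a (a + 2 * k) (by omega) (by omega) (by omega)
  refine ⟨_, ?_, by convert h3 using 6 <;> push_cast <;> ring⟩
  have e : P R k (a + k) = ∏ j ∈ Icc a (a + 2 * k), br R j := by
    refine (prod_bij' (fun (j : ℕ) _ => (j : ℤ) - a - k) (fun (j : ℤ) _ => (a + k + j).toNat)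
      ?_ ?_ ?_ ?_ ?_).symm
    · intro j hj
      simp only [mem_Icc] at hj ⊢
      omega
    · intro j hj
      simp only [mem_Icc] at hj ⊢
      omega
    · intro j hj
      simp only [mem_Icc] at hj
      omega
    · intro j hj
      simp only [mem_Icc] at hj
      omega
    · intro j _
      congr 1
      ring
  rw [e, norm_prod, Real.exp_sum]
  refine prod_congr rfl fun j hj => ?_
  simp only [mem_Icc] at hj
  have hne : br R j ≠ 0 := br_ne hR fun hd => by
    have := Int.le_of_dvd (by omega) hd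
    omega
  have hn := norm_br R j
  rw [Int.cast_natCast] at hn
  rw [Real.exp_log_eq_abs, hn]
  intro h0
  rw [h0, abs_zero] at hn
  exact hne (norm_eq_zero.1 hn)

theorem B3_zero {R k : ℕ} {m : ℤ} (h0 : 0 ≤ m) (h1 : m < R) (h : ¬ ((k : ℤ) < m ∧ m + k < R)) :
    P R k m = 0 := by
  have hR : 0 < R := by omega
  by_cases c : (k : ℤ) < m
  · exact P_eq_zero hR (l := 1) (abs_le.2 ⟨by omega, by omega⟩)
  · exact P_eq_zero hR (l := 0) (abs_le.2 ⟨by omega, by omega⟩)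

theorem B3_bound {R : ℕ} {x y S ε δ : ℝ} (h : |S - R / (2 * π) * (x - y)| ≤ ε * R)
    (hxy : x - y ≤ 2 * π * gam - δ) : S ≤ (gam + ε - δ / (2 * π)) * R := by
  have hπ := Real.pi_pos
  have h1 : (R : ℝ) / (2 * π) * (x - y) ≤ R / (2 * π) * (2 * π * gam - δ) :=
    mul_le_mul_of_nonneg_left hxy (by positivity)
  have h2 : (R : ℝ) / (2 * π) * (2 * π * gam - δ) = (gam - δ / (2 * π)) * R := by
    field_simp
  have := (abs_le.1 h).2
  linarith only [h1, h2, this]

theorem B3_scale {R s c η : ℝ} (hR : 0 < R) (h : |2 * π * s / R - 2 * π * c| < 2 * π * η) :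
    |s - c * R| < η * R := by
  have hπ := Real.pi_pos
  have e : 2 * π * s / R - 2 * π * c = 2 * π / R * (s - c * R) := by field_simp
  rw [e, abs_mul, abs_of_pos (by positivity : 0 < 2 * π / R), div_mul_eq_mul_div,
    div_lt_iff₀ hR, mul_assoc (2 * π)] at h
  exact lt_of_mul_lt_mul_left h (by positivity)

theorem P_upper {ε : ℝ} (hε : 0 < ε) : ∀ᶠ R : ℕ in atTop, Odd R → ∀ k : ℕ, ∀ m : ℤ,
    ‖P R k m‖ ≤ Real.exp ((gam + ε) * R) := by
  filter_upwards [B3_key hε] with R h hR k m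
  have hR0 : 0 < R := hR.pos
  have hR1 : (0 : ℤ) < R := by exact_mod_cast hR0
  rw [show m = m % R + m / R * R from (Int.emod_add_ediv_mul m R).symm, P_per hR0]
  by_cases c : (k : ℤ) < m % R ∧ m % R + k < R
  · obtain ⟨S, e, hS⟩ := h hR k _ c.1 c.2
    rw [e]
    refine Real.exp_le_exp.2 ((B3_bound (δ := 0) hS ?_).trans (by simp))
    have a1 := Lob_le (2 * π * (((m % R : ℤ) : ℝ) + k) / R)
    have a2 := Lob_le (-(2 * π * (((m % R : ℤ) : ℝ) - k) / R))
    rw [Lob_neg] at a2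
    linarith only [a1, a2]
  · rw [B3_zero (Int.emod_nonneg _ hR1.ne') (Int.emod_lt_of_pos _ hR1) c, norm_zero]
    positivity

theorem P_gap {η : ℝ} (hη : 0 < η) : ∃ δ > 0, ∀ᶠ R : ℕ in atTop, Odd R → ∀ k : ℕ, ∀ m : ℤ,
    0 ≤ m → m < R →
    (η * R ≤ |(m : ℝ) - R / 4| ∨ η * R ≤ |(k : ℝ) - R / 6|) →
    (η * R ≤ |(m : ℝ) - 3 * R / 4| ∨ η * R ≤ |(k : ℝ) - R / 6|) →
    (η * R ≤ |(m : ℝ) - R / 2| ∨ η * R ≤ |(k : ℝ) - 5 * R / 12|) →
    ‖P R k m‖ ≤ Real.exp ((gam - δ) * R) := by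
  have hπ := Real.pi_pos
  obtain ⟨η₀, h0, h1, h2⟩ : ∃ η₀ : ℝ, 0 < η₀ ∧ η₀ ≤ η ∧ η₀ ≤ 1 / 100 :=
    ⟨min η (1 / 100), by positivity, min_le_left _ _, min_le_right _ _⟩
  obtain ⟨δ, hδ, hg⟩ := Lob_gap (η := 2 * π * η₀) (by positivity)
  refine ⟨δ / (4 * π), by positivity, ?_⟩
  filter_upwards [B3_key (ε := δ / (4 * π)) (by positivity)] with R h hR k m m0 m1 g1 g2 g3
  by_cases c : (k : ℤ) < m ∧ m + k < R
  swap
  · rw [B3_zero m0 m1 c, norm_zero]
    positivity
  obtain ⟨S, e, hS⟩ := h hR k _ c.1 c.2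
  rw [e]
  refine Real.exp_le_exp.2 ((B3_bound (δ := δ) hS ?_).trans (le_of_eq (by field_simp; ring)))
  have a1 := Lob_le (2 * π * ((m : ℝ) + k) / R)
  have a2 := Lob_le (-(2 * π * ((m : ℝ) - k) / R))
  have a3 := hg (2 * π * ((m : ℝ) + k) / R)
  have a4 := hg (-(2 * π * ((m : ℝ) - k) / R))
  rw [Lob_neg] at a2 a4
  by_contra hc
  have b3 : ¬ ∀ i : ℤ, 2 * π * η₀ ≤ |2 * π * ((m : ℝ) + k) / R - 5 * π / 6 - i * π| :=
    fun b => hc (by linarith only [a3 b, a2])
  have b4 : ¬ ∀ i : ℤ, 2 * π * η₀ ≤ |-(2 * π * ((m : ℝ) - k) / R) - 5 * π / 6 - i * π| :=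
    fun b => hc (by linarith only [a4 b, a1])
  push Not at b3 b4
  obtain ⟨i, hi⟩ := b3
  obtain ⟨j, hj⟩ := b4
  have hR0 : (0 : ℝ) < R := by exact_mod_cast hR.pos
  have c1 : (k : ℝ) < m := by exact_mod_cast c.1
  have c2 : (m : ℝ) + k < R := by exact_mod_cast c.2
  have c3 : (0 : ℝ) ≤ k := by positivity
  have d1 := abs_lt.1 (B3_scale (s := m + k) (c := 5 / 12 + i / 2) (η := η₀) hR0
    (lt_of_eq_of_lt (congrArg _ (by ring)) hi))
  have d2 := abs_lt.1 (B3_scale (s := m - k) (c := -5 / 12 - j / 2) (η := η₀) hR0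
    (by rw [← abs_neg]; exact lt_of_eq_of_lt (congrArg _ (by ring)) hj))
  have f1 : η₀ * R ≤ η * R := mul_le_mul_of_nonneg_right h1 hR0.le
  have f2 : η₀ * R ≤ 1 / 100 * R := mul_le_mul_of_nonneg_right h2 hR0.le
  clear hi hj a1 a2 a3 a4 hc hS h hg
  have i1 : (-1 : ℝ) < i := lt_of_mul_lt_mul_right (a := (R : ℝ))
    (by linarith only [d1.2, f2, c1, c3, hR0]) hR0.le
  have i2 : (i : ℝ) < 2 := lt_of_mul_lt_mul_right (a := (R : ℝ))
    (by linarith only [d1.1, f2, c2, hR0]) hR0.le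
  have j1 : (-3 : ℝ) < j := lt_of_mul_lt_mul_right (a := (R : ℝ))
    (by linarith only [d2.1, f2, c2, c3, hR0]) hR0.le
  have j2 : (j : ℝ) < 0 := lt_of_mul_lt_mul_right (a := (R : ℝ))
    (by linarith only [d2.2, f2, c1, hR0]) hR0.le
  have i3 : i = 0 ∨ i = 1 := by
    have : (-1 : ℤ) < i := by exact_mod_cast i1
    have : i < 2 := by exact_mod_cast i2
    omega
  have j3 : j = -1 ∨ j = -2 := by
    have : (-3 : ℤ) < j := by exact_mod_cast j1
    have : j < 0 := by exact_mod_cast j2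
    omega
  obtain ⟨d1, d1'⟩ := d1
  obtain ⟨d2, d2'⟩ := d2
  rcases i3 with rfl | rfl <;> rcases j3 with rfl | rfl <;> push_cast at d1 d1' d2 d2'
  · rcases g1 with g | g <;> rcases le_abs.1 g with g | g <;>
      linarith only [g, f1, d1, d1', d2, d2']
  · linarith only [d1', d2, f2, c3, hR0]
  · rcases g3 with g | g <;> rcases le_abs.1 g with g | g <;>
      linarith only [g, f1, d1, d1', d2, d2']
  · rcases g2 with g | g <;> rcases le_abs.1 g with g | g <;>
      linarith only [g, f1, d1, d1', d2, d2']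

theorem P_lower {ε : ℝ} (hε : 0 < ε) : ∀ᶠ R : ℕ in atTop, Odd R →
    5 * R / 12 ∈ Kmid R ∧ Real.exp ((gam - ε) * R) ≤ ‖P R (5 * R / 12) ((R / 2 : ℕ) : ℤ)‖ := by
  have hπ := Real.pi_pos
  obtain ⟨ρ, hρ, hu⟩ := Metric.uniformContinuous_iff.1 Lob_uniformContinuous (π * ε / 2)
    (by positivity)
  have hev : ∀ᶠ R : ℕ in atTop, 4 * π / ρ < R :=
    tendsto_natCast_atTop_atTop.eventually_gt_atTop _
  filter_upwards [B3_key (ε := ε / 2) (by positivity), eventually_ge_atTop 100, hev]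
    with R h h100 hρR hR
  refine ⟨by simp only [Kmid, mem_filter, mem_range]; omega, ?_⟩
  obtain ⟨S, e, hS⟩ := h hR (5 * R / 12) ((R / 2 : ℕ) : ℤ) (by omega) (by omega)
  rw [e]
  refine Real.exp_le_exp.2 ?_
  have hR0 : (0 : ℝ) < R := by exact_mod_cast hR.pos
  obtain ⟨k, hk⟩ : ∃ k, k = 5 * R / 12 := ⟨_, rfl⟩
  obtain ⟨m, hm⟩ : ∃ m, m = R / 2 := ⟨_, rfl⟩
  rw [← hk, ← hm, Int.cast_natCast] at hS
  have k1 : (12 * k : ℝ) ≤ 5 * R := by exact_mod_cast (by omega : 12 * k ≤ 5 * R)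
  have k2 : (5 * R : ℝ) ≤ 12 * k + 12 := by exact_mod_cast (by omega : 5 * R ≤ 12 * k + 12)
  have m1 : (2 * m : ℝ) ≤ R := by exact_mod_cast (by omega : 2 * m ≤ R)
  have m2 : (R : ℝ) ≤ 2 * m + 2 := by exact_mod_cast (by omega : R ≤ 2 * m + 2)
  have key : ∀ s c : ℝ, |s - c * R| ≤ 2 → |Lob (2 * π * s / R) - Lob (2 * π * c)| < π * ε / 2 := by
    intro s c hs
    refine hu (?_ : |_ - _| < ρ)
    have e : 2 * π * s / R - 2 * π * c = 2 * π / R * (s - c * R) := by field_simp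
    rw [e, abs_mul, abs_of_pos (by positivity : 0 < 2 * π / R)]
    refine (mul_le_mul_of_nonneg_left hs (by positivity)).trans_lt ?_
    rw [div_lt_iff₀ hρ] at hρR
    rw [div_mul_eq_mul_div, div_lt_iff₀ hR0]
    linarith only [hρR]
  have a1 := abs_lt.1 (key (m + k) (11 / 12) (abs_le.2 ⟨by linarith only [k2, m2], by linarith only [k1, m1]⟩))
  have a2 := abs_lt.1 (key (m - k) (1 / 12) (abs_le.2 ⟨by linarith only [k1, m2], by linarith only [k2, m1]⟩))
  have l0 : Lob (5 * π / 6) = π * gam := by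
    rw [gam]
    field_simp
  have l1 : Lob (2 * π * (11 / 12)) = π * gam := by
    rw [← l0, ← Lob_add_pi (5 * π / 6)]
    congr 1
    ring
  have l2 : Lob (2 * π * (1 / 12)) = -(π * gam) := by
    rw [← l0, ← Lob_neg, ← Lob_add_pi (-(5 * π / 6))]
    congr 1
    ring
  rw [l1] at a1
  rw [l2] at a2
  have h1 : (R : ℝ) / (2 * π) * (2 * π * gam - π * ε) ≤
      R / (2 * π) * (Lob (2 * π * (m + k) / R) - Lob (2 * π * (m - k) / R)) :=
    mul_le_mul_of_nonneg_left (by linarith only [a1, a2, a1.1, a2.2]) (by positivity)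
  have h2 : (R : ℝ) / (2 * π) * (2 * π * gam - π * ε) = (gam - ε / 2) * R := by
    field_simp
  have := (abs_le.1 hS).1
  linarith only [h1, h2, this]

end Pool.Agent.Work.MP_c404d3_gt
end

-- merged part: Pool.Agent.Work.MP_c404d3_gt.B6
section
/-!
B6: Fourier concentration of W. Plan. Fix k, N = 2k+1 < R, p = ∏ j ∈ Icc (-k) k, (C (ζ^(2j)) X - 1),
P R k m = ζ^(-N m) p.eval (ζ^(2m)) = ∑ i ≤ N, c i ζ^(m (2i - N)), c i = p.coeff i. The identity
p(ζ^2 X) (ζ^(-2k) X - 1) = p(X) (ζ^(2k+2) X - 1) gives c (i+1) (1 - ζ^(2i+2)) = c i (ζ^(2k+2) -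
ζ^(2i-2k)), i.e. |c (i+1)| |sin ((i+1)Δ)| = |c i| |sin ((N-i)Δ)|, Δ = 2π/R. Orthogonality: the
Fourier coefficient of P R k at v is c i if 2i - N ≡ v mod R (at most one i, since R is odd), else
0; hence |c i| ≤ max ‖P R k m‖ (P_upper). With λ = 2i - N, a = (i+1)Δ, b = (N-i)Δ:
sin²b - sin²a = sin (b-a) sin (a+b) = sin ((λ+1)Δ) |sin ((N+1)Δ)|, and |sin ((N+1)Δ)| ≥ 0.7 for
k ∈ Kmid. So |c| increases in i while 0 < λ+1 < R/2 and decreases while R/2 < λ+1 < R, by a factor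
(1 + 0.7 sin(π η))^(1/2), resp. (1 - 0.7 sin(π η))^(1/2), per step on the about η R/4 steps with
η R/2 ≤ |λ+1 - R/2| ≤ η R (WLOG η ≤ 1/4). Even v reduce to the odd R - v by oddness (P_neg).
-/

namespace Pool.Agent.Work.MP_c404d3_gt

open scoped BigOperators Real Topology
open Finset Filter Complex

theorem zeta_orth {R : ℕ} (hR : 0 < R) (a : ℤ) :
    ∑ v ∈ range R, zeta R ^ (a * (v : ℤ)) = if (R : ℤ) ∣ a then (R : ℂ) else 0 := by
  have hprim : IsPrimitiveRoot (zeta R) R := Complex.isPrimitiveRoot_exp R hR.ne'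
  have h1 : ∀ v : ℕ, zeta R ^ (a * (v : ℤ)) = (zeta R ^ a) ^ v := by
    intro v
    rw [zpow_mul, zpow_natCast]
  simp only [h1]
  split_ifs with h
  · rw [(hprim.zpow_eq_one_iff_dvd a).2 h]
    simp
  · have hne : zeta R ^ a ≠ 1 := fun h' => h ((hprim.zpow_eq_one_iff_dvd a).1 h')
    rw [geom_sum_eq hne, ← h1 R, zeta_zpow_mul hR]
    simp

theorem sum_Ico_int_eq (R : ℕ) (f : ℤ → ℂ) :
    ∑ v ∈ Ico (0 : ℤ) R, f v = ∑ v ∈ range R, f (v : ℤ) := by
  symm
  refine Finset.sum_bij (fun (v : ℕ) _ => (v : ℤ)) ?_ ?_ ?_ ?_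
  · intro a ha
    simp only [Finset.mem_range] at ha
    simp only [Finset.mem_Ico]
    omega
  · intro a _ b _ h
    exact_mod_cast h
  · intro b hb
    simp only [Finset.mem_Ico] at hb
    refine ⟨b.toNat, ?_, ?_⟩
    · simp only [Finset.mem_range]
      omega
    · show ((b.toNat : ℕ) : ℤ) = b
      omega
  · intro a _
    rfl

theorem W_fourier {R : ℕ} (hR : 0 < R) (m : ℤ) :
    W R m = ∑ v ∈ Ico (0 : ℤ) R, four R v * zeta R ^ (m * v) := by
  have hz := zeta_ne R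
  have hRc : (R : ℂ) ≠ 0 := by exact_mod_cast hR.ne'
  have hRz : (0 : ℤ) < R := by exact_mod_cast hR
  rw [sum_Ico_int_eq]
  have h1 : ∀ v : ℕ, four R v * zeta R ^ (m * (v : ℤ)) =
      ∑ n ∈ range R, (1 / R * W R n) * zeta R ^ ((m - n) * (v : ℤ)) := by
    intro v
    unfold four
    rw [Finset.mul_sum, Finset.sum_mul]
    refine Finset.sum_congr rfl fun n _ => ?_
    rw [show (m - n) * (v : ℤ) = -((n : ℤ) * v) + m * v by ring, zpow_add₀ hz]
    ring
  simp only [h1]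
  rw [Finset.sum_comm]
  simp only [← Finset.mul_sum, zeta_orth hR]
  have hmod0 : 0 ≤ m % R := Int.emod_nonneg m hRz.ne'
  have hmod1 : m % R < R := Int.emod_lt_of_pos m hRz
  rw [Finset.sum_eq_single (m % R).toNat]
  · have e : (((m % R).toNat : ℕ) : ℤ) = m % R := Int.toNat_of_nonneg hmod0
    rw [e, if_pos]
    · have e2 : m = m % R + (m / R) * R := by
        have := Int.emod_add_mul_ediv m R
        linarith only [this]
      have : W R m = W R (m % R) := by
        conv_lhs => rw [e2]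
        exact W_per hR _ _
      rw [this]
      field_simp
    · exact ⟨m / R, by have := Int.emod_add_mul_ediv m R; linarith only [this]⟩
  · intro n hn hne
    rw [if_neg, mul_zero]
    intro hd
    apply hne
    simp only [Finset.mem_range] at hn
    have h3 : m % R = (n : ℤ) % R :=
      Int.emod_eq_emod_iff_emod_sub_eq_zero.2 (Int.emod_eq_zero_of_dvd hd)
    have h4 : (n : ℤ) % R = n := Int.emod_eq_of_lt (by positivity) (by exact_mod_cast hn)
    omega
  · intro h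
    exfalso
    apply h
    simp only [Finset.mem_range]
    omega

theorem norm_dft_le {R : ℕ} (hR : 0 < R) {M : ℝ} (f : ℤ → ℂ) (hM : ∀ m : ℤ, ‖f m‖ ≤ M) (v : ℤ) :
    ‖(1 / R : ℂ) * ∑ m ∈ range R, f m * zeta R ^ (-((m : ℤ) * v))‖ ≤ M := by
  have hRr : (0 : ℝ) < R := by exact_mod_cast hR
  rw [norm_mul]
  have h1 : ‖∑ m ∈ range R, f m * zeta R ^ (-((m : ℤ) * v))‖ ≤ R * M := by
    refine (norm_sum_le _ _).trans ?_
    have : ∀ m ∈ range R, ‖f m * zeta R ^ (-((m : ℤ) * v))‖ ≤ M := by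
      intro m _
      rw [norm_mul, norm_zeta_zpow, mul_one]
      exact hM _
    refine (Finset.sum_le_sum this).trans ?_
    simp
  have h2 : ‖(1 / R : ℂ)‖ = 1 / R := by simp
  rw [h2]
  calc 1 / (R : ℝ) * ‖∑ m ∈ range R, f m * zeta R ^ (-((m : ℤ) * v))‖
      ≤ 1 / (R : ℝ) * (R * M) := by gcongr
    _ = M := by field_simp

theorem four_le {R : ℕ} (hR : 0 < R) {M : ℝ} (hM : ∀ m : ℤ, ‖W R m‖ ≤ M) (v : ℤ) :
    ‖four R v‖ ≤ M := norm_dft_le hR (W R) hM v

/-- discrete Fourier coefficients of a single term -/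
noncomputable def fk (R k : ℕ) (v : ℤ) : ℂ :=
  (1 / R) * ∑ m ∈ range R, P R k m * zeta R ^ (-((m : ℤ) * v))

theorem four_eq_sum (R : ℕ) (v : ℤ) : four R v = ∑ k ∈ Kmid R, fk R k v := by
  unfold four fk W
  rw [← Finset.mul_sum, Finset.sum_comm]
  simp only [Finset.sum_mul]

theorem P_shift (R k : ℕ) (m : ℤ) :
    P R k (m + 1) * br R (m - k) = P R k m * br R (m + (k + 1)) := by
  induction k with
  | zero => simp [P, mul_comm]
  | succ k ih =>
    rw [P_succ, P_succ]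
    push_cast
    have e1 : m + 1 - ((k : ℤ) + 1) = m - k := by ring
    have e2 : m + 1 + ((k : ℤ) + 1) = m + (k + 1 + 1) := by ring
    rw [e1, e2]
    linear_combination (br R (m + (k + 1 + 1)) * br R (m - (k + 1))) * ih

theorem sum_shift {R : ℕ} (f : ℤ → ℂ) (h : f R = f 0) :
    ∑ m ∈ range R, f ((m : ℤ) + 1) = ∑ m ∈ range R, f m := by
  have h1 := Finset.sum_range_succ' (fun m : ℕ => f m) R
  have h2 := Finset.sum_range_succ (fun m : ℕ => f m) R
  push_cast at h1 h2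
  rw [h2, h] at h1
  exact (add_right_cancel h1).symm

theorem fk_rec {R : ℕ} (hR : 0 < R) (k : ℕ) (u : ℤ) :
    fk R k (u - 1) * (zeta R ^ (u - 1 - k) - zeta R ^ ((k : ℤ) + 1)) =
      fk R k (u + 1) * (zeta R ^ (u + 1 + k) - zeta R ^ (-((k : ℤ) + 1))) := by
  have hz := zeta_ne R
  set f : ℤ → ℂ := fun m => P R k m * br R (m - 1 - k) * zeta R ^ (-((m - 1) * u)) with hf
  have hper : f R = f 0 := by
    simp only [hf]
    have a1 : P R k R = P R k 0 := by simpa using P_per hR k 0 1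
    have a2 : br R (R - 1 - k) = br R (0 - 1 - k) := by
      have := br_per hR (0 - 1 - k) 1
      rw [← this]
      congr 1
      ring
    have a3 : zeta R ^ (-(((R : ℤ) - 1) * u)) = zeta R ^ (-(((0 : ℤ) - 1) * u)) := by
      rw [show -(((R : ℤ) - 1) * u) = -(((0 : ℤ) - 1) * u) + (-u) * R by ring, zpow_add₀ hz,
        zeta_zpow_mul hR, mul_one]
    rw [a1, a2, a3]
  have hs := sum_shift f hper
  have hl : ∀ m : ℤ, f (m + 1) =
      zeta R ^ ((k : ℤ) + 1) * (P R k m * zeta R ^ (-(m * (u - 1)))) -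
        zeta R ^ (-((k : ℤ) + 1)) * (P R k m * zeta R ^ (-(m * (u + 1)))) := by
    intro m
    simp only [hf]
    rw [show m + 1 - 1 - (k : ℤ) = m - k by ring, P_shift]
    unfold br qb
    have b1 : zeta R ^ (m + ((k : ℤ) + 1)) * zeta R ^ (-((m + 1 - 1) * u)) =
        zeta R ^ ((k : ℤ) + 1) * zeta R ^ (-(m * (u - 1))) := by
      rw [← zpow_add₀ hz, ← zpow_add₀ hz]
      congr 1
      ring
    have b2 : zeta R ^ (-(m + ((k : ℤ) + 1))) * zeta R ^ (-((m + 1 - 1) * u)) =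
        zeta R ^ (-((k : ℤ) + 1)) * zeta R ^ (-(m * (u + 1))) := by
      rw [← zpow_add₀ hz, ← zpow_add₀ hz]
      congr 1
      ring
    linear_combination P R k m * b1 - P R k m * b2
  have hr : ∀ m : ℤ, f m =
      zeta R ^ (u - 1 - k) * (P R k m * zeta R ^ (-(m * (u - 1)))) -
        zeta R ^ (u + 1 + k) * (P R k m * zeta R ^ (-(m * (u + 1)))) := by
    intro m
    simp only [hf]
    unfold br qb
    have b1 : zeta R ^ (m - 1 - (k : ℤ)) * zeta R ^ (-((m - 1) * u)) =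
        zeta R ^ (u - 1 - k) * zeta R ^ (-(m * (u - 1))) := by
      rw [← zpow_add₀ hz, ← zpow_add₀ hz]
      congr 1
      ring
    have b2 : zeta R ^ (-(m - 1 - (k : ℤ))) * zeta R ^ (-((m - 1) * u)) =
        zeta R ^ (u + 1 + k) * zeta R ^ (-(m * (u + 1))) := by
      rw [← zpow_add₀ hz, ← zpow_add₀ hz]
      congr 1
      ring
    linear_combination P R k m * b1 - P R k m * b2
  rw [Finset.sum_congr rfl (fun (m : ℕ) _ => hl m), Finset.sum_congr rfl (fun (m : ℕ) _ => hr m),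
    Finset.sum_sub_distrib, Finset.sum_sub_distrib, ← Finset.mul_sum, ← Finset.mul_sum,
    ← Finset.mul_sum, ← Finset.mul_sum] at hs
  unfold fk
  linear_combination (-(1 / R : ℂ)) * hs

theorem normsq_zeta_sub (R : ℕ) (a b : ℤ) :
    ‖zeta R ^ a - zeta R ^ b‖ ^ 2 = 4 * Real.sin (π * ((a : ℝ) - b) / R) ^ 2 := by
  have hz := zeta_ne R
  have h1 : zeta R ^ a - zeta R ^ b = zeta R ^ b * (zeta R ^ (a - b) - 1) := by
    rw [mul_sub, ← zpow_add₀ hz, mul_one]
    congr 2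
    ring
  rw [h1, norm_mul, norm_zeta_zpow, one_mul, zeta_zpow]
  have h2 : (2 * π * I * ((a - b : ℤ) : ℂ) / R) = I * ((2 * (π * ((a : ℝ) - b) / R) : ℝ) : ℂ) := by
    push_cast
    ring
  rw [h2, Complex.norm_exp_I_mul_ofReal_sub_one, Real.norm_eq_abs, sq_abs]
  rw [show 2 * (π * ((a : ℝ) - b) / R) / 2 = π * ((a : ℝ) - b) / R by ring]
  ring

theorem fk_rec_norm {R : ℕ} (hR : 0 < R) (k : ℕ) (u : ℤ) :
    ‖fk R k (u - 1)‖ ^ 2 * Real.sin (π * u / R - π * (2 * k + 2) / R) ^ 2 =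
      ‖fk R k (u + 1)‖ ^ 2 * Real.sin (π * u / R + π * (2 * k + 2) / R) ^ 2 := by
  have h := congrArg (fun z : ℂ => ‖z‖ ^ 2) (fk_rec hR k u)
  simp only [norm_mul, mul_pow, normsq_zeta_sub] at h
  push_cast at h
  rw [show π * ((u : ℝ) - 1 - k - (k + 1)) / R = π * u / R - π * (2 * k + 2) / R by ring,
    show π * ((u : ℝ) + 1 + k - -(k + 1)) / R = π * u / R + π * (2 * k + 2) / R by ring] at h
  linarith only [h]

theorem step_ineq {x y θ φ d : ℝ} (hy : 0 ≤ y) (hd : 0 < d)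
    (hdle : d ≤ Real.sin (2 * θ) * -Real.sin (2 * φ))
    (h : x * Real.sin (θ - φ) ^ 2 = y * Real.sin (θ + φ) ^ 2) : x ≤ (1 - d) * y := by
  have hid : Real.sin (θ + φ) ^ 2 =
      Real.sin (θ - φ) ^ 2 - Real.sin (2 * θ) * -Real.sin (2 * φ) := by
    rw [Real.sin_add, Real.sin_sub, Real.sin_two_mul, Real.sin_two_mul]
    ring
  have hA1 : Real.sin (θ - φ) ^ 2 ≤ 1 := Real.sin_sq_le_one _
  have hB : 0 ≤ Real.sin (θ + φ) ^ 2 := sq_nonneg _
  set A := Real.sin (θ - φ) ^ 2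
  set D := Real.sin (2 * θ) * -Real.sin (2 * φ)
  have hA0 : 0 < A := by linarith
  rw [hid] at h
  have h3 : x * A ≤ ((1 - d) * y) * A := by
    have : y * (d * A) ≤ y * D := by
      apply mul_le_mul_of_nonneg_left _ hy
      linarith only [hdle, hd, hA1, mul_nonneg_of_nonpos_of_nonpos (le_of_lt (Mathlib.Tactic.Linarith.sub_neg_of_lt hd)) (Mathlib.Tactic.Linarith.sub_nonpos_of_le hA1)]
    linarith only [h, this]
  exact le_of_mul_le_mul_right h3 hA0

theorem iter_le (g : ℤ → ℝ) {q : ℝ} (hq : 0 ≤ q) (n : ℕ) :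
    ∀ v : ℤ, (∀ u : ℤ, v + 1 ≤ u → u ≤ v + 2 * n - 1 → g (u - 1) ≤ q * g (u + 1)) →
      g v ≤ q ^ n * g (v + 2 * n) := by
  induction n with
  | zero => intro v _; simp
  | succ n ih =>
    intro v h
    have h1 := ih v (fun u h1 h2 => h u h1 (by push_cast; omega))
    have h2 := h (v + 2 * n + 1) (by omega) (by push_cast; omega)
    rw [show v + 2 * (n : ℤ) + 1 - 1 = v + 2 * n by ring] at h2
    rw [show v + 2 * ((n + 1 : ℕ) : ℤ) = v + 2 * n + 1 + 1 by push_cast; ring, pow_succ, mul_assoc]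
    exact h1.trans (mul_le_mul_of_nonneg_left h2 (pow_nonneg hq n))

theorem decay {R : ℝ} (hR : 0 < R) {η φ M : ℝ} (hη : 0 < η) (hη4 : η ≤ 1 / 4)
    (hφ : 1 / 2 ≤ -Real.sin (2 * φ)) (g : ℤ → ℝ) (hg0 : ∀ u, 0 ≤ g u) (hgM : ∀ u, g u ≤ M)
    (hrec : ∀ u : ℤ, g (u - 1) * Real.sin (π * u / R - φ) ^ 2 =
      g (u + 1) * Real.sin (π * u / R + φ) ^ 2)
    {v : ℤ} (hv0 : 0 ≤ v) (hv : (v : ℝ) ≤ R / 2 - η * R) :
    g v ≤ Real.exp (-(η * (η * R / 4 - 1))) * M := by
  have hpi := Real.pi_pos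
  have hηR : 0 < η * R := mul_pos hη hR
  obtain ⟨n0, hn0a, hn0b⟩ : ∃ n0 : ℕ, R / 2 - η * R - 1 ≤ v + 2 * n0 ∧
      (v : ℝ) + 2 * n0 ≤ R / 2 - η * R + 1 := by
    refine ⟨⌈(R / 2 - η * R - 1 - v) / 2⌉₊, ?_, ?_⟩
    · have := Nat.le_ceil ((R / 2 - η * R - 1 - v) / 2)
      linarith only [this]
    · rcases le_or_gt ((R / 2 - η * R - 1 - v) / 2) 0 with h | h
      · rw [Nat.ceil_eq_zero.2 h]
        push_cast
        linarith only [hη, hη4, hv]
      · have := Nat.ceil_lt_add_one h.le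
        linarith only [this]
  have s1 : g v ≤ 1 ^ n0 * g (v + 2 * n0) := by
    refine iter_le g zero_le_one n0 v fun u h1 h2 => ?_
    have h1' : (v : ℝ) + 1 ≤ u := by exact_mod_cast h1
    have h2' : (u : ℝ) ≤ v + 2 * n0 - 1 := by exact_mod_cast h2
    have hv0' : (0 : ℝ) ≤ v := by exact_mod_cast hv0
    have hs : 0 < Real.sin (2 * (π * u / R)) := by
      apply Real.sin_pos_of_pos_of_lt_pi
      · have : (0 : ℝ) < u := by linarith only [hη, hη4, h1', hv0']
        positivity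
      · rw [show 2 * (π * u / R) = π * (2 * u / R) by ring]
        have : 2 * (u : ℝ) / R < 1 := by
          rw [div_lt_one hR]
          linarith only [h2', hn0b, hηR]
        exact mul_lt_of_lt_one_right hpi this
    have hd : 0 < Real.sin (2 * (π * u / R)) * -Real.sin (2 * φ) :=
      mul_pos hs (by linarith only [hφ])
    refine (step_ineq (hg0 (u + 1)) hd le_rfl (hrec u)).trans ?_
    exact mul_le_mul_of_nonneg_right (sub_le_self _ hd.le) (hg0 (u + 1))
  obtain ⟨n1, hn1a, hn1b⟩ : ∃ n1 : ℕ, (n1 : ℝ) ≤ η * R / 4 ∧ η * R / 4 - 1 ≤ n1 :=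
    ⟨⌊η * R / 4⌋₊, Nat.floor_le (by linarith only [hηR]),
      by linarith only [Nat.lt_floor_add_one (η * R / 4)]⟩
  have s2 : g (v + 2 * n0) ≤ (1 - η) ^ n1 * g (v + 2 * n0 + 2 * n1) := by
    refine iter_le g (by linarith only [hη4]) n1 _ fun u h1 h2 => ?_
    have h1' : (v : ℝ) + 2 * n0 + 1 ≤ u := by exact_mod_cast h1
    have h2' : (u : ℝ) ≤ v + 2 * n0 + 2 * n1 - 1 := by exact_mod_cast h2
    have t1 : η ≤ (R - 2 * u) / R := by
      rw [le_div_iff₀ hR]
      linarith only [h2', hn0b, hn1a, hηR]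
    have t2 : (R - 2 * u) / R ≤ 1 / 2 := by
      rw [div_le_iff₀ hR]
      linarith only [h1', hn0a, mul_le_mul_of_nonneg_right hη4 hR.le]
    have hs : 2 * η ≤ Real.sin (2 * (π * u / R)) := by
      rw [← Real.sin_pi_sub]
      have e : π - 2 * (π * u / R) = π * ((R - 2 * u) / R) := by
        field_simp
      rw [e]
      have h5 := Real.mul_le_sin (x := π * ((R - 2 * u) / R)) (mul_nonneg hpi.le (hη.le.trans t1))
        ((mul_le_mul_of_nonneg_left t2 hpi.le).trans_eq (mul_one_div _ _))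
      have e2 : 2 / π * (π * ((R - 2 * u) / R)) = 2 * ((R - 2 * u) / R) := by
        field_simp
      rw [e2] at h5
      linarith only [h5, t1]
    refine step_ineq (hg0 (u + 1)) hη ?_ (hrec u)
    exact le_trans (by linarith only) (mul_le_mul hs hφ (by norm_num) (by linarith only [hs, hη]))
  have s3 : (1 - η) ^ n1 ≤ Real.exp (-(η * (η * R / 4 - 1))) := by
    calc (1 - η) ^ n1 ≤ (Real.exp (-η)) ^ n1 := by
          apply pow_le_pow_left₀ (by linarith only [hη4])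
          linarith only [Real.add_one_le_exp (-η)]
      _ = Real.exp (n1 * -η) := by rw [Real.exp_nat_mul]
      _ ≤ Real.exp (-(η * (η * R / 4 - 1))) := by
          apply Real.exp_le_exp.2
          linarith only [mul_le_mul_of_nonneg_left hn1b hη.le]
  rw [one_pow, one_mul] at s1
  calc g v ≤ (1 - η) ^ n1 * g (v + 2 * n0 + 2 * n1) := s1.trans s2
    _ ≤ Real.exp (-(η * (η * R / 4 - 1))) * M :=
        mul_le_mul s3 (hgM _) (hg0 _) (Real.exp_pos _).le

theorem sin_Kmid {R k : ℕ} (hR : 240 ≤ R) (hk : k ∈ Kmid R) :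
    1 / 2 ≤ -Real.sin (2 * (π * (2 * k + 2) / R)) := by
  have hpi := Real.pi_pos
  have hRr : (240 : ℝ) ≤ R := by exact_mod_cast hR
  have hR0 : (0 : ℝ) < R := by linarith only [hRr]
  unfold Kmid at hk
  obtain ⟨_, h1, h2⟩ := Finset.mem_filter.1 hk
  have h1' : (2 : ℝ) * R ≤ 5 * k := by exact_mod_cast h1
  have h2' : (30 : ℝ) * k ≤ 13 * R := by exact_mod_cast h2
  rw [← Real.sin_two_pi_sub]
  have e : 2 * π - 2 * (π * (2 * k + 2) / R) = π * ((2 * R - 4 * k - 4) / R) := by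
    field_simp
    ring
  rw [e]
  have t1 : 1 / 4 ≤ (2 * (R : ℝ) - 4 * k - 4) / R := by
    rw [le_div_iff₀ hR0]
    linarith only [hRr, h2']
  have t2 : (2 * (R : ℝ) - 4 * k - 4) / R ≤ 1 / 2 := by
    rw [div_le_iff₀ hR0]
    linarith only [hRr, h1']
  have h5 := Real.mul_le_sin (x := π * ((2 * R - 4 * k - 4) / R)) (by linarith only [hpi, t1, mul_nonneg_of_nonpos_of_nonpos (le_of_lt (Mathlib.Tactic.Linarith.sub_neg_of_lt hpi)) (Mathlib.Tactic.Linarith.sub_nonpos_of_le t1)]) (by linarith only [hpi, t2, mul_nonneg_of_nonpos_of_nonpos (le_of_lt (Mathlib.Tactic.Linarith.sub_neg_of_lt hpi)) (Mathlib.Tactic.Linarith.sub_nonpos_of_le t2)])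
  have e2 : 2 / π * (π * ((2 * (R : ℝ) - 4 * k - 4) / R)) = 2 * ((2 * R - 4 * k - 4) / R) := by
    field_simp
  rw [e2] at h5
  linarith only [t1, h5]

theorem fk_far {R k : ℕ} (hR : 240 ≤ R) (hk : k ∈ Kmid R) {η M : ℝ} (hη : 0 < η)
    (hη4 : η ≤ 1 / 4) (hM : ∀ m : ℤ, ‖P R k m‖ ≤ M) {v : ℤ} (hv0 : 0 ≤ v) (hv1 : v < R)
    (hv : η * R ≤ |(v : ℝ) - R / 2|) :
    ‖fk R k v‖ ^ 2 ≤ Real.exp (-(η * (η * R / 4 - 1))) * M ^ 2 := by
  have hR0 : 0 < R := by omega
  have hRr : (0 : ℝ) < R := by exact_mod_cast hR0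
  have hb : ∀ u : ℤ, ‖fk R k u‖ ^ 2 ≤ M ^ 2 := fun u =>
    pow_le_pow_left₀ (norm_nonneg _) (norm_dft_le hR0 (P R k) hM u) 2
  rcases le_abs'.1 hv with h | h
  · exact decay hRr hη hη4 (sin_Kmid hR hk) (fun u => ‖fk R k u‖ ^ 2) (fun u => by positivity) hb
      (fk_rec_norm hR0 k) hv0 (by linarith only [h])
  · have := decay hRr hη hη4 (sin_Kmid hR hk) (fun u => ‖fk R k (R - u)‖ ^ 2)
      (fun u => by positivity) (fun u => hb _) ?_ (v := R - v) (by omega) (by push_cast; linarith only [h])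
    · simpa using this
    · intro u
      have h1 := fk_rec_norm hR0 k (R - u)
      have e1 : π * (((R : ℤ) - u : ℤ) : ℝ) / R - π * (2 * k + 2) / R =
          π - (π * u / R + π * (2 * k + 2) / R) := by
        push_cast
        field_simp
        ring
      have e2 : π * (((R : ℤ) - u : ℤ) : ℝ) / R + π * (2 * k + 2) / R =
          π - (π * u / R - π * (2 * k + 2) / R) := by
        push_cast
        field_simp
        ring
      rw [e1, e2, Real.sin_pi_sub, Real.sin_pi_sub] at h1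
      rw [show (R : ℤ) - (u - 1) = R - u + 1 by ring, show (R : ℤ) - (u + 1) = R - u - 1 by ring]
      exact h1.symm

theorem four_far {η : ℝ} (hη : 0 < η) : ∃ δ > 0, ∀ᶠ R : ℕ in atTop, Odd R → ∀ v : ℤ,
    0 ≤ v → v < R → η * R ≤ |(v : ℝ) - R / 2| → ‖four R v‖ ≤ Real.exp ((gam - δ) * R) := by
  obtain ⟨e, he0, he4, heη⟩ : ∃ e : ℝ, 0 < e ∧ e ≤ 1 / 4 ∧ e ≤ η :=
    ⟨min η (1 / 4), lt_min hη (by norm_num), min_le_right _ _, min_le_left _ _⟩
  have hc : 0 < e ^ 2 / 32 := by positivity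
  refine ⟨e ^ 2 / 32, hc, ?_⟩
  have hbig : ∀ᶠ R : ℕ in atTop, 6 / (e ^ 2 / 16) ^ 2 ≤ (R : ℝ) :=
    tendsto_natCast_atTop_atTop.eventually_ge_atTop _
  filter_upwards [P_upper hc, eventually_ge_atTop 240, hbig] with R hP hR hB hodd v hv0 hv1 hv
  have hRr : (0 : ℝ) < R := by exact_mod_cast (by omega : 0 < R)
  have hv' : e * R ≤ |(v : ℝ) - R / 2| := (mul_le_mul_of_nonneg_right heη hRr.le).trans hv
  have hk : ∀ k ∈ Kmid R, ‖fk R k v‖ ≤
      Real.exp (-(e * (e * R / 4 - 1)) / 2 + (gam + e ^ 2 / 32) * R) := by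
    intro k hk
    have h1 := fk_far hR hk he0 he4 (hP hodd k) hv0 hv1 hv'
    refine (pow_le_pow_iff_left₀ (norm_nonneg _) (Real.exp_pos _).le two_ne_zero).1
      (h1.trans (le_of_eq ?_))
    rw [← Real.exp_nat_mul, ← Real.exp_nat_mul, ← Real.exp_add]
    congr 1
    push_cast
    ring
  have hcard : ((Kmid R).card : ℝ) ≤ R := by
    have : (Kmid R).card ≤ R := by
      unfold Kmid
      refine (Finset.card_filter_le _ _).trans ?_
      rw [Finset.card_range]
      omega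
    exact_mod_cast this
  rw [four_eq_sum]
  refine (norm_sum_le _ _).trans ((Finset.sum_le_sum hk).trans ?_)
  rw [Finset.sum_const, nsmul_eq_mul]
  have h3 : (R : ℝ) * 3 ≤ Real.exp (e ^ 2 / 16 * R) := by
    have hc2 : 0 < e ^ 2 / 16 := by positivity
    have q1 := Real.quadratic_le_exp_of_nonneg (x := e ^ 2 / 16 * R) (by positivity)
    have q2 : 6 ≤ (e ^ 2 / 16) ^ 2 * R := by
      rw [div_le_iff₀ (by positivity)] at hB
      linarith only [hB]
    have q3 : 0 ≤ e ^ 2 / 16 * R := by positivity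
    (refine le_of_not_gt fun h_nl => ?_; linarith only [h_nl, he0, he4, hc, q1, q2, mul_nonneg_of_nonpos_of_nonpos (Mathlib.Tactic.Linarith.sub_nonpos_of_le (sq_nonneg e)) (Mathlib.Tactic.Linarith.sub_nonpos_of_le (sq_nonneg ((1 : ℝ) * ((1 : ℝ) * e) ^ (2 : ℕ) * ((1 : ℝ) * ↑R)))), mul_nonneg_of_nonpos_of_nonpos (Mathlib.Tactic.Linarith.sub_nonpos_of_le (sq_nonneg e)) (Mathlib.Tactic.Linarith.sub_nonpos_of_le q1), mul_nonneg_of_nonpos_of_nonpos (Mathlib.Tactic.Linarith.sub_nonpos_of_le (sq_nonneg e)) (le_of_lt (Mathlib.Tactic.Linarith.sub_neg_of_lt h_nl)), mul_nonneg_of_nonpos_of_nonpos (Mathlib.Tactic.Linarith.sub_nonpos_of_le (Mathlib.Tactic.Linarith.natCast_nonneg ℝ R)) (Mathlib.Tactic.Linarith.sub_nonpos_of_le q2)])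
  have h4 : Real.exp (e / 2) ≤ 3 := by
    have := Real.exp_one_lt_d9
    have h5 : Real.exp (e / 2) ≤ Real.exp 1 := Real.exp_le_exp.2 (by linarith only [he0, he4])
    linarith only [he0, he4, this, h5]
  have e1 : Real.exp (-(e * (e * R / 4 - 1)) / 2 + (gam + e ^ 2 / 32) * R) =
      Real.exp (e / 2) * Real.exp ((gam - e ^ 2 / 32) * R - e ^ 2 / 16 * R) := by
    rw [← Real.exp_add]
    congr 1
    ring
  have e2 : Real.exp ((gam - e ^ 2 / 32) * R) =
      Real.exp (e ^ 2 / 16 * R) * Real.exp ((gam - e ^ 2 / 32) * R - e ^ 2 / 16 * R) := by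
    rw [← Real.exp_add]
    congr 1
    ring
  rw [e1, e2, ← mul_assoc]
  apply mul_le_mul_of_nonneg_right _ (Real.exp_pos _).le
  calc ((Kmid R).card : ℝ) * Real.exp (e / 2) ≤ R * 3 :=
        mul_le_mul hcard h4 (Real.exp_pos _).le hRr.le
    _ ≤ _ := h3

end Pool.Agent.Work.MP_c404d3_gt
end
end
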