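import Mathlib

/-!
Definitions used in the statement: closed braids, the Kauffman bracket as a state sum, parallel
cabling, the bracket coloured by Chebyshev polynomials, and the norm of the SO(3) knot state.
-/

namespace Pool.Agent.Work.MP_c404d3_gt

open scoped BigOperators Real

/-- A braid word. The letter `(i, true)` is the generator crossing the strands in positions `i`
and `i + 1`, and `(i, false)` is its inverse. -/
abbrev Word := List (ℕ × Bool)

/-- The permutation of the strand positions induced by a braid word. -/
def perm (w : Word) : Equiv.Perm ℕ :=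
  (w.map fun x => Equiv.swap x.1 (x.1 + 1)).prod

/-- `w` is a braid word on `N ≥ 1` strands whose closure has one component (is a knot). -/
def IsKnot (N : ℕ) (w : Word) : Prop :=
  0 < N ∧ (∀ x ∈ w, x.1 + 1 < N) ∧ ∀ p < N, (perm w).SameCycle 0 p

/-- The arcs of the Kauffman state `s` of the closed braid diagram. The vertex `(t, p)` is the
point in position `p` just above the `t`-th letter (`t = length` is the bottom). `s t = false`
smooths the `t`-th crossing vertically and `s t = true` horizontally (a cap and a cup); the last
clause is the closure of the braid. -/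
def Arc (N : ℕ) (w : Word) (s : Fin w.length → Bool)
    (u v : Fin (w.length + 1) × Fin N) : Prop :=
  (∃ t : Fin w.length, u.1 = t.castSucc ∧ v.1 = t.succ ∧ u.2 = v.2 ∧
      (s t = false ∨ ((u.2 : ℕ) ≠ (w.get t).1 ∧ (u.2 : ℕ) ≠ (w.get t).1 + 1))) ∨
  (∃ t : Fin w.length, s t = true ∧ u.1 = v.1 ∧ (u.1 = t.castSucc ∨ u.1 = t.succ) ∧
      (u.2 : ℕ) = (w.get t).1 ∧ (v.2 : ℕ) = (w.get t).1 + 1) ∨
  (u.1 = Fin.last w.length ∧ v.1 = 0 ∧ u.2 = v.2)

/-- The number of circles of the state `s` (connected components of the arcs). -/
noncomputable def loops (N : ℕ) (w : Word) (s : Fin w.length → Bool) : ℕ :=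
  Nat.card (Quot (Arc N w s))

/-- The Kauffman bracket of the closure of the braid word `w` on `N` strands (blackboard framing,
empty diagram normalised to 1). -/
noncomputable def bracket (A : ℂ) (N : ℕ) (w : Word) : ℂ :=
  ∑ s : Fin w.length → Bool,
    (∏ t, if s t = (w.get t).2 then A⁻¹ else A) * (-A ^ 2 - A⁻¹ ^ 2) ^ loops N w s

/-- The `a * b` crossings of sign `ε` of a band of `a` parallel strands (positions
`s, ..., s + a - 1`) with the band of `b` parallel strands to its right. -/
def crossWord (a b s : ℕ) (ε : Bool) : Word :=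
  (List.range a).flatMap fun i => (List.range b).map fun k => (s + (a - 1 - i) + k, ε)

/-- The `j`-fold parallel of a braid word (each strand replaced by `j` parallel strands). -/
def cable (j : ℕ) (w : Word) : Word :=
  w.flatMap fun x => crossWord j j (x.1 * j) x.2

/-- The bracket of the closed braid cabled by the Chebyshev polynomial `e n`
(`e 0 = 1`, `e 1 = z`, `e (n + 2) = z * e (n + 1) - e n`, and `z ^ j` is the `j`-fold parallel). -/
noncomputable def colBracket (A : ℂ) (N : ℕ) (w : Word) (n : ℕ) : ℂ :=
  (Polynomial.Chebyshev.S ℤ (n : ℤ)).sum fun j a => (a : ℂ) * bracket A (N * j) (cable j w)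

/-- The norm of the `r`-th SO(3) knot state: the vector with coordinates
`eta r * colBracket A N w n`, `0 ≤ n < r`, in an orthonormal basis, where
`A = exp (π i / (2 r + 1))` and `eta r = 2 sin (2 π / (2 r + 1)) / sqrt (2 r + 1)`. -/
noncomputable def stateNorm (N : ℕ) (w : Word) (r : ℕ) : ℝ :=
  Real.sqrt (∑ n ∈ Finset.range r,
    ‖((2 * Real.sin (2 * π / (2 * r + 1)) / Real.sqrt (2 * r + 1) : ℝ) : ℂ) *
      colBracket (Complex.exp (π * Complex.I / (2 * r + 1))) N w n‖ ^ 2)

end Pool.Agent.Work.MP_c404d3_gt
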