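import Pool.Agent.Work.MP_c404d3_gt.B6
import Pool.Agent.Work.MP_c404d3_gt.A15
import Pool.Agent.Work.MP_c404d3_gt.B10

-- merged part: Pool.Agent.Work.MP_c404d3_gt.A13b
section
-- merged part: Pool.Agent.Work.MP_c404d3_gt.A7x
section
/-!
A7x: the quasi R-matrix and its intertwining properties.
-/

namespace Pool.Agent.Work.MP_c404d3_gt

open scoped BigOperators Real Kronecker
open Matrix Finset

variable {ι κ : Type} [Fintype ι] [DecidableEq ι] [Fintype κ] [DecidableEq κ]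

set_option linter.unusedSectionVars false

namespace A7

theorem h_ne {q : ℂ} (hq : Gen q) : q - q⁻¹ ≠ 0 := by
  intro h
  apply hq.2 1 one_ne_zero
  simp [qi, h]

theorem qi_mul_h {q : ℂ} (hq : Gen q) (n : ℤ) : qi q n * (q - q⁻¹) = q ^ n - q ^ (-n) := by
  unfold qi
  exact div_mul_cancel₀ _ (h_ne hq)

theorem qi_one {q : ℂ} (hq : Gen q) : qi q 1 = 1 := by
  apply mul_right_cancel₀ (h_ne hq)
  rw [qi_mul_h hq]
  simp

theorem qi_add {q : ℂ} (hq : q ≠ 0) (a b : ℤ) :
    qi q (a + b) = q ^ b * qi q a + q ^ (-a) * qi q b := by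
  unfold qi
  rw [← mul_div_assoc, ← mul_div_assoc, ← add_div]
  congr 1
  have ha : q ^ a ≠ 0 := zpow_ne_zero _ hq
  have hb : q ^ b ≠ 0 := zpow_ne_zero _ hq
  simp only [neg_add, zpow_add₀ hq, _root_.zpow_neg]
  field_simp
  ring

theorem qi_id1 {q : ℂ} (hq : Gen q) (a b : ℤ) :
    qi q a * qi q b + qi q (a + b + 1) = qi q (a + 1) * qi q (b + 1) := by
  apply mul_right_cancel₀ (mul_ne_zero (h_ne hq) (h_ne hq))
  have h0 := hq.1
  have ha : q ^ a ≠ 0 := zpow_ne_zero _ h0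
  have hb : q ^ b ≠ 0 := zpow_ne_zero _ h0
  calc (qi q a * qi q b + qi q (a + b + 1)) * ((q - q⁻¹) * (q - q⁻¹))
      = (qi q a * (q - q⁻¹)) * (qi q b * (q - q⁻¹)) +
          (qi q (a + b + 1) * (q - q⁻¹)) * (q - q⁻¹) := by ring
    _ = (qi q (a + 1) * (q - q⁻¹)) * (qi q (b + 1) * (q - q⁻¹)) := by
        simp only [qi_mul_h hq, neg_add, zpow_add₀ h0, _root_.zpow_neg, zpow_one]
        field_simp
        ring
    _ = _ := by ring

theorem qi_neg (q : ℂ) (a : ℤ) : qi q (-a) = -qi q a := by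
  unfold qi
  rw [neg_neg, ← neg_div, neg_sub]

theorem qi_id2 {q : ℂ} (hq : Gen q) (a b : ℤ) :
    qi q a * qi q (b + 1) + qi q (b - a) = qi q (a + 1) * qi q b := by
  have h := qi_id1 hq a (-(b + 1))
  rw [show a + -(b + 1) + 1 = -(b - a) by ring, show -(b + 1) + 1 = -b by ring, qi_neg, qi_neg,
    qi_neg] at h
  linear_combination -h

/-- diagonal function of the weight -/
noncomputable def dg (X : QD ι) (f : ℤ → ℂ) : Matrix ι ι ℂ := Matrix.diagonal fun i => f (X.wt i)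

/-- `T` shifts weights by `d` -/
def Sh (X : QD ι) (T : Matrix ι ι ℂ) (d : ℤ) : Prop :=
  ∀ i j, T i j ≠ 0 → X.wt i = X.wt j + d

theorem Sh.pow {X : QD ι} {T : Matrix ι ι ℂ} {d : ℤ} (h : Sh X T d) (k : ℕ) :
    Sh X (T ^ k) (k * d) := by
  induction k with
  | zero =>
    intro i j hij
    by_cases e : i = j
    · simp [e]
    · simp [Matrix.one_apply_ne e] at hij
  | succ k ih =>
    intro i j hij
    rw [pow_succ, Matrix.mul_apply] at hij
    obtain ⟨l, -, hl⟩ := Finset.exists_ne_zero_of_sum_ne_zero hij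
    have h1 := ih i l (left_ne_zero_of_mul hl)
    have h2 := h l j (right_ne_zero_of_mul hl)
    rw [h1, h2]
    push_cast
    ring

theorem Sh.dg_mul {X : QD ι} {T : Matrix ι ι ℂ} {d : ℤ} (h : Sh X T d) (f : ℤ → ℂ) :
    dg X f * T = T * dg X (fun w => f (w + d)) := by
  ext i j
  simp only [dg, Matrix.diagonal_mul, Matrix.mul_diagonal]
  by_cases e : T i j = 0
  · simp [e]
  · rw [h i j e, mul_comm]

theorem shE {q : ℂ} {X : QD ι} (hX : IsMod q X) : Sh X X.E 2 := hX.E_wt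

theorem shF {q : ℂ} {X : QD ι} (hX : IsMod q X) : Sh X X.F (-2) := fun i j h => by
  have := hX.F_wt i j h
  omega

theorem dg_add (X : QD ι) (f g : ℤ → ℂ) : dg X f + dg X g = dg X (fun w => f w + g w) := by
  simp only [dg, Matrix.diagonal_add]

theorem dg_sub (X : QD ι) (f g : ℤ → ℂ) : dg X f - dg X g = dg X (fun w => f w - g w) := by
  simp only [dg, Matrix.diagonal_sub]

theorem dg_smul (X : QD ι) (a : ℂ) (f : ℤ → ℂ) : a • dg X f = dg X (fun w => a * f w) := by
  ext i j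
  by_cases e : i = j
  · subst e
    simp [dg]
  · simp [dg, Matrix.diagonal_apply_ne _ e]

theorem commF {q : ℂ} (hq : Gen q) {X : QD ι} (hX : IsMod q X) (k : ℕ) :
    X.E * X.F ^ (k + 1) - X.F ^ (k + 1) * X.E =
      X.F ^ k * dg X (fun w => qi q (k + 1) * qi q (w - k)) := by
  have hc : X.E * X.F - X.F * X.E = dg X (qi q) := hX.comm
  induction k with
  | zero => simp [hc, qi_one hq]
  | succ k ih =>
    have e : X.E * X.F ^ (k + 1 + 1) - X.F ^ (k + 1 + 1) * X.E =
        (X.E * X.F ^ (k + 1) - X.F ^ (k + 1) * X.E) * X.F +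
          X.F ^ (k + 1) * (X.E * X.F - X.F * X.E) := by
      rw [pow_succ X.F (k + 1)]
      noncomm_ring
    rw [e, ih, hc, Matrix.mul_assoc, (shF hX).dg_mul, ← Matrix.mul_assoc, ← pow_succ,
      ← Matrix.mul_add, dg_add]
    congr 2
    funext w
    have := qi_id1 hq (k + 1) (w + -2 - k)
    rw [show (k : ℤ) + 1 + (w + -2 - k) + 1 = w by ring] at this
    rw [this]
    push_cast
    congr 2
    ring

theorem commE {q : ℂ} (hq : Gen q) {X : QD ι} (hX : IsMod q X) (k : ℕ) :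
    X.E ^ (k + 1) * X.F - X.F * X.E ^ (k + 1) =
      X.E ^ k * dg X (fun w => qi q (k + 1) * qi q (w + k)) := by
  have hc : X.E * X.F - X.F * X.E = dg X (qi q) := hX.comm
  induction k with
  | zero => simp [hc, qi_one hq]
  | succ k ih =>
    have e : X.E ^ (k + 1 + 1) * X.F - X.F * X.E ^ (k + 1 + 1) =
        (X.E ^ (k + 1) * X.F - X.F * X.E ^ (k + 1)) * X.E +
          X.E ^ (k + 1) * (X.E * X.F - X.F * X.E) := by
      rw [pow_succ X.E (k + 1)]
      noncomm_ring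
    rw [e, ih, hc, Matrix.mul_assoc, (shE hX).dg_mul, ← Matrix.mul_assoc, ← pow_succ,
      ← Matrix.mul_add, dg_add]
    congr 2
    funext w
    have := qi_id2 hq (k + 1) (w + k + 1)
    rw [show w + (k : ℤ) + 1 - (k + 1) = w by ring,
      show w + (k : ℤ) + 1 + 1 = w + 2 + k by ring] at this
    rw [this]
    push_cast
    congr 2
    ring

/-- quantum factorial -/
noncomputable def qf (q : ℂ) (k : ℕ) : ℂ := ∏ s ∈ range k, qi q ((s : ℤ) + 1)

theorem qf_ne {q : ℂ} (hq : Gen q) (k : ℕ) : qf q k ≠ 0 :=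
  Finset.prod_ne_zero_iff.2 fun s _ => hq.2 _ (by omega)

/-- coefficients of the quasi R-matrix -/
noncomputable def co (q : ℂ) (k : ℕ) : ℂ := q ^ (k.choose 2) * (q - q⁻¹) ^ k / qf q k

theorem co_zero (q : ℂ) : co q 0 = 1 := by simp [co, qf]

theorem co_succ {q : ℂ} (hq : Gen q) (k : ℕ) :
    co q (k + 1) * qi q (k + 1) = co q k * q ^ k * (q - q⁻¹) := by
  have h1 := qf_ne hq k
  have h2 : qi q ((k : ℤ) + 1) ≠ 0 := hq.2 _ (by omega)
  have h3 : qf q (k + 1) = qf q k * qi q ((k : ℤ) + 1) := Finset.prod_range_succ _ _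
  have h4 : (k + 1).choose 2 = k.choose 2 + k := by
    rw [Nat.choose_succ_succ' k 1, Nat.choose_one_right, add_comm]
  unfold co
  rw [h3, h4, pow_add, pow_succ]
  generalize q - q⁻¹ = h
  field_simp

theorem keyF {q : ℂ} (hq : Gen q) {X : QD ι} (hX : IsMod q X) (k : ℕ) :
    co q (k + 1) • (X.E * X.F ^ (k + 1) - X.F ^ (k + 1) * X.E) =
      co q k • (X.F ^ k * Kp q X - Km q X * X.F ^ k) := by
  have hp : Kp q X = dg X (fun w => q ^ w) := rfl
  have hm : Km q X = dg X (fun w => q ^ (-w)) := rfl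
  rw [commF hq hX, hp, hm, ((shF hX).pow k).dg_mul, ← Matrix.mul_sub, dg_sub, ← Matrix.mul_smul,
    ← Matrix.mul_smul, dg_smul, dg_smul]
  congr 2
  funext w
  have h0 := hq.1
  have hw : q ^ w ≠ 0 := zpow_ne_zero _ h0
  have hk : q ^ k ≠ 0 := pow_ne_zero _ h0
  rw [← mul_assoc, co_succ hq, mul_assoc, mul_comm (q - q⁻¹), qi_mul_h hq, mul_assoc,
    show -(w + (k : ℤ) * -2) = -w + k + k by ring, show -(w - (k : ℤ)) = -w + k by ring,
    sub_eq_add_neg w]
  congr 1
  simp only [zpow_add₀ h0, _root_.zpow_neg, zpow_natCast]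
  field_simp

theorem keyE {q : ℂ} (hq : Gen q) {X : QD ι} (hX : IsMod q X) (k : ℕ) :
    co q (k + 1) • (X.E ^ (k + 1) * X.F - X.F * X.E ^ (k + 1)) =
      co q k • (Kp q X * X.E ^ k - X.E ^ k * Km q X) := by
  have hp : Kp q X = dg X (fun w => q ^ w) := rfl
  have hm : Km q X = dg X (fun w => q ^ (-w)) := rfl
  rw [commE hq hX, hp, hm, ((shE hX).pow k).dg_mul, ← Matrix.mul_sub, dg_sub, ← Matrix.mul_smul,
    ← Matrix.mul_smul, dg_smul, dg_smul]
  congr 2
  funext w
  have h0 := hq.1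
  have hw : q ^ w ≠ 0 := zpow_ne_zero _ h0
  have hk : q ^ k ≠ 0 := pow_ne_zero _ h0
  rw [← mul_assoc, co_succ hq, mul_assoc, mul_comm (q - q⁻¹), qi_mul_h hq, mul_assoc,
    show w + (k : ℤ) * 2 = w + k + k by ring, neg_add]
  congr 1
  simp only [zpow_add₀ h0, _root_.zpow_neg, zpow_natCast]
  field_simp

/-- the quasi R-matrix -/
noncomputable def th (q : ℂ) (X : QD ι) (Y : QD κ) (L : ℕ) : Matrix (ι × κ) (ι × κ) ℂ :=
  ∑ k ∈ range L, co q k • ((X.F ^ k) ⊗ₖ (Y.E ^ k))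

theorem sub_kron (A B : Matrix ι ι ℂ) (C : Matrix κ κ ℂ) :
    (A - B) ⊗ₖ C = A ⊗ₖ C - B ⊗ₖ C := by
  ext p r
  simp [sub_mul]

theorem kron_sub (A : Matrix ι ι ℂ) (B C : Matrix κ κ ℂ) :
    A ⊗ₖ (B - C) = A ⊗ₖ B - A ⊗ₖ C := by
  ext p r
  simp [mul_sub]

theorem th_E {q : ℂ} (hq : Gen q) {X : QD ι} {Y : QD κ} (hX : IsMod q X) {L : ℕ}
    (hL : Y.E ^ L = 0) :
    th q X Y L * (X.E ⊗ₖ (1 : Matrix κ κ ℂ) + Kp q X ⊗ₖ Y.E) =
      (X.E ⊗ₖ (1 : Matrix κ κ ℂ) + Km q X ⊗ₖ Y.E) * th q X Y L := by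
  set T : ℕ → Matrix (ι × κ) (ι × κ) ℂ :=
    fun k => (co q k • (X.E * X.F ^ k - X.F ^ k * X.E)) ⊗ₖ (Y.E ^ k) with hT
  have step : ∀ k : ℕ,
      (co q k • ((X.F ^ k) ⊗ₖ (Y.E ^ k))) * (X.E ⊗ₖ (1 : Matrix κ κ ℂ) + Kp q X ⊗ₖ Y.E) -
        (X.E ⊗ₖ (1 : Matrix κ κ ℂ) + Km q X ⊗ₖ Y.E) * (co q k • ((X.F ^ k) ⊗ₖ (Y.E ^ k))) =
      T (k + 1) - T k := by
    intro k
    simp only [hT]
    rw [keyF hq hX]
    simp only [Matrix.smul_mul, Matrix.mul_smul, Matrix.mul_add, Matrix.add_mul,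
      ← Matrix.mul_kronecker_mul, Matrix.mul_one, Matrix.one_mul, Matrix.smul_kronecker,
      sub_kron, ← pow_succ, ← pow_succ', smul_add, smul_sub]
    abel
  rw [← sub_eq_zero, th, Finset.sum_mul, Finset.mul_sum, ← Finset.sum_sub_distrib,
    Finset.sum_congr rfl fun k _ => step k, Finset.sum_range_sub]
  simp [hT, hL]

theorem th_F {q : ℂ} (hq : Gen q) {X : QD ι} {Y : QD κ} (hY : IsMod q Y) {L : ℕ}
    (hL : X.F ^ L = 0) :
    th q X Y L * (X.F ⊗ₖ Km q Y + (1 : Matrix ι ι ℂ) ⊗ₖ Y.F) =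
      (X.F ⊗ₖ Kp q Y + (1 : Matrix ι ι ℂ) ⊗ₖ Y.F) * th q X Y L := by
  set T : ℕ → Matrix (ι × κ) (ι × κ) ℂ :=
    fun k => (X.F ^ k) ⊗ₖ (co q k • (Y.E ^ k * Y.F - Y.F * Y.E ^ k)) with hT
  have step : ∀ k : ℕ,
      (X.F ⊗ₖ Kp q Y + (1 : Matrix ι ι ℂ) ⊗ₖ Y.F) * (co q k • ((X.F ^ k) ⊗ₖ (Y.E ^ k))) -
        (co q k • ((X.F ^ k) ⊗ₖ (Y.E ^ k))) * (X.F ⊗ₖ Km q Y + (1 : Matrix ι ι ℂ) ⊗ₖ Y.F) =
      T (k + 1) - T k := by
    intro k
    simp only [hT]
    rw [keyE hq hY]
    simp only [Matrix.smul_mul, Matrix.mul_smul, Matrix.mul_add, Matrix.add_mul,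
      ← Matrix.mul_kronecker_mul, Matrix.mul_one, Matrix.one_mul, Matrix.kronecker_smul,
      kron_sub, ← pow_succ, ← pow_succ', smul_add, smul_sub]
    abel
  rw [eq_comm, ← sub_eq_zero, th, Finset.sum_mul, Finset.mul_sum, ← Finset.sum_sub_distrib,
    Finset.sum_congr rfl fun k _ => step k, Finset.sum_range_sub]
  simp [hT, hL]

theorem th_apply (q : ℂ) (X : QD ι) (Y : QD κ) (L : ℕ) (o p : ι × κ) :
    th q X Y L o p = ∑ k ∈ range L, co q k * ((X.F ^ k) o.1 p.1 * (Y.E ^ k) o.2 p.2) := by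
  simp [th, Matrix.sum_apply]

theorem th_wt {q q' : ℂ} {X : QD ι} {Y : QD κ} (hX : IsMod q X) (hY : IsMod q Y) {L : ℕ}
    {o p : ι × κ} (h : th q' X Y L o p ≠ 0) :
    ∃ k : ℕ, X.wt o.1 = X.wt p.1 - 2 * k ∧ Y.wt o.2 = Y.wt p.2 + 2 * k := by
  rw [th_apply] at h
  obtain ⟨k, -, hk⟩ := Finset.exists_ne_zero_of_sum_ne_zero h
  have h1 := right_ne_zero_of_mul hk
  have h2 := (shF hX).pow k _ _ (left_ne_zero_of_mul h1)
  have h3 := (shE hY).pow k _ _ (right_ne_zero_of_mul h1)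
  exact ⟨k, by linarith, by linarith⟩

theorem th_lead {q q' : ℂ} {X : QD ι} {Y : QD κ} (hX : IsMod q X) (hY : IsMod q Y) {L : ℕ}
    {o p : ι × κ} (h : X.wt o.1 = X.wt p.1 ∨ Y.wt o.2 = Y.wt p.2) :
    th q' X Y (L + 1) o p = if o.1 = p.1 ∧ o.2 = p.2 then 1 else 0 := by
  rw [th_apply, Finset.sum_range_succ', Finset.sum_eq_zero, zero_add, co_zero, one_mul, pow_zero,
    pow_zero, Matrix.one_apply, Matrix.one_apply]
  · by_cases h1 : o.1 = p.1 <;> by_cases h2 : o.2 = p.2 <;> simp [h1, h2]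
  · intro k _
    by_contra hk
    have h1 := right_ne_zero_of_mul hk
    have h2 := (shF hX).pow (k + 1) _ _ (left_ne_zero_of_mul h1)
    have h3 := (shE hY).pow (k + 1) _ _ (right_ne_zero_of_mul h1)
    push_cast at h2 h3
    omega

theorem nilp {X : QD ι} {T : Matrix ι ι ℂ} {d : ℤ} (h : Sh X T d) (hd : d ≠ 0) :
    ∃ L0 : ℕ, ∀ L, L0 ≤ L → T ^ L = 0 := by
  obtain ⟨B, hB⟩ := (Set.finite_range fun p : ι × ι => (X.wt p.1 - X.wt p.2).natAbs).bddAbove
  refine ⟨B + 1, fun L hL => ?_⟩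
  ext i j
  by_contra hij
  have h1 := h.pow L i j hij
  have h2 : (X.wt i - X.wt j).natAbs ≤ B := hB ⟨(i, j), rfl⟩
  have h3 : (X.wt i - X.wt j).natAbs = L * d.natAbs := by
    rw [h1, add_sub_cancel_left, Int.natAbs_mul, Int.natAbs_natCast]
  have h4 : 1 ≤ d.natAbs := by omega
  nlinarith

end A7

end Pool.Agent.Work.MP_c404d3_gt
end

-- merged part: Pool.Agent.Work.MP_c404d3_gt.A7
section
/-!
A7: existence of braidings, and the explicit braiding of irr n.
Plan. Let q = A^2, a k = q^(k choose 2) * (q - q⁻¹)^k / [k]!, Θ = ∑ k < L, a k • F^k ⊗ E^k on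
X ⊗ Y with L larger than the nilpotency order (weights are bounded). Matrix identities
  E F^(k+1) - F^(k+1) E = [k+1] F^k (q^(-k) Kp - q^k Km) / (q - q⁻¹),
  E^(k+1) F - F E^(k+1) = [k+1] E^k (q^k Kp - q^(-k) Km) / (q - q⁻¹),
  Km F^k = q^(2k) F^k Km, Kp E^k = q^(2k) E^k Kp, a (k+1) [k+1] = a k q^k (q - q⁻¹)
give by telescoping (theta_E, theta_F)
  Θ (E ⊗ 1 + Kp ⊗ E) = (E ⊗ 1 + Km ⊗ E) Θ,   Θ (F ⊗ Km + 1 ⊗ F) = (F ⊗ Kp + 1 ⊗ F) Θ.
With D = diagonal A^(wt x * wt y) and P the flip, c true = P D Θ and c false = Θ' D⁻¹ P where Θ'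
is Θ on Y ⊗ X for q⁻¹ (IsMod q X ↔ IsMod q⁻¹ X by qi_inv; Kp and Km are exchanged).
For irr n: (F^k) (i+k) i = [i+1]...[i+k] = [k]! * qbin (i+k) k, (E^k) (j-k) j = [n-j+1]...[n-j+k],
which gives cV. One may define c for general X, Y, prove exists_braid, and for isBraid_cV show
that cV equals the general formula entrywise.
-/

namespace Pool.Agent.Work.MP_c404d3_gt

open scoped BigOperators Real Kronecker
open Matrix Finset

variable {ι κ ι' κ' : Type} [Fintype ι] [DecidableEq ι] [Fintype κ] [DecidableEq κ]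
  [Fintype ι'] [DecidableEq ι'] [Fintype κ'] [DecidableEq κ']

set_option linter.unusedSectionVars false

namespace A7

theorem kr_ap (S : Matrix ι ι ℂ) (T : Matrix κ κ ℂ) (o p : ι × κ) :
    (S ⊗ₖ T) o p = S o.1 p.1 * T o.2 p.2 := rfl

theorem kr_swap (S S' : Matrix ι ι ℂ) (T T' : Matrix κ κ ℂ) (o p : ι × κ) :
    (S ⊗ₖ T + S' ⊗ₖ T') o p = (T' ⊗ₖ S' + T ⊗ₖ S) o.swap p.swap := by
  simp only [Matrix.add_apply, kr_ap, Prod.fst_swap, Prod.snd_swap]
  ring

theorem qbin_lt (q : ℂ) : ∀ n k : ℕ, n < k → qbin q n k = 0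
  | _, 0, h => absurd h (Nat.not_lt_zero _)
  | 0, _ + 1, _ => by simp [qbin]
  | n + 1, k + 1, h => by
    rw [qbin, qbin_lt q n (k + 1) (by omega), qbin_lt q n k (by omega)]
    simp

theorem qbin_zero (q : ℂ) (n : ℕ) : qbin q n 0 = 1 := by
  cases n <;> simp [qbin]

theorem qbin_self (q : ℂ) : ∀ n : ℕ, qbin q n n = 1
  | 0 => qbin_zero q 0
  | n + 1 => by
    rw [qbin, qbin_lt q n (n + 1) (by omega), qbin_self q n]
    simp

theorem qbin_qf {q : ℂ} (hq : Gen q) (k : ℕ) : ∀ i : ℕ,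
    qf q k * qbin q (i + k) k = ∏ s ∈ range k, qi q ((i : ℤ) + (s + 1)) := by
  induction k with
  | zero => intro i; simp [qf, qbin_zero]
  | succ k ihk =>
    intro i
    induction i with
    | zero => simp [qf, qbin_self]
    | succ i ihi =>
      have h3 : qf q (k + 1) = qf q k * qi q ((k : ℤ) + 1) := Finset.prod_range_succ _ _
      have e1 : i + 1 + (k + 1) = (i + (k + 1)) + 1 := by ring
      have e2 : i + (k + 1) = i + 1 + k := by ring
      have h4 := ihk (i + 1)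
      rw [← e2] at h4
      have h5 : ∏ s ∈ range (k + 1), qi q ((i : ℤ) + (s + 1)) =
          (∏ s ∈ range k, qi q (((i + 1 : ℕ) : ℤ) + (s + 1))) * qi q (i + 1) := by
        rw [Finset.prod_range_succ']
        congr 1
        refine Finset.prod_congr rfl fun s _ => ?_
        congr 1
        push_cast
        ring
      have h6 := qi_add hq.1 (i + 1) (k + 1)
      rw [e1, qbin, mul_add, mul_left_comm, ihi, h5, h3, Finset.prod_range_succ, ← h4,
        show (k : ℤ) - ((i + (k + 1) : ℕ) : ℤ) = -((i : ℤ) + 1) by push_cast; ring,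
        show ((i + 1 : ℕ) : ℤ) + ((k : ℤ) + 1) = (i + 1) + (k + 1) by push_cast; ring, h6,
        show q ^ (k + 1) = q ^ ((k : ℤ) + 1) by rw [← zpow_natCast]; push_cast; rfl]
      ring

/-- the diagonal part of the braiding -/
noncomputable def dd (A : ℂ) (X : QD ι) (Y : QD κ) : Matrix (ι × κ) (ι × κ) ℂ :=
  Matrix.diagonal fun p => A ^ (X.wt p.1 * Y.wt p.2)

theorem dd_left {A : ℂ} (hA : A ≠ 0) {X : QD ι} (Y : QD κ) {S : Matrix ι ι ℂ} {d : ℤ}
    (hS : Sh X S d) (f : ℤ → ℂ) :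
    dd A X Y * (S ⊗ₖ dg Y f) = (S ⊗ₖ dg Y fun w => A ^ (d * w) * f w) * dd A X Y := by
  ext o p
  simp only [dd, Matrix.diagonal_mul, Matrix.mul_diagonal, kr_ap, dg]
  by_cases e : S o.1 p.1 = 0
  · simp [e]
  · by_cases e2 : o.2 = p.2
    · rw [hS _ _ e, e2, Matrix.diagonal_apply_eq, Matrix.diagonal_apply_eq, add_mul,
        zpow_add₀ hA]
      ring
    · simp [Matrix.diagonal_apply_ne _ e2]

theorem dd_right {A : ℂ} (hA : A ≠ 0) (X : QD ι) {Y : QD κ} {S : Matrix κ κ ℂ} {d : ℤ}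
    (hS : Sh Y S d) (f : ℤ → ℂ) :
    dd A X Y * (dg X f ⊗ₖ S) = ((dg X fun w => A ^ (d * w) * f w) ⊗ₖ S) * dd A X Y := by
  ext o p
  simp only [dd, Matrix.diagonal_mul, Matrix.mul_diagonal, kr_ap, dg]
  by_cases e : S o.2 p.2 = 0
  · simp [e]
  · by_cases e2 : o.1 = p.1
    · rw [hS _ _ e, e2, Matrix.diagonal_apply_eq, Matrix.diagonal_apply_eq, mul_add,
        zpow_add₀ hA, mul_comm d]
      ring
    · simp [Matrix.diagonal_apply_ne _ e2]

theorem dg_one (X : QD ι) : dg X (fun _ => 1) = 1 := by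
  simp [dg]

theorem sq_zpow (A : ℂ) (w : ℤ) : (A ^ 2) ^ w = A ^ (2 * w) := by
  rw [_root_.zpow_mul]
  norm_cast

theorem dd_E {A q : ℂ} (hA : A ≠ 0) {X : QD ι} {Y : QD κ} (hX : IsMod q X) (hY : IsMod q Y) :
    dd A X Y * (X.E ⊗ₖ (1 : Matrix κ κ ℂ) + Km (A ^ 2) X ⊗ₖ Y.E) =
      (X.E ⊗ₖ Kp (A ^ 2) Y + (1 : Matrix ι ι ℂ) ⊗ₖ Y.E) * dd A X Y := by
  have hp : Kp (A ^ 2) Y = dg Y (fun w => A ^ (2 * w) * 1) := by
    simp only [Kp, dg, sq_zpow, mul_one]
  have hm : Km (A ^ 2) X = dg X (fun w => (A ^ 2) ^ (-w)) := rfl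
  have h1 : (1 : Matrix ι ι ℂ) = dg X (fun w => A ^ (2 * w) * (A ^ 2) ^ (-w)) := by
    rw [← dg_one X]
    congr 1
    funext w
    rw [sq_zpow, ← zpow_add₀ hA]
    simp
  rw [Matrix.mul_add, Matrix.add_mul, ← dg_one Y, dd_left hA Y (shE hX), hm,
    dd_right hA X (shE hY), hp, h1]

theorem dd_F {A q : ℂ} (hA : A ≠ 0) {X : QD ι} {Y : QD κ} (hX : IsMod q X) (hY : IsMod q Y) :
    dd A X Y * (X.F ⊗ₖ Kp (A ^ 2) Y + (1 : Matrix ι ι ℂ) ⊗ₖ Y.F) =
      (X.F ⊗ₖ (1 : Matrix κ κ ℂ) + Km (A ^ 2) X ⊗ₖ Y.F) * dd A X Y := by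
  have hp : Kp (A ^ 2) Y = dg Y (fun w => (A ^ 2) ^ w) := rfl
  have hm : Km (A ^ 2) X = dg X (fun w => A ^ (-2 * w) * 1) := by
    simp only [Km, dg, sq_zpow, mul_one, mul_neg, neg_mul]
  have h1 : (1 : Matrix κ κ ℂ) = dg Y (fun w => A ^ (-2 * w) * (A ^ 2) ^ w) := by
    rw [← dg_one Y]
    congr 1
    funext w
    rw [sq_zpow, ← zpow_add₀ hA]
    simp
  rw [Matrix.mul_add, Matrix.add_mul, ← dg_one X, dd_right hA X (shF hY), hp,
    dd_left hA Y (shF hX), hm, h1]

theorem dd_mul_inv {A : ℂ} (hA : A ≠ 0) (X : QD ι) (Y : QD κ) : dd A X Y * dd A⁻¹ X Y = 1 := by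
  rw [dd, dd, Matrix.diagonal_mul_diagonal, ← Matrix.diagonal_one]
  congr 1
  funext p
  rw [← mul_zpow, mul_inv_cancel₀ hA, _root_.one_zpow]

theorem dd_inv_mul {A : ℂ} (hA : A ≠ 0) (X : QD ι) (Y : QD κ) : dd A⁻¹ X Y * dd A X Y = 1 := by
  have := dd_mul_inv (inv_ne_zero hA) X Y
  rwa [inv_inv] at this

theorem dd_inv_comm {A : ℂ} (hA : A ≠ 0) {X : QD ι} {Y : QD κ}
    {M N : Matrix (ι × κ) (ι × κ) ℂ} (h : dd A X Y * M = N * dd A X Y) :
    dd A⁻¹ X Y * N = M * dd A⁻¹ X Y := by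
  calc dd A⁻¹ X Y * N = dd A⁻¹ X Y * (N * dd A X Y) * dd A⁻¹ X Y := by
        rw [Matrix.mul_assoc, Matrix.mul_assoc, dd_mul_inv hA, Matrix.mul_one]
    _ = M * dd A⁻¹ X Y := by rw [← h, ← Matrix.mul_assoc, dd_inv_mul hA, Matrix.one_mul]

theorem flip_left {M S N : Matrix (ι × κ) (ι × κ) ℂ} {N' : Matrix (κ × ι) (κ × ι) ℂ}
    (h : M * S = N * M) (hN : ∀ o p, N' o p = N o.swap p.swap) :
    (M.submatrix Prod.swap id : Matrix (κ × ι) (ι × κ) ℂ) * S =
      N' * (M.submatrix Prod.swap id : Matrix (κ × ι) (ι × κ) ℂ) := by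
  ext o p
  have := congrFun (congrFun h o.swap) p
  simp only [Matrix.mul_apply, Matrix.submatrix_apply, id] at this ⊢
  rw [this, ← (Equiv.prodComm κ ι).sum_comp]
  refine Finset.sum_congr rfl fun x _ => ?_
  rw [hN]
  rfl

theorem flip_right {M S N : Matrix (κ × ι) (κ × ι) ℂ} {S' : Matrix (ι × κ) (ι × κ) ℂ}
    (h : M * S = N * M) (hS : ∀ o p, S' o p = S o.swap p.swap) :
    (M.submatrix id Prod.swap : Matrix (κ × ι) (ι × κ) ℂ) * S' =
      N * (M.submatrix id Prod.swap : Matrix (κ × ι) (ι × κ) ℂ) := by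
  ext o p
  have := congrFun (congrFun h o) p.swap
  simp only [Matrix.mul_apply, Matrix.submatrix_apply, id] at this ⊢
  rw [← this, ← (Equiv.prodComm ι κ).sum_comp]
  refine Finset.sum_congr rfl fun x _ => ?_
  rw [hS]
  rfl

/-- positive braiding -/
noncomputable def cT (A : ℂ) (X : QD ι) (Y : QD κ) (L : ℕ) : Matrix (κ × ι) (ι × κ) ℂ :=
  (dd A X Y * th (A ^ 2) X Y L).submatrix Prod.swap id

/-- negative braiding -/
noncomputable def cF (A : ℂ) (X : QD ι) (Y : QD κ) (L : ℕ) : Matrix (κ × ι) (ι × κ) ℂ :=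
  (th (A ^ 2)⁻¹ Y X L * dd A⁻¹ Y X).submatrix id Prod.swap

theorem cT_apply (A : ℂ) (X : QD ι) (Y : QD κ) (L : ℕ) (o : κ × ι) (p : ι × κ) :
    cT A X Y L o p = A ^ (X.wt o.2 * Y.wt o.1) * th (A ^ 2) X Y L (o.2, o.1) p := by
  simp only [cT, dd, Matrix.submatrix_apply, Matrix.diagonal_mul, id]
  rfl

theorem cF_apply (A : ℂ) (X : QD ι) (Y : QD κ) (L : ℕ) (o : κ × ι) (p : ι × κ) :
    cF A X Y L o p = A ^ (-(X.wt p.1 * Y.wt p.2)) * th (A ^ 2)⁻¹ Y X L o (p.2, p.1) := by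
  simp only [cF, dd, Matrix.submatrix_apply, Matrix.mul_diagonal, id]
  rw [mul_comm, _root_.inv_zpow', mul_comm (X.wt p.1)]
  rfl

theorem A_ne {A : ℂ} (hq : Gen (A ^ 2)) : A ≠ 0 := by
  rintro rfl
  exact hq.1 (by simp)

theorem isBraid_cT {A : ℂ} (hq : Gen (A ^ 2)) {X : QD ι} {Y : QD κ}
    (hX : IsMod (A ^ 2) X) (hY : IsMod (A ^ 2) Y) {L : ℕ} (h1 : X.F ^ (L + 1) = 0)
    (h2 : Y.E ^ (L + 1) = 0) : IsBraid A true X Y (cT A X Y (L + 1)) := by
  have hA := A_ne hq
  refine ⟨⟨fun o p h => ?_, ?_, ?_⟩, fun o p h => ?_, fun o p h => ?_⟩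
  · rw [cT_apply] at h
    obtain ⟨k, e1, e2⟩ := th_wt hX hY (right_ne_zero_of_mul h)
    simp only [tensor] at e1 e2 ⊢
    omega
  · refine flip_left (N := X.E ⊗ₖ Kp (A ^ 2) Y + (1 : Matrix ι ι ℂ) ⊗ₖ Y.E) ?_ fun o p => ?_
    · simp only [tensor]
      rw [Matrix.mul_assoc, th_E hq hX h2, ← Matrix.mul_assoc, dd_E hA hX hY, Matrix.mul_assoc]
    · exact kr_swap _ _ _ _ o p
  · refine flip_left (N := X.F ⊗ₖ (1 : Matrix κ κ ℂ) + Km (A ^ 2) X ⊗ₖ Y.F) ?_ fun o p => ?_
    · simp only [tensor]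
      rw [Matrix.mul_assoc, th_F hq hY h1, ← Matrix.mul_assoc, dd_F hA hX hY, Matrix.mul_assoc]
    · exact kr_swap _ _ _ _ o p
  · rw [cT_apply] at h
    obtain ⟨k, e1, e2⟩ := th_wt hX hY (right_ne_zero_of_mul h)
    simp only [sg, if_true] at e1 e2 ⊢
    omega
  · rw [cT_apply, th_lead hX hY (Or.inl h)]
    by_cases e : o.2 = p.1 ∧ o.1 = p.2
    · simp [e.1, e.2, sg]
    · simp [e]

theorem isMod_inv {q : ℂ} {X : QD ι} (hX : IsMod q X) : IsMod q⁻¹ X :=
  ⟨hX.E_wt, hX.F_wt, by simpa only [qi_inv] using hX.comm⟩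

theorem Kp_inv (q : ℂ) (X : QD ι) : Kp q⁻¹ X = Km q X := by
  simp only [Kp, Km, _root_.inv_zpow']

theorem Km_inv (q : ℂ) (X : QD ι) : Km q⁻¹ X = Kp q X := by
  simp only [Kp, Km, _root_.inv_zpow', neg_neg]

theorem isBraid_cF {A : ℂ} (hq : Gen (A ^ 2)) {X : QD ι} {Y : QD κ}
    (hX : IsMod (A ^ 2) X) (hY : IsMod (A ^ 2) Y) {L : ℕ} (h1 : Y.F ^ (L + 1) = 0)
    (h2 : X.E ^ (L + 1) = 0) : IsBraid A false X Y (cF A X Y (L + 1)) := by
  have hA := A_ne hq
  refine ⟨⟨fun o p h => ?_, ?_, ?_⟩, fun o p h => ?_, fun o p h => ?_⟩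
  · rw [cF_apply] at h
    obtain ⟨k, e1, e2⟩ := th_wt hY hX (right_ne_zero_of_mul h)
    simp only [tensor] at e1 e2 ⊢
    omega
  · refine flip_right (S := Y.E ⊗ₖ Kp (A ^ 2) X + (1 : Matrix κ κ ℂ) ⊗ₖ X.E) ?_ fun o p => ?_
    · have := th_E hq.inv (isMod_inv hY) h2
      rw [Kp_inv, Km_inv] at this
      simp only [tensor]
      rw [Matrix.mul_assoc, dd_inv_comm hA (dd_E hA hY hX), ← Matrix.mul_assoc, this,
        Matrix.mul_assoc]
    · exact kr_swap _ _ _ _ o p
  · refine flip_right (S := Y.F ⊗ₖ (1 : Matrix ι ι ℂ) + Km (A ^ 2) Y ⊗ₖ X.F) ?_ fun o p => ?_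
    · have := th_F hq.inv (isMod_inv hX) h1
      rw [Kp_inv, Km_inv] at this
      simp only [tensor]
      rw [Matrix.mul_assoc, dd_inv_comm hA (dd_F hA hY hX), ← Matrix.mul_assoc, this,
        Matrix.mul_assoc]
    · exact kr_swap _ _ _ _ o p
  · rw [cF_apply] at h
    obtain ⟨k, e1, e2⟩ := th_wt hY hX (right_ne_zero_of_mul h)
    simp only [sg, Bool.false_eq_true, if_false] at e1 e2 ⊢
    omega
  · rw [cF_apply, th_lead hY hX (Or.inr h)]
    by_cases e : o.2 = p.1 ∧ o.1 = p.2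
    · simp [e.1, e.2, sg]
    · have e' : ¬ (o.1 = p.2 ∧ o.2 = p.1) := fun h => e h.symm
      simp [e, e']

theorem irr_F_pow (q : ℂ) (n k : ℕ) (a b : Fin (n + 1)) :
    ((irr q n).F ^ k) a b =
      if (a : ℕ) = b + k then ∏ s ∈ range k, qi q (((b : ℕ) : ℤ) + (s + 1)) else 0 := by
  induction k generalizing a with
  | zero => simp [Matrix.one_apply, Fin.ext_iff]
  | succ k ih =>
    rw [pow_succ', Matrix.mul_apply]
    simp only [ih]
    split_ifs with h
    · rw [Finset.sum_eq_single (⟨b + k, by omega⟩ : Fin (n + 1))]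
      · simp only [irr, Matrix.of_apply, if_true]
        rw [if_pos (by omega), Finset.prod_range_succ, mul_comm, h]
        push_cast
        rfl
      · intro c _ hc
        rw [if_neg (fun e => hc (Fin.ext e)), mul_zero]
      · simp
    · refine Finset.sum_eq_zero fun c _ => ?_
      simp only [irr, Matrix.of_apply]
      split_ifs with h1 h2
      · omega
      all_goals simp

theorem irr_E_pow (q : ℂ) (n k : ℕ) (a b : Fin (n + 1)) :
    ((irr q n).E ^ k) a b =
      if (b : ℕ) = a + k then ∏ s ∈ range k, qi q ((n : ℤ) - (b : ℕ) + (s + 1)) else 0 := by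
  induction k generalizing a with
  | zero => simp [Matrix.one_apply, Fin.ext_iff, eq_comm]
  | succ k ih =>
    rw [pow_succ', Matrix.mul_apply]
    simp only [ih]
    split_ifs with h
    · rw [Finset.sum_eq_single (⟨a + 1, by omega⟩ : Fin (n + 1))]
      · simp only [irr, Matrix.of_apply, if_true]
        rw [if_pos (by omega), Finset.prod_range_succ, mul_comm, h]
        congr 2
        push_cast
        ring
      · intro c _ hc
        simp only [irr, Matrix.of_apply]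
        rw [if_neg (fun e => hc (Fin.ext e)), zero_mul]
      · simp
    · refine Finset.sum_eq_zero fun c _ => ?_
      simp only [irr, Matrix.of_apply]
      split_ifs with h1 h2
      · omega
      all_goals simp

theorem irr_F_nil (q : ℂ) (n : ℕ) : (irr q n).F ^ (n + 1) = 0 := by
  ext a b
  rw [irr_F_pow, if_neg (by omega)]
  rfl

theorem irr_E_nil (q : ℂ) (n : ℕ) : (irr q n).E ^ (n + 1) = 0 := by
  ext a b
  rw [irr_E_pow, if_neg (by omega)]
  rfl

theorem th_irr {q : ℂ} (hq : Gen q) (q' : ℂ) (n : ℕ) (o p : Fin (n + 1) × Fin (n + 1)) :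
    th q' (irr q n) (irr q n) (n + 1) o p =
      if (p.1 : ℕ) ≤ o.1 ∧ (o.1 : ℕ) + o.2 = p.1 + p.2 then
        co q' (o.1 - p.1) * qf q (o.1 - p.1) * qbin q o.1 (o.1 - p.1) *
          ∏ s ∈ range ((o.1 : ℕ) - p.1), qi q ((n : ℤ) - (p.2 : ℕ) + (s + 1))
      else 0 := by
  rw [th_apply]
  simp only [irr_F_pow, irr_E_pow]
  split_ifs with h
  · rw [Finset.sum_eq_single ((o.1 : ℕ) - p.1)]
    · rw [if_pos (by omega), if_pos (by omega), ← qbin_qf hq,
        show (p.1 : ℕ) + ((o.1 : ℕ) - p.1) = o.1 by omega]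
      ring
    · intro k _ hk
      rw [if_neg (by omega), zero_mul, mul_zero]
    · intro hk
      exact absurd (Finset.mem_range.2 (by omega)) hk
  · refine Finset.sum_eq_zero fun k _ => ?_
    split_ifs with h1 h2
    · omega
    all_goals simp

theorem prod_qb {q : ℂ} (hq : Gen q) (k : ℕ) (f : ℕ → ℤ) :
    ∏ s ∈ range k, qb q (f s) = (q - q⁻¹) ^ k * ∏ s ∈ range k, qi q (f s) := by
  simp only [qb_eq hq, Finset.prod_mul_distrib, Finset.prod_const, Finset.card_range]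

theorem co_qf {q : ℂ} (hq : Gen q) (k : ℕ) :
    co q k * qf q k = q ^ (k.choose 2) * (q - q⁻¹) ^ k :=
  div_mul_cancel₀ _ (qf_ne hq k)

theorem co_inv_qf {q : ℂ} (hq : Gen q) (k : ℕ) :
    co q⁻¹ k * qf q k = (-1) ^ k * (q⁻¹ ^ (k.choose 2) * (q - q⁻¹) ^ k) := by
  have e : qf q k = qf q⁻¹ k := by simp only [qf, qi_inv]
  rw [e, co_qf hq.inv, inv_inv, ← neg_sub q, neg_pow]
  ring

theorem cV_true {A : ℂ} (hq : Gen (A ^ 2)) (n : ℕ) :
    cV A n true = cT A (irr (A ^ 2) n) (irr (A ^ 2) n) (n + 1) := by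
  ext o p
  rw [cT_apply, th_irr hq]
  simp only [cV, Matrix.of_apply, if_true]
  by_cases h1 : (o.1 : ℕ) + o.2 = p.1 + p.2
  · by_cases h2 : (p.1 : ℕ) ≤ o.2
    · rw [if_pos h1, if_pos h2, if_pos ⟨h2, by omega⟩, co_qf hq, prod_qb hq]
      simp only [irr]
      rw [mul_comm ((n : ℤ) - 2 * ((o.2 : ℕ) : ℤ))]
      ring
    · rw [if_pos h1, if_neg h2, if_neg (fun h => h2 h.1), mul_zero]
  · rw [if_neg h1, if_neg (fun h => h1 (by omega)), mul_zero]

theorem cV_false {A : ℂ} (hq : Gen (A ^ 2)) (n : ℕ) :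
    cV A n false = cF A (irr (A ^ 2) n) (irr (A ^ 2) n) (n + 1) := by
  ext o p
  rw [cF_apply, th_irr hq]
  simp only [cV, Matrix.of_apply, Bool.false_eq_true, if_false]
  by_cases h1 : (o.1 : ℕ) + o.2 = p.1 + p.2
  · by_cases h2 : (o.2 : ℕ) ≤ p.1
    · rw [if_pos h1, if_pos h2, if_pos ⟨by omega, by omega⟩,
        show (o.1 : ℕ) - p.2 = p.1 - o.2 by omega, co_inv_qf hq, prod_qb hq]
      simp only [irr]
      ring
    · rw [if_pos h1, if_neg h2, if_neg (fun h => h2 (by omega)), mul_zero]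
  · rw [if_neg h1, if_neg (fun h => h1 (by omega)), mul_zero]

end A7

theorem qbin_mul {q : ℂ} (hq : Gen q) (i k : ℕ) :
    (∏ s ∈ range k, qi q ((s : ℤ) + 1)) * qbin q (i + k) k =
      ∏ s ∈ range k, qi q ((i : ℤ) + (s + 1)) := by
  exact A7.qbin_qf hq k i

theorem exists_braid {A : ℂ} (hq : Gen (A ^ 2)) (ε : Bool) {X : QD ι} {Y : QD κ}
    (hX : IsMod (A ^ 2) X) (hY : IsMod (A ^ 2) Y) :
    ∃ c : Matrix (κ × ι) (ι × κ) ℂ, IsBraid A ε X Y c := by
  obtain ⟨L1, h1⟩ := A7.nilp (A7.shE hX) (by norm_num)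
  obtain ⟨L2, h2⟩ := A7.nilp (A7.shF hX) (by norm_num)
  obtain ⟨L3, h3⟩ := A7.nilp (A7.shE hY) (by norm_num)
  obtain ⟨L4, h4⟩ := A7.nilp (A7.shF hY) (by norm_num)
  cases ε
  · exact ⟨_, A7.isBraid_cF hq hX hY (L := L1 + L4) (h4 _ (by omega)) (h1 _ (by omega))⟩
  · exact ⟨_, A7.isBraid_cT hq hX hY (L := L2 + L3) (h2 _ (by omega)) (h3 _ (by omega))⟩

theorem isBraid_cV {A : ℂ} (hq : Gen (A ^ 2)) (n : ℕ) (ε : Bool) :
    IsBraid A ε (irr (A ^ 2) n) (irr (A ^ 2) n) (cV A n ε) := by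
  cases ε
  · rw [A7.cV_false hq]
    exact A7.isBraid_cF hq (isMod_irr hq n) (isMod_irr hq n) (A7.irr_F_nil _ n)
      (A7.irr_E_nil _ n)
  · rw [A7.cV_true hq]
    exact A7.isBraid_cT hq (isMod_irr hq n) (isMod_irr hq n) (A7.irr_F_nil _ n)
      (A7.irr_E_nil _ n)

end Pool.Agent.Work.MP_c404d3_gt
end

-- merged part: Pool.Agent.Work.MP_c404d3_gt.A8a
section
/-!
A8a: the q-binomial theorem and the double sum for the figure-eight knot (pure q-identities).
qbin_thm: induction on i with the Pascal recursion of qbin (both forms of the recursion may be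
needed; qbin is symmetric under q ↦ q⁻¹).
fig8_sum: the left side is the explicit double sum; group by i = a + c; the cV entries are
  cV true (0, a+c) (a, c) = A^(n (n-2a-2c)) q^(c choose 2) qbin (a+c) c ∏ s<c, qb (n-c+s+1),
  cV false (a, c) (a+c, 0) = (-1)^a A^(-(n-2a-2c) n) q^(-(a choose 2)) qbin a a ∏ s<a, qb (n-a-c+s+1),
  cV false (c, 0) (0, c) = A^(-n (n-2c)),  cV true (0, a)... see the statement; the product of the
two qb-products is ∏ s<i, qb (n-s) and the inner sum over c is evaluated by qbin_thm.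
-/

namespace Pool.Agent.Work.MP_c404d3_gt

open scoped BigOperators Real Kronecker
open Matrix Finset

variable {ι κ ι' κ' : Type} [Fintype ι] [DecidableEq ι] [Fintype κ] [DecidableEq κ]
  [Fintype ι'] [DecidableEq ι'] [Fintype κ'] [DecidableEq κ']

theorem A8a_zero (q : ℂ) {n k : ℕ} (h : n < k) : qbin q n k = 0 := by
  induction n generalizing k with
  | zero =>
    obtain ⟨k, rfl⟩ := Nat.exists_eq_succ_of_ne_zero h.ne'
    rfl
  | succ n ih =>
    obtain ⟨k, rfl⟩ := Nat.exists_eq_succ_of_ne_zero (Nat.zero_lt_of_lt h).ne'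
    rw [qbin, ih (by omega), ih (by omega), mul_zero, mul_zero, add_zero]

theorem A8a_nil (q : ℂ) (n : ℕ) : qbin q n 0 = 1 := by cases n <;> rfl

theorem qbin_self (q : ℂ) (n : ℕ) : qbin q n n = 1 := by
  induction n with
  | zero => rfl
  | succ n ih => rw [qbin, A8a_zero q (Nat.lt_succ_self n), ih]; simp

theorem qbin_thm {q : ℂ} (hq : q ≠ 0) (i : ℕ) (x : ℂ) :
    ∑ c ∈ range (i + 1), qbin q i c * x ^ c * q ^ ((c : ℤ) * ((i : ℤ) - 1)) =
      ∏ j ∈ range i, (1 + x * q ^ (2 * j)) := by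
  induction i generalizing x with
  | zero => simp [A8a_nil]
  | succ i ih =>
    have h1 : ∀ c : ℕ, (x * q ^ 2) ^ c * q ^ ((c : ℤ) * ((i : ℤ) - 1)) =
        x ^ c * q ^ ((c : ℤ) * (i + 1)) := fun c => by
      rw [mul_pow, ← pow_mul, mul_assoc, ← _root_.zpow_natCast q, ← zpow_add₀ hq]
      congr 2
      push_cast
      ring
    have h2 := ih (x * q ^ 2)
    simp only [mul_assoc (qbin q i _), h1] at h2
    have h3 : ∑ c ∈ range (i + 1), qbin q i c * (x ^ c * q ^ ((c : ℤ) * (i + 1))) =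
        ∑ c ∈ range (i + 1), qbin q i (c + 1) * (x ^ (c + 1) * q ^ (((c + 1 : ℕ) : ℤ) * (i + 1))) +
          1 := by
      rw [sum_range_succ', sum_range_succ _ i, A8a_zero q (Nat.lt_succ_self i), A8a_nil]
      simp
    have h4 : ∏ j ∈ range i, (1 + x * q ^ (2 * (j + 1))) =
        ∏ j ∈ range i, (1 + x * q ^ 2 * q ^ (2 * j)) := prod_congr rfl fun j _ => by ring
    rw [prod_range_succ', h4, ← h2, mul_add, mul_one]
    nth_rewrite 1 [h3]
    rw [sum_range_succ', A8a_nil, sum_mul, add_right_comm, ← sum_add_distrib]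
    congr 1
    · refine sum_congr rfl fun c _ => ?_
      have e1 : q ^ (((c + 1 : ℕ) : ℤ) * (i + 1)) =
          q ^ (c + 1) * q ^ (((c + 1 : ℕ) : ℤ) * (((i + 1 : ℕ) : ℤ) - 1)) := by
        rw [← _root_.zpow_natCast q, ← zpow_add₀ hq]
        congr 1
        push_cast
        ring
      have e2 : q ^ ((c : ℤ) * (i + 1)) =
          q ^ ((c : ℤ) - i) * q ^ (((c + 1 : ℕ) : ℤ) * (((i + 1 : ℕ) : ℤ) - 1)) := by
        rw [← zpow_add₀ hq]
        congr 1
        push_cast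
        ring
      rw [qbin, e1, e2]
      ring
    · simp

theorem A8a_two (m : ℕ) : 2 * (m.choose 2 : ℤ) = m * (m - 1) := by
  induction m with
  | zero => simp
  | succ m ih =>
    rw [Nat.choose_succ_succ' m 1, Nat.choose_one_right]
    push_cast
    linear_combination ih

theorem A8a_prod (q : ℂ) (n a c : ℕ) :
    ∏ j ∈ range (a + c), qb q ((n : ℤ) + 1 - (j + 1)) =
      (∏ s ∈ range a, qb q ((n : ℤ) - (a + c) + (s + 1))) *
        ∏ s ∈ range c, qb q ((n : ℤ) - c + (s + 1)) := by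
  rw [← prod_range_reflect, prod_range_add]
  congr 1
  · refine prod_congr rfl fun s hs => congrArg _ ?_
    have := mem_range.1 hs
    omega
  · refine prod_congr rfl fun s hs => congrArg _ ?_
    have := mem_range.1 hs
    omega

theorem A8a_pre {A : ℂ} (hA : A ≠ 0) (n i : ℕ) :
    ∏ j ∈ range i, qb (A ^ 2) ((n : ℤ) + 1 + (j + 1)) =
      (-1) ^ i * A ^ (-(2 * ((n : ℤ) + 2) * i + i * ((i : ℤ) - 1))) *
        ∏ j ∈ range i, (1 + -(A ^ 2) ^ (2 * (n + 2)) * (A ^ 2) ^ (2 * j)) := by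
  induction i with
  | zero => simp
  | succ i ih =>
    have e1 : A ^ (-(2 * ((n : ℤ) + 2) * (i + 1 : ℕ) + (i + 1 : ℕ) * (((i + 1 : ℕ) : ℤ) - 1))) =
        A ^ (-(2 * ((n : ℤ) + 2) * i + i * ((i : ℤ) - 1))) *
          (A ^ 2) ^ (-((n : ℤ) + 1 + (i + 1))) := by
      rw [← _root_.zpow_natCast A 2, ← _root_.zpow_mul, ← zpow_add₀ hA]
      congr 1
      push_cast
      ring
    have e2 : (A ^ 2) ^ ((n : ℤ) + 1 + (i + 1)) = (A ^ 2) ^ (-((n : ℤ) + 1 + (i + 1))) *
        ((A ^ 2) ^ (2 * (n + 2)) * (A ^ 2) ^ (2 * i)) := by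
      rw [← pow_add, ← _root_.zpow_natCast (A ^ 2), ← zpow_add₀ (pow_ne_zero 2 hA)]
      congr 1
      push_cast
      ring
    rw [prod_range_succ, prod_range_succ, ih, e1, qb]
    nth_rewrite 1 [e2]
    ring

/-- the double sum: the exponent collects mu(a)⁻¹ mu(c) and the four crossings -/
theorem fig8_sum {A : ℂ} (hA : A ≠ 0) (n : ℕ) :
    ∑ a ∈ range (n + 1), ∑ c ∈ range (n + 1 - a),
      ((-(A ^ 2)⁻¹) ^ ((n : ℤ) - 2 * a))⁻¹ * (-(A ^ 2)⁻¹) ^ ((n : ℤ) - 2 * c) *
      (A ^ ((n : ℤ) * ((n : ℤ) - 2 * a)) *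
        ((-1) ^ a * A ^ (-(((n : ℤ) - 2 * (a + c)) * n)) * ((A ^ 2)⁻¹) ^ (a.choose 2) *
          ∏ s ∈ range a, qb (A ^ 2) ((n : ℤ) - (a + c) + (s + 1))) *
        (A ^ ((n : ℤ) * ((n : ℤ) - 2 * (a + c))) * (A ^ 2) ^ (c.choose 2) *
          qbin (A ^ 2) (a + c) c * ∏ s ∈ range c, qb (A ^ 2) ((n : ℤ) - c + (s + 1))) *
        A ^ (-((n : ℤ) * ((n : ℤ) - 2 * c)))) = Hab (A ^ 2) (n + 1) := by
  rw [← sum_range_diag_flip, Hab]
  refine sum_congr rfl fun i _ => ?_
  rw [← sum_range_reflect, prod_mul_distrib]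
  push_cast
  rw [A8a_pre hA, ← qbin_thm (pow_ne_zero 2 hA), mul_sum, sum_mul]
  refine sum_congr rfl fun c hc => ?_
  obtain ⟨a, rfl⟩ : ∃ a, i = a + c := ⟨i - c, by have := mem_range.1 hc; omega⟩
  rw [show a + c - c = a by omega, show a + c - a = c by omega, A8a_prod]
  have h1 : ((-(A ^ 2)⁻¹) ^ ((n : ℤ) - 2 * a))⁻¹ * (-(A ^ 2)⁻¹) ^ ((n : ℤ) - 2 * c) =
      A ^ (4 * ((c : ℤ) - a)) := by
    rw [← _root_.zpow_neg, ← zpow_add₀ (neg_ne_zero.2 (inv_ne_zero (pow_ne_zero 2 hA))),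
      show -((n : ℤ) - 2 * a) + (n - 2 * c) = 2 * ((a : ℤ) - c) by ring, _root_.zpow_mul, _root_.zpow_two,
      neg_mul_neg, ← mul_inv, ← pow_add, _root_.inv_zpow', ← _root_.zpow_natCast, ← _root_.zpow_mul]
    congr 1
    push_cast
    ring
  have h2 : ((A ^ 2)⁻¹) ^ (a.choose 2) = A ^ (-((a : ℤ) * (a - 1))) := by
    rw [inv_pow, ← pow_mul, ← _root_.zpow_natCast, ← _root_.zpow_neg, ← A8a_two]
    push_cast
    rfl
  have h3 : (A ^ 2) ^ (c.choose 2) = A ^ ((c : ℤ) * (c - 1)) := by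
    rw [← pow_mul, ← _root_.zpow_natCast, ← A8a_two]
    push_cast
    rfl
  have h4 : (-(A ^ 2) ^ (2 * (n + 2))) ^ c = (-1) ^ c * A ^ (4 * ((n : ℤ) + 2) * c) := by
    rw [neg_pow, ← pow_mul, ← pow_mul, ← _root_.zpow_natCast A]
    congr 2
    push_cast
    ring
  have h5 : (A ^ 2) ^ ((c : ℤ) * (((a + c : ℕ) : ℤ) - 1)) = A ^ (2 * (c : ℤ) * (a + c - 1)) := by
    rw [← _root_.zpow_natCast A, ← _root_.zpow_mul]
    congr 1
    push_cast
    ring
  have h6 : ((-1 : ℂ) ^ c) ^ 2 = 1 := by rw [← pow_mul, mul_comm, pow_mul]; simp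
  have h7 : A ^ (4 * ((c : ℤ) - a)) * A ^ ((n : ℤ) * (n - 2 * a)) *
      A ^ (-(((n : ℤ) - 2 * (a + c)) * n)) * A ^ (-((a : ℤ) * (a - 1))) *
      A ^ ((n : ℤ) * (n - 2 * (a + c))) * A ^ ((c : ℤ) * (c - 1)) *
      A ^ (-((n : ℤ) * (n - 2 * c))) =
      A ^ (-(2 * ((n : ℤ) + 2) * (a + c : ℕ) + (a + c : ℕ) * (((a + c : ℕ) : ℤ) - 1))) *
        A ^ (4 * ((n : ℤ) + 2) * c) * A ^ (2 * (c : ℤ) * (a + c - 1)) := by
    simp only [← zpow_add₀ hA]
    congr 1
    push_cast
    ring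
  rw [h1, h2, h3, h4, h5, pow_add (-1 : ℂ)]
  generalize ∏ s ∈ range a, qb (A ^ 2) ((n : ℤ) - (a + c) + (s + 1)) = P at *
  generalize ∏ s ∈ range c, qb (A ^ 2) ((n : ℤ) - c + (s + 1)) = Q at *
  linear_combination ((-1) ^ a * P * Q * qbin (A ^ 2) (a + c) c) * h7 -
    ((-1) ^ a * P * Q * qbin (A ^ 2) (a + c) c *
      A ^ (-(2 * ((n : ℤ) + 2) * (a + c : ℕ) + (a + c : ℕ) * (((a + c : ℕ) : ℤ) - 1))) *
        A ^ (4 * ((n : ℤ) + 2) * c) * A ^ (2 * (c : ℤ) * (a + c - 1))) * h6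

end Pool.Agent.Work.MP_c404d3_gt
end

-- merged part: Pool.Agent.Work.MP_c404d3_gt.A1
section
/-!
A1: complete reducibility for generic q.
Induction on the rank of an idempotent endomorphism P.  Take a nonzero entry P a j of maximal
weight: column j is a highest weight vector, row a is one for the transposed module; they generate
maps i, p to and from an irreducible module with p * i a nonzero scalar; continue with P - i * p.
-/

namespace Pool.Agent.Work.MP_c404d3_gt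

open scoped BigOperators Real Kronecker
open Matrix Finset

variable {ι κ ι' κ' : Type} [Fintype ι] [DecidableEq ι] [Fintype κ] [DecidableEq κ]
  [Fintype ι'] [DecidableEq ι'] [Fintype κ'] [DecidableEq κ']

theorem A1_ne {q : ℂ} (hq : Gen q) : q - q⁻¹ ≠ 0 := fun h => hq.2 1 one_ne_zero (by
  rw [qi, h, div_zero])

theorem A1_qi_zero (q : ℂ) : qi q 0 = 0 := by simp [qi]

theorem A1_qi_rec {q : ℂ} (hq : Gen q) (k w : ℤ) :
    qi q (k + 1) * qi q (w - k) = qi q k * qi q (w - k + 1) + qi q (w - 2 * k) := by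
  have h0 := hq.1
  have h1 := A1_ne hq
  have hk : q ^ k ≠ 0 := zpow_ne_zero _ h0
  have hw : q ^ w ≠ 0 := zpow_ne_zero _ h0
  have e : w - 2 * k = w - k - k := by ring
  simp only [qi]
  rw [div_mul_div_comm, div_mul_div_comm, div_add_div _ _ (mul_ne_zero h1 h1) h1,
    div_eq_div_iff (mul_ne_zero h1 h1) (mul_ne_zero (mul_ne_zero h1 h1) h1)]
  simp only [e, _root_.zpow_neg, zpow_add₀ h0, zpow_sub₀ h0, zpow_one]
  field_simp
  ring

/-- vectors of weight `w` -/
def A1_W (X : QD ι) (w : ℤ) (v : ι → ℂ) : Prop := ∀ l, v l ≠ 0 → X.wt l = w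

/-- the string generated by a vector -/
noncomputable def A1_seq (F : Matrix ι ι ℂ) (h : ι → ℂ) : ℕ → ι → ℂ
  | 0 => h
  | k + 1 => F *ᵥ A1_seq F h k

omit [DecidableEq ι] in
theorem A1_seq_fix {F T : Matrix ι ι ℂ} {h : ι → ℂ} (hT : T * F = F * T) (hh : T *ᵥ h = h)
    (k : ℕ) : T *ᵥ A1_seq F h k = A1_seq F h k := by
  induction k with
  | zero => exact hh
  | succ k ih => rw [A1_seq, mulVec_mulVec, hT, ← mulVec_mulVec, ih]

theorem A1_seq_wt {q : ℂ} {X : QD ι} (hX : IsMod q X) {w : ℤ} {h : ι → ℂ} (hh : A1_W X w h)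
    (k : ℕ) : A1_W X (w - 2 * k) (A1_seq X.F h k) := by
  induction k with
  | zero => simpa [A1_seq] using hh
  | succ k ih =>
    intro l hl
    obtain ⟨j, -, hj⟩ := Finset.exists_ne_zero_of_sum_ne_zero
      (show ∑ j, X.F l j * A1_seq X.F h k j ≠ 0 from hl)
    have h1 := hX.F_wt l j (left_ne_zero_of_mul hj)
    have h2 := ih j (right_ne_zero_of_mul hj)
    push_cast
    omega

theorem A1_comm {q : ℂ} {X : QD ι} (hX : IsMod q X) {w : ℤ} {v : ι → ℂ} (hv : A1_W X w v) :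
    X.E *ᵥ (X.F *ᵥ v) = X.F *ᵥ (X.E *ᵥ v) + qi q w • v := by
  rw [mulVec_mulVec, mulVec_mulVec, ← sub_eq_iff_eq_add', ← sub_mulVec, hX.comm]
  ext l
  rw [mulVec_diagonal, Pi.smul_apply, smul_eq_mul]
  by_cases hl : v l = 0
  · rw [hl, mul_zero, mul_zero]
  · rw [hv l hl]

theorem A1_seq_E {q : ℂ} (hq : Gen q) {X : QD ι} (hX : IsMod q X) {w : ℤ} {h : ι → ℂ}
    (hh : A1_W X w h) (hE : X.E *ᵥ h = 0) (k : ℕ) :
    X.E *ᵥ A1_seq X.F h (k + 1) = (qi q (k + 1) * qi q (w - k)) • A1_seq X.F h k := by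
  induction k with
  | zero =>
    have := A1_qi_rec hq 0 w
    change X.E *ᵥ (X.F *ᵥ h) = _ • h
    rw [A1_comm hX hh, hE, mulVec_zero, zero_add, Nat.cast_zero, this, A1_qi_zero, zero_mul,
      zero_add, mul_zero, sub_zero]
  | succ k ih =>
    have := A1_qi_rec hq ((k + 1 : ℕ) : ℤ) w
    rw [A1_seq, A1_comm hX (A1_seq_wt hX hh (k + 1)), ih, mulVec_smul, this, add_smul]
    congr 3
    push_cast
    congr 1
    ring

theorem A1_seq_end {q : ℂ} (hq : Gen q) {X : QD ι} (hX : IsMod q X) {w : ℤ} {h : ι → ℂ}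
    (hh : A1_W X w h) (hE : X.E *ᵥ h = 0) (h0 : h ≠ 0) :
    ∃ m : ℕ, w = m ∧ A1_seq X.F h (m + 1) = 0 := by
  have ex : ∃ k, A1_seq X.F h (k + 1) = 0 := by
    refine ⟨∑ l, (w - X.wt l).natAbs, funext fun l => ?_⟩
    by_contra hl
    have h1 := A1_seq_wt hX hh _ l hl
    have h2 : (w - X.wt l).natAbs ≤ ∑ l, (w - X.wt l).natAbs :=
      Finset.single_le_sum (f := fun l => (w - X.wt l).natAbs) (fun _ _ => Nat.zero_le _)
        (Finset.mem_univ l)
    omega
  classical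
  refine ⟨Nat.find ex, ?_, Nat.find_spec ex⟩
  have h1 := A1_seq_E hq hX hh hE (Nat.find ex)
  rw [Nat.find_spec ex, mulVec_zero] at h1
  have h2 : A1_seq X.F h (Nat.find ex) ≠ 0 := by
    rcases h3 : Nat.find ex with _ | k
    · exact h0
    · exact Nat.find_min ex (by omega)
  have h3 := (smul_eq_zero.1 h1.symm).resolve_right h2
  have h4 := (mul_eq_zero.1 h3).resolve_left (hq.2 _ (by omega))
  by_contra h5
  exact hq.2 _ (sub_ne_zero.2 h5) h4

/-- the transposed module -/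
def A1_dual (X : QD ι) : QD ι := ⟨X.wt, X.Fᵀ, X.Eᵀ⟩

theorem A1_dual_mod {q : ℂ} {X : QD ι} (hX : IsMod q X) : IsMod q (A1_dual X) where
  E_wt i j h := (hX.F_wt j i h).symm
  F_wt i j h := (hX.E_wt j i h).symm
  comm := by
    change X.Fᵀ * X.Eᵀ - X.Eᵀ * X.Fᵀ = Matrix.diagonal fun i => qi q (X.wt i)
    rw [← transpose_mul, ← transpose_mul, ← transpose_sub, hX.comm, diagonal_transpose]

theorem A1_sum_up {m : ℕ} (g : ℕ → ℂ) (hg : g (m + 1) = 0) (b : Fin (m + 1)) :
    ∑ a : Fin (m + 1), (if (a : ℕ) = b + 1 then g a else 0) = g (b + 1) := by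
  rw [Fin.sum_univ_eq_sum_range (fun a => if a = b + 1 then g a else 0), Finset.sum_ite_eq']
  split_ifs with h
  · rfl
  · have := b.2
    rw [Finset.mem_range] at h
    rw [show (b : ℕ) + 1 = m + 1 by omega, hg]

theorem A1_sum_down {m : ℕ} (g : ℕ → ℂ) {b : ℕ} (hb : b < m + 1) :
    ∑ a : Fin (m + 1), (if b + 1 = a + 1 then g a else 0) = g b := by
  simp only [add_left_inj]
  rw [Fin.sum_univ_eq_sum_range (fun a => if b = a then g a else 0), Finset.sum_ite_eq,
    if_pos (Finset.mem_range.2 hb)]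

omit [DecidableEq ι] in
theorem A1_mul_col {m : ℕ} (M : Matrix ι ι ℂ) (c : ℕ → ℂ) (u : ℕ → ι → ℂ) (l : ι)
    (b : Fin (m + 1)) :
    (M * Matrix.of fun l (k : Fin (m + 1)) => c k * u k l) l b = c b * (M *ᵥ u b) l := by
  simp only [mul_apply, of_apply, mulVec, dotProduct, Finset.mul_sum]
  exact Finset.sum_congr rfl fun _ _ => by ring

omit [DecidableEq ι] in
theorem A1_mul_row {m : ℕ} (M : Matrix ι ι ℂ) (c : ℕ → ℂ) (u : ℕ → ι → ℂ) (l : ι)
    (b : Fin (m + 1)) :
    ((Matrix.of fun (k : Fin (m + 1)) l => c k * u k l) * M) b l = c b * (Mᵀ *ᵥ u b) l := by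
  simp only [mul_apply, of_apply, mulVec, dotProduct, Finset.mul_sum, transpose_apply]
  exact Finset.sum_congr rfl fun _ _ => by ring

theorem A1_inc {q : ℂ} (hq : Gen q) {X : QD ι} (hX : IsMod q X) {m : ℕ} {h : ι → ℂ}
    (hh : A1_W X m h) (hE : X.E *ᵥ h = 0) (h0 : A1_seq X.F h (m + 1) = 0) :
    IsHom (irr q m) X (Matrix.of fun l (k : Fin (m + 1)) =>
      (∏ s ∈ range k, qi q ((s : ℤ) + 1))⁻¹ * A1_seq X.F h k l) where
  wt l k hk := A1_seq_wt hX hh k l (right_ne_zero_of_mul hk)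
  E := by
    ext l b
    rw [A1_mul_col X.E (fun k => (∏ s ∈ range k, qi q ((s : ℤ) + 1))⁻¹)]
    simp only [mul_apply, of_apply, irr, mul_ite, mul_zero]
    obtain ⟨_ | b, hb⟩ := b
    · simp [A1_seq, hE]
    · rw [A1_sum_down (fun a => (∏ s ∈ range a, qi q ((s : ℤ) + 1))⁻¹ * A1_seq X.F h a l *
        qi q ((m : ℤ) - a)) (by omega), A1_seq_E hq hX hh hE, Finset.prod_range_succ,
        Pi.smul_apply, smul_eq_mul]
      have := hq.2 ((b : ℤ) + 1) (by omega)
      field_simp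
  F := by
    ext l b
    rw [A1_mul_col X.F (fun k => (∏ s ∈ range k, qi q ((s : ℤ) + 1))⁻¹)]
    simp only [mul_apply, of_apply, irr, mul_ite, mul_zero]
    rw [A1_sum_up (fun a => (∏ s ∈ range a, qi q ((s : ℤ) + 1))⁻¹ * A1_seq X.F h a l *
      qi q (a : ℤ)) (by simp [h0]), Finset.prod_range_succ, A1_seq]
    have := hq.2 (((b : ℕ) : ℤ) + 1) (by omega)
    push_cast
    field_simp

theorem A1_prj {q : ℂ} (hq : Gen q) {X : QD ι} (hX : IsMod q X) {m : ℕ} {h : ι → ℂ}
    (hh : A1_W X m h) (hE : X.Fᵀ *ᵥ h = 0) (h0 : A1_seq X.Eᵀ h (m + 1) = 0) :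
    IsHom X (irr q m) (Matrix.of fun (k : Fin (m + 1)) l =>
      (∏ s ∈ range k, qi q ((m : ℤ) - s))⁻¹ * A1_seq X.Eᵀ h k l) where
  wt k l hk := (A1_seq_wt (A1_dual_mod hX) hh k l (right_ne_zero_of_mul hk)).symm
  E := by
    ext b l
    rw [A1_mul_row X.E (fun k => (∏ s ∈ range k, qi q ((m : ℤ) - s))⁻¹)]
    simp only [mul_apply, of_apply, irr, ite_mul, zero_mul]
    rw [A1_sum_up (fun a => qi q ((m : ℤ) - (b : ℕ)) * ((∏ s ∈ range a, qi q ((m : ℤ) - s))⁻¹ *
      A1_seq X.Eᵀ h a l)) (by simp [h0]), Finset.prod_range_succ]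
    change _ * A1_seq X.Eᵀ h (b + 1) l = _
    by_cases hb : (b : ℕ) = m
    · rw [hb, h0, Pi.zero_apply, mul_zero, mul_zero, mul_zero]
    · have := hq.2 ((m : ℤ) - (b : ℕ)) (by omega)
      field_simp
  F := by
    ext b l
    rw [A1_mul_row X.F (fun k => (∏ s ∈ range k, qi q ((m : ℤ) - s))⁻¹)]
    simp only [mul_apply, of_apply, irr, ite_mul, zero_mul]
    obtain ⟨_ | b, hb⟩ := b
    · simp [A1_seq, hE]
    · have h1 : X.Fᵀ *ᵥ A1_seq X.Eᵀ h (b + 1) =
          (qi q (b + 1) * qi q ((m : ℤ) - b)) • A1_seq X.Eᵀ h b :=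
        A1_seq_E hq (A1_dual_mod hX) hh hE b
      rw [A1_sum_down (fun a => qi q ((b + 1 : ℕ) : ℤ) *
        ((∏ s ∈ range a, qi q ((m : ℤ) - s))⁻¹ * A1_seq X.Eᵀ h a l)) (by omega), h1,
        Finset.prod_range_succ, Pi.smul_apply, smul_eq_mul]
      have := hq.2 ((m : ℤ) - b) (by omega)
      push_cast
      field_simp

theorem A1_schur {q : ℂ} (hq : Gen q) {m : ℕ} {T : Matrix (Fin (m + 1)) (Fin (m + 1)) ℂ}
    (hT : IsHom (irr q m) (irr q m) T) : T = T 0 0 • (1 : Matrix _ _ ℂ) := by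
  have off : ∀ a b, a ≠ b → T a b = 0 := fun a b hab => by
    by_contra h
    have := hT.wt a b h
    simp only [irr] at this
    exact hab (Fin.ext (by omega))
  have dg : ∀ a, T a a = T 0 0 := fun a => by
    induction a using Fin.induction with
    | zero => rfl
    | succ a ih =>
      have h1 := congrFun (congrFun hT.F a.succ) a.castSucc
      rw [mul_apply, mul_apply, Finset.sum_eq_single a.succ
        (fun b _ hb => by rw [off _ _ hb.symm, zero_mul]) (by simp),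
        Finset.sum_eq_single a.castSucc (fun b _ hb => by rw [off _ _ hb, mul_zero]) (by simp)] at h1
      have h2 : (irr q m).F a.succ a.castSucc ≠ 0 := by
        simp only [irr, of_apply, Fin.val_succ, Fin.val_castSucc, if_true]
        exact hq.2 _ (by omega)
      rw [← ih]
      rw [mul_comm] at h1
      exact mul_left_cancel₀ h2 h1
  ext a b
  by_cases hab : a = b
  · subst hab
    simp [dg a]
  · simp [off a b hab, hab]

/-- a nonzero idempotent endomorphism contains an irreducible summand -/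
theorem A1_split {q : ℂ} (hq : Gen q) {X : QD ι} (hX : IsMod q X) {P : Matrix ι ι ℂ}
    (hP : IsHom X X P) (h2 : P * P = P) (h0 : P ≠ 0) :
    ∃ (m : ℕ) (i : Matrix ι (Fin (m + 1)) ℂ) (p : Matrix (Fin (m + 1)) ι ℂ),
      IsHom (irr q m) X i ∧ IsHom X (irr q m) p ∧ p * i = 1 ∧ P * i = i ∧ p * P = p := by
  classical
  obtain ⟨⟨a, j⟩, haj, hmax⟩ := Finset.exists_max_image
    (Finset.univ.filter fun x : ι × ι => P x.1 x.2 ≠ 0) (fun x => X.wt x.2) (by
      by_contra hne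
      rw [Finset.not_nonempty_iff_eq_empty, Finset.filter_eq_empty_iff] at hne
      exact h0 (by
        ext a j
        simpa using hne (Finset.mem_univ (a, j))))
  have haj : P a j ≠ 0 := (Finset.mem_filter.1 haj).2
  have hmax : ∀ a' j', P a' j' ≠ 0 → X.wt j' ≤ X.wt j := fun a' j' h =>
    hmax (a', j') (Finset.mem_filter.2 ⟨Finset.mem_univ _, h⟩)
  have hc : A1_W X (X.wt j) fun l => P l j := fun l hl => hP.wt l j hl
  have hr : A1_W X (X.wt j) fun l => P a l := fun l hl =>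
    (hP.wt a l hl).symm.trans (hP.wt a j haj)
  have hcE : X.E *ᵥ (fun l => P l j) = 0 := by
    ext l
    change (X.E * P) l j = 0
    rw [← hP.E, mul_apply]
    refine Finset.sum_eq_zero fun x _ => ?_
    by_contra hx
    have h3 := hmax l x (left_ne_zero_of_mul hx)
    have h4 := hX.E_wt x j (right_ne_zero_of_mul hx)
    omega
  have hrF : X.Fᵀ *ᵥ (fun l => P a l) = 0 := by
    ext l
    rw [mulVec_transpose]
    change (P * X.F) a l = 0
    rw [hP.F, mul_apply]
    refine Finset.sum_eq_zero fun x _ => ?_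
    by_contra hx
    have h3 := hmax x l (right_ne_zero_of_mul hx)
    have h4 := hX.F_wt a x (left_ne_zero_of_mul hx)
    have h5 := hP.wt x l (right_ne_zero_of_mul hx)
    have h6 := hP.wt a j haj
    omega
  obtain ⟨m, hm, hend⟩ := A1_seq_end hq hX hc hcE fun h => haj (congrFun h a)
  obtain ⟨m', hm', hend'⟩ := A1_seq_end hq (A1_dual_mod hX) hr hrF fun h => haj (congrFun h j)
  obtain rfl : m' = m := by omega
  rw [hm] at hc hr
  have hi := A1_inc hq hX hc hcE hend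
  have hp := A1_prj hq hX hr hrF hend'
  have hs := A1_schur hq (hp.mul hi)
  have h00 : ∑ l, P a l * P l j = P a j := congrFun (congrFun h2 a) j
  rw [mul_apply] at hs
  simp only [of_apply, Fin.val_zero, range_zero, prod_empty, inv_one, one_mul, A1_seq, h00] at hs
  refine ⟨m', _, (P a j)⁻¹ • _, hi, hp.smul _, ?_, ?_, ?_⟩
  · rw [Matrix.smul_mul, hs, smul_smul, inv_mul_cancel₀ haj, one_smul]
  · ext l b
    rw [A1_mul_col P (fun k => (∏ s ∈ range k, qi q ((s : ℤ) + 1))⁻¹), A1_seq_fix hP.F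
      (funext fun l => congrFun (congrFun h2 l) j), of_apply]
  · rw [Matrix.smul_mul]
    congr 1
    ext b l
    rw [A1_mul_row P (fun k => (∏ s ∈ range k, qi q ((m' : ℤ) - s))⁻¹), A1_seq_fix, of_apply]
    · rw [← transpose_mul, ← transpose_mul, hP.E]
    · ext l
      rw [mulVec_transpose]
      exact congrFun (congrFun h2 a) l

theorem A1_ind {q : ℂ} (hq : Gen q) {X : QD ι} (hX : IsMod q X) (r : ℕ) :
    ∀ P : Matrix ι ι ℂ, IsHom X X P → P * P = P → P.rank < r →
      ∃ (β : Type) (_ : Fintype β) (m : β → ℕ) (i : ∀ b, Matrix ι (Fin (m b + 1)) ℂ)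
        (p : ∀ b, Matrix (Fin (m b + 1)) ι ℂ),
        (∀ b, IsHom (irr q (m b)) X (i b)) ∧ (∀ b, IsHom X (irr q (m b)) (p b)) ∧
        (∀ b, p b * i b = 1) ∧ (∀ b b', b ≠ b' → p b * i b' = 0) ∧ ∑ b, i b * p b = P ∧
        (∀ b, P * i b = i b) ∧ ∀ b, p b * P = p b := by
  induction r with
  | zero => intro P _ _ h; omega
  | succ r ih =>
    intro P hP h2 hr
    by_cases h0 : P = 0
    · exact ⟨Empty, inferInstance, fun b => b.elim, fun b => b.elim, fun b => b.elim,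
        fun b => b.elim, fun b => b.elim, fun b => b.elim, fun b => b.elim, by simp [h0],
        fun b => b.elim, fun b => b.elim⟩
    obtain ⟨m₀, i₀, p₀, hi, hp, hpi, hPi, hpP⟩ := A1_split hq hX hP h2 h0
    have e1 : (P - i₀ * p₀) * i₀ = 0 := by
      rw [Matrix.sub_mul, hPi, Matrix.mul_assoc, hpi, Matrix.mul_one, sub_self]
    have e2 : p₀ * (P - i₀ * p₀) = 0 := by
      rw [Matrix.mul_sub, hpP, ← Matrix.mul_assoc, hpi, Matrix.one_mul, sub_self]
    have e3 : P * (P - i₀ * p₀) = P - i₀ * p₀ := by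
      rw [Matrix.mul_sub, h2, ← Matrix.mul_assoc, hPi]
    have e4 : (P - i₀ * p₀) * P = P - i₀ * p₀ := by
      rw [Matrix.sub_mul, h2, Matrix.mul_assoc, hpP]
    have e5 : (P - i₀ * p₀) * (P - i₀ * p₀) = P - i₀ * p₀ := by
      rw [Matrix.mul_sub (P - i₀ * p₀), e4, ← Matrix.mul_assoc, e1, Matrix.zero_mul, sub_zero]
    have hlt : (P - i₀ * p₀).rank < P.rank := by
      refine Submodule.finrank_lt_finrank_of_lt (lt_of_le_of_ne ?_ fun h => ?_)
      · rintro _ ⟨v, rfl⟩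
        exact ⟨(P - i₀ * p₀) *ᵥ v, by simp only [mulVecLin_apply, mulVec_mulVec, e3]⟩
      · have h3 : i₀ *ᵥ (fun _ => 1) ∈ LinearMap.range P.mulVecLin :=
          ⟨i₀ *ᵥ (fun _ => 1), by simp only [mulVecLin_apply, mulVec_mulVec, hPi]⟩
        rw [← h] at h3
        obtain ⟨v, hv⟩ := h3
        have h4 := congrArg (p₀ *ᵥ ·) hv
        simp only [mulVecLin_apply, mulVec_mulVec, e2, hpi, zero_mulVec, one_mulVec] at h4
        exact zero_ne_one (congrFun h4 0)
    obtain ⟨β, _, m, i, p, g1, g2, g3, g4, g5, g6, g7⟩ :=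
      ih (P - i₀ * p₀) (hP.sub (hi.mul hp)) e5 (by omega)
    refine ⟨Option β, inferInstance, fun b => Option.rec m₀ m b,
      fun b => Option.rec (motive := fun b => Matrix ι (Fin ((Option.rec m₀ m b : ℕ) + 1)) ℂ) i₀ i b,
      fun b => Option.rec (motive := fun b => Matrix (Fin ((Option.rec m₀ m b : ℕ) + 1)) ι ℂ) p₀ p b,
      ?_, ?_, ?_, ?_, ?_, ?_, ?_⟩
    · rintro (_ | b)
      exacts [hi, g1 b]
    · rintro (_ | b)
      exacts [hp, g2 b]
    · rintro (_ | b)
      exacts [hpi, g3 b]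
    · rintro (_ | b) (_ | b') h
      · exact absurd rfl h
      · change p₀ * i b' = 0
        rw [← g6 b', ← Matrix.mul_assoc, e2, Matrix.zero_mul]
      · change p b * i₀ = 0
        rw [← g7 b, Matrix.mul_assoc, e1, Matrix.mul_zero]
      · exact g4 b b' fun e => h (congrArg some e)
    · rw [Fintype.sum_option]
      change i₀ * p₀ + ∑ b, i b * p b = P
      rw [g5, add_sub_cancel]
    · rintro (_ | b)
      · exact hPi
      · change P * i b = i b
        rw [← g6 b, ← Matrix.mul_assoc, e3]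
    · rintro (_ | b)
      · exact hpP
      · change p b * P = p b
        rw [← g7 b, Matrix.mul_assoc, e4]

theorem decomp {q : ℂ} (hq : Gen q) {X : QD ι} (hX : IsMod q X) :
    ∃ (n : ℕ) (m : Fin n → ℕ) (i : ∀ b, Matrix ι (Fin (m b + 1)) ℂ)
      (p : ∀ b, Matrix (Fin (m b + 1)) ι ℂ),
      (∀ b, IsHom (irr q (m b)) X (i b)) ∧ (∀ b, IsHom X (irr q (m b)) (p b)) ∧
      (∀ b, p b * i b = 1) ∧ (∀ b b', b ≠ b' → p b * i b' = 0) ∧ ∑ b, i b * p b = 1 := by
  obtain ⟨β, _, m, i, p, g1, g2, g3, g4, g5, -⟩ :=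
    A1_ind hq hX _ 1 (IsHom.id X) (Matrix.mul_one 1) (Nat.lt_succ_self _)
  let e := (Fintype.equivFin β).symm
  exact ⟨_, fun b => m (e b), fun b => i (e b), fun b => p (e b), fun b => g1 _, fun b => g2 _,
    fun b => g3 _, fun b b' h => g4 _ _ (e.injective.ne h),
    (e.sum_comp fun b => i b * p b).trans g5⟩

end Pool.Agent.Work.MP_c404d3_gt
end

-- merged part: Pool.Agent.Work.MP_c404d3_gt.A2
section
/-!
A2: Schur lemma, homs out of irr, uniqueness and naturality of braidings.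
Plan. hom_irr_ext: column k+1 of T is F * (column k) / [k+1] (from T * F = F * T).
schur: column 0 of T has weight m so it is T 0 0 times e_0; use hom_irr_ext with (T 0 0) • 1.
schur_ne: column 0 has weight m and is killed by E, so it vanishes (E is injective on the
coordinates b ≥ 1 of irr m', and coordinate 0 has weight m').
zero_of_raise (Lemma Z): a raises weights by k > 0 and a F = l • F a with l ≠ 0. Using decomp
for Y and Y', reduce to Y = irr m, Y' = irr m' (p * a * i satisfies the same hypotheses).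
F^(m+1) = 0 on irr m, so F^(m+1) (a e_0) = 0, where a e_0 is a multiple of the basis vector of
weight m+k, on which F^(m+1) is injective (index j = (m'-m-k)/2, j+m+1 ≤ m'). So a e_0 = 0 and
then all columns vanish. zero_of_lower is the mirror statement (apply zero_of_raise to the data
(-wt, F, E), which is a module, or repeat the argument).
braid_nat: φ = c' * (S ⊗ T) - (T ⊗ S) * c is a hom X ⊗ Y → Y' ⊗ X', and φ o p ≠ 0 implies
sg ε * X'.wt o.2 < sg ε * X.wt p.1 (the leading parts agree because S, T preserve weights).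
If φ ≠ 0 take the minimal positive shift k = sg ε * (X.wt p.1 - X'.wt o.2) over nonzero entries,
fix x, x' realising it and let a y' y = φ (y', x') (x, y). For ε = true (x lowered, y raised by k)
the (y',x'),(x,y) entries of φ * ΔF = ΔF * φ give a * F_Y = q^(-wt x') • F_Y' * a (the other two
terms have shift k - 2 and vanish by minimality); for ε = false use ΔE:
q^(wt x) • a * E_Y = E_Y' * a.
-/

namespace Pool.Agent.Work.MP_c404d3_gt

open scoped BigOperators Real Kronecker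
open Matrix Finset

variable {ι κ ι' κ' : Type} [Fintype ι] [DecidableEq ι] [Fintype κ] [DecidableEq κ]
  [Fintype ι'] [DecidableEq ι'] [Fintype κ'] [DecidableEq κ']

omit [DecidableEq ι] [Fintype ι] in
theorem A2_mul_irrF (q : ℂ) {m : ℕ} (T : Matrix ι (Fin (m + 1)) ℂ) (a : ι) (b c : Fin (m + 1))
    (h : (c : ℕ) = b + 1) : (T * (irr q m).F) a b = T a c * qi q ((c : ℕ) : ℤ) := by
  rw [Matrix.mul_apply, Finset.sum_eq_single c]
  · simp [irr, h]
  · intro d _ hd
    have : (d : ℕ) ≠ b + 1 := fun e => hd (Fin.ext (by omega))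
    simp [irr, this]
  · simp

omit [DecidableEq ι] [Fintype ι] in
theorem A2_mul_irrF_top (q : ℂ) {m : ℕ} (T : Matrix ι (Fin (m + 1)) ℂ) (a : ι) (b : Fin (m + 1))
    (h : (b : ℕ) = m) : (T * (irr q m).F) a b = 0 := by
  rw [Matrix.mul_apply]
  refine Finset.sum_eq_zero fun d _ => ?_
  have : (d : ℕ) ≠ b + 1 := by have := d.2; omega
  simp [irr, this]

omit [DecidableEq ι] [Fintype ι] in
theorem A2_irrF_mul (q : ℂ) {m : ℕ} (T : Matrix (Fin (m + 1)) ι ℂ) (a c : Fin (m + 1)) (b : ι)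
    (h : (a : ℕ) = c + 1) : ((irr q m).F * T) a b = qi q ((a : ℕ) : ℤ) * T c b := by
  rw [Matrix.mul_apply, Finset.sum_eq_single c]
  · simp [irr, h]
  · intro d _ hd
    have : (a : ℕ) ≠ d + 1 := fun e => hd (Fin.ext (by omega))
    simp [irr, this]
  · simp

omit [DecidableEq ι] [Fintype ι] in
theorem A2_irrE_mul (q : ℂ) {m : ℕ} (T : Matrix (Fin (m + 1)) ι ℂ) (a c : Fin (m + 1)) (b : ι)
    (h : (c : ℕ) = a + 1) : ((irr q m).E * T) a b = qi q ((m : ℤ) - (a : ℕ)) * T c b := by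
  rw [Matrix.mul_apply, Finset.sum_eq_single c]
  · simp [irr, h]
  · intro d _ hd
    have : (d : ℕ) ≠ a + 1 := fun e => hd (Fin.ext (by omega))
    simp [irr, this]
  · simp

omit [DecidableEq ι] [Fintype ι] in
theorem A2_mul_irrE_zero (q : ℂ) {m : ℕ} (T : Matrix ι (Fin (m + 1)) ℂ) (a : ι) :
    (T * (irr q m).E) a 0 = 0 := by
  rw [Matrix.mul_apply]
  refine Finset.sum_eq_zero fun d _ => ?_
  simp [irr]

omit [DecidableEq ι] in
/-- a matrix intertwining the lowering operators is determined by its first column -/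
theorem A2_zero_of_col {q : ℂ} (hq : Gen q) {m : ℕ} {G : Matrix ι ι ℂ}
    {D : Matrix ι (Fin (m + 1)) ℂ} {l : ℂ} (hF : D * (irr q m).F = l • (G * D))
    (h0 : ∀ a, D a 0 = 0) : D = 0 := by
  have key : ∀ b : Fin (m + 1), ∀ a, D a b = 0 := by
    intro b
    induction b using Fin.induction with
    | zero => exact h0
    | succ b ih =>
      intro a
      have e := congrFun (congrFun hF a) b.castSucc
      rw [A2_mul_irrF q D a b.castSucc b.succ (by simp)] at e
      have e2 : (G * D) a b.castSucc = 0 := by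
        rw [Matrix.mul_apply]
        exact Finset.sum_eq_zero fun d _ => by rw [ih d, mul_zero]
      rw [Matrix.smul_apply, e2, smul_zero] at e
      refine (mul_eq_zero.1 e).resolve_right (hq.2 _ ?_)
      simp only [Fin.val_succ]
      omega
  ext a b
  exact key b a

theorem hom_irr_ext {q : ℂ} (hq : Gen q) {m : ℕ} {X : QD ι} {S T : Matrix ι (Fin (m + 1)) ℂ}
    (hS : IsHom (irr q m) X S) (hT : IsHom (irr q m) X T) (h : ∀ a, S a 0 = T a 0) : S = T := by
  have hD := hS.sub hT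
  have : S - T = 0 :=
    A2_zero_of_col hq (l := 1) (G := X.F) (by rw [one_smul]; exact hD.F) fun a => by
      rw [Matrix.sub_apply, h a, sub_self]
  exact sub_eq_zero.1 this

theorem schur {q : ℂ} (hq : Gen q) {m : ℕ} {T : Matrix (Fin (m + 1)) (Fin (m + 1)) ℂ}
    (hT : IsHom (irr q m) (irr q m) T) : T = T 0 0 • (1 : Matrix (Fin (m + 1)) (Fin (m + 1)) ℂ) := by
  refine hom_irr_ext hq hT ((IsHom.id _).smul _) fun a => ?_
  by_cases ha : a = 0
  · subst ha
    simp
  · rw [Matrix.smul_apply, Matrix.one_apply_ne ha, smul_zero]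
    by_contra hne
    have := hT.wt a 0 hne
    simp only [irr, Fin.val_zero] at this
    exact ha (Fin.ext (by simp only [Fin.val_zero]; omega))

theorem schur_ne {q : ℂ} (hq : Gen q) {m m' : ℕ} (h : m ≠ m')
    {T : Matrix (Fin (m' + 1)) (Fin (m + 1)) ℂ} (hT : IsHom (irr q m) (irr q m') T) : T = 0 := by
  refine hom_irr_ext hq hT (IsHom.zero _ _) fun a => ?_
  rw [Matrix.zero_apply]
  induction a using Fin.cases with
  | zero =>
    by_contra hne
    have := hT.wt 0 0 hne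
    simp only [irr, Fin.val_zero] at this
    omega
  | succ a =>
    have e := congrFun (congrFun hT.E a.castSucc) 0
    rw [A2_mul_irrE_zero, A2_irrE_mul q T a.castSucc a.succ 0 (by simp)] at e
    refine (mul_eq_zero.1 e.symm).resolve_left (hq.2 _ ?_)
    have := a.2
    simp only [Fin.val_castSucc]
    omega

theorem A2_zero_irr {q : ℂ} (hq : Gen q) {m m' : ℕ} {a : Matrix (Fin (m' + 1)) (Fin (m + 1)) ℂ}
    {k : ℤ} (hk : 0 < k) {l : ℂ} (hl : l ≠ 0)
    (hw : ∀ y' y, a y' y ≠ 0 → (irr q m').wt y' = (irr q m).wt y + k)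
    (hF : a * (irr q m).F = l • ((irr q m').F * a)) : a = 0 := by
  refine A2_zero_of_col hq hF fun j => ?_
  by_contra hj
  have hwj := hw j 0 hj
  simp only [irr, Fin.val_zero] at hwj
  have hb : (j : ℕ) + m + 1 ≤ m' := by omega
  have step : ∀ (u v : Fin (m' + 1)) (y : Fin (m + 1)), (v : ℕ) = u + 1 → a u y ≠ 0 →
      (a * (irr q m).F) v y ≠ 0 := by
    intro u v y huv hu
    rw [hF, Matrix.smul_apply, A2_irrF_mul q a v u y huv, smul_eq_mul]
    exact mul_ne_zero hl (mul_ne_zero (hq.2 _ (by omega)) hu)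
  have key : ∀ (s : ℕ) (hs : s ≤ m), a ⟨j + s, by omega⟩ ⟨s, by omega⟩ ≠ 0 := by
    intro s
    induction s with
    | zero => intro _; exact hj
    | succ s ih =>
      intro hs
      have e := step _ ⟨j + (s + 1), by omega⟩ _ (by simp only []; omega) (ih (by omega))
      rw [A2_mul_irrF q a _ _ ⟨s + 1, by omega⟩ rfl] at e
      exact left_ne_zero_of_mul e
  exact step _ ⟨j + m + 1, by omega⟩ _ rfl (key m le_rfl) (A2_mul_irrF_top q a _ _ rfl)

omit [DecidableEq κ] [Fintype ι] [DecidableEq ι] [Fintype ι'] [DecidableEq ι'] in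
theorem A2_exists_of_mul {S : Matrix ι κ ℂ} {T : Matrix κ ι' ℂ} {a : ι} {b : ι'}
    (h : (S * T) a b ≠ 0) : ∃ c, S a c ≠ 0 ∧ T c b ≠ 0 := by
  rw [Matrix.mul_apply] at h
  obtain ⟨c, _, hc⟩ := Finset.exists_ne_zero_of_sum_ne_zero h
  exact ⟨c, left_ne_zero_of_mul hc, right_ne_zero_of_mul hc⟩

theorem zero_of_raise {q : ℂ} (hq : Gen q) {Y : QD κ} {Y' : QD κ'} (hY : IsMod q Y)
    (hY' : IsMod q Y') {a : Matrix κ' κ ℂ} {k : ℤ} (hk : 0 < k) {l : ℂ} (hl : l ≠ 0)
    (hw : ∀ y' y, a y' y ≠ 0 → Y'.wt y' = Y.wt y + k) (hF : a * Y.F = l • (Y'.F * a)) :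
    a = 0 := by
  obtain ⟨n, m, i, p, hi, -, -, -, hs⟩ := decomp hq hY
  obtain ⟨n', m', i', p', -, hp', -, -, hs'⟩ := decomp hq hY'
  have key : ∀ b' b, p' b' * a * i b = 0 := by
    intro b' b
    refine A2_zero_irr hq hk hl (fun y' y h => ?_) ?_
    · obtain ⟨v, h1, h2⟩ := A2_exists_of_mul h
      obtain ⟨u, h3, h4⟩ := A2_exists_of_mul h1
      rw [(hp' b').wt _ _ h3, hw _ _ h4, (hi b).wt _ _ h2]
    · rw [Matrix.mul_assoc, (hi b).F, ← Matrix.mul_assoc, Matrix.mul_assoc (p' b'), hF,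
        Matrix.mul_smul, Matrix.smul_mul, ← Matrix.mul_assoc, (hp' b').F]
      simp only [Matrix.mul_assoc]
  calc a = (∑ b', i' b' * p' b') * a * ∑ b, i b * p b := by
        rw [hs, hs', Matrix.one_mul, Matrix.mul_one]
    _ = ∑ b', ∑ b, i' b' * (p' b' * a * i b) * p b := by
        simp only [Matrix.sum_mul, Matrix.mul_sum, Matrix.mul_assoc]
        exact Finset.sum_comm
    _ = 0 := by simp [key]

theorem A2_qi_neg (q : ℂ) (n : ℤ) : qi q (-n) = -qi q n := by
  simp only [qi, neg_neg]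
  ring

/-- the data with the weights negated and the two operators exchanged -/
def A2flip (X : QD ι) : QD ι := ⟨fun i => -X.wt i, X.F, X.E⟩

theorem A2_isMod_flip {q : ℂ} {X : QD ι} (hX : IsMod q X) : IsMod q (A2flip X) := by
  refine ⟨fun i j h => ?_, fun i j h => ?_, ?_⟩
  · have := hX.F_wt i j h
    simp only [A2flip]
    omega
  · have := hX.E_wt i j h
    simp only [A2flip]
    omega
  · simp only [A2flip, A2_qi_neg]
    rw [← Matrix.diagonal_neg, ← hX.comm, neg_sub]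

theorem zero_of_lower {q : ℂ} (hq : Gen q) {Y : QD κ} {Y' : QD κ'} (hY : IsMod q Y)
    (hY' : IsMod q Y') {a : Matrix κ' κ ℂ} {k : ℤ} (hk : 0 < k) {l : ℂ} (hl : l ≠ 0)
    (hw : ∀ y' y, a y' y ≠ 0 → Y'.wt y' + k = Y.wt y) (hE : a * Y.E = l • (Y'.E * a)) :
    a = 0 :=
  zero_of_raise hq (A2_isMod_flip hY) (A2_isMod_flip hY') hk hl
    (fun y' y h => by have := hw y' y h; simp only [A2flip]; omega) hE

theorem A2_zero_of_strict {q : ℂ} (hq : Gen q) {ε : Bool} {X : QD ι} {Y : QD κ} {X' : QD ι'}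
    {Y' : QD κ'} (hX : IsMod q X) (hY : IsMod q Y) (hX' : IsMod q X') (hY' : IsMod q Y')
    {φ : Matrix (κ' × ι') (ι × κ) ℂ} (hφ : IsHom (tensor q X Y) (tensor q Y' X') φ)
    (hs : ∀ o p, φ o p ≠ 0 → sg ε * X'.wt o.2 < sg ε * X.wt p.1) : φ = 0 := by
  have key : ∀ k : ℕ, ∀ o p, sg ε * X.wt p.1 - sg ε * X'.wt o.2 ≤ k → φ o p = 0 := by
    intro k
    induction k with
    | zero =>
      intro o p h
      by_contra hne
      have := hs o p hne
      omega
    | succ k ih =>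
      rintro ⟨y', x'⟩ ⟨x, y⟩ h
      by_cases hlt : sg ε * X.wt x - sg ε * X'.wt x' ≤ k
      · exact ih _ _ hlt
      have hk : sg ε * X.wt x - sg ε * X'.wt x' = (k : ℤ) + 1 := by
        simp only [] at h
        push_cast at h
        omega
      let a : Matrix κ' κ ℂ := Matrix.of fun u v => φ (u, x') (x, v)
      suffices ha : a = 0 from congrFun (congrFun ha y') y
      have hwt : ∀ u v, a u v ≠ 0 → Y'.wt u + X'.wt x' = X.wt x + Y.wt v := fun u v h =>
        hφ.wt (u, x') (x, v) h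
      cases ε with
      | true =>
        simp only [sg, if_true, one_mul] at hk ih
        refine zero_of_raise hq hY hY' (k := (k : ℤ) + 1) (by omega) (l := q ^ (-X'.wt x'))
          (zpow_ne_zero _ hq.1) (fun u v h => by have := hwt u v h; omega) ?_
        ext u v
        have e := congrFun (congrFun hφ.F (u, x')) (x, v)
        simp only [tensor, Matrix.mul_add, Matrix.add_mul, Matrix.add_apply] at e
        have e1 : (φ * X.F ⊗ₖ Km q Y) (u, x') (x, v) = 0 := by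
          rw [Matrix.mul_apply]
          refine Finset.sum_eq_zero fun w _ => ?_
          by_cases hw : X.F w.1 x = 0
          · simp [Matrix.kroneckerMap_apply, hw]
          · have := hX.F_wt _ _ hw
            rw [ih (u, x') w (by simp only []; omega), zero_mul]
        have e2 : (((1 : Matrix κ' κ' ℂ) ⊗ₖ X'.F) * φ) (u, x') (x, v) = 0 := by
          rw [Matrix.mul_apply]
          refine Finset.sum_eq_zero fun w _ => ?_
          by_cases hw : X'.F x' w.2 = 0
          · simp [Matrix.kroneckerMap_apply, hw]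
          · have := hX'.F_wt _ _ hw
            rw [ih w (x, v) (by simp only []; omega), mul_zero]
        have e3 : (φ * (1 : Matrix ι ι ℂ) ⊗ₖ Y.F) (u, x') (x, v) = (a * Y.F) u v := by
          simp [Matrix.mul_apply, Fintype.sum_prod_type, Matrix.kroneckerMap_apply,
            Matrix.one_apply, a]
        have e4 : ((Y'.F ⊗ₖ Km q X') * φ) (u, x') (x, v) = q ^ (-X'.wt x') * (Y'.F * a) u v := by
          simp [Matrix.mul_apply, Fintype.sum_prod_type, Matrix.kroneckerMap_apply, Km,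
            Matrix.diagonal_apply, a, Finset.mul_sum, mul_assoc, mul_left_comm]
        rw [e1, e2, e3, e4, zero_add, add_zero] at e
        rw [e, Matrix.smul_apply, smul_eq_mul]
      | false =>
        simp only [sg, Bool.false_eq_true, if_false, neg_one_mul] at hk ih
        refine zero_of_lower hq hY hY' (k := (k : ℤ) + 1) (by omega) (l := (q ^ X.wt x)⁻¹)
          (inv_ne_zero (zpow_ne_zero _ hq.1)) (fun u v h => by have := hwt u v h; omega) ?_
        ext u v
        have e := congrFun (congrFun hφ.E (u, x')) (x, v)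
        simp only [tensor, Matrix.mul_add, Matrix.add_mul, Matrix.add_apply] at e
        have e1 : (φ * X.E ⊗ₖ (1 : Matrix κ κ ℂ)) (u, x') (x, v) = 0 := by
          rw [Matrix.mul_apply]
          refine Finset.sum_eq_zero fun w _ => ?_
          by_cases hw : X.E w.1 x = 0
          · simp [Matrix.kroneckerMap_apply, hw]
          · have := hX.E_wt _ _ hw
            rw [ih (u, x') w (by simp only []; omega), zero_mul]
        have e2 : ((Kp q Y' ⊗ₖ X'.E) * φ) (u, x') (x, v) = 0 := by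
          rw [Matrix.mul_apply]
          refine Finset.sum_eq_zero fun w _ => ?_
          by_cases hw : X'.E x' w.2 = 0
          · simp [Matrix.kroneckerMap_apply, hw]
          · have := hX'.E_wt _ _ hw
            rw [ih w (x, v) (by simp only []; omega), mul_zero]
        have e3 : (φ * Kp q X ⊗ₖ Y.E) (u, x') (x, v) = q ^ X.wt x * (a * Y.E) u v := by
          simp [Matrix.mul_apply, Fintype.sum_prod_type, Matrix.kroneckerMap_apply, Kp,
            Matrix.diagonal_apply, a, Finset.mul_sum, mul_left_comm]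
        have e4 : ((Y'.E ⊗ₖ (1 : Matrix ι' ι' ℂ)) * φ) (u, x') (x, v) = (Y'.E * a) u v := by
          simp [Matrix.mul_apply, Fintype.sum_prod_type, Matrix.kroneckerMap_apply,
            Matrix.one_apply, a]
        rw [e1, e2, e3, e4, zero_add, add_zero] at e
        rw [Matrix.smul_apply, ← e, smul_eq_mul, ← mul_assoc,
          inv_mul_cancel₀ (zpow_ne_zero _ hq.1), one_mul]
  ext o p
  exact key (sg ε * X.wt p.1 - sg ε * X'.wt o.2).toNat o p (Int.self_le_toNat _)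

theorem braid_nat {A : ℂ} (hq : Gen (A ^ 2)) {ε : Bool} {X : QD ι} {Y : QD κ} {X' : QD ι'}
    {Y' : QD κ'} (hX : IsMod (A ^ 2) X) (hY : IsMod (A ^ 2) Y) (hX' : IsMod (A ^ 2) X')
    (hY' : IsMod (A ^ 2) Y') {c : Matrix (κ × ι) (ι × κ) ℂ} {c' : Matrix (κ' × ι') (ι' × κ') ℂ}
    (hc : IsBraid A ε X Y c) (hc' : IsBraid A ε X' Y' c') {S : Matrix ι' ι ℂ} {T : Matrix κ' κ ℂ}
    (hS : IsHom X X' S) (hT : IsHom Y Y' T) : c' * (S ⊗ₖ T) = (T ⊗ₖ S) * c := by
  have hφ : IsHom (tensor (A ^ 2) X Y) (tensor (A ^ 2) Y' X')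
      (c' * (S ⊗ₖ T) - (T ⊗ₖ S) * c) :=
    (hc'.hom.mul (hS.kron _ hT)).sub ((hT.kron _ hS).mul hc.hom)
  refine sub_eq_zero.1 (A2_zero_of_strict (ε := ε) hq hX hY hX' hY' hφ ?_)
  rintro ⟨y', x'⟩ ⟨x, y⟩ hne
  simp only []
  have hle : sg ε * X'.wt x' ≤ sg ε * X.wt x := by
    rw [Matrix.sub_apply] at hne
    by_cases h1 : (c' * S ⊗ₖ T) (y', x') (x, y) = 0
    · have h2 : ((T ⊗ₖ S) * c) (y', x') (x, y) ≠ 0 := fun h2 => hne (by rw [h1, h2, sub_zero])
      obtain ⟨v, h3, h4⟩ := A2_exists_of_mul h2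
      have h5 := hc.tri _ _ h4
      have h6 := hS.wt _ _ (right_ne_zero_of_mul h3)
      simp only [] at h5 h6
      rw [h6]
      exact h5
    · obtain ⟨u, h3, h4⟩ := A2_exists_of_mul h1
      have h5 := hc'.tri _ _ h3
      have h6 := hS.wt _ _ (left_ne_zero_of_mul h4)
      simp only [] at h5 h6
      rw [← h6]
      exact h5
  refine lt_of_le_of_ne hle fun heq => hne ?_
  have hx : X'.wt x' = X.wt x := by
    cases ε <;> simp only [sg, Bool.false_eq_true, if_false, if_true] at heq <;> omega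
  have e1 : (c' * S ⊗ₖ T) (y', x') (x, y) =
      A ^ (sg ε * (X'.wt x' * Y'.wt y')) * (S x' x * T y' y) := by
    rw [Matrix.mul_apply, Finset.sum_eq_single (x', y')]
    · rw [hc'.lead (y', x') (x', y') rfl]
      simp [Matrix.kroneckerMap_apply]
    · intro u _ hu
      by_cases hS0 : S u.1 x = 0
      · simp [Matrix.kroneckerMap_apply, hS0]
      · rw [hc'.lead (y', x') u (hx.trans (hS.wt _ _ hS0).symm), if_neg, zero_mul]
        rintro ⟨h1, h2⟩
        exact hu (Prod.ext h1.symm h2.symm)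
    · simp
  have e2 : ((T ⊗ₖ S) * c) (y', x') (x, y) =
      T y' y * S x' x * A ^ (sg ε * (X.wt x * Y.wt y)) := by
    rw [Matrix.mul_apply, Finset.sum_eq_single (y, x)]
    · rw [hc.lead (y, x) (x, y) rfl]
      simp [Matrix.kroneckerMap_apply]
    · intro v _ hv
      by_cases hS0 : S x' v.2 = 0
      · simp [Matrix.kroneckerMap_apply, hS0]
      · rw [hc.lead v (x, y) ((hS.wt _ _ hS0).symm.trans hx), if_neg, mul_zero]
        rintro ⟨h1, h2⟩
        exact hv (Prod.ext h2 h1)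
    · simp
  rw [Matrix.sub_apply, e1, e2]
  by_cases hT0 : T y' y = 0
  · simp [hT0]
  · rw [hx, hT.wt _ _ hT0]
    ring

end Pool.Agent.Work.MP_c404d3_gt
end

-- merged part: Pool.Agent.Work.MP_c404d3_gt.A3
section
/-!
A3: tensor powers.
Plan. pow_app_E, pow_app_F: entrywise with app_apply; split the sum over k : Fin M into k < a and
k ≥ a (subst h, Fin.sum_univ_add). isMod_pow: induction on M; pow (M+1) is the transport along
app (1 + M = M + 1) of tensor (pow 1) (pow M), and pow 1 is W transported along funUnique.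
isHom_app: transport of homs along the equivalences (submatrix_mul_equiv).
isHom_gen: write N = i + (2 + rest); gen is the transport of 1 ⊗ (c ⊗ 1) (gen_app lemmas), or
induct on the position. isHom_tens: entrywise, or induction with app. rho_app_left/right: the
generator case entrywise, then induction on the word (submatrix_mul_equiv, mul_kronecker_mul).
-/

namespace Pool.Agent.Work.MP_c404d3_gt

open scoped BigOperators Real Kronecker
open Matrix Finset

variable {ι κ ι' κ' : Type} [Fintype ι] [DecidableEq ι] [Fintype κ] [DecidableEq κ]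
  [Fintype ι'] [DecidableEq ι'] [Fintype κ'] [DecidableEq κ']

/-- transport of module data along an equivalence of bases -/
structure A3Iso (X : QD ι) (Y : QD κ) (e : ι ≃ κ) : Prop where
  wt : ∀ p, Y.wt (e p) = X.wt p
  E : Y.E.submatrix e e = X.E
  F : Y.F.submatrix e e = X.F

theorem A3Iso.refl (X : QD ι) : A3Iso X X (Equiv.refl ι) :=
  ⟨fun _ => rfl, rfl, rfl⟩

theorem A3Iso.trans {X : QD ι} {Y : QD κ} {Z : QD ι'} {e : ι ≃ κ} {f : κ ≃ ι'}
    (h : A3Iso X Y e) (h' : A3Iso Y Z f) : A3Iso X Z (e.trans f) :=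
  ⟨fun p => (h'.wt (e p)).trans (h.wt p), by rw [← h.E, ← h'.E]; rfl, by rw [← h.F, ← h'.F]; rfl⟩

theorem A3_sub_inj {e : ι ≃ κ} {e' : ι' ≃ κ'} {S T : Matrix κ κ' ℂ}
    (h : S.submatrix e e' = T.submatrix e e') : S = T := by
  ext a b
  obtain ⟨a, rfl⟩ := e.surjective a
  obtain ⟨b, rfl⟩ := e'.surjective b
  exact congrFun (congrFun h a) b

theorem A3Iso.isMod {q : ℂ} {X : QD ι} {Y : QD κ} {e : ι ≃ κ} (h : A3Iso X Y e)
    (hX : IsMod q X) : IsMod q Y := by
  refine ⟨fun i j hij => ?_, fun i j hij => ?_, A3_sub_inj (e := e) (e' := e) ?_⟩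
  · obtain ⟨i, rfl⟩ := e.surjective i
    obtain ⟨j, rfl⟩ := e.surjective j
    rw [h.wt, h.wt]
    exact hX.E_wt i j (by rw [← h.E]; exact hij)
  · obtain ⟨i, rfl⟩ := e.surjective i
    obtain ⟨j, rfl⟩ := e.surjective j
    rw [h.wt, h.wt]
    exact hX.F_wt i j (by rw [← h.F]; exact hij)
  · have h1 : (Y.E * Y.F - Y.F * Y.E).submatrix e e =
        (Y.E * Y.F).submatrix e e - (Y.F * Y.E).submatrix e e := rfl
    rw [h1, ← submatrix_mul_equiv _ _ _ e, ← submatrix_mul_equiv _ _ _ e, h.E, h.F, hX.comm,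
      submatrix_diagonal_equiv]
    exact congrArg _ (funext fun i => by rw [Function.comp_apply, h.wt])

theorem A3Iso.isHom_iff {X : QD ι} {Y : QD κ} {e : ι ≃ κ} (h : A3Iso X Y e)
    {X' : QD ι'} {Y' : QD κ'} {e' : ι' ≃ κ'} (h' : A3Iso X' Y' e') (T : Matrix κ' κ ℂ) :
    IsHom Y Y' T ↔ IsHom X X' (T.submatrix e' e) := by
  constructor
  · intro hT
    refine ⟨fun a b hab => ?_, ?_, ?_⟩
    · rw [← h.wt, ← h'.wt]
      exact hT.wt _ _ hab
    · rw [← h.E, ← h'.E, submatrix_mul_equiv, submatrix_mul_equiv, hT.E]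
    · rw [← h.F, ← h'.F, submatrix_mul_equiv, submatrix_mul_equiv, hT.F]
  · intro hT
    refine ⟨fun a b hab => ?_, A3_sub_inj (e := e') (e' := e) ?_,
      A3_sub_inj (e := e') (e' := e) ?_⟩
    · obtain ⟨a, rfl⟩ := e'.surjective a
      obtain ⟨b, rfl⟩ := e.surjective b
      rw [h.wt, h'.wt]
      exact hT.wt _ _ hab
    · rw [← submatrix_mul_equiv _ _ _ e, ← submatrix_mul_equiv _ _ _ e', h.E, h'.E, hT.E]
    · rw [← submatrix_mul_equiv _ _ _ e, ← submatrix_mul_equiv _ _ _ e', h.F, h'.F, hT.F]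

theorem A3Iso.tensor (q : ℂ) {X : QD ι} {Y : QD κ} {e : ι ≃ κ} (h : A3Iso X Y e)
    {X' : QD ι'} {Y' : QD κ'} {e' : ι' ≃ κ'} (h' : A3Iso X' Y' e') :
    A3Iso (tensor q X X') (tensor q Y Y') (e.prodCongr e') := by
  refine ⟨fun p => ?_, ?_, ?_⟩
  · exact congrArg₂ (· + ·) (h.wt p.1) (h'.wt p.2)
  · ext a b
    simp [MP_c404d3_gt.tensor, Kp, ← h.E, ← h'.E, one_apply, diagonal_apply, h.wt]
  · ext a b
    simp [MP_c404d3_gt.tensor, Km, ← h.F, ← h'.F, one_apply, diagonal_apply, h'.wt]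

theorem A3_iso_one (q : ℂ) (W : QD ι) :
    A3Iso W (pow q W 1) (Equiv.funUnique (Fin 1) ι).symm := by
  refine ⟨fun p => ?_, ?_, ?_⟩
  · simp [pow]
  · ext a b
    simp [pow, Fin.forall_fin_one]
  · ext a b
    simp [pow, Fin.forall_fin_one]

omit [Fintype ι] [DecidableEq ι] in
theorem A3_app {a b : ℕ} (x : Fin a → ι) (y : Fin b → ι) :
    app rfl (x, y) = Fin.append x y := rfl

theorem A3_cond_l {a b : ℕ} (y x : Fin a → ι) (y' x' : Fin b → ι) (i : Fin a) :
    (∀ l, l ≠ Fin.castAdd b i → Fin.append y y' l = Fin.append x x' l) ↔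
      (∀ l, l ≠ i → y l = x l) ∧ y' = x' := by
  have h : ∀ j : Fin b, Fin.natAdd a j ≠ Fin.castAdd b i := fun j e => by
    have := congrArg Fin.val e
    simp only [Fin.val_natAdd, Fin.val_castAdd] at this
    omega
  simp [Fin.forall_fin_add, h, funext_iff]

theorem A3_cond_r {a b : ℕ} (y x : Fin a → ι) (y' x' : Fin b → ι) (j : Fin b) :
    (∀ l, l ≠ Fin.natAdd a j → Fin.append y y' l = Fin.append x x' l) ↔
      y = x ∧ (∀ l, l ≠ j → y' l = x' l) := by
  have h : ∀ i : Fin a, Fin.castAdd b i ≠ Fin.natAdd a j := fun i e => by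
    have := congrArg Fin.val e
    simp only [Fin.val_natAdd, Fin.val_castAdd] at this
    omega
  simp [Fin.forall_fin_add, h, funext_iff]

theorem A3_sum_lt_l {a b : ℕ} (f : Fin (a + b) → ℤ) (i : Fin a) :
    ∑ l ∈ univ.filter (· < Fin.castAdd b i), f l =
      ∑ l ∈ univ.filter (· < i), f (Fin.castAdd b l) := by
  have h : ∀ j : Fin b, ¬Fin.natAdd a j < Fin.castAdd b i := fun j e => by
    simp only [Fin.lt_def, Fin.val_natAdd, Fin.val_castAdd] at e
    omega
  simp only [sum_filter, Fin.sum_univ_add, h, if_false, sum_const_zero, add_zero]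
  rfl

theorem A3_sum_lt_r {a b : ℕ} (f : Fin (a + b) → ℤ) (j : Fin b) :
    ∑ l ∈ univ.filter (· < Fin.natAdd a j), f l =
      ∑ l, f (Fin.castAdd b l) + ∑ l ∈ univ.filter (· < j), f (Fin.natAdd a l) := by
  have h : ∀ i : Fin a, Fin.castAdd b i < Fin.natAdd a j := fun i => by
    simp only [Fin.lt_def, Fin.val_natAdd, Fin.val_castAdd]
    omega
  have h' : ∀ l : Fin b, Fin.natAdd a l < Fin.natAdd a j ↔ l < j := fun l => by
    simp only [Fin.lt_def, Fin.val_natAdd]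
    omega
  simp only [sum_filter, Fin.sum_univ_add, h, h', if_true]

theorem A3_sum_gt_l {a b : ℕ} (f : Fin (a + b) → ℤ) (i : Fin a) :
    ∑ l ∈ univ.filter (Fin.castAdd b i < ·), f l =
      ∑ l ∈ univ.filter (i < ·), f (Fin.castAdd b l) + ∑ l, f (Fin.natAdd a l) := by
  have h : ∀ j : Fin b, Fin.castAdd b i < Fin.natAdd a j := fun j => by
    simp only [Fin.lt_def, Fin.val_natAdd, Fin.val_castAdd]
    omega
  simp only [sum_filter, Fin.sum_univ_add, h, if_true]
  rfl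

theorem A3_sum_gt_r {a b : ℕ} (f : Fin (a + b) → ℤ) (j : Fin b) :
    ∑ l ∈ univ.filter (Fin.natAdd a j < ·), f l =
      ∑ l ∈ univ.filter (j < ·), f (Fin.natAdd a l) := by
  have h : ∀ i : Fin a, ¬Fin.natAdd a j < Fin.castAdd b i := fun i e => by
    simp only [Fin.lt_def, Fin.val_natAdd, Fin.val_castAdd] at e
    omega
  have h' : ∀ l : Fin b, Fin.natAdd a j < Fin.natAdd a l ↔ j < l := fun l => by
    simp only [Fin.lt_def, Fin.val_natAdd]
    omega
  simp only [sum_filter, Fin.sum_univ_add, h, h', if_false, sum_const_zero, zero_add]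

theorem pow_app_wt (q : ℂ) (W : QD ι) {a b M : ℕ} (h : a + b = M)
    (p : (Fin a → ι) × (Fin b → ι)) :
    (pow q W M).wt (app h p) = (tensor q (pow q W a) (pow q W b)).wt p := by
  subst h
  obtain ⟨x, y⟩ := p
  simp [pow, tensor, A3_app, Fin.sum_univ_add]

theorem pow_app_E {q : ℂ} (hq : q ≠ 0) (W : QD ι) {a b M : ℕ} (h : a + b = M) :
    (pow q W M).E.submatrix (app h) (app h) = (tensor q (pow q W a) (pow q W b)).E := by
  subst h
  ext ⟨y, y'⟩ ⟨x, x'⟩
  simp only [pow, tensor, submatrix_apply, of_apply, A3_app, Fin.sum_univ_add, A3_cond_l,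
    A3_cond_r, A3_sum_lt_l, A3_sum_lt_r, Fin.append_left, Fin.append_right, Matrix.add_apply,
    kroneckerMap_apply, Kp, one_apply, diagonal_apply, zpow_add₀ hq]
  congr 1
  · by_cases h : y' = x' <;> simp [h]
  · by_cases h : y = x
    · simp only [h, true_and, if_true, mul_sum]
      refine sum_congr rfl fun j _ => ?_
      split_ifs <;> ring
    · simp [h]

theorem pow_app_F {q : ℂ} (hq : q ≠ 0) (W : QD ι) {a b M : ℕ} (h : a + b = M) :
    (pow q W M).F.submatrix (app h) (app h) = (tensor q (pow q W a) (pow q W b)).F := by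
  subst h
  ext ⟨y, y'⟩ ⟨x, x'⟩
  simp only [pow, tensor, submatrix_apply, of_apply, A3_app, Fin.sum_univ_add, A3_cond_l,
    A3_cond_r, A3_sum_gt_l, A3_sum_gt_r, Fin.append_left, Fin.append_right, Matrix.add_apply,
    kroneckerMap_apply, Km, one_apply, diagonal_apply, neg_add, zpow_add₀ hq]
  congr 1
  · by_cases h : y' = x'
    · simp only [h, and_true, if_true, sum_mul]
      refine sum_congr rfl fun j _ => ?_
      split_ifs <;> ring
    · simp [h]
  · by_cases h : y = x <;> simp [h]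

theorem A3_iso_app {q : ℂ} (hq : q ≠ 0) (W : QD ι) {a b M : ℕ} (h : a + b = M) :
    A3Iso (tensor q (pow q W a) (pow q W b)) (pow q W M) (app h) :=
  ⟨pow_app_wt q W h, pow_app_E hq W h, pow_app_F hq W h⟩

theorem isMod_pow {q : ℂ} (hq : Gen q) {W : QD ι} (hW : IsMod q W) (M : ℕ) :
    IsMod q (pow q W M) := by
  induction M with
  | zero =>
    refine ⟨fun i j h => (h ?_).elim, fun i j h => (h ?_).elim, ?_⟩
    · simp [pow]
    · simp [pow]
    · ext i j
      simp [pow, Matrix.mul_apply, qi, diagonal_apply]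
  | succ M ih =>
    exact (A3_iso_app hq.1 W (rfl : M + 1 = M + 1)).isMod
      (isMod_tensor hq ih ((A3_iso_one q W).isMod hW))

theorem isHom_app {q : ℂ} (hq : q ≠ 0) (W : QD ι) (W' : QD κ) {a b M a' b' M' : ℕ}
    (h : a + b = M) (h' : a' + b' = M') (T : Matrix (Fin M' → κ) (Fin M → ι) ℂ) :
    IsHom (pow q W M) (pow q W' M') T ↔
      IsHom (tensor q (pow q W a) (pow q W b)) (tensor q (pow q W' a') (pow q W' b'))
        (T.submatrix (app h') (app h)) := by
  exact (A3_iso_app hq W h).isHom_iff (A3_iso_app hq W' h') T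

/-- the identification of `pow W 1` with `W` -/
def one1 (ι : Type) [DecidableEq ι] : Matrix ι (Fin 1 → ι) ℂ :=
  Matrix.of fun a x => if x 0 = a then 1 else 0

theorem isHom_one1 (q : ℂ) (W : QD ι) : IsHom (pow q W 1) W (one1 ι) := by
  refine ((A3_iso_one q W).isHom_iff (A3Iso.refl W) _).2 ?_
  convert IsHom.id W using 1
  ext a b
  simp [one1, one_apply, eq_comm]

theorem isHom_one1_T (q : ℂ) (W : QD ι) : IsHom W (pow q W 1) (one1 ι)ᵀ := by
  refine ((A3Iso.refl W).isHom_iff (A3_iso_one q W) _).2 ?_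
  convert IsHom.id W using 1
  ext a b
  simp [one1, one_apply]

theorem A3_one1 :
    one1 ι = (1 : Matrix ι ι ℂ).submatrix id (Equiv.funUnique (Fin 1) ι) := by
  ext a b
  simp [one1, one_apply, eq_comm]

theorem one1_mul_T : one1 ι * (one1 ι)ᵀ = 1 := by
  rw [A3_one1, transpose_submatrix, transpose_one, submatrix_mul_equiv, Matrix.one_mul,
    submatrix_id_id]

theorem one1_T_mul : (one1 ι)ᵀ * one1 ι = 1 := by
  rw [A3_one1, transpose_submatrix, transpose_one, ← submatrix_mul _ _ _ _ _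
    Function.bijective_id, Matrix.one_mul, submatrix_one_equiv]

theorem A3_gen_left (c : Bool → Matrix (ι × ι) (ι × ι) ℂ) {a b M : ℕ} (h : a + b = M)
    {x : ℕ × Bool} (hx : x.1 + 1 < a) :
    (gen c M x).submatrix (app h) (app h) =
      gen c a x ⊗ₖ (1 : Matrix (Fin b → ι) (Fin b → ι) ℂ) := by
  subst h
  ext ⟨y, y'⟩ ⟨z, z'⟩
  have h0 : x.1 < a := by omega
  have h1 : ∀ j : Fin b, a + (j : ℕ) ≠ x.1 := fun j => by omega
  have h2 : ∀ j : Fin b, a + (j : ℕ) ≠ x.1 + 1 := fun j => by omega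
  rw [gen, gen, dif_pos hx, dif_pos (by omega)]
  simp only [submatrix_apply, of_apply, kroneckerMap_apply, one_apply]
  rw [app_apply, app_apply, app_apply, app_apply, dif_pos h0, dif_pos hx, dif_pos h0, dif_pos hx]
  simp only [A3_app, Fin.forall_fin_add, Fin.append_left, Fin.append_right, Fin.val_castAdd,
    Fin.val_natAdd, ne_eq, h1, h2, not_false_eq_true, forall_const,
    ← funext_iff (f := y') (g := z')]
  by_cases h : y' = z' <;> simp [h]

theorem A3_gen_right (c : Bool → Matrix (ι × ι) (ι × ι) ℂ) {a b M : ℕ} (h : a + b = M)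
    {x : ℕ × Bool} (hx : x.1 + 1 < b) :
    (gen c M (x.1 + a, x.2)).submatrix (app h) (app h) =
      (1 : Matrix (Fin a → ι) (Fin a → ι) ℂ) ⊗ₖ gen c b x := by
  subst h
  ext ⟨y, y'⟩ ⟨z, z'⟩
  have h0 : ¬x.1 + a < a := by omega
  have h0' : ¬x.1 + a + 1 < a := by omega
  have h1 : ∀ i : Fin a, (i : ℕ) ≠ x.1 + a := fun j => by omega
  have h2 : ∀ i : Fin a, (i : ℕ) ≠ x.1 + a + 1 := fun j => by omega
  have h3 : ∀ j : Fin b, a + (j : ℕ) = x.1 + a ↔ (j : ℕ) = x.1 := fun j => by omega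
  have h4 : ∀ j : Fin b, a + (j : ℕ) = x.1 + a + 1 ↔ (j : ℕ) = x.1 + 1 := fun j => by omega
  have h5 : x.1 + a - a = x.1 := by omega
  have h6 : x.1 + a + 1 - a = x.1 + 1 := by omega
  rw [gen, gen, dif_pos hx, dif_pos (by simp only; omega)]
  simp only [submatrix_apply, of_apply, kroneckerMap_apply, one_apply]
  rw [app_apply, app_apply, app_apply, app_apply, dif_neg h0, dif_neg h0', dif_neg h0,
    dif_neg h0']
  simp only [A3_app, Fin.forall_fin_add, Fin.append_left, Fin.append_right, Fin.val_castAdd,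
    Fin.val_natAdd, ne_eq, h1, h2, h3, h4, h5, h6, not_false_eq_true, forall_const,
    ← funext_iff (f := y) (g := z)]
  by_cases h : y = z <;> simp [h]

theorem isHom_gen {q : ℂ} (hq : q ≠ 0) {W : QD ι} {c : Bool → Matrix (ι × ι) (ι × ι) ℂ}
    (hc : ∀ ε, IsHom (tensor q W W) (tensor q W W) (c ε)) (N : ℕ) (x : ℕ × Bool) :
    IsHom (pow q W N) (pow q W N) (gen c N x) := by
  by_cases hx : x.1 + 1 < N
  · obtain ⟨i, ε⟩ := x
    obtain ⟨r, hr⟩ : ∃ r, i + (2 + r) = N := ⟨N - i - 2, by simp only at hx; omega⟩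
    have h1 := A3_gen_right c hr (x := (0, ε)) (by simp only; omega)
    simp only [zero_add] at h1
    rw [isHom_app hq W W hr hr, h1]
    refine IsHom.kron q (IsHom.id _) ?_
    rw [isHom_app hq W W (rfl : 2 + r = 2 + r) rfl, A3_gen_left c rfl (by simp)]
    refine IsHom.kron q ?_ (IsHom.id _)
    have h2 := ((A3_iso_one q W).tensor q (A3_iso_one q W)).trans
      (A3_iso_app hq W (rfl : 1 + 1 = 2))
    rw [h2.isHom_iff h2]
    convert hc ε using 1
    ext ⟨a, b⟩ ⟨a', b'⟩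
    simp [gen, app_apply, Fin.forall_fin_two]
  · rw [gen, dif_neg hx]
    exact IsHom.id _

theorem isHom_rho {q : ℂ} (hq : q ≠ 0) {W : QD ι} {c : Bool → Matrix (ι × ι) (ι × ι) ℂ}
    (hc : ∀ ε, IsHom (tensor q W W) (tensor q W W) (c ε)) (N : ℕ) (w : Word) :
    IsHom (pow q W N) (pow q W N) (rho c N w) := by
  induction w with
  | nil => exact rho_nil c N ▸ IsHom.id _
  | cons x w ih => exact rho_cons c N x w ▸ (isHom_gen hq hc N x).mul ih

theorem tens_mul {N : ℕ} (S : Fin N → Matrix ι' κ ℂ) (T : Fin N → Matrix κ ι ℂ) :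
    tens S * tens T = tens fun k => S k * T k := by
  ext y x
  simp only [tens, Matrix.mul_apply, of_apply, prod_univ_sum, Fintype.piFinset_univ,
    prod_mul_distrib]

theorem tens_one {N : ℕ} : tens (fun _ : Fin N => (1 : Matrix ι ι ℂ)) = 1 := by
  ext y x
  simp [tens, one_apply, prod_ite_zero, funext_iff]

theorem at0_one (N : ℕ) : at0 N (1 : Matrix ι ι ℂ) = 1 := by
  simp only [at0, ite_self, tens_one]

theorem A3_tens_at {N : ℕ} (U : Matrix ι ι ℂ) (j : Fin N) (y x : Fin N → ι) :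
    tens (fun k => if k = j then U else 1) y x =
      if (∀ l, l ≠ j → y l = x l) then U (y j) (x j) else 0 := by
  rw [tens, of_apply]
  split_ifs with h
  · rw [prod_eq_single j (fun l _ hl => by rw [if_neg hl, h l hl, one_apply_eq]) (by simp),
      if_pos rfl]
  · push Not at h
    obtain ⟨l, hl, h⟩ := h
    exact prod_eq_zero (mem_univ l) (by rw [if_neg hl, one_apply_ne h])

theorem A3_pow_E (q : ℂ) (W : QD ι) (N : ℕ) :
    (pow q W N).E = ∑ j, tens (fun k => if k = j then W.E else 1) *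
      diagonal fun x => q ^ (∑ l ∈ univ.filter (· < j), W.wt (x l)) := by
  ext y x
  simp only [pow, of_apply, Matrix.sum_apply, mul_diagonal, A3_tens_at, ite_mul, zero_mul]

theorem A3_pow_F (q : ℂ) (W : QD ι) (N : ℕ) :
    (pow q W N).F = ∑ j, tens (fun k => if k = j then W.F else 1) *
      diagonal fun x => q ^ (-∑ l ∈ univ.filter (j < ·), W.wt (x l)) := by
  ext y x
  simp only [pow, of_apply, Matrix.sum_apply, mul_diagonal, A3_tens_at, ite_mul, zero_mul]

theorem isHom_tens (q : ℂ) {W : QD ι} {W' : QD κ} {N : ℕ} {S : Fin N → Matrix κ ι ℂ}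
    (hS : ∀ k, IsHom W W' (S k)) : IsHom (pow q W N) (pow q W' N) (tens S) := by
  have hw : ∀ y x, tens S y x ≠ 0 → ∀ k, W'.wt (y k) = W.wt (x k) := fun y x h k =>
    (hS k).wt _ _ ((prod_ne_zero_iff (s := univ) (f := fun k => S k (y k) (x k))).1 h k
      (mem_univ k))
  have key : ∀ (U : Matrix ι ι ℂ) (U' : Matrix κ κ ℂ) (j : Fin N) (f : (Fin N → ι) → ℂ)
      (g : (Fin N → κ) → ℂ), (∀ k, S k * U = U' * S k) →
      (∀ y x, tens S y x ≠ 0 → f x = g y) →
      tens S * (tens (fun k => if k = j then U else 1) * diagonal f) =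
        tens (fun k => if k = j then U' else 1) * diagonal g * tens S := by
    intro U U' j f g hU hfg
    rw [Matrix.mul_assoc, ← A0_diag hfg, ← Matrix.mul_assoc, ← Matrix.mul_assoc, tens_mul,
      tens_mul]
    congr 2
    funext k
    split_ifs
    · exact hU k
    · rw [Matrix.mul_one, Matrix.one_mul]
  refine ⟨fun y x h => sum_congr (s₁ := univ) rfl fun k _ => hw y x h k, ?_, ?_⟩
  · rw [A3_pow_E, A3_pow_E, Matrix.mul_sum, Matrix.sum_mul]
    exact sum_congr rfl fun j _ => key _ _ j _ _ (fun k => (hS k).E) fun y x h => by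
      rw [sum_congr rfl fun l _ => hw y x h l]
  · rw [A3_pow_F, A3_pow_F, Matrix.mul_sum, Matrix.sum_mul]
    exact sum_congr rfl fun j _ => key _ _ j _ _ (fun k => (hS k).F) fun y x h => by
      rw [sum_congr rfl fun l _ => hw y x h l]

theorem rho_app_left (c : Bool → Matrix (ι × ι) (ι × ι) ℂ) {a b M : ℕ} (h : a + b = M)
    {w : Word} (hw : ∀ x ∈ w, x.1 + 1 < a) :
    (rho c M w).submatrix (app h) (app h) =
      rho c a w ⊗ₖ (1 : Matrix (Fin b → ι) (Fin b → ι) ℂ) := by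
  induction w with
  | nil => rw [rho_nil, rho_nil, submatrix_one_equiv, one_kronecker_one]
  | cons x w ih =>
    rw [rho_cons, rho_cons, ← submatrix_mul_equiv _ _ _ (app h),
      ih fun y hy => hw y (List.mem_cons_of_mem _ hy), A3_gen_left c h (hw x List.mem_cons_self),
      ← mul_kronecker_mul, Matrix.one_mul]

theorem rho_app_right (c : Bool → Matrix (ι × ι) (ι × ι) ℂ) {a b M : ℕ} (h : a + b = M)
    {w : Word} (hw : ∀ x ∈ w, x.1 + 1 < b) :
    (rho c M (shift a w)).submatrix (app h) (app h) =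
      (1 : Matrix (Fin a → ι) (Fin a → ι) ℂ) ⊗ₖ rho c b w := by
  induction w with
  | nil => rw [shift, List.map_nil, rho_nil, rho_nil, submatrix_one_equiv, one_kronecker_one]
  | cons x w ih =>
    have h1 : shift a (x :: w) = (x.1 + a, x.2) :: shift a w := rfl
    rw [h1, rho_cons, rho_cons, ← submatrix_mul_equiv _ _ _ (app h),
      ih fun y hy => hw y (List.mem_cons_of_mem _ hy), A3_gen_right c h (hw x List.mem_cons_self),
      ← mul_kronecker_mul, Matrix.one_mul]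

end Pool.Agent.Work.MP_c404d3_gt
end

-- merged part: Pool.Agent.Work.MP_c404d3_gt.A6
section
/-!
A6: the invariant of a knot with an inserted endomorphism depends only on its character.
Plan. (a) sliding: if all S k are homs X → X' and c, c' are braidings of X, X', then
rho c' N w * tens S = tens (S ∘ (perm w restricted to Fin N)⁻¹ or the like) * rho c N w
(generator case from braid_nat, entrywise; letters are valid). Convenient form: S : ℕ → Matrix,
gen c' N (i,ε) * tens (fun k => S k) = tens (fun k => S (swap i (i+1) k)) * gen c N (i,ε).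
(b) Take decomp (i b, p b), e b = i b * p b. For a finset D of positions let
G D = qtr (rho * at0 (e b' * τ * e b) * tens (fun k => if k ∈ D then e b else 1)) (0 ∈ D is free
since e b is idempotent). Moving tens cyclically (qtr_comm) and sliding it through rho moves D by
the permutation; since all these idempotent insertions commute, D can be enlarged along the
cycle of 0 until it returns to position 0 on the left of e b' (giving 0 if b ≠ b') and D is
everything. So Finv τ = ∑ b, l b * qtr (rho * tens (e b)), where p b * τ * i b = l b • 1 (schur).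
(c) tens (e b) = tens (i b) * tens (p b); slide tens (i b) to get J A N w (m b).
(d) ch X τ w = ∑ b, l b * (if |w| ≤ m b and w ≡ m b mod 2 then 1 else 0) (ch_comm), so
ch m - ch (m+2) = ∑ b with m b = m, l b; and m b < B because the weight m b occurs in X.
ch_symm and ch_of_decomp are (d).
-/

namespace Pool.Agent.Work.MP_c404d3_gt

open scoped BigOperators Real Kronecker
open Matrix Finset

variable {ι κ ι' κ' : Type} [Fintype ι] [DecidableEq ι] [Fintype κ] [DecidableEq κ]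
  [Fintype ι'] [DecidableEq ι'] [Fintype κ'] [DecidableEq κ']

/-- splitting off two positions -/
def A6_sp {N : ℕ} {i j : Fin N} (h : i ≠ j) (α : Type) :
    (Fin N → α) ≃ (α × α) × ({k : Fin N // k ≠ i ∧ k ≠ j} → α) where
  toFun y := ((y i, y j), fun k => y k.1)
  invFun p k := if h₁ : k = i then p.1.1 else if h₂ : k = j then p.1.2 else p.2 ⟨k, h₁, h₂⟩
  left_inv y := funext fun k => by
    dsimp only
    split_ifs with h₁ h₂
    · rw [h₁]
    · rw [h₂]
    · rfl
  right_inv p := by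
    refine Prod.ext (Prod.ext ?_ ?_) (funext fun k => ?_)
    · simp
    · simp [h.symm]
    · simp [k.2.1, k.2.2]

theorem A6_prod {N : ℕ} {i j : Fin N} (h : i ≠ j) (f : Fin N → ℂ) :
    ∏ k, f k = f i * f j * ∏ k : {k : Fin N // k ≠ i ∧ k ≠ j}, f k.1 := by
  rw [← Finset.mul_prod_erase univ f (mem_univ i),
    ← Finset.mul_prod_erase (univ.erase i) f (mem_erase.2 ⟨h.symm, mem_univ j⟩), mul_assoc,
    Finset.prod_subtype ((univ.erase i).erase j) (p := fun k => k ≠ i ∧ k ≠ j)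
      (fun k => by simp [and_comm]) f]

omit [Fintype ι] [DecidableEq ι] [Fintype κ] [DecidableEq κ] in
theorem A6_tens {N : ℕ} {i j : Fin N} (h : i ≠ j) (S : Fin N → Matrix κ ι ℂ) :
    tens S = ((S i ⊗ₖ S j) ⊗ₖ Matrix.of fun (y : {k : Fin N // k ≠ i ∧ k ≠ j} → κ)
      (x : {k : Fin N // k ≠ i ∧ k ≠ j} → ι) => ∏ k, S k.1 (y k) (x k)).submatrix
        (A6_sp h κ) (A6_sp h ι) := by
  ext y x
  exact A6_prod h fun k => S k (y k) (x k)

theorem A6_gen (c : Bool → Matrix (ι × ι) (ι × ι) ℂ) {N : ℕ} {x : ℕ × Bool} (hx : x.1 + 1 < N)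
    (h : (⟨x.1, by omega⟩ : Fin N) ≠ ⟨x.1 + 1, hx⟩) :
    gen c N x = (c x.2 ⊗ₖ (1 : Matrix (_ → ι) (_ → ι) ℂ)).submatrix (A6_sp h ι) (A6_sp h ι) := by
  ext y z
  rw [gen, dif_pos hx, submatrix_apply, kroneckerMap_apply, Matrix.one_apply, mul_ite, mul_one,
    mul_zero, Matrix.of_apply]
  refine if_congr ⟨fun H => funext fun k => ?_, fun H k h₁ h₂ => ?_⟩ rfl rfl
  · exact H k.1 (fun e => k.2.1 (Fin.ext e)) fun e => k.2.2 (Fin.ext e)
  · exact congrFun H ⟨k, fun e => h₁ (congrArg Fin.val e), fun e => h₂ (congrArg Fin.val e)⟩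

theorem A6_slide_gen {c : Bool → Matrix (ι × ι) (ι × ι) ℂ} {c' : Bool → Matrix (κ × κ) (κ × κ) ℂ}
    {N : ℕ} {x : ℕ × Bool} (hx : x.1 + 1 < N) (S : ℕ → Matrix κ ι ℂ)
    (hS : c' x.2 * (S x.1 ⊗ₖ S (x.1 + 1)) = (S (x.1 + 1) ⊗ₖ S x.1) * c x.2) :
    gen c' N x * tens (fun k : Fin N => S k) =
      tens (fun k : Fin N => S (Equiv.swap x.1 (x.1 + 1) k)) * gen c N x := by
  have h : (⟨x.1, by omega⟩ : Fin N) ≠ ⟨x.1 + 1, hx⟩ := fun e => by
    have := congrArg Fin.val e
    simp at this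
  rw [A6_gen c hx h, A6_gen c' hx h, A6_tens h, A6_tens h, submatrix_mul_equiv,
    submatrix_mul_equiv, ← mul_kronecker_mul, ← mul_kronecker_mul, Matrix.one_mul, Matrix.mul_one,
    hS, Equiv.swap_apply_left, Equiv.swap_apply_right]
  congr 3
  ext y z
  refine Finset.prod_congr rfl fun k _ => ?_
  rw [Equiv.swap_apply_of_ne_of_ne (fun e => k.2.1 (Fin.ext e)) fun e => k.2.2 (Fin.ext e)]

theorem A6_perm_cons (x : ℕ × Bool) (w : Word) :
    perm (x :: w) = Equiv.swap x.1 (x.1 + 1) * perm w := by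
  simp [perm]

theorem A6_slide {c : Bool → Matrix (ι × ι) (ι × ι) ℂ} {c' : Bool → Matrix (κ × κ) (κ × κ) ℂ}
    {N : ℕ} {w : Word} (hw : ∀ x ∈ w, x.1 + 1 < N) (S : ℕ → Matrix κ ι ℂ)
    (hS : ∀ ε a b, c' ε * (S a ⊗ₖ S b) = (S b ⊗ₖ S a) * c ε) :
    rho c' N w * tens (fun k : Fin N => S k) =
      tens (fun k : Fin N => S ((perm w)⁻¹ k)) * rho c N w := by
  induction w with
  | nil => simp [perm]
  | cons x w ih =>
    rw [rho_cons, rho_cons, Matrix.mul_assoc, ih fun y hy => hw y (List.mem_cons_of_mem _ hy),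
      ← Matrix.mul_assoc, A6_slide_gen (hw x List.mem_cons_self) (fun k => S ((perm w)⁻¹ k))
        (hS _ _ _), Matrix.mul_assoc, A6_perm_cons, _root_.mul_inv_rev, Equiv.swap_inv]
    rfl

theorem A6_perm_lt {N : ℕ} {w : Word} (hw : ∀ x ∈ w, x.1 + 1 < N) (k : ℕ) :
    perm w k < N ↔ k < N := by
  induction w with
  | nil => simp [perm]
  | cons x w ih =>
    have := hw x List.mem_cons_self
    rw [A6_perm_cons, Equiv.Perm.mul_apply, ← ih fun y hy => hw y (List.mem_cons_of_mem _ hy),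
      Equiv.swap_apply_def]
    split_ifs <;> omega

theorem A6_reach {N : ℕ} {w : Word} (hw : IsKnot N w) :
    ∃ r : ℕ, ∀ k < N, ∃ t, 0 < t ∧ t ≤ r ∧ (perm w ^ t) k = 0 := by
  let f : Equiv.Perm {k // k < N} := (perm w).subtypePerm (A6_perm_lt hw.2.1)
  have : Finite {k // k < N} := (Set.finite_lt_nat N).to_subtype
  refine ⟨orderOf f, fun k hk => ?_⟩
  have h : f.SameCycle ⟨k, hk⟩ ⟨0, hw.1⟩ :=
    Equiv.Perm.sameCycle_subtypePerm.2 (hw.2.2 k hk).symm
  obtain ⟨t, h₁, h₂, h₃⟩ := h.exists_pow_eq''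
  refine ⟨t, h₁, h₂, ?_⟩
  rw [Equiv.Perm.subtypePerm_pow] at h₃
  exact congrArg Subtype.val h₃

omit [Fintype ι] in
theorem A6_at0 {N : ℕ} (hN : 0 < N) (τ : Matrix ι ι ℂ) (y x : Fin N → ι) :
    at0 N τ y x = τ (y ⟨0, hN⟩) (x ⟨0, hN⟩) *
      ∏ k ∈ univ.erase ⟨0, hN⟩, (1 : Matrix ι ι ℂ) (y k) (x k) := by
  rw [at0, tens, Matrix.of_apply, ← Finset.mul_prod_erase univ _ (mem_univ ⟨0, hN⟩), if_pos rfl]
  congr 1
  refine Finset.prod_congr rfl fun k hk => ?_
  rw [if_neg fun e => (mem_erase.1 hk).1 (Fin.ext e)]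

omit [Fintype ι] in
theorem A6_at0_sum {N : ℕ} (hN : 0 < N) {n : ℕ} (τ : Fin n → Matrix ι ι ℂ) :
    at0 N (∑ b, τ b) = ∑ b, at0 N (τ b) := by
  ext y x
  simp only [Matrix.sum_apply, A6_at0 hN, Finset.sum_mul]

omit [Fintype ι] in
theorem A6_at0_smul {N : ℕ} (hN : 0 < N) (l : ℂ) (τ : Matrix ι ι ℂ) :
    at0 N (l • τ) = l • at0 N τ := by
  ext y x
  simp only [Matrix.smul_apply, A6_at0 hN, smul_eq_mul, mul_assoc]

omit [DecidableEq ι] in
theorem A6_qtr_sum (q : ℂ) (X : QD ι) {n : ℕ} (T : Fin n → Matrix ι ι ℂ) :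
    qtr q X (∑ b, T b) = ∑ b, qtr q X (T b) := by
  simp only [qtr, Matrix.sum_apply, Finset.mul_sum]
  exact Finset.sum_comm

omit [DecidableEq ι] in
theorem A6_qtr_smul (q : ℂ) (X : QD ι) (l : ℂ) (T : Matrix ι ι ℂ) :
    qtr q X (l • T) = l * qtr q X T := by
  simp only [qtr, Matrix.smul_apply, smul_eq_mul, Finset.mul_sum, mul_left_comm]

omit [DecidableEq ι] in
theorem A6_ch_sum (X : QD ι) {n : ℕ} (T : Fin n → Matrix ι ι ℂ) (w : ℤ) :
    ch X (∑ b, T b) w = ∑ b, ch X (T b) w := by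
  simp only [ch, Matrix.sum_apply]
  rw [Finset.sum_comm]
  refine Finset.sum_congr rfl fun a _ => ?_
  split_ifs <;> simp

omit [DecidableEq ι] in
theorem A6_ch_smul (X : QD ι) (l : ℂ) (T : Matrix ι ι ℂ) (w : ℤ) :
    ch X (l • T) w = l * ch X T w := by
  simp only [ch, Matrix.smul_apply, smul_eq_mul, Finset.mul_sum, mul_ite, mul_zero]

theorem A6_ch_irr (q : ℂ) (m : ℕ) (w : ℤ) :
    ch (irr q m) 1 w = ∑ j ∈ range (m + 1), if (m : ℤ) - 2 * (j : ℕ) = w then (1 : ℂ) else 0 := by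
  rw [ch, Finset.sum_range]
  simp only [irr, Matrix.one_apply_eq]

theorem A6_ch_decomp {q : ℂ} (hq : Gen q) {X : QD ι} {n : ℕ} {m : Fin n → ℕ}
    {i : ∀ b, Matrix ι (Fin (m b + 1)) ℂ} {p : ∀ b, Matrix (Fin (m b + 1)) ι ℂ}
    (hi : ∀ b, IsHom (irr q (m b)) X (i b)) (hp : ∀ b, IsHom X (irr q (m b)) (p b))
    (hs : ∑ b, i b * p b = 1) {τ : Matrix ι ι ℂ} (hτ : IsHom X X τ) (w : ℤ) :
    ch X τ w = ∑ b, (p b * τ * i b) 0 0 * ch (irr q (m b)) 1 w := by
  conv_lhs => rw [← Matrix.mul_one τ, ← hs, Matrix.mul_sum, A6_ch_sum]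
  refine Finset.sum_congr rfl fun b _ => ?_
  rw [← Matrix.mul_assoc, ch_comm (Y := irr q (m b)) (hp b).wt, ← Matrix.mul_assoc,
    ← A6_ch_smul, ← schur hq (((hp b).mul hτ).mul (hi b))]

theorem ch_of_decomp {q : ℂ} (hq : Gen q) {X : QD ι} {n : ℕ} {m : Fin n → ℕ}
    {i : ∀ b, Matrix ι (Fin (m b + 1)) ℂ} {p : ∀ b, Matrix (Fin (m b + 1)) ι ℂ}
    (hi : ∀ b, IsHom (irr q (m b)) X (i b)) (hp : ∀ b, IsHom X (irr q (m b)) (p b))
    (hs : ∑ b, i b * p b = 1) {τ : Matrix ι ι ℂ} (hτ : IsHom X X τ) (k : ℕ) :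
    ch X τ k - ch X τ (k + 2) = ∑ b, if m b = k then (p b * τ * i b) 0 0 else 0 := by
  rw [A6_ch_decomp hq hi hp hs hτ, A6_ch_decomp hq hi hp hs hτ, ← Finset.sum_sub_distrib]
  refine Finset.sum_congr rfl fun b _ => ?_
  have e : ∀ j : ℕ, ((m b : ℤ) - 2 * (j : ℕ) = k + 2) = ((m b : ℤ) - 2 * (j + 1 : ℕ) = k) :=
    fun j => propext (by omega)
  rw [← mul_sub, A6_ch_irr, A6_ch_irr, ← Finset.sum_sub_distrib]
  simp only [e]
  rw [Finset.sum_range_sub' fun j : ℕ => if (m b : ℤ) - 2 * (j : ℕ) = k then (1 : ℂ) else 0,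
    if_neg (show ¬((m b : ℤ) - 2 * (m b + 1 : ℕ) = k) by omega), sub_zero]
  by_cases h : m b = k
  · rw [if_pos h, if_pos (by omega), mul_one]
  · rw [if_neg h, if_neg (by omega), mul_zero]

theorem ch_symm {q : ℂ} (hq : Gen q) {X : QD ι} (hX : IsMod q X) {τ : Matrix ι ι ℂ}
    (hτ : IsHom X X τ) (w : ℤ) : ch X τ (-w) = ch X τ w := by
  obtain ⟨n, m, i, p, hi, hp, -, -, hs⟩ := decomp hq hX
  rw [A6_ch_decomp hq hi hp hs hτ, A6_ch_decomp hq hi hp hs hτ]
  refine Finset.sum_congr rfl fun b _ => ?_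
  rw [A6_ch_irr, A6_ch_irr, ← Finset.sum_range_reflect]
  congr 1
  refine Finset.sum_congr rfl fun j hj => if_congr ?_ rfl rfl
  have := mem_range.1 hj
  omega

/-- moving an insertion once around the closed braid -/
theorem A6_cyc {A : ℂ} (hq : Gen (A ^ 2)) {X : QD ι} (hX : IsMod (A ^ 2) X)
    {c : Bool → Matrix (ι × ι) (ι × ι) ℂ} (hc : ∀ ε, IsBraid A ε X X (c ε))
    {N : ℕ} {w : Word} (hw : ∀ x ∈ w, x.1 + 1 < N) (T S : ℕ → Matrix ι ι ℂ)
    (hS : ∀ k, IsHom X X (S k)) :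
    qtr (A ^ 2) (pow (A ^ 2) X N) (rho c N w * tens fun k : Fin N => T k * S k) =
      qtr (A ^ 2) (pow (A ^ 2) X N) (rho c N w * tens fun k : Fin N => S (perm w k) * T k) := by
  have h := A6_slide (c := c) (c' := c) hw (fun k => S (perm w k)) fun ε a b =>
    braid_nat hq hX hX hX hX (hc ε) (hc ε) (hS _) (hS _)
  simp only [Equiv.Perm.coe_inv, Equiv.apply_symm_apply] at h
  rw [← tens_mul, ← tens_mul, ← Matrix.mul_assoc, ← Matrix.mul_assoc, h,
    qtr_comm (Y := pow (A ^ 2) X N) _ (isHom_tens (A ^ 2) fun k : Fin N => hS k).wt,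
    Matrix.mul_assoc]

theorem A6_idem {A : ℂ} (hq : Gen (A ^ 2)) {X : QD ι} (hX : IsMod (A ^ 2) X)
    {c : Bool → Matrix (ι × ι) (ι × ι) ℂ} (hc : ∀ ε, IsBraid A ε X X (c ε))
    {N : ℕ} {w : Word} (hw : IsKnot N w) {e : Matrix ι ι ℂ} (he : IsHom X X e) (h2 : e * e = e)
    (τ : Matrix ι ι ℂ) :
    Finv (A ^ 2) X c N w (τ * e) =
      qtr (A ^ 2) (pow (A ^ 2) X N) (rho c N w * (tens (fun _ => e) * at0 N (τ * e))) := by
  classical
  let T : ℕ → ℕ → Matrix ι ι ℂ := fun r k =>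
    (if ∃ t, 0 < t ∧ t ≤ r ∧ (perm w ^ t) k = 0 then e else 1) * if k = 0 then τ * e else 1
  have key : ∀ r, Finv (A ^ 2) X c N w (τ * e) =
      qtr (A ^ 2) (pow (A ^ 2) X N) (rho c N w * tens fun k : Fin N => T r k) := fun r => by
    induction r with
    | zero =>
      have : (fun k : Fin N => T 0 k) = fun k : Fin N => if (k : ℕ) = 0 then τ * e else 1 :=
        funext fun k => by
          simp only [T]
          rw [if_neg (by rintro ⟨t, h₁, h₂, -⟩; omega), Matrix.one_mul]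
      rw [this]
      rfl
    | succ r ih =>
      let S : ℕ → Matrix ι ι ℂ := fun k =>
        if k = 0 ∨ ∃ t, 0 < t ∧ t ≤ r ∧ (perm w ^ t) k = 0 then e else 1
      have h₁ : (fun k : Fin N => T r k) = fun k : Fin N => T r k * S k := funext fun k => by
        simp only [T, S]
        by_cases h0 : (k : ℕ) = 0
        · rw [if_pos h0, if_pos (Or.inl h0), Matrix.mul_assoc, Matrix.mul_assoc, h2]
        · by_cases h : ∃ t, 0 < t ∧ t ≤ r ∧ (perm w ^ t) k = 0
          · rw [if_neg h0, if_pos (Or.inr h), if_pos h, Matrix.mul_one, h2]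
          · rw [if_neg (not_or.2 ⟨h0, h⟩), Matrix.mul_one]
      have h₂ : (fun k : Fin N => S (perm w k) * T r k) = fun k : Fin N => T (r + 1) k :=
        funext fun k => by
          simp only [T, S]
          rw [← Matrix.mul_assoc]
          congr 1
          have e₁ : (perm w k = 0 ∨ ∃ t, 0 < t ∧ t ≤ r ∧ (perm w ^ t) (perm w k) = 0) ↔
              ∃ t, 0 < t ∧ t ≤ r + 1 ∧ (perm w ^ t) k = 0 := by
            constructor
            · rintro (h | ⟨t, h₁, h₂, h₃⟩)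
              · exact ⟨1, one_pos, by omega, by simpa using h⟩
              · exact ⟨t + 1, by omega, by omega, by rw [pow_succ]; exact h₃⟩
            · rintro ⟨t, h₁, h₂, h₃⟩
              obtain ⟨t, rfl⟩ : ∃ s, t = s + 1 := ⟨t - 1, by omega⟩
              rw [pow_succ] at h₃
              rcases Nat.eq_zero_or_pos t with rfl | ht
              · exact Or.inl (by simpa using h₃)
              · exact Or.inr ⟨t, ht, by omega, h₃⟩
          by_cases h : ∃ t, 0 < t ∧ t ≤ r ∧ (perm w ^ t) k = 0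
          · have h' : ∃ t, 0 < t ∧ t ≤ r + 1 ∧ (perm w ^ t) k = 0 :=
              h.imp fun t ht => ⟨ht.1, by omega, ht.2.2⟩
            rw [if_pos h, if_pos h', if_pos (e₁.2 h'), h2]
          · rw [if_neg h, Matrix.mul_one]
            exact if_congr e₁ rfl rfl
      rw [ih, h₁, A6_cyc hq hX hc hw.2.1 (T r) S fun k => by
        simp only [S]
        split_ifs
        exacts [he, IsHom.id X], h₂]
  obtain ⟨r, hr⟩ := A6_reach hw
  rw [key r, at0, tens_mul]
  congr 3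
  funext k
  simp only [T]
  rw [if_pos (hr k k.2)]

theorem Finv_eq_sum {A : ℂ} (hq : Gen (A ^ 2)) {X : QD ι} (hX : IsMod (A ^ 2) X)
    {c : Bool → Matrix (ι × ι) (ι × ι) ℂ} (hc : ∀ ε, IsBraid A ε X X (c ε))
    (hV : ∀ (m : ℕ) ε, IsBraid A ε (irr (A ^ 2) m) (irr (A ^ 2) m) (cV A m ε))
    {N : ℕ} {w : Word} (hw : IsKnot N w) {τ : Matrix ι ι ℂ} (hτ : IsHom X X τ) {B : ℕ}
    (hB : ∀ i, X.wt i < B) :
    Finv (A ^ 2) X c N w τ =
      ∑ m ∈ range B, (ch X τ m - ch X τ (m + 2)) * J A N w m := by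
  obtain ⟨n, m, i, p, hi, hp, hpi, -, hs⟩ := decomp hq hX
  have h₁ : ∀ b, Finv (A ^ 2) X c N w (τ * (i b * p b)) = (p b * τ * i b) 0 0 * J A N w (m b) :=
    fun b => by
      have he : i b * p b * (i b * p b) = i b * p b := by
        rw [Matrix.mul_assoc, ← Matrix.mul_assoc (p b), hpi, Matrix.one_mul]
      have e₁ : tens (fun _ : Fin N => i b * p b) * at0 N (τ * (i b * p b)) =
          tens (fun _ : Fin N => i b * p b) *
            at0 N ((p b * τ * i b) 0 0 • (1 : Matrix ι ι ℂ)) := by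
        rw [at0, at0, tens_mul, tens_mul]
        congr 1
        funext k
        split_ifs
        · rw [Matrix.mul_assoc, ← Matrix.mul_assoc (p b), ← Matrix.mul_assoc (p b * τ),
            schur hq (((hp b).mul hτ).mul (hi b))]
          simp
        · rfl
      have e₂ := A6_slide (c := cV A (m b)) (c' := c) hw.2.1 (fun _ => i b) fun ε _ _ =>
        braid_nat hq (isMod_irr hq _) (isMod_irr hq _) hX hX (hV _ ε) (hc ε) (hi b) (hi b)
      rw [A6_idem hq hX hc hw ((hi b).mul (hp b)) he, e₁, A6_at0_smul hw.1, at0_one,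
        Matrix.mul_smul, Matrix.mul_one, Matrix.mul_smul, A6_qtr_smul, ← tens_mul,
        ← Matrix.mul_assoc, e₂, qtr_comm (Y := pow (A ^ 2) (irr (A ^ 2) (m b)) N) _
          (isHom_tens (A ^ 2) fun _ : Fin N => hp b).wt, ← Matrix.mul_assoc, tens_mul]
      simp only [hpi, tens_one, Matrix.one_mul]
      rfl
  have h₂ : ∀ b, m b < B := fun b => by
    have h : (p b * i b) 0 0 ≠ 0 := by
      rw [hpi, Matrix.one_apply_eq]
      exact one_ne_zero
    rw [Matrix.mul_apply] at h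
    obtain ⟨a, -, ha⟩ := Finset.exists_ne_zero_of_sum_ne_zero h
    have h₃ := (hi b).wt a 0 (right_ne_zero_of_mul ha)
    have h₄ := hB a
    simp only [irr, Fin.val_zero, Nat.cast_zero, mul_zero, sub_zero] at h₃
    omega
  have h₃ : Finv (A ^ 2) X c N w τ = ∑ b, Finv (A ^ 2) X c N w (τ * (i b * p b)) := by
    conv_lhs => rw [← Matrix.mul_one τ, ← hs, Matrix.mul_sum, Finv, A6_at0_sum hw.1,
      Matrix.mul_sum, A6_qtr_sum]
    rfl
  simp only [h₃, h₁, ch_of_decomp hq hi hp hs hτ, Finset.sum_mul]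
  rw [Finset.sum_comm]
  refine Finset.sum_congr rfl fun b _ => ?_
  simp only [ite_mul, zero_mul]
  rw [Finset.sum_ite_eq, if_pos (mem_range.2 (h₂ b))]

end Pool.Agent.Work.MP_c404d3_gt
end

-- merged part: Pool.Agent.Work.MP_c404d3_gt.A9
section
/-!
A9: one-sided quantum traces and the connected sum.
Plan. isHom_ptrR: from T ΔE = ΔE T take the one-sided trace: with S x' x = ∑ y y', mu y * E y y' *
T (x',y') (x,y) one has ptrR (T (Kp ⊗ E)) = q^2 • S * Kp and ptrR ((Kp ⊗ E) T) = Kp * S, and these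
agree because S raises the weight by 2. For F use F ⊗ Km + 1 ⊗ F in the same way. ptrL (weights
mu⁻¹) is the mirror image. qtr_sph: qtr = ∑ w, (-q⁻¹)^w * ch w and ch_symm.
J_sum: put N = N1 + N2 - 1 = (N1 - 1) + (1 + (N2 - 1)). The right one-sided trace of rho w2 over
the last N2 - 1 strands (app with 1 + (N2-1) = N2) is a hom pow (irr m) 1 → pow (irr m) 1, hence
a scalar l (one1, schur), and J N2 w2 m = l * qtr 1. With rho_app_left for w1 (N1 + (N2-1)) and
rho_app_right for w2 ((N1-1) + N2) the trace over the last N2 - 1 strands gives l * J N1 w1 m.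
-/

namespace Pool.Agent.Work.MP_c404d3_gt

open scoped BigOperators Real Kronecker
open Matrix Finset

variable {ι κ ι' κ' : Type} [Fintype ι] [DecidableEq ι] [Fintype κ] [DecidableEq κ]
  [Fintype ι'] [DecidableEq ι'] [Fintype κ'] [DecidableEq κ']

noncomputable def ptrR (q : ℂ) (Y : QD κ) (T : Matrix (ι × κ) (ι × κ) ℂ) : Matrix ι ι ℂ :=
  Matrix.of fun x' x => ∑ y, mu q Y y * T (x', y) (x, y)

noncomputable def ptrL (q : ℂ) (X : QD ι) (T : Matrix (ι × κ) (ι × κ) ℂ) : Matrix κ κ ℂ :=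
  Matrix.of fun y' y => ∑ x, (mu q X x)⁻¹ * T (x, y') (x, y)

/-- weighted trace over the second factor -/
noncomputable def A9w (g : κ → ℂ) (T : Matrix (ι × κ) (ι × κ) ℂ) : Matrix ι ι ℂ :=
  Matrix.of fun x' x => ∑ y, g y * T (x', y) (x, y)

omit [Fintype ι] [DecidableEq ι] [DecidableEq κ] in
theorem A9w_add (g : κ → ℂ) (S T : Matrix (ι × κ) (ι × κ) ℂ) :
    A9w g (S + T) = A9w g S + A9w g T := by
  ext x' x
  simp [A9w, mul_add, sum_add_distrib]

omit [DecidableEq ι] in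
theorem A9w_mul_diag (g d : κ → ℂ) (T : Matrix (ι × κ) (ι × κ) ℂ) (a : Matrix ι ι ℂ) :
    A9w g (T * (a ⊗ₖ diagonal d)) = A9w (fun y => g y * d y) T * a := by
  ext x' x
  simp only [A9w, of_apply, mul_apply, Fintype.sum_prod_type, kroneckerMap_apply, diagonal_apply,
    mul_ite, mul_zero, sum_ite_eq', mem_univ, if_true, mul_sum, sum_mul]
  rw [sum_comm]
  refine sum_congr rfl fun _ _ => sum_congr rfl fun _ _ => by ring

omit [DecidableEq ι] in
theorem A9w_diag_mul (g d : κ → ℂ) (T : Matrix (ι × κ) (ι × κ) ℂ) (a : Matrix ι ι ℂ) :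
    A9w g ((a ⊗ₖ diagonal d) * T) = a * A9w (fun y => g y * d y) T := by
  ext x' x
  simp only [A9w, of_apply, mul_apply, Fintype.sum_prod_type, kroneckerMap_apply, diagonal_apply,
    mul_ite, mul_zero, ite_mul, zero_mul, sum_ite_eq, mem_univ, if_true, mul_sum]
  rw [sum_comm]
  refine sum_congr rfl fun _ _ => sum_congr rfl fun _ _ => by ring

omit [DecidableEq κ] in
theorem A9w_cyc (g : κ → ℂ) (d : ι → ℂ) (T : Matrix (ι × κ) (ι × κ) ℂ) (b : Matrix κ κ ℂ)
    (h : ∀ x' x y y', T (x', y) (x, y') ≠ 0 → b y' y ≠ 0 → g y * d x = g y' * d x') :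
    A9w g (T * (diagonal d ⊗ₖ b)) = A9w g ((diagonal d ⊗ₖ b) * T) := by
  ext x' x
  have e1 : ∀ y, (T * (diagonal d ⊗ₖ b)) (x', y) (x, y) =
      ∑ y', T (x', y) (x, y') * (d x * b y' y) := by
    intro y
    rw [mul_apply, Fintype.sum_prod_type, sum_comm]
    refine sum_congr rfl fun y' _ => ?_
    simp [diagonal_apply]
  have e2 : ∀ y', ((diagonal d ⊗ₖ b) * T) (x', y') (x, y') =
      ∑ y, (d x' * b y' y) * T (x', y) (x, y') := by
    intro y'
    rw [mul_apply, Fintype.sum_prod_type, sum_comm]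
    refine sum_congr rfl fun y _ => ?_
    simp [diagonal_apply]
  simp only [A9w, of_apply, e1, e2, mul_sum]
  rw [sum_comm]
  refine sum_congr rfl fun y' _ => sum_congr rfl fun y _ => ?_
  by_cases h1 : T (x', y) (x, y') = 0
  · simp [h1]
  by_cases h2 : b y' y = 0
  · simp [h2]
  have := h x' x y y' h1 h2
  linear_combination (T (x', y) (x, y') * b y' y) * this

theorem A9_ptrR {q : ℂ} (hq : q ≠ 0) {X : QD ι} {Y : QD κ}
    (hE : ∀ i j, Y.E i j ≠ 0 → Y.wt i = Y.wt j + 2) (hF : ∀ i j, Y.F i j ≠ 0 → Y.wt i + 2 = Y.wt j)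
    {T : Matrix (ι × κ) (ι × κ) ℂ} (hT : IsHom (tensor q X Y) (tensor q X Y) T) :
    IsHom X X (ptrR q Y T) := by
  have hq' : (-q⁻¹) ≠ 0 := neg_ne_zero.2 (inv_ne_zero hq)
  refine ⟨fun a b h => ?_, ?_, ?_⟩
  · obtain ⟨y, -, hy⟩ := exists_ne_zero_of_sum_ne_zero (h : ∑ y, mu q Y y * T (a, y) (b, y) ≠ 0)
    have := hT.wt _ _ (right_ne_zero_of_mul hy)
    simp only [tensor] at this
    omega
  · have h := congrArg (A9w (mu q Y)) hT.E
    simp only [tensor, Kp, Matrix.mul_add, Matrix.add_mul, A9w_add, ← diagonal_one (n := κ),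
      A9w_mul_diag, A9w_diag_mul, mul_one] at h
    rw [A9w_cyc] at h
    · exact add_right_cancel h
    · intro x' x y y' h1 h2
      have a1 := hT.wt _ _ h1
      have a2 := hE _ _ h2
      simp only [tensor] at a1
      have a3 : X.wt x' = X.wt x + 2 := by omega
      simp only [mu]
      rw [a2, a3, zpow_add₀ hq', zpow_add₀ hq, zpow_ofNat, zpow_ofNat]
      field_simp
  · have hg : ∀ y, mu q Y y * q ^ Y.wt y * q ^ (-Y.wt y) = mu q Y y := by
      intro y
      rw [mul_assoc, ← zpow_add₀ hq]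
      simp
    have h := congrArg (A9w fun y => mu q Y y * q ^ Y.wt y) hT.F
    simp only [tensor, Km, Matrix.mul_add, Matrix.add_mul, A9w_add, ← diagonal_one (n := ι),
      A9w_mul_diag, A9w_diag_mul, hg] at h
    rw [A9w_cyc] at h
    · exact add_right_cancel h
    · intro x' x y y' h1 h2
      have a2 := hF _ _ h2
      simp only [mu]
      rw [← a2, zpow_add₀ hq', zpow_add₀ hq, zpow_ofNat, zpow_ofNat]
      field_simp

/-- the data with the roles of `E` and `F` exchanged -/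
def A9op (X : QD ι) : QD ι := ⟨fun i => -X.wt i, X.F, X.E⟩

theorem A9_flip {q : ℂ} {X : QD ι} {Y : QD κ} {T : Matrix (ι × κ) (ι × κ) ℂ}
    (hT : IsHom (tensor q X Y) (tensor q X Y) T) :
    IsHom (tensor q (A9op Y) (A9op X)) (tensor q (A9op Y) (A9op X))
      (T.submatrix (Equiv.prodComm κ ι) (Equiv.prodComm κ ι)) := by
  have e1 : (tensor q (A9op Y) (A9op X)).E =
      (tensor q X Y).F.submatrix (Equiv.prodComm κ ι) (Equiv.prodComm κ ι) := by
    ext ⟨a, b⟩ ⟨c, d⟩
    simp only [tensor, A9op, Kp, Km, submatrix_apply, Equiv.prodComm_apply, Prod.swap_prod_mk,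
      Matrix.add_apply, kroneckerMap_apply]
    ring
  have e2 : (tensor q (A9op Y) (A9op X)).F =
      (tensor q X Y).E.submatrix (Equiv.prodComm κ ι) (Equiv.prodComm κ ι) := by
    ext ⟨a, b⟩ ⟨c, d⟩
    simp only [tensor, A9op, Kp, Km, submatrix_apply, Equiv.prodComm_apply, Prod.swap_prod_mk,
      Matrix.add_apply, kroneckerMap_apply, neg_neg]
    ring
  refine ⟨fun a b h => ?_, ?_, ?_⟩
  · have := hT.wt _ _ h
    simp only [tensor, A9op, Equiv.prodComm_apply, Prod.fst_swap, Prod.snd_swap] at this ⊢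
    omega
  · rw [e1, submatrix_mul_equiv, submatrix_mul_equiv, hT.F]
  · rw [e2, submatrix_mul_equiv, submatrix_mul_equiv, hT.E]

theorem isHom_ptrR {q : ℂ} (hq : q ≠ 0) {X : QD ι} {Y : QD κ} (hY : IsMod q Y)
    {T : Matrix (ι × κ) (ι × κ) ℂ} (hT : IsHom (tensor q X Y) (tensor q X Y) T) :
    IsHom X X (ptrR q Y T) := by
  exact A9_ptrR hq hY.E_wt hY.F_wt hT

theorem isHom_ptrL {q : ℂ} (hq : q ≠ 0) {X : QD ι} {Y : QD κ} (hX : IsMod q X)
    {T : Matrix (ι × κ) (ι × κ) ℂ} (hT : IsHom (tensor q X Y) (tensor q X Y) T) :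
    IsHom Y Y (ptrL q X T) := by
  have h := A9_ptrR hq (X := A9op Y) (Y := A9op X)
    (fun i j h => by have := hX.F_wt i j h; simp only [A9op]; omega)
    (fun i j h => by have := hX.E_wt i j h; simp only [A9op]; omega) (A9_flip hT)
  have e : ptrR q (A9op X) (T.submatrix (Equiv.prodComm κ ι) (Equiv.prodComm κ ι)) =
      ptrL q X T := by
    ext y' y
    simp [ptrR, ptrL, mu, A9op]
  rw [e] at h
  exact ⟨fun a b hab => neg_injective (h.wt a b hab), h.F, h.E⟩

omit [DecidableEq ι] in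
theorem A9_sum_wt (X : QD ι) (T : Matrix ι ι ℂ) (f : ℤ → ℂ) (s : Finset ℤ) (hs : ∀ i, X.wt i ∈ s) :
    ∑ i, f (X.wt i) * T i i = ∑ w ∈ s, f w * ch X T w := by
  simp only [ch, mul_sum]
  rw [sum_comm]
  refine sum_congr rfl fun i _ => ?_
  simp [hs i]

theorem qtr_sph {q : ℂ} (hq : Gen q) {X : QD ι} (hX : IsMod q X) {T : Matrix ι ι ℂ}
    (hT : IsHom X X T) : qtr q X T = ∑ i, (mu q X i)⁻¹ * T i i := by
  set s : Finset ℤ := univ.image X.wt ∪ univ.image fun i => -X.wt i with hs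
  have h1 : ∀ i, X.wt i ∈ s := fun i => mem_union_left _ (mem_image_of_mem _ (mem_univ i))
  have h2 : ∀ w, w ∈ s ↔ -w ∈ s := by
    intro w
    simp only [hs, mem_union, mem_image, mem_univ, true_and, neg_eq_iff_eq_neg, neg_neg]
    exact or_comm
  have e1 := A9_sum_wt X T (fun w => (-q⁻¹) ^ w) s h1
  have e2 := A9_sum_wt X T (fun w => ((-q⁻¹) ^ w)⁻¹) s h1
  simp only [qtr, mu]
  rw [e1, e2]
  refine sum_equiv (Equiv.neg ℤ) h2 fun w _ => ?_
  rw [Equiv.neg_apply, ch_symm hq hX hT, _root_.zpow_neg, inv_inv]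

theorem A9_qtr_tensor {q : ℂ} (hq : q ≠ 0) (X : QD ι) (Y : QD κ) (T : Matrix (ι × κ) (ι × κ) ℂ) :
    qtr q (tensor q X Y) T = qtr q X (ptrR q Y T) := by
  have hq' : (-q⁻¹) ≠ 0 := neg_ne_zero.2 (inv_ne_zero hq)
  simp only [qtr, ptrR, of_apply, Fintype.sum_prod_type, mul_sum, mu, tensor, zpow_add₀ hq',
    mul_assoc]

theorem A9_qtr_app (q : ℂ) (W : QD ι) {a b M : ℕ} (h : a + b = M)
    (T : Matrix (Fin M → ι) (Fin M → ι) ℂ) :
    qtr q (pow q W M) T = qtr q (tensor q (pow q W a) (pow q W b)) (T.submatrix (app h) (app h)) := by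
  simp only [qtr, mu, submatrix_apply, ← pow_app_wt q W h]
  exact (Equiv.sum_comp (app h) fun i => (-q⁻¹) ^ (pow q W M).wt i * T i i).symm

omit [Fintype ι] [DecidableEq ι] in
theorem A9_app_assoc {a b c M : ℕ} (h : a + b + c = M) (h' : a + (b + c) = M) (u : Fin a → ι)
    (v : Fin b → ι) (y : Fin c → ι) :
    app h (app rfl (u, v), y) = app h' (u, app rfl (v, y)) := by
  funext k
  simp only [app_apply]
  split_ifs <;> first | rfl | omega | (congr 2; omega)

omit [DecidableEq ι] in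
theorem A9_ptrR_left (q : ℂ) (Y : QD κ) (a : Matrix ι ι ℂ) (T : Matrix (ι × κ) (ι × κ) ℂ) :
    ptrR q Y ((a ⊗ₖ (1 : Matrix κ κ ℂ)) * T) = a * ptrR q Y T := by
  have := A9w_diag_mul (mu q Y) (fun _ => 1) T a
  simp only [diagonal_one, mul_one] at this
  exact this

theorem J_sum {A : ℂ} (hq : Gen (A ^ 2)) {N1 N2 : ℕ} (h1 : 0 < N1) (h2 : 0 < N2) {w1 w2 : Word}
    (hw1 : ∀ x ∈ w1, x.1 + 1 < N1) (hw2 : ∀ x ∈ w2, x.1 + 1 < N2) (m : ℕ) :
    J A (N1 + N2 - 1) (w1 ++ shift (N1 - 1) w2) m * ((-1) ^ m * qi (A ^ 2) ((m : ℤ) + 1)) =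
      J A N1 w1 m * J A N2 w2 m := by
  obtain ⟨a, rfl⟩ : ∃ a, N1 = a + 1 := ⟨N1 - 1, by omega⟩
  obtain ⟨b, rfl⟩ : ∃ b, N2 = 1 + b := ⟨N2 - 1, by omega⟩
  have h : a + 1 + b = a + 1 + (1 + b) - 1 := by omega
  have h' : a + (1 + b) = a + 1 + (1 + b) - 1 := by omega
  generalize a + 1 + (1 + b) - 1 = N at h h'
  rw [Nat.add_sub_cancel]
  set q := A ^ 2 with hqA
  set W := irr q m with hW
  have hWm : IsMod q W := isMod_irr hq m
  have hr : IsHom (pow q W (1 + b)) (pow q W (1 + b)) (rho (cV A m) (1 + b) w2) :=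
    isHom_rho hq.1 (fun ε => (isBraid_cV hq m ε).hom) _ _
  have hP := isHom_ptrR hq.1 (isMod_pow hq hWm b) ((isHom_app hq.1 W W rfl rfl _).1 hr)
  set P := ptrR q (pow q W b) ((rho (cV A m) (1 + b) w2).submatrix (app rfl) (app rfl)) with hPd
  have hs := schur hq ((isHom_one1 q W).mul (hP.mul (isHom_one1_T q W)))
  generalize (one1 (Fin (m + 1)) * (P * (one1 (Fin (m + 1)))ᵀ)) 0 0 = l at hs
  have hl : P = l • (1 : Matrix (Fin 1 → Fin (m + 1)) (Fin 1 → Fin (m + 1)) ℂ) := by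
    calc P = ((one1 (Fin (m + 1)))ᵀ * one1 (Fin (m + 1))) * P *
          ((one1 (Fin (m + 1)))ᵀ * one1 (Fin (m + 1))) := by
          rw [one1_T_mul, Matrix.one_mul, Matrix.mul_one]
      _ = (one1 (Fin (m + 1)))ᵀ * (one1 (Fin (m + 1)) * (P * (one1 (Fin (m + 1)))ᵀ)) *
          one1 (Fin (m + 1)) := by simp only [Matrix.mul_assoc]
      _ = _ := by rw [hs, Matrix.mul_smul, Matrix.mul_one, Matrix.smul_mul, one1_T_mul]
  have hsm : ∀ {τ : Type} [Fintype τ] [DecidableEq τ] (X : QD τ) (T : Matrix τ τ ℂ),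
      qtr q X (l • T) = l * qtr q X T := by
    intro τ _ _ X T
    simp only [qtr, Matrix.smul_apply, smul_eq_mul, mul_sum]
    exact sum_congr rfl fun _ _ => by ring
  have e2 : J A (1 + b) w2 m = l * ((-1) ^ m * qi q ((m : ℤ) + 1)) := by
    rw [J, A9_qtr_app q W (rfl : 1 + b = 1 + b), A9_qtr_tensor hq.1, ← hPd, hl, hsm,
      ← one1_T_mul, qtr_comm q (isHom_one1 q W).wt, one1_mul_T, qtr_irr_one hq]
  have e3 : ptrR q (pow q W b) ((rho (cV A m) N (shift a w2)).submatrix (app h) (app h)) =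
      l • (1 : Matrix (Fin (a + 1) → Fin (m + 1)) (Fin (a + 1) → Fin (m + 1)) ℂ) := by
    ext x' x
    obtain ⟨⟨u', v'⟩, rfl⟩ := (app (rfl : a + 1 = a + 1)).surjective x'
    obtain ⟨⟨u, v⟩, rfl⟩ := (app (rfl : a + 1 = a + 1)).surjective x
    have k1 := congrFun (congrFun hl v') v
    have k2 := fun y => congrFun (congrFun (rho_app_right (cV A m) h' hw2) (u', app rfl (v', y)))
      (u, app rfl (v, y))
    simp only [hPd, ptrR, of_apply, submatrix_apply, kroneckerMap_apply] at k1 k2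
    simp only [ptrR, of_apply, submatrix_apply, A9_app_assoc h h', k2, mul_left_comm _ ((1 : Matrix _ _ ℂ) u' u),
      ← mul_sum, k1]
    by_cases c1 : u' = u <;> by_cases c2 : v' = v <;> simp [one_apply, c1, c2]
  have e1 : J A N (w1 ++ shift a w2) m = l * J A (a + 1) w1 m := by
    rw [J, A9_qtr_app q W h, A9_qtr_tensor hq.1, rho_append, ← submatrix_mul_equiv _ _ _ (app h),
      rho_app_left _ h hw1, A9_ptrR_left, e3, Matrix.mul_smul, Matrix.mul_one, hsm, J]
  rw [e1, e2]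
  ring

end Pool.Agent.Work.MP_c404d3_gt
end

-- merged part: Pool.Agent.Work.MP_c404d3_gt.A8
section
/-!
A8: Habiro's formula. Plan. T = rho (cV A n) 3 fig8 is a hom of pow (irr n) 3. Take the right
partial trace over the third strand, use qtr_sph on the first two strands and the left partial
trace over the first strand: the result is a hom of the middle strand, hence a scalar l, and
J = l * qtr 1 = l * (-1)^n [n+1] (careful: after qtr_sph the middle strand carries mu⁻¹, and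
∑ mu⁻¹ = ∑ mu on irr n by qtr_sph for T = 1). l is the (0,0) entry:
l = ∑ a c, mu(a)⁻¹ mu(c) T (a,0,c) (a,0,c). The last letter acts first:
(a,0,c) → (a,c,0) [letter (1,false), only the leading term] → (0,a+c,0) [letter (0,true); the
first entry must be 0 because the final middle entry is 0] → (0,a,c) [letter (1,false)] →
(a,0,c) [letter (0,true), leading term]. So T (a,0,c) (a,0,c) is the product of four cV entries
when a + c ≤ n and 0 otherwise; this is the summand of fig8_sum.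
-/

namespace Pool.Agent.Work.MP_c404d3_gt

open scoped BigOperators Real Kronecker
open Matrix Finset

variable {ι κ ι' κ' : Type} [Fintype ι] [DecidableEq ι] [Fintype κ] [DecidableEq κ]
  [Fintype ι'] [DecidableEq ι'] [Fintype κ'] [DecidableEq κ']

theorem A8_mu_app {q : ℂ} (hq : q ≠ 0) (W : QD ι) {a b M : ℕ} (h : a + b = M) (x : Fin a → ι)
    (y : Fin b → ι) :
    mu q (pow q W M) (app h (x, y)) = mu q (pow q W a) x * mu q (pow q W b) y := by
  unfold mu
  rw [pow_app_wt, ← zpow_add₀ (neg_ne_zero.2 (inv_ne_zero hq))]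
  rfl

omit [DecidableEq ι] in
theorem A8_sum_one (f : (Fin 1 → ι) → ℂ) : ∑ x, f x = ∑ a, f fun _ => a :=
  ((Equiv.funUnique (Fin 1) ι).symm.sum_comp f).symm

/-- the quantum trace through the middle strand -/
theorem A8_trace {q : ℂ} (hq : Gen q) (n : ℕ)
    {T : Matrix (Fin 3 → Fin (n + 1)) (Fin 3 → Fin (n + 1)) ℂ}
    (hT : IsHom (pow q (irr q n) 3) (pow q (irr q n) 3) T) :
    qtr q (pow q (irr q n) 3) T = (-1) ^ n * qi q ((n : ℤ) + 1) *
      ∑ a, ∑ c, (mu q (irr q n) a)⁻¹ * mu q (irr q n) c * T ![a, 0, c] ![a, 0, c] := by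
  have hV := isMod_irr hq n
  have h3 : 2 + 1 = 3 := rfl
  have h2 : 1 + 1 = 2 := rfl
  have hR := isHom_ptrR hq.1 (isMod_pow hq hV 1) ((isHom_app hq.1 _ _ h3 h3 T).1 hT)
  set R := ptrR q (pow q (irr q n) 1) (T.submatrix (app h3) (app h3)) with eR
  have hL := isHom_ptrL hq.1 (isMod_pow hq hV 1) ((isHom_app hq.1 _ _ h2 h2 R).1 hR)
  set L := ptrL q (pow q (irr q n) 1) (R.submatrix (app h2) (app h2)) with eL
  have e1 : qtr q (pow q (irr q n) 3) T = qtr q (pow q (irr q n) 2) R := by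
    unfold qtr
    rw [← (app h3).sum_comp, Fintype.sum_prod_type]
    refine Finset.sum_congr rfl fun x _ => ?_
    simp only [eR, ptrR, of_apply, submatrix_apply, Finset.mul_sum, A8_mu_app hq.1, mul_assoc]
  have e2 : qtr q (pow q (irr q n) 2) R = qtr q (pow q (irr q n) 1) L := by
    rw [qtr_sph hq (isMod_pow hq hV 2) hR, qtr_sph hq (isMod_pow hq hV 1) hL,
      ← (app h2).sum_comp, Fintype.sum_prod_type_right]
    refine Finset.sum_congr rfl fun y _ => ?_
    simp only [eL, ptrL, of_apply, submatrix_apply, Finset.mul_sum, A8_mu_app hq.1]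
    exact Finset.sum_congr rfl fun x _ => by ring
  have hs := schur hq (((isHom_one1 q _).mul hL).mul (isHom_one1_T q _))
  have e3 : qtr q (pow q (irr q n) 1) L =
      qtr q (irr q n) (one1 (Fin (n + 1)) * L * (one1 (Fin (n + 1)))ᵀ) := by
    rw [qtr_comm q (isHom_one1_T q (irr q n)).wt, ← Matrix.mul_assoc, one1_T_mul, Matrix.one_mul]
  have e4 : (one1 (Fin (n + 1)) * L * (one1 (Fin (n + 1)))ᵀ) 0 0 = L (fun _ => 0) fun _ => 0 := by
    simp [mul_apply, A8_sum_one, one1]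
  have e5 : ∀ a c : Fin (n + 1), app h3 (app h2 (fun _ => a, fun _ => 0), fun _ => c) =
      ![a, 0, c] := fun a c => by
    funext k
    fin_cases k <;> simp [app_apply]
  have e6 : ∀ a, mu q (pow q (irr q n) 1) (fun _ => a) = mu q (irr q n) a := fun a => by
    simp [mu, pow]
  rw [e1, e2, e3, hs, e4, ← qtr_irr_one hq]
  have e7 : L (fun _ => 0) (fun _ => 0) = ∑ a, ∑ c, (mu q (irr q n) a)⁻¹ * mu q (irr q n) c *
      T ![a, 0, c] ![a, 0, c] := by
    simp only [eL, eR, ptrL, ptrR, of_apply, submatrix_apply, A8_sum_one, e5, e6, Finset.mul_sum,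
      mul_assoc]
  rw [← e7]
  simp only [qtr, Matrix.smul_apply, smul_eq_mul, Finset.sum_mul]
  exact Finset.sum_congr rfl fun x _ => by ring

omit [Fintype ι] in
theorem A8_gen0 (c : Bool → Matrix (ι × ι) (ι × ι) ℂ) (ε : Bool) (y z : Fin 3 → ι) :
    gen c 3 (0, ε) y z = if y 2 = z 2 then c ε (y 0, y 1) (z 0, z 1) else 0 := by
  simp [gen, Fin.forall_fin_succ]

omit [Fintype ι] in
theorem A8_gen1 (c : Bool → Matrix (ι × ι) (ι × ι) ℂ) (ε : Bool) (y z : Fin 3 → ι) :
    gen c 3 (1, ε) y z = if y 0 = z 0 then c ε (y 1, y 2) (z 1, z 2) else 0 := by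
  simp [gen, Fin.forall_fin_succ]

theorem A8_ext {n : ℕ} {z : Fin 3 → Fin (n + 1)} {a b c : Fin (n + 1)} (h0 : (z 0 : ℕ) = a)
    (h1 : (z 1 : ℕ) = b) (h2 : (z 2 : ℕ) = c) : z = ![a, b, c] := by
  funext k
  fin_cases k
  exacts [Fin.ext h0, Fin.ext h1, Fin.ext h2]

theorem A8_true {A : ℂ} {n : ℕ} {o p : Fin (n + 1) × Fin (n + 1)} (h : cV A n true o p ≠ 0) :
    (o.1 : ℕ) + o.2 = p.1 + p.2 ∧ (p.1 : ℕ) ≤ o.2 := by
  by_contra hn
  apply h
  simp only [cV, of_apply, if_true]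
  split_ifs with h1 h2
  exacts [(hn ⟨h1, h2⟩).elim, rfl, rfl]

theorem A8_false {A : ℂ} {n : ℕ} {o p : Fin (n + 1) × Fin (n + 1)} (h : cV A n false o p ≠ 0) :
    (o.1 : ℕ) + o.2 = p.1 + p.2 ∧ (o.2 : ℕ) ≤ p.1 := by
  by_contra hn
  apply h
  simp only [cV, of_apply, Bool.false_eq_true, if_false]
  split_ifs with h1 h2
  exacts [(hn ⟨h1, h2⟩).elim, rfl, rfl]

theorem A8_gen0_ne {A : ℂ} {n : ℕ} {y z : Fin 3 → Fin (n + 1)}
    (h : gen (cV A n) 3 (0, true) y z ≠ 0) :
    (y 2 : ℕ) = z 2 ∧ (y 0 : ℕ) + y 1 = z 0 + z 1 ∧ (z 0 : ℕ) ≤ y 1 := by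
  rw [A8_gen0] at h
  obtain ⟨h1, h2⟩ := ite_ne_right_iff.1 h
  exact ⟨congrArg _ h1, A8_true h2⟩

theorem A8_gen1_ne {A : ℂ} {n : ℕ} {y z : Fin 3 → Fin (n + 1)}
    (h : gen (cV A n) 3 (1, false) y z ≠ 0) :
    (y 0 : ℕ) = z 0 ∧ (y 1 : ℕ) + y 2 = z 1 + z 2 ∧ (y 2 : ℕ) ≤ z 1 := by
  rw [A8_gen1] at h
  obtain ⟨h1, h2⟩ := ite_ne_right_iff.1 h
  exact ⟨congrArg _ h1, A8_false h2⟩

/-- the diagonal entries of the figure-eight braid -/
theorem A8_entry (A : ℂ) (n : ℕ) (a c : Fin (n + 1)) :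
    rho (cV A n) 3 fig8 ![a, 0, c] ![a, 0, c] = if (a : ℕ) + c < n + 1 then
      (A ^ ((n : ℤ) * ((n : ℤ) - 2 * (a : ℕ))) *
        ((-1) ^ (a : ℕ) * A ^ (-(((n : ℤ) - 2 * ((a : ℕ) + (c : ℕ))) * n)) *
          ((A ^ 2)⁻¹) ^ ((a : ℕ).choose 2) *
          ∏ s ∈ range a, qb (A ^ 2) ((n : ℤ) - ((a : ℕ) + (c : ℕ)) + (s + 1))) *
        (A ^ ((n : ℤ) * ((n : ℤ) - 2 * ((a : ℕ) + (c : ℕ)))) * (A ^ 2) ^ ((c : ℕ).choose 2) *
          qbin (A ^ 2) (a + c) c * ∏ s ∈ range c, qb (A ^ 2) ((n : ℤ) - (c : ℕ) + (s + 1))) *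
        A ^ (-((n : ℤ) * ((n : ℤ) - 2 * (c : ℕ))))) else 0 := by
  have e : rho (cV A n) 3 fig8 = gen (cV A n) 3 (0, true) *
      (gen (cV A n) 3 (1, false) * gen (cV A n) 3 (0, true) * gen (cV A n) 3 (1, false)) := by
    simp [fig8, rho, Matrix.mul_assoc]
  rw [e, mul_apply, Finset.sum_eq_single ![0, a, c], mul_apply, Finset.sum_eq_single ![a, c, 0],
    mul_apply]
  · split_ifs with h
    · rw [Finset.sum_eq_single ![0, ⟨a + c, h⟩, 0]]
      · have h1 : c ≤ ⟨a + c, h⟩ := Nat.le_add_left _ _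
        have h2 : a ≤ ⟨a + c, h⟩ := Nat.le_add_right _ _
        simp [A8_gen0, A8_gen1, cV, qbin, qbin_self, h1, h2, add_comm]
        ring_nf
      · intro z _ hz
        by_contra h0
        have h1 := A8_gen1_ne (left_ne_zero_of_mul h0)
        have h2 := A8_gen0_ne (right_ne_zero_of_mul h0)
        change 0 = (z 0 : ℕ) ∧ (a : ℕ) + c = z 1 + z 2 ∧ _ at h1
        change (z 2 : ℕ) = 0 ∧ _ at h2
        exact hz (A8_ext h1.1.symm (show (z 1 : ℕ) = a + c by omega) h2.1)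
      · simp
    · rw [Finset.sum_eq_zero, zero_mul, mul_zero]
      intro z _
      by_contra h0
      have h1 := A8_gen1_ne (left_ne_zero_of_mul h0)
      have h2 := A8_gen0_ne (right_ne_zero_of_mul h0)
      have := (z 1).2
      change _ ∧ (a : ℕ) + c = z 1 + z 2 ∧ _ at h1
      change (z 2 : ℕ) = 0 ∧ _ at h2
      omega
  · intro z _ hz
    by_contra h0
    have h1 := A8_gen1_ne (right_ne_zero_of_mul h0)
    change (z 0 : ℕ) = a ∧ (z 1 : ℕ) + z 2 = 0 + c ∧ (z 2 : ℕ) ≤ 0 at h1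
    exact hz (A8_ext (by omega) (by omega) (show (z 2 : ℕ) = 0 by omega))
  · simp
  · intro z _ hz
    by_contra h0
    have h1 := A8_gen0_ne (left_ne_zero_of_mul h0)
    change (c : ℕ) = z 2 ∧ (a : ℕ) + 0 = z 0 + z 1 ∧ (z 0 : ℕ) ≤ 0 at h1
    exact hz (A8_ext (show (z 0 : ℕ) = 0 by omega) (by omega) (by omega))
  · simp

theorem J_fig8 {A : ℂ} (hq : Gen (A ^ 2)) (n : ℕ) :
    J A 3 fig8 n = (-1) ^ n * qi (A ^ 2) ((n : ℤ) + 1) * Hab (A ^ 2) (n + 1) := by
  have hA : A ≠ 0 := fun h => hq.1 (by simp [h])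
  rw [J, A8_trace hq n (isHom_rho hq.1 (fun ε => (isBraid_cV hq n ε).hom) 3 fig8),
    ← fig8_sum hA n, Finset.sum_range]
  congr 1
  refine Finset.sum_congr rfl fun a _ => ?_
  have e : range (n + 1 - a) = (range (n + 1)).filter fun c => (a : ℕ) + c < n + 1 := by
    ext c
    simp only [Finset.mem_filter, Finset.mem_range]
    omega
  rw [e, Finset.sum_filter, Finset.sum_range]
  refine Finset.sum_congr rfl fun c _ => ?_
  rw [A8_entry, mul_ite, mul_zero]
  rfl

end Pool.Agent.Work.MP_c404d3_gt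
end

-- merged part: Pool.Agent.Work.MP_c404d3_gt.A4
section
/-!
A4: the cabled crossing is a braiding.
Plan. hom: isHom_rho and isHom_app. tri and lead: follow the strands. rho acts with the LAST
letter first; crossWord a b 0 ε takes an input block structure (b | a) to (a | b), and in every
elementary crossing the left input strand belongs to the b-block. Suggested invariant for a
matrix T on Fin M → ι, finsets S S' of positions, a permutation π and an exponent φ:
  Tri T S S' π φ := ∀ y x, (T y x ≠ 0 → sg ε * ∑ k ∈ S', wt (y k) ≤ sg ε * ∑ k ∈ S, wt (x k)) ∧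
    (∑ k ∈ S', wt (y k) = ∑ k ∈ S, wt (x k) → T y x = if y = x ∘ π then A ^ (sg ε * φ x) else 0).
It is closed under products (Tri.mul, when S' is the image of S), holds for gen at position i
when i ∈ S, i+1 ∉ S; then induction on b (one row) and on a (rows). Alternative: the two hexagon
lemmas (c1 ⊗ 1)(1 ⊗ c2) at the level of IsBraid, transported with app and rho_app_left/right,
using crossWord (a+1) b s = row ++ crossWord a b s.
-/

namespace Pool.Agent.Work.MP_c404d3_gt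

open scoped BigOperators Real Kronecker
open Matrix Finset

variable {ι κ ι' κ' : Type} [Fintype ι] [DecidableEq ι] [Fintype κ] [DecidableEq κ]
  [Fintype ι'] [DecidableEq ι'] [Fintype κ'] [DecidableEq κ']

/-- the weight at position `k` -/
def A4w (W : QD ι) {M : ℕ} (x : Fin M → ι) (k : ℕ) : ℤ :=
  if h : k < M then W.wt (x ⟨k, h⟩) else 0

/-- the total weight of the marked strands -/
def A4s (W : QD ι) {M : ℕ} (m : ℕ → ℤ) (x : Fin M → ι) : ℤ := ∑ k : Fin M, m k * W.wt (x k)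

/-- triangularity with respect to the marked strands, with leading term a permutation -/
def A4T (A : ℂ) (e : ℤ) (W : QD ι) {M : ℕ} (T : Matrix (Fin M → ι) (Fin M → ι) ℂ) (m : ℕ → ℤ)
    (f : ℕ → ℕ) (φ : (ℕ → ℤ) → ℤ) : Prop :=
  ∃ σ : Equiv.Perm (Fin M), (∀ k, (σ k : ℕ) = f k) ∧ (∀ k, M ≤ k → M ≤ f k) ∧
    (∀ y x, T y x ≠ 0 → e * A4s W (m ∘ f) y ≤ e * A4s W m x) ∧
    ∀ y x, A4s W (m ∘ f) y = A4s W m x →
      T y x = if y = x ∘ σ then A ^ (e * φ (A4w W x)) else 0

/-- one crossing -/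
def A4sw (i k : ℕ) : ℕ := if k = i then i + 1 else if k = i + 1 then i else k

/-- one row of crossings -/
def A4rw (s b k : ℕ) : ℕ := if k = s then s + b else if s < k ∧ k ≤ s + b then k - 1 else k

/-- the cabled crossing -/
def A4cw (a b k : ℕ) : ℕ := if k < a then b + k else if k < a + b then k - a else k

section
variable {A : ℂ} {e : ℤ} {W : QD ι} {M : ℕ} {m : ℕ → ℤ} {f f₁ f₂ : ℕ → ℕ}
  {φ φ₁ φ₂ : (ℕ → ℤ) → ℤ} {T T₁ T₂ : Matrix (Fin M → ι) (Fin M → ι) ℂ} {σ : Equiv.Perm (Fin M)}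
  {c : Bool → Matrix (ι × ι) (ι × ι) ℂ} {ε : Bool}

omit [Fintype ι] [DecidableEq ι] in
theorem A4s_comp (h : ∀ k, (σ k : ℕ) = f k) (x : Fin M → ι) :
    A4s W (m ∘ f) (x ∘ σ) = A4s W m x := by
  rw [A4s, A4s, ← Equiv.sum_comp σ fun k => m k * W.wt (x k)]
  exact Finset.sum_congr rfl fun k _ => by rw [h]; rfl

omit [Fintype ι] [DecidableEq ι] in
theorem A4w_comp (h : ∀ k, (σ k : ℕ) = f k) (h' : ∀ k, M ≤ k → M ≤ f k) (x : Fin M → ι) :
    A4w W (x ∘ σ) = A4w W x ∘ f := by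
  funext k
  change A4w W _ k = A4w W x (f k)
  unfold A4w
  by_cases hk : k < M
  · have h1 : (σ ⟨k, hk⟩ : ℕ) = f k := h _
    rw [dif_pos hk, dif_pos (h1 ▸ (σ ⟨k, hk⟩).2)]
    exact congrArg (fun l => W.wt (x l)) (Fin.ext h1)
  · rw [dif_neg hk, dif_neg (not_lt.2 (h' k (not_lt.1 hk)))]

omit [Fintype ι] [DecidableEq ι] in
theorem A4s_range (x : Fin M → ι) : A4s W m x = ∑ k ∈ range M, m k * A4w W x k := by
  rw [A4s, ← Fin.sum_univ_eq_sum_range fun k => m k * A4w W x k]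
  exact Finset.sum_congr rfl fun k _ => by rw [A4w, dif_pos k.2]

omit [Fintype ι] in
theorem A4_pow_wt (q : ℂ) (x : Fin M → ι) : (pow q W M).wt x = ∑ k ∈ range M, A4w W x k := by
  rw [← Fin.sum_univ_eq_sum_range fun k => A4w W x k]
  change ∑ k, W.wt (x k) = _
  exact Finset.sum_congr rfl fun k _ => by rw [A4w, dif_pos k.2]

omit [Fintype ι] [DecidableEq ι] in
theorem A4w_left {a b : ℕ} (h : a + b = M) (u : Fin a → ι) (v : Fin b → ι) {k : ℕ} (hk : k < a) :
    A4w W (app h (u, v)) k = A4w W u k := by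
  rw [A4w, A4w, dif_pos hk, dif_pos (by omega), app_apply, dif_pos hk]

omit [Fintype ι] [DecidableEq ι] in
theorem A4w_right {a b : ℕ} (h : a + b = M) (u : Fin a → ι) (v : Fin b → ι) {k : ℕ} (hk : k < b) :
    A4w W (app h (u, v)) (a + k) = A4w W v k := by
  rw [A4w, A4w, dif_pos hk, dif_pos (by omega), app_apply, dif_neg (by simp)]
  simp

omit [Fintype ι] in
theorem A4T_one : A4T A e W (1 : Matrix (Fin M → ι) (Fin M → ι) ℂ) m id fun _ => 0 := by
  refine ⟨Equiv.refl _, fun _ => rfl, fun _ h => h, fun y x h => ?_, fun y x _ => ?_⟩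
  · obtain rfl : y = x := by_contra fun h' => h (Matrix.one_apply_ne h')
    exact le_rfl
  · rw [mul_zero, zpow_zero, Matrix.one_apply]
    rfl

theorem A4T_mul (hA : A ≠ 0) (he : e ≠ 0) (h₁ : A4T A e W T₁ m f₁ φ₁)
    (h₂ : A4T A e W T₂ (m ∘ f₁) f₂ φ₂) (hf : ∀ k, f k = f₁ (f₂ k))
    (hφ : ∀ v, φ v = φ₂ (v ∘ f₁) + φ₁ v) : A4T A e W (T₂ * T₁) m f φ := by
  obtain rfl : f = f₁ ∘ f₂ := funext hf
  obtain ⟨σ₁, a₁, b₁, t₁, l₁⟩ := h₁
  obtain ⟨σ₂, a₂, b₂, t₂, l₂⟩ := h₂
  refine ⟨σ₂.trans σ₁, fun k => by rw [Equiv.trans_apply, a₁, a₂]; rfl,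
    fun k hk => b₁ _ (b₂ k hk), fun y x h => ?_, fun y x h => ?_⟩
  · rw [Matrix.mul_apply] at h
    obtain ⟨z, -, hz⟩ := Finset.exists_ne_zero_of_sum_ne_zero h
    exact (t₂ y z (left_ne_zero_of_mul hz)).trans (t₁ z x (right_ne_zero_of_mul hz))
  · have hc : A4s W (m ∘ f₁) (x ∘ σ₁) = A4s W m x := A4s_comp a₁ x
    rw [Matrix.mul_apply, Finset.sum_eq_single (x ∘ σ₁), l₁ _ _ hc, if_pos rfl,
      l₂ _ _ (h.trans hc.symm), A4w_comp a₁ b₁, hφ, mul_add, zpow_add₀ hA, ite_mul, zero_mul]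
    · rfl
    · intro z _ hz
      by_contra h0
      have h1 := t₂ y z (left_ne_zero_of_mul h0)
      have h2 := t₁ z x (right_ne_zero_of_mul h0)
      have h3 : A4s W (m ∘ f₁) z = A4s W m x :=
        mul_left_cancel₀ he (le_antisymm h2 (h ▸ h1))
      exact right_ne_zero_of_mul h0 (by rw [l₁ z x h3, if_neg hz])
    · exact fun h => absurd (Finset.mem_univ _) h

theorem A4T_gen (hc : IsBraid A ε W W (c ε)) {i : ℕ} (hi : i + 1 < M) (h1 : m i = 1)
    (h0 : m (i + 1) = 0) :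
    A4T A (sg ε) W (gen c M (i, ε)) m (A4sw i) fun v => v i * v (i + 1) := by
  let I : Fin M := ⟨i, by omega⟩
  let J : Fin M := ⟨i + 1, hi⟩
  have hIJ : I ≠ J := fun h => by simp [I, J] at h
  have hI : ∀ {k : Fin M}, k ≠ I ↔ (k : ℕ) ≠ i := Fin.ne_iff_vne _ _
  have hJ : ∀ {k : Fin M}, k ≠ J ↔ (k : ℕ) ≠ i + 1 := Fin.ne_iff_vne _ _
  have hg : ∀ y x, gen c M (i, ε) y x =
      if ∀ k : Fin M, (k : ℕ) ≠ i → (k : ℕ) ≠ i + 1 → y k = x k then
        c ε (y I, y J) (x I, x J) else 0 := fun y x => by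
    rw [gen, dif_pos hi]
    rfl
  have key : ∀ y x : Fin M → ι, (∀ k : Fin M, (k : ℕ) ≠ i → (k : ℕ) ≠ i + 1 → y k = x k) →
      A4s W (m ∘ A4sw i) y - A4s W m x = W.wt (y J) - W.wt (x I) := fun y x h => by
    rw [A4s, A4s, ← Finset.sum_sub_distrib, Fintype.sum_eq_add I J hIJ]
    · simp [A4sw, I, J, h0, h1]
      ring
    · intro k hk
      have h2 := hI.1 hk.1
      have h3 := hJ.1 hk.2
      simp [A4sw, h2, h3, h k h2 h3]
  refine ⟨Equiv.swap I J, fun k => ?_, fun k hk => ?_, fun y x h => ?_, fun y x h => ?_⟩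
  · rw [Equiv.swap_apply_def, A4sw]
    simp only [Fin.ext_iff, I, J]
    split_ifs <;> rfl
  · unfold A4sw
    split_ifs <;> omega
  · rw [hg] at h
    split_ifs at h with h2
    · have h3 := hc.tri _ _ h
      have h4 := congrArg (sg ε * ·) (key y x h2)
      simp only [mul_sub] at h3 h4
      linarith
    · exact absurd rfl h
  · rw [hg]
    by_cases h2 : ∀ k : Fin M, (k : ℕ) ≠ i → (k : ℕ) ≠ i + 1 → y k = x k
    · have h3 := key y x h2
      rw [h, sub_self] at h3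
      rw [if_pos h2, hc.lead (y I, y J) (x I, x J) (sub_eq_zero.1 h3.symm)]
      simp only [A4w]
      rw [dif_pos hi, dif_pos I.2]
      refine if_congr ⟨fun h4 => funext fun k => ?_, fun h4 => ?_⟩ rfl rfl
      · rw [Function.comp_apply, Equiv.swap_apply_def]
        split_ifs with h5 h6
        · exact h5 ▸ h4.2
        · exact h6 ▸ h4.1
        · exact h2 k (hI.1 h5) (hJ.1 h6)
      · simp [h4]
    · rw [if_neg h2, if_neg]
      rintro rfl
      exact h2 fun k h3 h4 => congrArg x (Equiv.swap_apply_of_ne_of_ne (hI.2 h3) (hJ.2 h4))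

theorem A4_sg (ε : Bool) : sg ε ≠ 0 := by cases ε <;> simp [sg]

theorem A4T_row (hA : A ≠ 0) (hc : IsBraid A ε W W (c ε)) (s b : ℕ) (hb : s + b < M)
    (h1 : ∀ k < b, m (s + k) = 1) (h0 : m (s + b) = 0) :
    A4T A (sg ε) W (rho c M ((List.range b).map fun k => (s + k, ε))) m (A4rw s b)
      fun v => (∑ k ∈ range b, v (s + k)) * v (s + b) := by
  induction b generalizing m with
  | zero =>
    have : A4rw s 0 = id := funext fun k => by
      unfold A4rw
      split_ifs <;> simp_all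
      omega
    simpa [this] using A4T_one
  | succ b ih =>
    have hs : ∀ k < b, A4sw (s + b) (s + k) = s + k := fun k hk => by
      unfold A4sw
      split_ifs <;> omega
    have hs' : A4sw (s + b) (s + b) = s + (b + 1) := if_pos rfl
    rw [List.range_succ, List.map_append, rho_append, List.map_singleton, rho_cons, rho_nil,
      mul_one]
    refine A4T_mul hA (A4_sg ε) (A4T_gen hc hb (h1 b (by omega)) h0)
      (ih (by omega) (fun k hk => ?_) ?_) (fun k => ?_) fun v => ?_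
    · rw [Function.comp_apply, hs k hk, h1 k (by omega)]
    · rw [Function.comp_apply, hs', h0]
    · unfold A4rw A4sw
      split_ifs <;> omega
    · simp only [Function.comp_apply]
      rw [Finset.sum_range_succ, add_mul, hs',
        Finset.sum_congr rfl fun k hk => congrArg v (hs k (mem_range.1 hk))]
      rfl

theorem A4_word (a b : ℕ) (ε : Bool) : crossWord (a + 1) b 0 ε =
    ((List.range b).map fun k => (a + k, ε)) ++ crossWord a b 0 ε := by
  rw [crossWord, crossWord, List.range_succ_eq_map, List.flatMap_cons, List.flatMap_map]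
  simp [Nat.sub_sub, Nat.add_comm 1]

theorem A4T_cross (hA : A ≠ 0) (hc : IsBraid A ε W W (c ε)) (a b : ℕ) (hb : a + b ≤ M) :
    A4T A (sg ε) W (rho c M (crossWord a b 0 ε)) (fun k => if k < b then 1 else 0) (A4cw a b)
      fun v => (∑ k ∈ range b, v k) * ∑ l ∈ range a, v (b + l) := by
  induction a with
  | zero =>
    have : A4cw 0 b = id := funext fun k => by simp [A4cw]
    simpa [this, crossWord] using A4T_one
  | succ a ih =>
    have hs : ∀ k < b, A4cw a b (a + k) = k := fun k hk => by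
      unfold A4cw
      split_ifs <;> omega
    have hs' : A4cw a b (a + b) = b + a := by
      unfold A4cw
      split_ifs <;> omega
    rw [A4_word, rho_append]
    refine A4T_mul hA (A4_sg ε) (ih (by omega))
      (A4T_row hA hc a b (by omega) (fun k hk => ?_) ?_) (fun k => ?_) fun v => ?_
    · rw [Function.comp_apply, hs k hk, if_pos hk]
    · rw [Function.comp_apply, hs', if_neg (by omega)]
    · unfold A4rw A4cw
      split_ifs <;> omega
    · simp only [Function.comp_apply]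
      rw [Finset.sum_range_succ, mul_add, hs', add_comm,
        Finset.sum_congr rfl fun k hk => congrArg v (hs k (mem_range.1 hk))]

end

theorem isBraid_cross {A : ℂ} (hA : A ≠ 0) {W : QD ι} {c : Bool → Matrix (ι × ι) (ι × ι) ℂ}
    (hc : ∀ ε, IsBraid A ε W W (c ε)) (a b : ℕ) (ε : Bool) :
    IsBraid A ε (pow (A ^ 2) W b) (pow (A ^ 2) W a) (cross c a b ε) := by
  have hq := pow_ne_zero 2 hA
  obtain ⟨σ, hσ, -, ht, hl⟩ := A4T_cross hA (hc ε) a b (le_refl (a + b))
  have hx : ∀ p : (Fin b → ι) × (Fin a → ι), A4s W (fun k => if k < b then 1 else 0)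
      (app (Nat.add_comm b a) p) = (pow (A ^ 2) W b).wt p.1 := fun p => by
    rw [A4s_range, A4_pow_wt, show range (a + b) = range (b + a) by rw [add_comm],
      Finset.sum_range_add, Finset.sum_eq_zero (s := range a) fun k _ => by simp, add_zero]
    refine Finset.sum_congr rfl fun k hk => ?_
    rw [if_pos (mem_range.1 hk), one_mul, A4w_left _ _ _ (mem_range.1 hk)]
  have hy : ∀ o : (Fin a → ι) × (Fin b → ι), A4s W ((fun k => if k < b then 1 else 0) ∘ A4cw a b)
      (app rfl o) = (pow (A ^ 2) W b).wt o.2 := fun o => by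
    rw [A4s_range, A4_pow_wt, Finset.sum_range_add,
      Finset.sum_eq_zero (s := range a) fun k hk => by simp [A4cw, mem_range.1 hk], zero_add]
    refine Finset.sum_congr rfl fun k hk => ?_
    rw [A4w_right _ _ _ (mem_range.1 hk)]
    simp [A4cw, mem_range.1 hk]
  refine ⟨(isHom_app hq W W (Nat.add_comm b a) rfl _).1
    (isHom_rho hq (fun ε => (hc ε).hom) _ _), fun o p h => ?_, fun o p h => ?_⟩
  · rw [← hx, ← hy]
    exact ht _ _ h
  · have e1 : app (Nat.add_comm b a) p ∘ σ = app rfl (p.2, p.1) := funext fun k => by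
      have h1 := hσ k
      rw [Function.comp_apply, app_apply, app_apply]
      unfold A4cw at h1
      have := k.2
      split_ifs at h1 ⊢ <;> first | omega | exact congrArg _ (Fin.ext (by simp only; omega))
    refine (hl _ _ ((hy o).trans (h.trans (hx p).symm))).trans (if_congr ?_ ?_ rfl)
    · rw [e1, Equiv.apply_eq_iff_eq, Prod.ext_iff, and_comm]
    · simp only [A4_pow_wt]
      rw [Finset.sum_congr rfl fun k hk => A4w_left (W := W) _ p.1 p.2 (mem_range.1 hk),
        Finset.sum_congr rfl fun k hk => A4w_right (W := W) _ p.1 p.2 (mem_range.1 hk)]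

end Pool.Agent.Work.MP_c404d3_gt
end

-- merged part: Pool.Agent.Work.MP_c404d3_gt.A11
section
/-!
A11: the Rosso-Jones traces by deformation to A = 1.
Plan. Put A = B^k, X = pow (irr n) k, τ = rho (cV A n) k v, f B = (ch m - ch (m+2)) * B^(-e m).
(1) For real B > 1 take decomp of X; M b' b = (p b' τ i b) 0 0 on the b with m b = m. Using schur,
schur_ne and ∑ i p = 1 one gets M^k = A^(e m) • 1 and ch m - ch (m+2) = trace M (ch_of_decomp).
The trace is the sum of the roots of the characteristic polynomial (Matrix.trace_eq_sum_roots_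
charpoly), each root z is an eigenvalue so z^k = (B^(e m))^k; so f B is a sum of at most
D = (n+1)^k k-th roots of unity: f B lies in a fixed finite (or countable) set S.
(2) f is continuous on B > 0 (entries of cV are Laurent polynomials in A; qbin by recursion).
A continuous map from the preconnected set Ioi 1 to a countable subset of ℂ is constant
(IsPreconnected image, Set.Countable is totally disconnected), and by continuity equal to f 1.
(3) At A = 1, cV 1 n ε is the flip, rho v is the permutation matrix of perm v, and a diagonal entry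
at x is 1 if x is constant (IsKnot) and 0 otherwise; weights do not depend on A.
-/

namespace Pool.Agent.Work.MP_c404d3_gt

open scoped BigOperators Real Kronecker
open Matrix Finset

variable {ι κ ι' κ' : Type} [Fintype ι] [DecidableEq ι] [Fintype κ] [DecidableEq κ]
  [Fintype ι'] [DecidableEq ι'] [Fintype κ'] [DecidableEq κ']

/-- The trace of a matrix of finite order is an algebraic integer. -/
theorem A11_integral {M : Matrix ι ι ℂ} {k : ℕ} (hk : 0 < k) (h : M ^ k = 1) :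
    IsIntegral ℤ M.trace := by
  rcases isEmpty_or_nonempty ι with hι | hι
  · simp only [Matrix.trace, Finset.univ_eq_empty, Finset.sum_empty]
    exact isIntegral_zero
  rw [Matrix.trace_eq_sum_roots_charpoly]
  refine IsIntegral.multiset_sum fun z hz => IsIntegral.of_pow hk ?_
  have h1 := spectrum.pow_mem_pow M k
    (Matrix.mem_spectrum_iff_isRoot_charpoly.2 (Polynomial.isRoot_of_mem_roots hz))
  rw [h, spectrum.one_eq] at h1
  rw [h1]
  exact isIntegral_one

theorem A11_col {q : ℂ} {m m' : ℕ} (h : m' = m) {T : Matrix (Fin (m' + 1)) (Fin (m + 1)) ℂ}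
    (hT : IsHom (irr q m) (irr q m') T) {a : Fin (m' + 1)} (ha : a ≠ 0) : T a 0 = 0 := by
  by_contra h0
  have h1 := hT.wt a 0 h0
  simp only [irr, Fin.val_zero] at h1
  exact ha (Fin.ext (by rw [Fin.val_zero]; omega))

/-- The multiplicity space trace. -/
theorem A11_trace {q : ℂ} (hq : Gen q) {X : QD ι} (hX : IsMod q X) {τ : Matrix ι ι ℂ}
    (hτ : IsHom X X τ) {k : ℕ} (hk : 0 < k) (m : ℕ) {l : ℂ} (hl : l ≠ 0)
    (H : ∀ i : Matrix ι (Fin (m + 1)) ℂ, IsHom (irr q m) X i → τ ^ k * i = l ^ k • i) :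
    IsIntegral ℤ (l⁻¹ * (ch X τ m - ch X τ (m + 2))) := by
  obtain ⟨N, mm, i, p, hi, hp, h1, h0, hs⟩ := decomp hq hX
  let U : Matrix ι {b // mm b = m} ℂ := Matrix.of fun x b => i b.1 x 0
  let W : Matrix {b // mm b = m} ι ℂ := Matrix.of fun b x => p b.1 0 x
  have e2 : W * U = 1 := by
    ext b' b
    have e : (W * U) b' b = (p b'.1 * i b.1) 0 0 := rfl
    rw [e]
    by_cases hb : b' = b
    · subst hb
      rw [h1, Matrix.one_apply_eq, Matrix.one_apply_eq]
    · rw [h0 _ _ fun h => hb (Subtype.ext h), Matrix.one_apply_ne hb, Matrix.zero_apply]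
  have e3 : τ * U = U * (W * τ * U) := by
    ext x b
    have a1 : (τ * U) x b = (τ * i b.1) x 0 := rfl
    have a2 : τ * i b.1 = ∑ b', i b' * (p b' * τ * i b.1) := by
      conv_lhs => rw [← Matrix.one_mul τ, ← hs]
      rw [Matrix.sum_mul, Matrix.sum_mul]
      simp only [Matrix.mul_assoc]
    have a3 : ∀ b', IsHom (irr q (mm b.1)) (irr q (mm b')) (p b' * τ * i b.1) :=
      fun b' => ((hp b').mul hτ).mul (hi b.1)
    have a4 : (U * (W * τ * U)) x b =
        ∑ b' : {b // mm b = m}, i b'.1 x 0 * (p b'.1 * τ * i b.1) 0 0 := rfl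
    rw [a1, a2, a4, Matrix.sum_apply,
      ← Finset.sum_subtype (Finset.univ.filter fun b' => mm b' = m) (p := fun b' => mm b' = m)
        (by simp) fun b' => i b' x 0 * (p b' * τ * i b.1) 0 0, Finset.sum_filter]
    · refine Finset.sum_congr rfl fun b' _ => ?_
      split_ifs with hb
      · rw [Matrix.mul_apply, Finset.sum_eq_single 0]
        · intro a _ ha
          rw [A11_col (hb.trans b.2.symm) (a3 b') ha, mul_zero]
        · intro h
          exact absurd (Finset.mem_univ _) h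
      · rw [schur_ne hq (fun h => hb (h.symm.trans b.2)) (a3 b'), Matrix.mul_zero,
          Matrix.zero_apply]
  have e4 : ∀ j : ℕ, τ ^ j * U = U * (W * τ * U) ^ j := by
    intro j
    induction j with
    | zero => simp
    | succ j ih => rw [pow_succ', Matrix.mul_assoc, ih, ← Matrix.mul_assoc, e3, pow_succ',
        Matrix.mul_assoc]
  have e5 : τ ^ k * U = l ^ k • U := by
    ext x ⟨b, rfl⟩
    exact congrFun (congrFun (H (i b) (hi b)) x) 0
  have e6 : (l⁻¹ • (W * τ * U)) ^ k = 1 := by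
    rw [smul_pow, ← Matrix.one_mul ((W * τ * U) ^ k), ← e2, Matrix.mul_assoc W U, ← e4, e5,
      Matrix.mul_smul, smul_smul, ← mul_pow, inv_mul_cancel₀ hl, one_pow, one_smul]
  have e7 := A11_integral hk e6
  rw [Matrix.trace_smul, smul_eq_mul] at e7
  rw [ch_of_decomp hq hi hp hs hτ m, ← Finset.sum_filter,
    Finset.sum_subtype (Finset.univ.filter fun b' => mm b' = m) (p := fun b' => mm b' = m)
      (by simp)]
  exact e7

section cont

variable {A : ℝ → ℂ}

theorem A11_qbin (hA : Continuous A) (h0 : ∀ t, A t ≠ 0) (a b : ℕ) :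
    Continuous fun t => qbin (A t) a b := by
  induction a generalizing b with
  | zero => cases b <;> simp only [qbin] <;> exact continuous_const
  | succ a ih =>
    cases b with
    | zero =>
      simp only [qbin]
      exact continuous_const
    | succ b =>
      simp only [qbin]
      exact ((hA.pow _).mul (ih _)).add ((hA.zpow₀ _ fun t => Or.inl (h0 t)).mul (ih _))

theorem A11_ite {P : Prop} [Decidable P] {f g : ℝ → ℂ} (hf : Continuous f) (hg : Continuous g) :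
    Continuous fun t => if P then f t else g t := by
  split_ifs
  exacts [hf, hg]

theorem A11_cV (hA : Continuous A) (h0 : ∀ t, A t ≠ 0) (n : ℕ) (ε : Bool)
    (o p : Fin (n + 1) × Fin (n + 1)) : Continuous fun t => cV (A t) n ε o p := by
  have h2 : ∀ t, A t ^ 2 ≠ 0 := fun t => pow_ne_zero 2 (h0 t)
  have hz : ∀ z : ℤ, Continuous fun t => A t ^ z := fun z => hA.zpow₀ _ fun t => Or.inl (h0 t)
  have hq : ∀ z : ℤ, Continuous fun t => qb (A t ^ 2) z := fun z =>
    ((hA.pow 2).zpow₀ _ fun t => Or.inl (h2 t)).sub ((hA.pow 2).zpow₀ _ fun t => Or.inl (h2 t))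
  simp only [cV, Matrix.of_apply]
  refine A11_ite (A11_ite (A11_ite ?_ continuous_const) (A11_ite ?_ continuous_const))
    continuous_const
  · exact (((hz _).mul ((hA.pow 2).pow _)).mul (A11_qbin (hA.pow 2) h2 _ _)).mul
      (continuous_finsetProd _ fun s _ => hq _)
  · exact (((continuous_const.mul (hz _)).mul (((hA.pow 2).inv₀ h2).pow _)).mul
      (A11_qbin (hA.pow 2) h2 _ _)).mul (continuous_finsetProd _ fun s _ => hq _)

theorem A11_rho {c : ℝ → Bool → Matrix (ι × ι) (ι × ι) ℂ}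
    (hc : ∀ ε o p, Continuous fun t => c t ε o p) (N : ℕ) (w : Word) :
    Continuous fun t => rho (c t) N w := by
  induction w with
  | nil =>
    simp only [rho_nil]
    exact continuous_const
  | cons x w ih =>
    simp only [rho_cons]
    refine Continuous.mul ?_ ih
    by_cases h : x.1 + 1 < N
    · simp only [gen, dif_pos h]
      exact continuous_matrix fun y z => A11_ite (hc _ _ _) continuous_const
    · simp only [gen, dif_neg h]
      exact continuous_const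

end cont

theorem A11_prod (d : ℕ) (z : ℕ → ℤ) : ∏ s ∈ range d, qb ((1 : ℂ) ^ 2) (z s) =
    if d = 0 then 1 else 0 := by
  cases d <;> simp [qb]

theorem A11_flip (n : ℕ) (ε : Bool) (o p : Fin (n + 1) × Fin (n + 1)) :
    cV 1 n ε o p = if o.1 = p.2 ∧ o.2 = p.1 then 1 else 0 := by
  simp only [cV, Matrix.of_apply, A11_prod, Fin.ext_iff]
  by_cases h : (o.1 : ℕ) = p.2 ∧ (o.2 : ℕ) = p.1
  · rw [if_pos h, if_pos (by omega), if_pos h.2.ge, if_pos h.2.le, h.2, Nat.sub_self]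
    simp [qbin]
  · rw [if_neg h]
    split_ifs <;> first | rfl | exact mul_zero _ | omega

theorem A11_perm {c : Bool → Matrix (ι × ι) (ι × ι) ℂ}
    (hc : ∀ ε o p, c ε o p = if o.1 = p.2 ∧ o.2 = p.1 then 1 else 0) {N : ℕ} {w : Word}
    (hw : ∀ x ∈ w, x.1 + 1 < N) : ∃ σ : Equiv.Perm (Fin N), (∀ b, (σ b : ℕ) = perm w b) ∧
      (∀ j, N ≤ j → perm w j = j) ∧ ∀ y z, rho c N w y z = if y ∘ σ = z then 1 else 0 := by
  induction w with
  | nil => exact ⟨1, fun _ => rfl, fun _ _ => rfl, fun y z => by simp [Matrix.one_apply]⟩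
  | cons x w ih =>
    obtain ⟨σ, h1, h2, h3⟩ := ih fun y hy => hw y (List.mem_cons_of_mem _ hy)
    have hx := hw x List.mem_cons_self
    have e : perm (x :: w) = Equiv.swap x.1 (x.1 + 1) * perm w := by simp [perm]
    let a : Fin N := ⟨x.1, by omega⟩
    let b : Fin N := ⟨x.1 + 1, hx⟩
    refine ⟨Equiv.swap a b * σ, fun j => ?_, fun j hj => ?_, fun y z => ?_⟩
    · rw [e, Equiv.Perm.mul_apply, Equiv.Perm.mul_apply, ← h1]
      exact Fin.val_injective.map_swap a b (σ j)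
    · rw [e, Equiv.Perm.mul_apply, h2 j hj, Equiv.swap_apply_of_ne_of_ne (by omega) (by omega)]
    · have g : ∀ u, gen c N x y u = if y ∘ Equiv.swap a b = u then 1 else 0 := by
        intro u
        simp only [gen, dif_pos hx, Matrix.of_apply, hc, ← ite_and]
        refine if_congr ⟨fun h => funext fun j => ?_, ?_⟩ rfl rfl
        · by_cases ja : j = a
          · rw [ja, Function.comp_apply, Equiv.swap_apply_left]
            exact h.2.2
          by_cases jb : j = b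
          · rw [jb, Function.comp_apply, Equiv.swap_apply_right]
            exact h.2.1
          · rw [Function.comp_apply, Equiv.swap_apply_of_ne_of_ne ja jb]
            exact h.1 j (fun e => ja (Fin.ext e)) fun e => jb (Fin.ext e)
        · rintro rfl
          refine ⟨fun j ja jb => ?_, ?_, ?_⟩
          · rw [Function.comp_apply, Equiv.swap_apply_of_ne_of_ne
              (fun e => ja (congrArg Fin.val e)) fun e => jb (congrArg Fin.val e)]
          · exact congrArg y (Equiv.swap_apply_right a b).symm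
          · exact congrArg y (Equiv.swap_apply_left a b).symm
      rw [rho_cons, Matrix.mul_apply]
      simp only [g, ite_mul, one_mul, zero_mul, Finset.sum_ite_eq, Finset.mem_univ, if_true, h3]
      rfl

theorem A11_cycle {α β : Type} {σ : Equiv.Perm α} {f : α → β} (h : ∀ j, f (σ j) = f j)
    {a b : α} (hab : σ.SameCycle a b) : f a = f b := by
  obtain ⟨i, rfl⟩ := hab
  induction i using Int.induction_on with
  | zero => rfl
  | succ i ih => rw [ih, add_comm, _root_.zpow_add, zpow_one, Equiv.Perm.mul_apply, h]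
  | pred i ih =>
    rw [ih, ← h ((σ ^ (-(i : ℤ) - 1)) a), ← Equiv.Perm.mul_apply, ← _root_.zpow_one_add]
    congr 3
    ring

theorem A11_diag {c : Bool → Matrix (ι × ι) (ι × ι) ℂ}
    (hc : ∀ ε o p, c ε o p = if o.1 = p.2 ∧ o.2 = p.1 then 1 else 0) {N : ℕ} {w : Word}
    (hw : IsKnot N w) (y : Fin N → ι) :
    rho c N w y y = if ∀ j, y j = y ⟨0, hw.1⟩ then 1 else 0 := by
  obtain ⟨σ, h1, h2, h3⟩ := A11_perm hc hw.2.1
  rw [h3]
  refine if_congr ⟨fun h j => ?_, fun h => funext fun j => (h _).trans (h j).symm⟩ rfl rfl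
  have h4 := A11_cycle (f := fun j : ℕ => if h : j < N then some (y ⟨j, h⟩) else none)
    (fun j => by
      by_cases hj : j < N
      · have e := h1 ⟨j, hj⟩
        dsimp only at e
        rw [← e, dif_pos (σ ⟨j, hj⟩).2, dif_pos hj]
        exact congrArg some (congrFun h ⟨j, hj⟩)
      · rw [h2 j (not_lt.1 hj)]) (hw.2.2 j j.2)
  rw [dif_pos hw.1, dif_pos j.2] at h4
  exact (Option.some_injective _ h4).symm

theorem A11_one (q : ℂ) {k n : ℕ} {v : Word} (hv : IsKnot k v) (w : ℤ) :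
    ch (pow q (irr q n) k) (rho (cV 1 n) k v) w =
      (((range (n + 1)).filter fun i : ℕ => (k : ℤ) * ((n : ℤ) - 2 * i) = w).card : ℂ) := by
  have hw : ∀ y : Fin k → Fin (n + 1), (∀ j, y j = y ⟨0, hv.1⟩) →
      (pow q (irr q n) k).wt y = (k : ℤ) * ((n : ℤ) - 2 * (y ⟨0, hv.1⟩ : ℕ)) := by
    intro y hy
    change ∑ j, ((n : ℤ) - 2 * (y j : ℕ)) = _
    rw [Finset.sum_congr rfl fun j _ => by rw [hy j], Finset.sum_const, Finset.card_univ,
      Fintype.card_fin, nsmul_eq_mul]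
  simp only [ch, A11_diag (A11_flip n) hv, ← ite_and, Finset.sum_boole]
  congr 1
  refine Finset.card_nbij (fun y => (y ⟨0, hv.1⟩ : ℕ)) (fun y hy => ?_) (fun y hy z hz e => ?_)
    fun i hi => ?_
  · have h := (Finset.mem_filter.1 (Finset.mem_coe.1 hy)).2
    exact Finset.mem_coe.2 (Finset.mem_filter.2 ⟨Finset.mem_range.2 (y _).2,
      (hw y h.2).symm.trans h.1⟩)
  · have h := (Finset.mem_filter.1 (Finset.mem_coe.1 hy)).2
    have h' := (Finset.mem_filter.1 (Finset.mem_coe.1 hz)).2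
    exact funext fun j => (h.2 j).trans ((Fin.ext e).trans (h'.2 j).symm)
  · have h := Finset.mem_filter.1 (Finset.mem_coe.1 hi)
    exact ⟨fun _ => ⟨i, Finset.mem_range.1 h.1⟩, Finset.mem_coe.2 (Finset.mem_filter.2
      ⟨Finset.mem_univ _, (hw _ fun _ => rfl).trans h.2, fun _ => rfl⟩), rfl⟩

theorem A11_const {F : ℝ → ℂ} (hF : Continuous F) (h : ∀ t, 0 < t → IsIntegral ℤ (F t)) {t : ℝ}
    (ht : 0 < t) : F t = F 0 := by
  have h1 : (F '' Set.Ici 0).Countable := by
    refine ((Algebraic.countable ℤ ℂ).insert (F 0)).mono ?_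
    rintro _ ⟨s, hs, rfl⟩
    rcases eq_or_lt_of_le (show (0 : ℝ) ≤ s from hs) with rfl | h0
    · exact Set.mem_insert _ _
    · exact Set.mem_insert_of_mem _ (h s h0).isAlgebraic
  exact h1.isTotallyDisconnected _ subset_rfl (isPreconnected_Ici.image F hF.continuousOn)
    ⟨t, ht.le, rfl⟩ ⟨0, Set.self_mem_Ici, rfl⟩

theorem rosso_jones {k n : ℕ} {v : Word} (hv : IsKnot k v) (e : ℕ → ℤ)
    (H : ∀ B : ℝ, 1 < B → ∀ (m : ℕ) (i : Matrix (Fin k → Fin (n + 1)) (Fin (m + 1)) ℂ),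
      IsHom (irr (((B : ℂ) ^ k) ^ 2) m) (pow (((B : ℂ) ^ k) ^ 2) (irr (((B : ℂ) ^ k) ^ 2) n) k) i →
        rho (cV ((B : ℂ) ^ k) n) k v ^ k * i = ((B : ℂ) ^ k) ^ (e m) • i)
    {B : ℝ} (hB : 1 < B) (m : ℕ) :
    ch (pow (((B : ℂ) ^ k) ^ 2) (irr (((B : ℂ) ^ k) ^ 2) n) k) (rho (cV ((B : ℂ) ^ k) n) k v) m -
      ch (pow (((B : ℂ) ^ k) ^ 2) (irr (((B : ℂ) ^ k) ^ 2) n) k) (rho (cV ((B : ℂ) ^ k) n) k v)
        (m + 2) =
      (B : ℂ) ^ (e m) *
        ((((range (n + 1)).filter fun i : ℕ => (k : ℤ) * ((n : ℤ) - 2 * i) = m).card : ℂ) -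
          (((range (n + 1)).filter fun i : ℕ => (k : ℤ) * ((n : ℤ) - 2 * i) = m + 2).card : ℂ)) := by
  let f : ℝ → ℂ := fun B => ((B : ℂ) ^ (e m))⁻¹ *
    (ch (pow (((B : ℂ) ^ k) ^ 2) (irr (((B : ℂ) ^ k) ^ 2) n) k) (rho (cV ((B : ℂ) ^ k) n) k v) m -
      ch (pow (((B : ℂ) ^ k) ^ 2) (irr (((B : ℂ) ^ k) ^ 2) n) k) (rho (cV ((B : ℂ) ^ k) n) k v)
        (m + 2))
  have h1 : ∀ B : ℝ, 1 < B → IsIntegral ℤ (f B) := by
    intro B hB
    have hq : Gen (((B : ℂ) ^ k) ^ 2) := by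
      have := gen_of_real (one_lt_pow₀ hB hv.1.ne')
      rwa [Complex.ofReal_pow] at this
    have hB0 : (B : ℂ) ≠ 0 := Complex.ofReal_ne_zero.2 (by linarith)
    refine A11_trace hq (isMod_pow hq (isMod_irr hq n) k)
      (isHom_rho hq.1 (fun ε => (isBraid_cV hq n ε).hom) k v) hv.1 m (zpow_ne_zero _ hB0)
      fun i hi => ?_
    rw [H B hB m i hi, ← zpow_natCast, ← zpow_natCast, ← _root_.zpow_mul, ← _root_.zpow_mul,
      mul_comm]
  have hE : Continuous fun t : ℝ => ((Real.exp t : ℝ) : ℂ) :=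
    Complex.continuous_ofReal.comp Real.continuous_exp
  have hE0 : ∀ t : ℝ, ((Real.exp t : ℝ) : ℂ) ≠ 0 :=
    fun t => Complex.ofReal_ne_zero.2 (Real.exp_ne_zero t)
  have hr := A11_rho (A11_cV (hE.pow k) (fun t => pow_ne_zero k (hE0 t)) n) k v
  have hc : ∀ w : ℤ, Continuous fun t : ℝ => ch (pow ((((Real.exp t : ℝ) : ℂ) ^ k) ^ 2)
      (irr ((((Real.exp t : ℝ) : ℂ) ^ k) ^ 2) n) k)
      (rho (cV (((Real.exp t : ℝ) : ℂ) ^ k) n) k v) w := fun w =>
    continuous_finsetSum _ fun y _ => A11_ite (P := ∑ j, ((n : ℤ) - 2 * (y j : ℕ)) = w)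
      (hr.matrix_elem y y) continuous_const
  have h2 : Continuous fun t => f (Real.exp t) :=
    ((hE.zpow₀ _ fun t => Or.inl (hE0 t)).inv₀ fun t => zpow_ne_zero _ (hE0 t)).mul
      ((hc _).sub (hc _))
  have h3 := A11_const h2 (fun t ht => h1 _ (Real.one_lt_exp_iff.2 ht)) (Real.log_pos hB)
  rw [Real.exp_log (by linarith), Real.exp_zero] at h3
  simp only [f, Complex.ofReal_one, one_pow, _root_.one_zpow, inv_one, one_mul, A11_one _ hv]
    at h3
  have hB0 : (B : ℂ) ^ e m ≠ 0 := zpow_ne_zero _ (Complex.ofReal_ne_zero.2 (by linarith))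
  rw [← h3, mul_inv_cancel_left₀ hB0]

end Pool.Agent.Work.MP_c404d3_gt
end

-- merged part: Pool.Agent.Work.MP_c404d3_gt.A13a
section
/-!
A13a: the combinatorial loop counter. Points are natural numbers below 2 N: p < N is the upper end
of strand p at the current level and 2 N - 1 - p is the lower end of strand p at the bottom level.
A matching is a function π : ℕ → ℕ. capM π a b joins the partners of a and b; tlStep does a cap
and then a cup at (i, i+1). run processes a list of smoothed letters from the LAST to the first.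
loops_eq_count: the number of components of Arc is the number of caps that close a loop.
Plan: general lemma: adding one pair (a,b) to a relation on a finite type lowers Nat.card Quot by
one if a, b were inequivalent (EqvGen) and keeps it otherwise. Add the arcs level by level
(t = L-1 down to 0), with the invariant: two current boundary points are equivalent iff equal or
matched by π; vertices above the current level are isolated; card Quot = (number of vertices above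
the current level) + N + (loops so far). Then add the closing arcs for p = N-1 down to 0.
-/

namespace Pool.Agent.Work.MP_c404d3_gt

open scoped BigOperators

/-- join the partners of `a` and `b` (when they are not matched to each other) -/
def capM (π : ℕ → ℕ) (a b : ℕ) : ℕ → ℕ :=
  fun u => if u = π a then π b else if u = π b then π a else π u

/-- cap then cup at `(i, i+1)` -/
def tlStep (st : (ℕ → ℕ) × ℕ) (i : ℕ) : (ℕ → ℕ) × ℕ :=
  if st.1 i = i + 1 then (st.1, st.2 + 1)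
  else (fun u => if u = i then i + 1 else if u = i + 1 then i else capM st.1 i (i + 1) u, st.2)

/-- matching and number of closed loops of a list of smoothed letters (position, horizontal) -/
def run (N : ℕ) : List (ℕ × Bool) → (ℕ → ℕ) × ℕ
  | [] => (fun u => 2 * N - 1 - u, 0)
  | x :: l => if x.2 then tlStep (run N l) x.1 else run N l

/-- close the strands `p - 1, ..., 0` -/
def closeUp (N : ℕ) : ℕ → (ℕ → ℕ) × ℕ → ℕ
  | 0, st => st.2
  | p + 1, st =>
    if st.1 p = 2 * N - 1 - p then closeUp N p (st.1, st.2 + 1)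
    else closeUp N p (capM st.1 p (2 * N - 1 - p), st.2)

/-- the smoothed word of a state -/
def smooth (w : Word) (s : Fin w.length → Bool) : List (ℕ × Bool) :=
  List.ofFn fun t => ((w.get t).1, s t)

section labels

variable {V Q : Type} [DecidableEq V]

/-- merge the classes of `a` and `b` in a labelling -/
def a13j (ℓ : V → V) (a b : V) : V → V := fun x => if ℓ x = ℓ b then ℓ a else ℓ x

theorem a13j_iff {ℓ : V → V} {a b x y : V} : a13j ℓ a b x = a13j ℓ a b y ↔
    ℓ x = ℓ y ∨ (ℓ x = ℓ a ∧ ℓ y = ℓ b) ∨ (ℓ x = ℓ b ∧ ℓ y = ℓ a) := by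
  unfold a13j
  grind

theorem a13j_card [Finite V] {ℓ : V → V} {a b : V} (h : ℓ a ≠ ℓ b) :
    (Set.range (a13j ℓ a b)).ncard + 1 = (Set.range ℓ).ncard := by
  have e : Set.range (a13j ℓ a b) = Set.range ℓ \ {ℓ b} := by
    ext z
    constructor
    · rintro ⟨x, rfl⟩
      unfold a13j
      split_ifs with hx
      · exact ⟨⟨a, rfl⟩, h⟩
      · exact ⟨⟨x, rfl⟩, hx⟩
    · rintro ⟨⟨x, rfl⟩, hx⟩
      exact ⟨x, if_neg hx⟩
  rw [e]
  exact Set.ncard_sdiff_singleton_add_one ⟨b, rfl⟩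

/-- The labelling `ℓ` is finer than `q`, the vertices of `I` are isolated, and the boundary points
`β u`, `u ∈ P`, are joined according to the matching `π`. -/
structure A13Inv (q : V → Q) (ℓ : V → V) (I : Set V) (β : ℕ → V) (P : Set ℕ) (π : ℕ → ℕ) :
    Prop where
  snd : ∀ x y, ℓ x = ℓ y → q x = q y
  iso : ∀ x ∈ I, ∀ y, ℓ x = ℓ y → x = y
  out : ∀ u ∈ P, β u ∉ I
  inv : ∀ u ∈ P, π u ∈ P ∧ π u ≠ u ∧ π (π u) = u
  rel : ∀ u ∈ P, ∀ v ∈ P, ℓ (β u) = ℓ (β v) ↔ u = v ∨ π u = v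

variable {q : V → Q} {ℓ : V → V} {I I' : Set V} {β β' : ℕ → V} {P P' : Set ℕ} {π π' : ℕ → ℕ}
  {a b : ℕ} {x y : V}

theorem a13_snd (h : ∀ x y, ℓ x = ℓ y → q x = q y) (e : q x = q y) (z w : V)
    (h' : a13j ℓ x y z = a13j ℓ x y w) : q z = q w := by
  rcases a13j_iff.1 h' with h1 | ⟨h1, h2⟩ | ⟨h1, h2⟩
  · exact h _ _ h1
  · rw [h _ _ h1, h _ _ h2, e]
  · rw [h _ _ h1, h _ _ h2, e]

omit [DecidableEq V] in
theorem A13Inv.congr (h : A13Inv q ℓ I β P π) (hI : I' ⊆ I) (h1 : ∀ u ∈ P, β' u ∉ I')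
    (h2 : ∀ u ∈ P, ℓ (β' u) = ℓ (β u)) : A13Inv q ℓ I' β' P π :=
  ⟨h.snd, fun x hx => h.iso x (hI hx), h1, h.inv, fun u hu v hv => by
    rw [h2 u hu, h2 v hv, h.rel u hu v hv]⟩

omit [DecidableEq V] in
theorem A13Inv.loop (h : A13Inv q ℓ I β P π) (ha : a ∈ P) (hab : π a = b)
    (hP : ∀ u, u ∈ P' ↔ u ∈ P ∧ u ≠ a ∧ u ≠ b) : A13Inv q ℓ I β P' π := by
  refine ⟨h.snd, h.iso, fun u hu => h.out u ((hP u).1 hu).1, fun u hu => ?_,
    fun u hu v hv => h.rel u ((hP u).1 hu).1 v ((hP v).1 hv).1⟩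
  have h1 := h.inv u ((hP u).1 hu).1
  have h2 := h.inv a ha
  rw [hP] at hu ⊢
  grind

theorem A13Inv.cap (h : A13Inv q ℓ I β P π) (ha : a ∈ P) (hb : b ∈ P) (hne : a ≠ b)
    (hab : π a ≠ b) (e : q (β a) = q (β b)) (hP : ∀ u, u ∈ P' ↔ u ∈ P ∧ u ≠ a ∧ u ≠ b) :
    A13Inv q (a13j ℓ (β a) (β b)) I β P' (capM π a b) := by
  have h2 := h.inv a ha
  have h3 := h.inv b hb
  refine ⟨a13_snd h.snd e, fun x hx y hy => ?_, fun u hu => h.out u ((hP u).1 hu).1,
    fun u hu => ?_, fun u hu v hv => ?_⟩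
  · rcases a13j_iff.1 hy with h1 | h1 | h1
    · exact h.iso x hx y h1
    · exact absurd (h.iso x hx _ h1.1 ▸ hx) (h.out a ha)
    · exact absurd (h.iso x hx _ h1.1 ▸ hx) (h.out b hb)
  · have h1 := h.inv u ((hP u).1 hu).1
    rw [hP] at hu ⊢
    unfold capM
    grind
  · rw [hP] at hu hv
    have h1 := h.inv u hu.1
    have h4 := h.inv v hv.1
    rw [a13j_iff, h.rel u hu.1 v hv.1, h.rel u hu.1 a ha, h.rel v hv.1 b hb, h.rel u hu.1 b hb,
      h.rel v hv.1 a ha]
    unfold capM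
    grind

theorem A13Inv.cup (h : A13Inv q ℓ I β P π) (ha : a ∉ P) (hb : b ∉ P) (hne : a ≠ b)
    (hx : x ∈ I) (hy : y ∈ I) (e : q x = q y) (hP : ∀ u, u ∈ P' ↔ u ∈ P ∨ u = a ∨ u = b)
    (βa : β' a = x) (βb : β' b = y) (βu : ∀ u ∈ P, β' u = β u)
    (πa : π' a = b) (πb : π' b = a) (πu : ∀ u ∈ P, π' u = π u) :
    A13Inv q (a13j ℓ x y) (I \ {x, y}) β' P' π' := by
  have k1 : ∀ u ∈ P, ℓ (β u) ≠ ℓ x := fun u hu h1 => h.out u hu (h.iso x hx _ h1.symm ▸ hx)
  have k2 : ∀ u ∈ P, ℓ (β u) ≠ ℓ y := fun u hu h1 => h.out u hu (h.iso y hy _ h1.symm ▸ hy)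
  refine ⟨a13_snd h.snd e, fun z hz w hw => ?_, fun u hu => ?_, fun u hu => ?_,
    fun u hu v hv => ?_⟩
  · rcases a13j_iff.1 hw with h1 | h1 | h1
    · exact h.iso z hz.1 w h1
    · exact absurd (Or.inl (h.iso z hz.1 _ h1.1)) hz.2
    · exact absurd (Or.inr (h.iso z hz.1 _ h1.1)) hz.2
  · rcases (hP u).1 hu with h1 | rfl | rfl
    · rw [βu u h1]
      exact fun h2 => h.out u h1 h2.1
    · exact fun h2 => h2.2 (Or.inl βa)
    · exact fun h2 => h2.2 (Or.inr βb)
  · rcases (hP u).1 hu with h1 | rfl | rfl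
    · have h2 := h.inv u h1
      rw [hP, πu u h1, πu _ h2.1]
      exact ⟨Or.inl h2.1, h2.2⟩
    · rw [hP, πa, πb]
      exact ⟨Or.inr (Or.inr rfl), hne.symm, rfl⟩
    · rw [hP, πb, πa]
      exact ⟨Or.inr (Or.inl rfl), hne, rfl⟩
  · rw [a13j_iff]
    rcases (hP u).1 hu with h1 | h1 | h1 <;> rcases (hP v).1 hv with h2 | h2 | h2
    · have := h.rel u h1 v h2
      have := k1 u h1
      have := k2 u h1
      rw [βu u h1, βu v h2, πu u h1]
      grind
    all_goals
      have := k1 u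
      have := k2 u
      have := k1 v
      have := k2 v
      have := h.inv u
      have := βu u
      have := βu v
      have := πu u
      grind

theorem A13Inv.attach [Finite V] {κ : Type} (h : A13Inv q ℓ I β P π) (f g : κ → V)
    (hf : Function.Injective f) (A : Finset κ) (h1 : ∀ p ∈ A, f p ∈ I) (h2 : ∀ p ∈ A, g p ∉ I)
    (e : ∀ p ∈ A, q (f p) = q (g p)) :
    ∃ ℓ', A13Inv q ℓ' (I \ f '' A) β P π ∧ (∀ x y, ℓ x = ℓ y → ℓ' x = ℓ' y) ∧
      (∀ p ∈ A, ℓ' (f p) = ℓ' (g p)) ∧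
      (Set.range ℓ').ncard + A.card = (Set.range ℓ).ncard := by
  classical
  induction A using Finset.induction_on with
  | empty => exact ⟨ℓ, by simpa using h, fun _ _ => id, by simp, by simp⟩
  | insert p A hp ih =>
    obtain ⟨ℓ', i1, i2, i3, i4⟩ := ih (fun r hr => h1 r (Finset.mem_insert_of_mem hr))
      (fun r hr => h2 r (Finset.mem_insert_of_mem hr)) fun r hr => e r (Finset.mem_insert_of_mem hr)
    have hm := Finset.mem_insert_self p A
    have hx : f p ∈ I \ f '' A := ⟨h1 p hm, fun ⟨r, hr, hr'⟩ => hp (hf hr' ▸ hr)⟩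
    have hne : ℓ' (f p) ≠ ℓ' (g p) := fun h3 => h2 p hm (i1.iso _ hx _ h3 ▸ hx.1)
    have hsub : I \ f '' (insert p A : Finset κ) ⊆ I \ f '' A :=
      Set.sdiff_subset_sdiff_right (Set.image_mono (by simp))
    have k1 : ∀ u ∈ P, ℓ' (β u) ≠ ℓ' (f p) := fun u hu h3 =>
      i1.out u hu (i1.iso _ hx _ h3.symm ▸ hx)
    refine ⟨a13j ℓ' (f p) (g p), ⟨a13_snd i1.snd (e p hm), fun z hz w hw => ?_,
      fun u hu h3 => i1.out u hu (hsub h3), i1.inv, fun u hu v hv => ?_⟩,
      fun z w h3 => a13j_iff.2 (Or.inl (i2 z w h3)), fun r hr => ?_, ?_⟩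
    · rcases a13j_iff.1 hw with h3 | h3 | h3
      · exact i1.iso z (hsub hz) w h3
      · exact absurd ⟨p, hm, (i1.iso z (hsub hz) _ h3.1).symm⟩ hz.2
      · exact absurd (i1.iso z (hsub hz) _ h3.1 ▸ hz.1) (h2 p hm)
    · rw [a13j_iff, ← i1.rel u hu v hv]
      have := k1 u hu
      have := k1 v hv
      tauto
    · rcases Finset.mem_insert.1 hr with rfl | hr
      · exact a13j_iff.2 (Or.inr (Or.inl ⟨rfl, rfl⟩))
      · exact a13j_iff.2 (Or.inl (i3 r hr))
    · rw [Finset.card_insert_of_notMem hp, ← i4, ← a13j_card hne]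
      omega

theorem A13Inv.tl [Finite V] (h : A13Inv q ℓ I β P π) (c : ℕ) (ha : a ∈ P) (hb : a + 1 ∈ P)
    (hx : x ∈ I) (hy : y ∈ I) (hxy : x ≠ y) (e : q (β a) = q (β (a + 1))) (e' : q x = q y)
    (βa : β' a = x) (βb : β' (a + 1) = y) (βu : ∀ u, u ≠ a → u ≠ a + 1 → β' u = β u) :
    ∃ ℓ', A13Inv q ℓ' (I \ {x, y}) β' P (tlStep (π, c) a).1 ∧
      (∀ x y, ℓ x = ℓ y → ℓ' x = ℓ' y) ∧ ℓ' (β a) = ℓ' (β (a + 1)) ∧ ℓ' x = ℓ' y ∧
      (Set.range ℓ').ncard + 2 + c = (Set.range ℓ).ncard + (tlStep (π, c) a).2 := by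
  have hP : ∀ u, u ∈ {u | u ∈ P ∧ u ≠ a ∧ u ≠ a + 1} ↔ u ∈ P ∧ u ≠ a ∧ u ≠ a + 1 :=
    fun _ => Iff.rfl
  have hP' : ∀ u, u ∈ P ↔ u ∈ {u | u ∈ P ∧ u ≠ a ∧ u ≠ a + 1} ∨ u = a ∨ u = a + 1 := by
    intro u
    rw [hP]
    grind
  by_cases hab : π a = a + 1
  · have h1 := h.loop ha hab hP
    have hne : ℓ x ≠ ℓ y := fun h3 => hxy (h.iso x hx y h3)
    rw [tlStep, if_pos hab]
    refine ⟨_, h1.cup (fun h2 => h2.2.1 rfl) (fun h2 => h2.2.2 rfl) (by omega) hx hy e' hP' βa βb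
      (fun u hu => βu u hu.2.1 hu.2.2) hab (hab ▸ (h.inv a ha).2.2) fun _ _ => rfl,
      fun z w h3 => a13j_iff.2 (Or.inl h3),
      a13j_iff.2 (Or.inl ((h.rel _ ha _ hb).2 (Or.inr hab))),
      a13j_iff.2 (Or.inr (Or.inl ⟨rfl, rfl⟩)), ?_⟩
    rw [← a13j_card hne]
    dsimp only
    omega
  · have h1 := h.cap ha hb (by omega) hab e hP
    have hne : ℓ (β a) ≠ ℓ (β (a + 1)) := fun h3 => by
      rcases (h.rel _ ha _ hb).1 h3 with h4 | h4
      · omega
      · exact hab h4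
    have hne' : a13j ℓ (β a) (β (a + 1)) x ≠ a13j ℓ (β a) (β (a + 1)) y :=
      fun h3 => hxy (h1.iso x hx y h3)
    rw [tlStep, if_neg hab]
    refine ⟨_, h1.cup (fun h2 => h2.2.1 rfl) (fun h2 => h2.2.2 rfl) (by omega) hx hy e' hP' βa βb
      (fun u hu => βu u hu.2.1 hu.2.2) (by simp) (by simp)
      fun u hu => by simp [hu.2.1, hu.2.2],
      fun z w h3 => a13j_iff.2 (Or.inl (a13j_iff.2 (Or.inl h3))),
      a13j_iff.2 (Or.inl (a13j_iff.2 (Or.inr (Or.inl ⟨rfl, rfl⟩)))),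
      a13j_iff.2 (Or.inr (Or.inl ⟨rfl, rfl⟩)), ?_⟩
    rw [← a13j_card hne, ← a13j_card hne']

theorem A13Inv.close [Finite V] (N : ℕ) (p : ℕ) (hp : p ≤ N) (c : ℕ)
    (h : A13Inv q ℓ I β {u | u < p ∨ (2 * N ≤ u + p ∧ u < 2 * N)} π)
    (e : ∀ r < p, q (β r) = q (β (2 * N - 1 - r))) :
    ∃ ℓ' : V → V, (∀ x y, ℓ' x = ℓ' y → q x = q y) ∧ (∀ x y, ℓ x = ℓ y → ℓ' x = ℓ' y) ∧
      (∀ r < p, ℓ' (β r) = ℓ' (β (2 * N - 1 - r))) ∧
      (Set.range ℓ').ncard + p + c = (Set.range ℓ).ncard + closeUp N p (π, c) := by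
  induction p generalizing ℓ π c with
  | zero => exact ⟨ℓ, h.snd, fun _ _ => id, by simp, rfl⟩
  | succ p ih =>
    have ha : p ∈ {u | u < p + 1 ∨ (2 * N ≤ u + (p + 1) ∧ u < 2 * N)} := Or.inl (by omega)
    have hb : 2 * N - 1 - p ∈ {u | u < p + 1 ∨ (2 * N ≤ u + (p + 1) ∧ u < 2 * N)} :=
      Or.inr (by omega)
    have hP : ∀ u, u ∈ {u | u < p ∨ (2 * N ≤ u + p ∧ u < 2 * N)} ↔
        u ∈ {u | u < p + 1 ∨ (2 * N ≤ u + (p + 1) ∧ u < 2 * N)} ∧ u ≠ p ∧ u ≠ 2 * N - 1 - p := by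
      intro u
      simp only [Set.mem_ofPred_eq]
      omega
    by_cases hab : π p = 2 * N - 1 - p
    · obtain ⟨ℓ', i1, i2, i3, i4⟩ := ih (by omega) (c + 1) (h.loop ha hab hP)
        fun r hr => e r (by omega)
      refine ⟨ℓ', i1, i2, fun r hr => ?_, ?_⟩
      · rcases Nat.lt_succ_iff_lt_or_eq.1 hr with hr | rfl
        · exact i3 r hr
        · exact i2 _ _ ((h.rel _ ha _ hb).2 (Or.inr hab))
      · rw [closeUp, if_pos hab]
        dsimp only
        omega
    · obtain ⟨ℓ', i1, i2, i3, i4⟩ := ih (by omega) c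
        (h.cap ha hb (by omega) hab (e p (by omega)) hP) fun r hr => e r (by omega)
      have hne : ℓ (β p) ≠ ℓ (β (2 * N - 1 - p)) := fun h3 => by
        rcases (h.rel _ ha _ hb).1 h3 with h4 | h4
        · omega
        · exact hab h4
      refine ⟨ℓ', i1, fun z w h3 => i2 z w (a13j_iff.2 (Or.inl h3)), fun r hr => ?_, ?_⟩
      · rcases Nat.lt_succ_iff_lt_or_eq.1 hr with hr | rfl
        · exact i3 r hr
        · exact i2 _ _ (a13j_iff.2 (Or.inr (Or.inl ⟨rfl, rfl⟩)))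
      · rw [closeUp, if_neg hab, ← a13j_card hne]
        dsimp only
        omega

end labels

/-- the boundary points at level `t` -/
def a13b {N L : ℕ} (hN : 0 < N) (t : Fin (L + 1)) (u : ℕ) : Fin (L + 1) × Fin N :=
  if h : u < N then (t, ⟨u, h⟩) else (Fin.last L, ⟨2 * N - 1 - u, by omega⟩)

theorem a13b_lt {N L : ℕ} (hN : 0 < N) (t : Fin (L + 1)) (p : Fin N) : a13b hN t p = (t, p) :=
  dif_pos p.2

theorem a13b_ge {N L : ℕ} (hN : 0 < N) (t t' : Fin (L + 1)) {u : ℕ} (h : ¬ u < N) :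
    a13b hN t u = a13b hN t' u := by
  rw [a13b, a13b, dif_neg h, dif_neg h]

theorem a13b_out {N L : ℕ} (hN : 0 < N) (t : Fin (L + 1)) (u : ℕ) : ¬ (a13b hN t u).1 < t := by
  unfold a13b
  split_ifs
  · exact lt_irrefl _
  · exact not_lt.2 (Fin.le_last _)

/-- the arcs of the letter number `t` are contracted by the labelling -/
def A13Lv {N : ℕ} {w : Word} (s : Fin w.length → Bool)
    (ℓ : Fin (w.length + 1) × Fin N → Fin (w.length + 1) × Fin N) (t : Fin w.length) : Prop :=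
  (∀ p : Fin N, (s t = false ∨ ((p : ℕ) ≠ (w.get t).1 ∧ (p : ℕ) ≠ (w.get t).1 + 1)) →
    ℓ (t.castSucc, p) = ℓ (t.succ, p)) ∧
  (s t = true → ∀ p p' : Fin N, (p : ℕ) = (w.get t).1 → (p' : ℕ) = (w.get t).1 + 1 →
    ℓ (t.castSucc, p) = ℓ (t.castSucc, p') ∧ ℓ (t.succ, p) = ℓ (t.succ, p'))

theorem A13Lv.mono {N : ℕ} {w : Word} {s : Fin w.length → Bool}
    {ℓ ℓ' : Fin (w.length + 1) × Fin N → Fin (w.length + 1) × Fin N} {t : Fin w.length}
    (h : A13Lv s ℓ t) (h' : ∀ x y, ℓ x = ℓ y → ℓ' x = ℓ' y) : A13Lv s ℓ' t :=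
  ⟨fun p hp => h' _ _ (h.1 p hp), fun hs p p' h1 h2 =>
    ⟨h' _ _ (h.2 hs p p' h1 h2).1, h' _ _ (h.2 hs p p' h1 h2).2⟩⟩

theorem a13_drop (w : Word) (s : Fin w.length → Bool) (t : Fin w.length) :
    (smooth w s).drop t = ((w.get t).1, s t) :: (smooth w s).drop (t + 1) := by
  rw [List.drop_eq_getElem_cons (by simp [smooth])]
  simp [smooth]

theorem a13_step {N : ℕ} (hN : 0 < N) {w : Word} (hw : ∀ x ∈ w, x.1 + 1 < N)
    (s : Fin w.length → Bool) (t : Fin w.length)
    {ℓ : Fin (w.length + 1) × Fin N → Fin (w.length + 1) × Fin N} {π : ℕ → ℕ} (c : ℕ)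
    (h : A13Inv (Quot.mk (Arc N w s)) ℓ {x | x.1 < t.succ} (a13b hN t.succ) {u | u < 2 * N} π) :
    ∃ ℓ', A13Inv (Quot.mk (Arc N w s)) ℓ' {x | x.1 < t.castSucc} (a13b hN t.castSucc)
        {u | u < 2 * N} (if s t then tlStep (π, c) (w.get t).1 else (π, c)).1 ∧
      (∀ x y, ℓ x = ℓ y → ℓ' x = ℓ' y) ∧ A13Lv s ℓ' t ∧
      (Set.range ℓ').ncard + N + c =
        (Set.range ℓ).ncard + (if s t then tlStep (π, c) (w.get t).1 else (π, c)).2 := by
  have hf : Function.Injective fun p : Fin N => (t.castSucc, p) :=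
    fun _ _ h => congrArg Prod.snd h
  have hlt : t.castSucc < t.succ := Fin.castSucc_lt_succ
  have hsub : ∀ x : Fin (w.length + 1) × Fin N, x.1 < t.castSucc → ∀ p, x ≠ (t.castSucc, p) := by
    rintro _ hx p rfl
    exact lt_irrefl _ hx
  cases hs : s t
  · obtain ⟨ℓ', i1, i2, i3, i4⟩ := h.attach _ (fun p : Fin N => (t.succ, p)) hf Finset.univ
      (fun _ _ => hlt) (fun _ _ => lt_irrefl t.succ)
      fun p _ => Quot.sound (Or.inl ⟨t, rfl, rfl, rfl, Or.inl hs⟩)
    refine ⟨ℓ', i1.congr (fun x hx => ⟨hx.trans hlt, fun ⟨p, _, hp⟩ => hsub x hx p hp.symm⟩)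
      (fun u _ => a13b_out hN _ u) fun u _ => ?_, i2,
      ⟨fun p _ => i3 p (Finset.mem_univ p), fun h1 => by simp [hs] at h1⟩, ?_⟩
    · by_cases hu : u < N
      · rw [a13b_lt hN _ ⟨u, hu⟩, a13b_lt hN _ ⟨u, hu⟩]
        exact i3 _ (Finset.mem_univ _)
      · rw [a13b_ge hN _ t.succ hu]
    · simpa using i4
  · have hi := hw _ (List.get_mem w t)
    set i := (w.get t).1 with hidef
    let p₀ : Fin N := ⟨i, by omega⟩
    let p₁ : Fin N := ⟨i + 1, hi⟩
    have hp : p₀ ≠ p₁ := fun h1 => by simpa [p₀, p₁] using congrArg Fin.val h1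
    have b0 : ∀ t', a13b hN t' i = ((t', p₀) : Fin (w.length + 1) × Fin N) :=
      fun t' => a13b_lt hN t' p₀
    have b1 : ∀ t', a13b hN t' (i + 1) = ((t', p₁) : Fin (w.length + 1) × Fin N) :=
      fun t' => a13b_lt hN t' p₁
    obtain ⟨ℓ₁, j1, j2, j3, j4, j5⟩ := h.tl (a := i) (x := (t.castSucc, p₀))
      (y := (t.castSucc, p₁))
      (β' := fun u => if u = i ∨ u = i + 1 then a13b hN t.castSucc u else a13b hN t.succ u) c
      (show i < 2 * N by omega) (show i + 1 < 2 * N by omega) hlt hlt (fun h1 => hp (hf h1))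
      (by rw [b0, b1]; exact Quot.sound (Or.inr (Or.inl ⟨t, hs, rfl, Or.inr rfl, rfl, rfl⟩)))
      (Quot.sound (Or.inr (Or.inl ⟨t, hs, rfl, Or.inl rfl, rfl, rfl⟩)))
      (by simp [b0]) (by simp [b1]) fun u h1 h2 => by simp [h1, h2]
    have hA : ∀ p : Fin N, p ∈ (Finset.univ.erase p₀).erase p₁ ↔ (p : ℕ) ≠ i ∧ (p : ℕ) ≠ i + 1 := by
      intro p
      simp [p₀, p₁, Fin.ext_iff, and_comm]
    obtain ⟨ℓ', i1, i2, i3, i4⟩ := j1.attach _ (fun p : Fin N => (t.succ, p)) hf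
      ((Finset.univ.erase p₀).erase p₁)
      (fun p hp => ⟨hlt, by simpa [p₀, p₁, Fin.ext_iff] using (hA p).1 hp⟩)
      (fun _ _ h1 => lt_irrefl t.succ h1.1)
      fun p hp => Quot.sound (Or.inl ⟨t, rfl, rfl, rfl, Or.inr ((hA p).1 hp)⟩)
    refine ⟨ℓ', i1.congr (fun x hx => ⟨⟨hx.trans hlt, fun h1 => h1.elim (hsub x hx _)
      (hsub x hx _)⟩, fun ⟨p, _, hp⟩ => hsub x hx p hp.symm⟩)
      (fun u _ => a13b_out hN _ u) fun u _ => ?_, fun x y h1 => i2 _ _ (j2 _ _ h1),
      ⟨fun p hp => i3 p ((hA p).2 (hp.resolve_left (by simp [hs]))), fun _ p p' h1 h2 => ?_⟩, ?_⟩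
    · split_ifs with h1
      · rfl
      · by_cases hu : u < N
        · rw [a13b_lt hN _ ⟨u, hu⟩, a13b_lt hN _ ⟨u, hu⟩]
          exact i3 _ ((hA _).2 (not_or.1 h1))
        · rw [a13b_ge hN _ t.succ hu]
    · obtain rfl : p = p₀ := Fin.ext h1
      obtain rfl : p' = p₁ := Fin.ext h2
      rw [b0, b1] at j3
      exact ⟨i2 _ _ j4, i2 _ _ j3⟩
    · rw [Finset.card_erase_of_mem (by simp [hp.symm]), Finset.card_erase_of_mem (by simp),
        Finset.card_fin] at i4
      rw [if_pos rfl]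
      omega

theorem a13_level {N : ℕ} (hN : 0 < N) {w : Word} (hw : ∀ x ∈ w, x.1 + 1 < N)
    (s : Fin w.length → Bool) (t : Fin (w.length + 1)) :
    ∃ ℓ, A13Inv (Quot.mk (Arc N w s)) ℓ {x | x.1 < t} (a13b hN t) {u | u < 2 * N}
        (run N ((smooth w s).drop t)).1 ∧
      (∀ t' : Fin w.length, t ≤ t'.castSucc → A13Lv s ℓ t') ∧
      (Set.range ℓ).ncard = (t + 1) * N + (run N ((smooth w s).drop t)).2 := by
  induction t using Fin.reverseInduction with
  | last =>
    rw [List.drop_of_length_le (by simp [smooth]), run]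
    refine ⟨id, ⟨fun x y h => congrArg _ h, fun _ _ _ h => h, fun u _ => a13b_out hN _ u,
      fun u hu => ?_, fun u hu v hv => ?_⟩,
      fun t' h => absurd (Fin.castSucc_lt_last t') (not_lt.2 h), ?_⟩
    · simp only [Set.mem_ofPred_eq] at hu ⊢
      omega
    · simp only [Set.mem_ofPred_eq] at hu hv
      unfold a13b
      split_ifs <;> simp only [id, Prod.mk.injEq, true_and, Fin.mk.injEq] <;> omega
    · simp [Set.ncard_univ]
  | cast t ih =>
    obtain ⟨ℓ, i1, i2, i3⟩ := ih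
    obtain ⟨ℓ', j1, j2, j3, j4⟩ := a13_step hN hw s t (run N ((smooth w s).drop t.succ)).2 i1
    rw [Fin.val_castSucc, a13_drop, run]
    refine ⟨ℓ', j1, fun t' h => ?_, ?_⟩
    · rcases eq_or_lt_of_le (Fin.castSucc_le_castSucc_iff.1 h) with rfl | h1
      · exact j3
      · exact (i2 t' (Fin.succ_le_castSucc_iff.2 h1)).mono j2
    · rw [i3, Fin.val_succ, Prod.mk.eta] at j4
      have e : ((t : ℕ) + 1 + 1) * N = (t + 1) * N + N := by ring
      dsimp only at j4 ⊢
      omega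

theorem loops_eq_count {N : ℕ} {w : Word} (hw : ∀ x ∈ w, x.1 + 1 < N)
    (s : Fin w.length → Bool) : loops N w s = closeUp N N (run N (smooth w s)) := by
  rcases Nat.eq_zero_or_pos N with rfl | hN
  · cases w with
    | nil => simp [loops, closeUp, smooth, run]
    | cons x w => exact absurd (hw x (by simp)) (by omega)
  obtain ⟨ℓ, i1, i2, i3⟩ := a13_level hN hw s 0
  have e0 : {u | u < 2 * N} = {u | u < N ∨ (2 * N ≤ u + N ∧ u < 2 * N)} := by
    ext u
    simp only [Set.mem_ofPred_eq]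
    omega
  have e1 : ∀ p : Fin N, a13b hN (0 : Fin (w.length + 1)) (2 * N - 1 - p) = (Fin.last _, p) := by
    intro p
    rw [a13b, dif_neg (by omega)]
    refine Prod.ext rfl (Fin.ext ?_)
    dsimp only
    omega
  rw [e0] at i1
  obtain ⟨ℓ', j1, j2, j3, j4⟩ := i1.close N N le_rfl (run N ((smooth w s).drop 0)).2 fun r hr => by
    rw [a13b_lt hN _ ⟨r, hr⟩, e1 ⟨r, hr⟩]
    symm
    exact Quot.sound (Or.inr (Or.inr ⟨rfl, rfl, rfl⟩))
  have hA : ∀ x y, Arc N w s x y → ℓ' x = ℓ' y := by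
    rintro ⟨t₁, p₁⟩ ⟨t₂, p₂⟩ (⟨t, h1, h2, h3, h4⟩ | ⟨t, h1, h2, h3, h4, h5⟩ | ⟨h1, h2, h3⟩)
    · dsimp only at h1 h2 h3 h4
      subst h1 h2 h3
      exact j2 _ _ ((i2 t (Fin.zero_le _)).1 _ h4)
    · dsimp only at h2 h3 h4 h5
      subst h2
      rcases h3 with rfl | rfl
      · exact j2 _ _ ((i2 t (Fin.zero_le _)).2 h1 _ _ h4 h5).1
      · exact j2 _ _ ((i2 t (Fin.zero_le _)).2 h1 _ _ h4 h5).2
    · dsimp only at h1 h2 h3
      subst h1 h2 h3
      have := j3 p₁ p₁.2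
      rw [a13b_lt, e1] at this
      exact this.symm
  have hinj : Function.Injective (Quot.lift ℓ' hA) := by
    rintro ⟨x⟩ ⟨y⟩ h
    exact j1 x y h
  rw [loops, ← Nat.card_range_of_injective hinj, Set.range_quot_lift, Nat.card_coe_set_eq]
  rw [i3] at j4
  simp only [Fin.val_zero, List.drop_zero, zero_add, one_mul, Prod.mk.eta] at j4
  omega

end Pool.Agent.Work.MP_c404d3_gt
end

-- merged part: Pool.Agent.Work.MP_c404d3_gt.A13b
section
/-!
A13b: the trace of a Temperley-Lieb word is δ^(loops).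
Plan. For a matching π on a finset S of active points of [0, 2N) (involution without fixed points
on S, non-crossing: no u < v < π u < π v) let vec π S z = ∏ u ∈ S with u < π u, cupM (z u) (z (π u))
for z : ℕ → Fin 2. Cap lemma: for active a < b with no active point strictly between,
∑ α β, cupM α β * vec π S (z with a ↦ α, b ↦ β) = δ * vec π (S minus a, b) z if π a = b, and
= vec (capM π a b) (S minus a, b) z otherwise (three cases: π a < a < b < π b, π b < π a < a,
b < π b < π a; use cupM * cupM = 1), and capM π a b is again a non-crossing matching.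
For T = product of the letters put Φ T z = ∑ x, T (z on [0,N)) x * ∏ p, cupM (x p) (z (2N-1-p)).
Induction on the list: Φ T = δ^(run.2) * vec run.1 [0,2N). Closing the strands p = N-1, ..., 0 by
the cap lemma turns Φ T into ∑ y, mu y * T y y because cupM * cupMᵀ = diagonal mu.
-/

namespace Pool.Agent.Work.MP_c404d3_gt

open scoped BigOperators Real Kronecker
open Matrix Finset

variable {ι κ ι' κ' : Type} [Fintype ι] [DecidableEq ι] [Fintype κ] [DecidableEq κ]
  [Fintype ι'] [DecidableEq ι'] [Fintype κ'] [DecidableEq κ']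

/-- horizontal smoothing is `tlU`, vertical smoothing the identity -/
noncomputable def cTL (A : ℂ) (b : Bool) : Matrix (Fin 2 × Fin 2) (Fin 2 × Fin 2) ℂ :=
  if b then tlU A else 1

/-- non-crossing matchings on a set of points -/
structure A13b_NC (σ : ℕ → ℕ) (S : Finset ℕ) : Prop where
  mem : ∀ u ∈ S, σ u ∈ S
  inv : ∀ u ∈ S, σ (σ u) = u
  ne : ∀ u ∈ S, σ u ≠ u
  nc : ∀ u ∈ S, ∀ v ∈ S, v ≠ u → v ≠ σ u → ((u < v ↔ σ u < v) ↔ (u < σ v ↔ σ u < σ v))

/-- removal of two points -/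
def A13b_D (S : Finset ℕ) (a b : ℕ) : Finset ℕ := (S.erase a).erase b

section NC

variable {σ σ' : ℕ → ℕ} {S : Finset ℕ} {a b u : ℕ}

theorem A13b_memD : u ∈ A13b_D S a b ↔ u ∈ S ∧ u ≠ a ∧ u ≠ b := by
  simp only [A13b_D, Finset.mem_erase]
  tauto

theorem A13b_NC.del (h : A13b_NC σ S) (ha : a ∈ S) : A13b_NC σ (A13b_D S a (σ a)) where
  mem u hu := by
    rw [A13b_memD] at hu ⊢
    refine ⟨h.mem u hu.1, fun e => hu.2.2 ?_, fun e => hu.2.1 ?_⟩
    · rw [← e, h.inv u hu.1]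
    · rw [← h.inv u hu.1, e, h.inv a ha]
  inv u hu := h.inv u (A13b_memD.1 hu).1
  ne u hu := h.ne u (A13b_memD.1 hu).1
  nc u hu v hv := h.nc u (A13b_memD.1 hu).1 v (A13b_memD.1 hv).1

theorem A13b_NC.join (h : A13b_NC σ (A13b_D S a b)) (ha : a ∈ S) (hb : b ∈ S) (hab : a ≠ b)
    (sep : ∀ v ∈ A13b_D S a b, ((a < v ↔ b < v) ↔ (a < σ v ↔ b < σ v)))
    (e1 : σ' a = b) (e2 : σ' b = a) (e3 : ∀ v ∈ A13b_D S a b, σ' v = σ v) : A13b_NC σ' S := by
  have tri : ∀ u ∈ S, u = a ∨ u = b ∨ u ∈ A13b_D S a b := fun u hu => by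
    rw [A13b_memD]
    tauto
  refine ⟨fun u hu => ?_, fun u hu => ?_, fun u hu => ?_, fun u hu v hv => ?_⟩
  · rcases tri u hu with rfl | rfl | hu
    · rwa [e1]
    · rwa [e2]
    · rw [e3 u hu]
      exact (A13b_memD.1 (h.mem u hu)).1
  · rcases tri u hu with rfl | rfl | hu
    · rw [e1, e2]
    · rw [e2, e1]
    · rw [e3 u hu, e3 _ (h.mem u hu), h.inv u hu]
  · rcases tri u hu with rfl | rfl | hu
    · rw [e1]
      exact hab.symm
    · rw [e2]
      exact hab
    · rw [e3 u hu]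
      exact h.ne u hu
  · rcases tri u hu with rfl | rfl | hu <;> rcases tri v hv with rfl | rfl | hv
    · omega
    · omega
    · have := sep v hv
      rw [e1, e3 v hv]
      omega
    · omega
    · omega
    · have := sep v hv
      rw [e2, e3 v hv]
      omega
    · have := sep u hu
      have h1 := A13b_memD.1 hu
      have h2 := A13b_memD.1 (h.mem u hu)
      rw [e1, e3 u hu]
      omega
    · have := sep u hu
      have h1 := A13b_memD.1 hu
      have h2 := A13b_memD.1 (h.mem u hu)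
      rw [e2, e3 u hu]
      omega
    · rw [e3 u hu, e3 v hv]
      exact h.nc u hu v hv

theorem A13b_memb (hb : b ∈ S) (hab : a < b) (hn : σ a ≠ b) :
    b ∈ A13b_D S a (σ a) := A13b_memD.2 ⟨hb, hab.ne', hn.symm⟩

theorem A13b_DD (S : Finset ℕ) (a a' b b' : ℕ) :
    A13b_D (A13b_D S a a') b b' = A13b_D (A13b_D S a b) a' b' := by
  ext u
  simp only [A13b_memD]
  tauto

theorem A13b_capM_eq {v : ℕ} (hv : v ∈ A13b_D S (σ a) (σ b)) : capM σ a b v = σ v := by
  rw [A13b_memD] at hv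
  simp only [capM, if_neg hv.2.1, if_neg hv.2.2]

theorem A13b_NC.cap (h : A13b_NC σ S) (ha : a ∈ S) (hb : b ∈ S) (hab : a < b)
    (gap : ∀ u ∈ S, ¬(a < u ∧ u < b)) (hn : σ a ≠ b) : A13b_NC (capM σ a b) (A13b_D S a b) := by
  have hb' := A13b_memb hb hab hn
  have h1 := (h.del ha).del hb'
  have h2 := A13b_memD.1 ((h.del ha).mem b hb')
  rw [A13b_DD] at h1
  refine h1.join (A13b_memD.2 ⟨h.mem a ha, h.ne a ha, hn⟩)
    (A13b_memD.2 ⟨h.mem b hb, h2.2.1, h.ne b hb⟩) h2.2.2.symm (fun v hv => ?_) (if_pos rfl) ?_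
    fun v hv => A13b_capM_eq hv
  · have hv' := h1.mem v hv
    simp only [A13b_memD] at hv hv'
    have k1 := h.nc a ha v hv.1.1 hv.1.2.1 hv.2.1
    have k2 := h.nc b hb v hv.1.1 hv.1.2.2 hv.2.2
    have k3 := gap v hv.1.1
    have k4 := gap _ hv'.1.1
    omega
  · simp only [capM, if_neg h2.2.2, if_true]

end NC

section Vec

/-- the vector of a matching -/
noncomputable def A13b_vec (A : ℂ) (σ : ℕ → ℕ) (S : Finset ℕ) (z : ℕ → Fin 2) : ℂ :=
  ∏ u ∈ S, if u < σ u then cupM A (z u) (z (σ u)) else 1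

/-- the weight of one chord -/
noncomputable def A13b_ch (A : ℂ) (x y : ℕ) (α β : Fin 2) : ℂ :=
  if x < y then cupM A α β else cupM A β α

/-- the cap at two points -/
noncomputable def A13b_cap (A : ℂ) (a b : ℕ) :
    ((ℕ → Fin 2) → ℂ) →ₗ[ℂ] ((ℕ → Fin 2) → ℂ) where
  toFun f z := ∑ α, ∑ β, cupM A α β * f (Function.update (Function.update z a α) b β)
  map_add' f g := by
    funext z
    simp only [Pi.add_apply, mul_add, Finset.sum_add_distrib]
  map_smul' c f := by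
    funext z
    simp only [Pi.smul_apply, smul_eq_mul, RingHom.id_apply, Finset.mul_sum, mul_left_comm]

variable {A : ℂ} {σ σ' : ℕ → ℕ} {S : Finset ℕ} {a b : ℕ} {z z' : ℕ → Fin 2}

theorem A13b_cap_apply (f : (ℕ → Fin 2) → ℂ) (z : ℕ → Fin 2) : A13b_cap A a b f z =
    ∑ α, ∑ β, cupM A α β * f (Function.update (Function.update z a α) b β) := rfl

theorem A13b_congr (h : ∀ u ∈ S, σ u ∈ S) (hσ : ∀ u ∈ S, σ' u = σ u)
    (hz : ∀ u ∈ S, z' u = z u) : A13b_vec A σ' S z' = A13b_vec A σ S z :=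
  Finset.prod_congr rfl fun u hu => by rw [hσ u hu, hz u hu, hz _ (h u hu)]

theorem A13b_peel (h : A13b_NC σ S) (ha : a ∈ S) (z : ℕ → Fin 2) : A13b_vec A σ S z =
    A13b_ch A a (σ a) (z a) (z (σ a)) * A13b_vec A σ (A13b_D S a (σ a)) z := by
  have h1 := h.ne a ha
  rw [A13b_vec, ← Finset.mul_prod_erase S _ ha, ← Finset.mul_prod_erase (S.erase a) _
    (Finset.mem_erase.2 ⟨h1, h.mem a ha⟩), ← mul_assoc, h.inv a ha, A13b_ch]
  congr 1
  by_cases e : a < σ a
  · rw [if_pos e, if_pos e, if_neg (by omega), mul_one]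
  · rw [if_neg e, if_neg e, if_pos (by omega), one_mul]

theorem A13b_upd {u : ℕ} (hu : u ∈ A13b_D S a b) (α β : Fin 2) :
    Function.update (Function.update z a α) b β u = z u := by
  rw [A13b_memD] at hu
  rw [Function.update_of_ne hu.2.2, Function.update_of_ne hu.2.1]

theorem A13b_lm (hA : A ≠ 0) : Complex.I * A⁻¹ * (-Complex.I * A) = 1 := by
  have := Complex.I_mul_I
  have h := inv_mul_cancel₀ hA
  linear_combination (-A⁻¹ * A) * this + h

theorem A13b_delta : ∑ α, ∑ β, cupM A α β * cupM A α β = -A ^ 2 - A⁻¹ ^ 2 := by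
  have := Complex.I_mul_I
  simp only [cupM, Fin.sum_univ_two, Matrix.of_apply, Matrix.cons_val', Matrix.cons_val_zero,
    Matrix.cons_val_one, Matrix.cons_val_fin_one]
  linear_combination (A⁻¹ ^ 2 + A ^ 2) * this

theorem A13b_ids (hA : A ≠ 0) (x y : Fin 2) :
    ∑ α, ∑ β, cupM A α β * (cupM A x α * cupM A β y) = cupM A x y ∧
    ∑ α, ∑ β, cupM A α β * (cupM A x α * cupM A y β) = cupM A y x ∧
    ∑ α, ∑ β, cupM A α β * (cupM A α x * cupM A β y) = cupM A y x := by
  have h := A13b_lm hA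
  unfold cupM
  generalize Complex.I * A⁻¹ = l at h ⊢
  generalize -Complex.I * A = m at h ⊢
  fin_cases x <;> fin_cases y <;> simp [Fin.sum_univ_two]
  · refine ⟨?_, ?_, ?_⟩
    · linear_combination l * h
    · linear_combination m * h
    · linear_combination m * h
  · refine ⟨?_, ?_, ?_⟩
    · linear_combination m * h
    · linear_combination l * h
    · linear_combination l * h

theorem A13b_cap_loop (h : A13b_NC σ S) (ha : a ∈ S) (hab : a < b) (e : σ a = b) :
    A13b_cap A a b (A13b_vec A σ S) = (-A ^ 2 - A⁻¹ ^ 2) • A13b_vec A σ (A13b_D S a b) := by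
  subst e
  funext z
  rw [A13b_cap_apply, Pi.smul_apply, smul_eq_mul, ← A13b_delta, Finset.sum_mul]
  refine Finset.sum_congr rfl fun α _ => ?_
  rw [Finset.sum_mul]
  refine Finset.sum_congr rfl fun β _ => ?_
  rw [A13b_peel h ha, A13b_congr (h.del ha).mem (fun _ _ => rfl) fun u hu => A13b_upd hu α β,
    A13b_ch, if_pos hab, Function.update_self, Function.update_of_ne hab.ne, Function.update_self,
    mul_assoc]

theorem A13b_cap_join (hA : A ≠ 0) (h : A13b_NC σ S) (ha : a ∈ S) (hb : b ∈ S) (hab : a < b)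
    (gap : ∀ u ∈ S, ¬(a < u ∧ u < b)) (hn : σ a ≠ b) :
    A13b_cap A a b (A13b_vec A σ S) = A13b_vec A (capM σ a b) (A13b_D S a b) := by
  funext z
  have hb' := A13b_memb hb hab hn
  have h1 := (h.del ha).del hb'
  have h2 := A13b_memD.1 ((h.del ha).mem b hb')
  have m1 : σ a ∈ A13b_D S a b := A13b_memD.2 ⟨h.mem a ha, h.ne a ha, hn⟩
  have m2 : σ b ∈ A13b_D S a b := A13b_memD.2 ⟨h.mem b hb, h2.2.1, h.ne b hb⟩
  have e1 : capM σ a b (σ a) = σ b := if_pos rfl
  rw [A13b_DD] at h1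
  rw [A13b_cap_apply, A13b_peel (h.cap ha hb hab gap hn) m1, e1,
    A13b_congr h1.mem (fun v hv => A13b_capM_eq hv) fun _ _ => rfl]
  have e2 : ∀ α β, A13b_vec A σ S (Function.update (Function.update z a α) b β) =
      A13b_ch A a (σ a) α (z (σ a)) * A13b_ch A b (σ b) β (z (σ b)) *
        A13b_vec A σ (A13b_D (A13b_D S a b) (σ a) (σ b)) z := fun α β => by
    rw [A13b_peel h ha, A13b_peel (h.del ha) hb', A13b_DD,
      A13b_congr h1.mem (fun _ _ => rfl) fun u hu => A13b_upd (A13b_memD.1 hu).1 α β,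
      A13b_upd m1, A13b_upd m2, Function.update_self, Function.update_of_ne hab.ne,
      Function.update_self, mul_assoc]
  simp only [e2, ← mul_assoc _ _ (A13b_vec _ _ _ _), ← Finset.sum_mul]
  congr 1
  obtain ⟨i1, i2, i3⟩ := A13b_ids hA (z (σ a)) (z (σ b))
  have k1 := h.nc a ha b hb hab.ne' hn.symm
  have k2 := gap _ (h.mem a ha)
  have k3 := gap _ (h.mem b hb)
  have k4 := A13b_memD.1 m1
  have k5 := A13b_memD.1 m2
  unfold A13b_ch
  by_cases c1 : a < σ a <;> by_cases c2 : b < σ b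
  · simp only [if_pos c1, if_pos c2, if_neg (by omega : ¬σ a < σ b), i3]
  · omega
  · simp only [if_neg c1, if_pos c2, if_pos (by omega : σ a < σ b), i1]
  · simp only [if_neg c1, if_neg c2, if_neg (by omega : ¬σ a < σ b), i2]

end Vec

section Main

variable {A : ℂ} {N : ℕ}

/-- a matrix on `N` strands as a vector on `2 N` points -/
noncomputable def A13b_Phi (A : ℂ) (N : ℕ) (T : Matrix (Fin N → Fin 2) (Fin N → Fin 2) ℂ)
    (z : ℕ → Fin 2) : ℂ :=
  ∑ x, T (fun k => z k) x * ∏ p : Fin N, cupM A (x p) (z (2 * N - 1 - p))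

theorem A13b_sum2 {α β : Type} [Fintype α] [DecidableEq α] [Fintype β] [DecidableEq β] {i j : α}
    (hij : i ≠ j) (y : α → β) (H : (α → β) → ℂ) (P : (α → β) → Prop) [DecidablePred P]
    (hP : ∀ y', P y' ↔ ∀ k, k ≠ i → k ≠ j → y k = y' k) :
    ∑ y', (if P y' then H y' else 0) =
      ∑ a, ∑ b, H (Function.update (Function.update y i a) j b) := by
  rw [← Finset.sum_filter, ← Fintype.sum_prod_type']
  refine Finset.sum_bij' (fun y' _ => (y' i, y' j))
    (fun p _ => Function.update (Function.update y i p.1) j p.2) (fun _ _ => Finset.mem_univ _)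
    (fun p _ => ?_) ?_ (fun p _ => ?_) fun y' hy' => congrArg H (Eq.symm ?_)
  · refine Finset.mem_filter.2 ⟨Finset.mem_univ _, (hP _).2 fun k h1 h2 => ?_⟩
    rw [Function.update_of_ne h2, Function.update_of_ne h1]
  rotate_left
  · simp [Function.update_of_ne hij]
  rotate_left
  intro y' hy'
  all_goals
    funext k
    by_cases h2 : k = j
    · subst h2
      simp
    · by_cases h1 : k = i
      · subst h1
        simp [Function.update_of_ne h2]
      · simp only [Function.update_of_ne h2, Function.update_of_ne h1]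
        exact (hP _).1 (Finset.mem_filter.1 hy').2 k h1 h2

theorem A13b_gen_false (i : ℕ) : gen (cTL A) N (i, false) = 1 := by
  unfold gen
  split_ifs with h
  · ext y z
    simp only [cTL, Matrix.of_apply, Matrix.one_apply, Bool.false_eq_true, if_false, Prod.mk.injEq]
    by_cases e : y = z
    · simp [e]
    · rw [if_neg e]
      split_ifs with h1 h2
      · refine absurd (funext fun k => ?_) e
        by_cases c1 : (k : ℕ) = i
        · rw [show k = ⟨i, Nat.lt_of_succ_lt h⟩ from Fin.ext c1]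
          exact h2.1
        · by_cases c2 : (k : ℕ) = i + 1
          · rw [show k = ⟨i + 1, h⟩ from Fin.ext c2]
            exact h2.2
          · exact h1 k c1 c2
      · rfl
      · rfl
  · rfl

theorem A13b_gen_true {i : ℕ} (hi : i + 1 < N) (T : Matrix (Fin N → Fin 2) (Fin N → Fin 2) ℂ)
    (z : ℕ → Fin 2) : A13b_Phi A N (gen (cTL A) N (i, true) * T) z =
      cupM A (z i) (z (i + 1)) * A13b_cap A i (i + 1) (A13b_Phi A N T) z := by
  have e1 : ∀ x, (gen (cTL A) N (i, true) * T) (fun k => z k) x = ∑ a, ∑ b,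
      cupM A (z i) (z (i + 1)) * (cupM A a b *
        T (fun k => Function.update (Function.update z i a) (i + 1) b k) x) := fun x => by
    have hij : (⟨i, by omega⟩ : Fin N) ≠ ⟨i + 1, hi⟩ := by simp
    simp only [Matrix.mul_apply, gen, dif_pos hi, Matrix.of_apply, ite_mul, zero_mul]
    rw [A13b_sum2 hij (fun k => z k) _ _ fun y' => by simp only [ne_eq, Fin.ext_iff]]
    refine Finset.sum_congr rfl fun a _ => Finset.sum_congr rfl fun b _ => ?_
    simp only [cTL, tlU, if_true, Matrix.of_apply, Function.update_self, Function.update_of_ne hij,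
      mul_assoc]
    congr 3
    funext k
    simp only [Function.update_apply, Fin.ext_iff]
  simp only [A13b_Phi, A13b_cap_apply, e1, Finset.mul_sum, Finset.sum_mul]
  rw [Finset.sum_comm]
  refine Finset.sum_congr rfl fun a _ => ?_
  rw [Finset.sum_comm]
  refine Finset.sum_congr rfl fun b _ => Finset.sum_congr rfl fun x _ => ?_
  rw [mul_assoc, mul_assoc]
  congr 3
  refine Finset.prod_congr rfl fun p _ => ?_
  have := p.2
  rw [Function.update_of_ne (by omega), Function.update_of_ne (by omega)]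

theorem A13b_one : A13b_Phi A N 1 = A13b_vec A (fun u => 2 * N - 1 - u) (range (2 * N)) := by
  funext z
  simp only [A13b_Phi, A13b_vec, Matrix.one_apply, ite_mul, one_mul, zero_mul, Finset.sum_ite_eq,
    Finset.mem_univ, if_true]
  rw [← Finset.prod_filter, Fin.prod_univ_eq_prod_range
    (fun p => cupM A (z p) (z (2 * N - 1 - p))) N]
  refine Finset.prod_congr ?_ fun _ _ => rfl
  ext u
  simp only [Finset.mem_filter, Finset.mem_range]
  omega

theorem A13b_run (hA : A ≠ 0) {l : List (ℕ × Bool)} (hl : ∀ x ∈ l, x.1 + 1 < N) :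
    A13b_NC (run N l).1 (range (2 * N)) ∧ A13b_Phi A N (rho (cTL A) N l) =
      (-A ^ 2 - A⁻¹ ^ 2) ^ (run N l).2 • A13b_vec A (run N l).1 (range (2 * N)) := by
  induction l with
  | nil =>
    refine ⟨⟨?_, ?_, ?_, ?_⟩, ?_⟩
    · simp only [run, Finset.mem_range]
      omega
    · simp only [run, Finset.mem_range]
      omega
    · simp only [run, Finset.mem_range]
      omega
    · simp only [run, Finset.mem_range]
      omega
    · rw [rho_nil, A13b_one]
      exact (one_smul _ _).symm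
  | cons x l ih =>
    obtain ⟨h1, h2⟩ := ih fun y hy => hl y (List.mem_cons_of_mem _ hy)
    have hi := hl x List.mem_cons_self
    obtain ⟨i, _ | _⟩ := x
    · rw [rho_cons, A13b_gen_false, Matrix.one_mul]
      exact ⟨h1, h2⟩
    have e : run N ((i, true) :: l) = tlStep (run N l) i := rfl
    have m1 : i ∈ range (2 * N) := Finset.mem_range.2 (by omega)
    have m2 : i + 1 ∈ range (2 * N) := Finset.mem_range.2 (by omega)
    rw [rho_cons, e, tlStep]
    split_ifs with c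
    · refine ⟨h1, funext fun z => ?_⟩
      rw [A13b_gen_true hi, h2, map_smul, A13b_cap_loop h1 m1 i.lt_succ_self c]
      simp only [Pi.smul_apply, smul_eq_mul]
      rw [A13b_peel h1 m1 z, c, A13b_ch, if_pos i.lt_succ_self]
      ring
    · have gap : ∀ u ∈ range (2 * N), ¬(i < u ∧ u < i + 1) := fun u _ => by omega
      have h3 := h1.cap m1 m2 i.lt_succ_self gap c
      have e3 : ∀ v ∈ A13b_D (range (2 * N)) i (i + 1), (if v = i then i + 1 else
          if v = i + 1 then i else capM (run N l).1 i (i + 1) v) = capM (run N l).1 i (i + 1) v :=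
        fun v hv => by rw [if_neg (A13b_memD.1 hv).2.1, if_neg (A13b_memD.1 hv).2.2]
      have h4 := h3.join (σ' := fun u => if u = i then i + 1 else if u = i + 1 then i else
          capM (run N l).1 i (i + 1) u) m1 m2 i.lt_succ_self.ne (fun v hv => by
        have k1 := A13b_memD.1 hv
        have k2 := A13b_memD.1 (h3.mem v hv)
        omega) (if_pos rfl) (by simp) e3
      refine ⟨h4, funext fun z => ?_⟩
      rw [A13b_gen_true hi, h2, map_smul, A13b_cap_join hA h1 m1 m2 i.lt_succ_self gap c]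
      simp only [Pi.smul_apply, smul_eq_mul]
      rw [A13b_peel h4 m1 z]
      simp only [if_true]
      rw [A13b_congr h3.mem e3 fun _ _ => rfl, A13b_ch, if_pos i.lt_succ_self]
      ring

/-- closing the strands `p - 1, ..., 0` -/
noncomputable def A13b_close (A : ℂ) (N : ℕ) : ℕ → ((ℕ → Fin 2) → ℂ) →ₗ[ℂ] ((ℕ → Fin 2) → ℂ)
  | 0 => LinearMap.id
  | p + 1 => A13b_close A N p ∘ₗ A13b_cap A p (2 * N - 1 - p)

/-- the ends of the first `p` strands -/
def A13b_S (N p : ℕ) : Finset ℕ := (range (2 * N)).filter fun u => u < p ∨ 2 * N ≤ u + p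

theorem A13b_memS {p u : ℕ} : u ∈ A13b_S N p ↔ u < 2 * N ∧ (u < p ∨ 2 * N ≤ u + p) := by
  simp only [A13b_S, Finset.mem_filter, Finset.mem_range]

theorem A13b_close_vec (hA : A ≠ 0) {p : ℕ} (hp : p ≤ N) {σ : ℕ → ℕ} (n : ℕ)
    (h : A13b_NC σ (A13b_S N p)) (z : ℕ → Fin 2) :
    A13b_close A N p ((-A ^ 2 - A⁻¹ ^ 2) ^ n • A13b_vec A σ (A13b_S N p)) z =
      (-A ^ 2 - A⁻¹ ^ 2) ^ closeUp N p (σ, n) := by
  induction p generalizing σ n with
  | zero =>
    have e : A13b_S N 0 = ∅ := Finset.eq_empty_of_forall_notMem fun u hu => by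
      rw [A13b_memS] at hu
      omega
    simp [A13b_close, closeUp, e, A13b_vec]
  | succ p ih =>
    have e : A13b_D (A13b_S N (p + 1)) p (2 * N - 1 - p) = A13b_S N p := by
      ext u
      simp only [A13b_memD, A13b_memS]
      omega
    have m1 : p ∈ A13b_S N (p + 1) := A13b_memS.2 (by omega)
    have m2 : 2 * N - 1 - p ∈ A13b_S N (p + 1) := A13b_memS.2 (by omega)
    have lt : p < 2 * N - 1 - p := by omega
    rw [A13b_close, LinearMap.comp_apply, map_smul, closeUp]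
    dsimp only
    split_ifs with c
    · have h1 := h.del m1
      rw [c, e] at h1
      rw [A13b_cap_loop h m1 lt c, e, smul_smul, ← pow_succ]
      exact ih (by omega) _ h1
    · have gap : ∀ u ∈ A13b_S N (p + 1), ¬(p < u ∧ u < 2 * N - 1 - p) := fun u hu => by
        rw [A13b_memS] at hu
        omega
      have h1 := h.cap m1 m2 lt gap c
      rw [e] at h1
      rw [A13b_cap_join hA h m1 m2 lt gap c, e]
      exact ih (by omega) _ h1

theorem A13b_close_prod {p : ℕ} (hp : p ≤ N) (g : Fin p → Fin 2 → Fin 2 → ℂ) (z : ℕ → Fin 2) :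
    A13b_close A N p (fun z => ∏ k : Fin p, g k (z k) (z (2 * N - 1 - k))) z =
      ∏ k, ∑ α, ∑ β, cupM A α β * g k α β := by
  induction p with
  | zero => simp [A13b_close]
  | succ p ih =>
    have e : A13b_cap A p (2 * N - 1 - p) (fun z => ∏ k : Fin (p + 1),
        g k (z k) (z (2 * N - 1 - k))) = (∑ α, ∑ β, cupM A α β * g (Fin.last p) α β) •
          fun z => ∏ k : Fin p, g k.castSucc (z k) (z (2 * N - 1 - k)) := by
      funext z
      simp only [A13b_cap_apply, Pi.smul_apply, smul_eq_mul, Finset.sum_mul,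
        Fin.prod_univ_castSucc, Fin.val_last, Fin.val_castSucc]
      refine Finset.sum_congr rfl fun α _ => Finset.sum_congr rfl fun β _ => ?_
      rw [Function.update_self, Function.update_of_ne (by omega), Function.update_self, mul_assoc,
        mul_comm (g _ α β)]
      congr 2
      refine Finset.prod_congr rfl fun k _ => ?_
      have := k.2
      rw [Function.update_of_ne (by omega), Function.update_of_ne (by omega),
        Function.update_of_ne (by omega), Function.update_of_ne (by omega)]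
    rw [A13b_close, LinearMap.comp_apply, e, map_smul, Pi.smul_apply,
      ih (by omega) fun k => g k.castSucc, Fin.prod_univ_castSucc, smul_eq_mul, mul_comm]

theorem A13b_mu (y x : Fin 2) :
    ∑ α, ∑ β, cupM A α β * (if α = y then cupM A x β else 0) =
      if y = x then (-(A ^ 2)⁻¹) ^ (irr (A ^ 2) 1).wt y else 0 := by
  have := Complex.I_mul_I
  fin_cases x <;> fin_cases y <;> simp [Fin.sum_univ_two, cupM, irr]
  · rw [← inv_pow]
    linear_combination (A⁻¹ ^ 2) * this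
  · linear_combination (A ^ 2) * this

theorem A13b_zpow {c : ℂ} (hc : c ≠ 0) {α : Type} (s : Finset α) (f : α → ℤ) :
    c ^ ∑ k ∈ s, f k = ∏ k ∈ s, c ^ f k := by
  induction s using Finset.cons_induction with
  | empty => simp
  | cons a s ha ih => rw [Finset.sum_cons, Finset.prod_cons, zpow_add₀ hc, ih]

theorem A13b_close_Phi (hA : A ≠ 0) (T : Matrix (Fin N → Fin 2) (Fin N → Fin 2) ℂ)
    (z : ℕ → Fin 2) : A13b_close A N N (A13b_Phi A N T) z =
      qtr (A ^ 2) (pow (A ^ 2) (irr (A ^ 2) 1) N) T := by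
  have e : A13b_Phi A N T = ∑ y, ∑ x, T y x • fun z : ℕ → Fin 2 => ∏ k : Fin N,
      (fun k α β => if α = y k then cupM A (x k) β else 0) k (z k) (z (2 * N - 1 - k)) := by
    funext z
    simp only [A13b_Phi, Finset.sum_apply, Pi.smul_apply, smul_eq_mul]
    rw [Finset.sum_comm]
    refine Finset.sum_congr rfl fun x _ => ?_
    rw [Finset.sum_eq_single fun k : Fin N => z k]
    · simp
    · intro y _ hy
      obtain ⟨k, hk⟩ := Function.ne_iff.1 hy
      rw [Finset.prod_eq_zero (Finset.mem_univ k) (if_neg hk.symm), mul_zero]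
    · simp
  rw [e, qtr]
  simp only [map_sum, map_smul, Finset.sum_apply, Pi.smul_apply, smul_eq_mul]
  refine Finset.sum_congr rfl fun y _ => ?_
  have e2 : ∀ x : Fin N → Fin 2, A13b_close A N N (fun z : ℕ → Fin 2 => ∏ k : Fin N,
      if z k = y k then cupM A (x k) (z (2 * N - 1 - k)) else 0) z =
        ∏ k, if y k = x k then (-(A ^ 2)⁻¹) ^ (irr (A ^ 2) 1).wt (y k) else 0 := fun x => by
    rw [A13b_close_prod le_rfl fun k α β => if α = y k then cupM A (x k) β else 0]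
    simp only [A13b_mu]
  simp only [e2]
  rw [Finset.sum_eq_single y]
  · simp only [if_true]
    rw [mul_comm, ← A13b_zpow (neg_ne_zero.2 (inv_ne_zero (pow_ne_zero 2 hA)))]
    rfl
  · intro x _ hx
    obtain ⟨k, hk⟩ := Function.ne_iff.1 hx
    rw [Finset.prod_eq_zero (Finset.mem_univ k) (if_neg hk.symm), mul_zero]
  · simp

end Main

theorem qtr_TL {A : ℂ} (hA : A ≠ 0) {N : ℕ} {l : List (ℕ × Bool)} (hl : ∀ x ∈ l, x.1 + 1 < N) :
    qtr (A ^ 2) (pow (A ^ 2) (irr (A ^ 2) 1) N) (rho (cTL A) N l) =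
      (-A ^ 2 - A⁻¹ ^ 2) ^ closeUp N N (run N l) := by
  obtain ⟨h1, h2⟩ := A13b_run hA hl
  have e : range (2 * N) = A13b_S N N := by
    ext u
    simp only [A13b_memS, Finset.mem_range]
    omega
  rw [e] at h1 h2
  rw [← A13b_close_Phi hA _ fun _ => 0, h2, A13b_close_vec hA le_rfl _ h1]

end Pool.Agent.Work.MP_c404d3_gt
end
end

-- merged part: Pool.Agent.Work.MP_c404d3_gt.Main
section
-- merged part: Pool.Agent.Work.MP_c404d3_gt.A10a
section
/-!
A10a: the double braiding on irr a ⊗ irr b, and the balancing identity.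
bal_irr. Let h = column 0 of j, a vector of weight m killed by ΔE. If a + b - m = 2 s is not an
even natural number then h = 0. Write α i = h (i, s - i). ΔE h = 0 gives
α (i+1) [a-i] = - q^(a-2i) [b-s+i+1] α i, hence
α s * ∏ i<s, [a-i] = (-1)^s q^(s a - s(s-1)) ∏ i<s, [b-i] * α 0, and h is determined by α 0
(if s > min a b then h = 0). h' = c h is of the same kind in irr b ⊗ irr a, and by tri/lead its
coordinate (s, 0) is A^(a (b-2s)) α 0; likewise for h'' = c' h'. Multiplying the relations gives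
h'' (0,s) = A^(2ab - 4s(a+b) + 4s(s-1)) α 0 and the exponent is m(m+2) - a(a+2) - b(b+2).
Finish with hom_irr_ext.
twist_tensor. Write j = ∑ b b', (i b ⊗ i b') (p b ⊗ p b') j with decomp of X and Y, use the twist
hypotheses on i b, i b', braid_nat twice (braidings of irr ⊗ irr from exists_braid) and bal_irr.
-/

namespace Pool.Agent.Work.MP_c404d3_gt

open scoped BigOperators Real Kronecker
open Matrix Finset

variable {ι κ ι' κ' : Type} [Fintype ι] [DecidableEq ι] [Fintype κ] [DecidableEq κ]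
  [Fintype ι'] [DecidableEq ι'] [Fintype κ'] [DecidableEq κ']

/-- column 0 of a matrix indexed by pairs, extended by zero -/
noncomputable def A10a_ext {a b m : ℕ} (j : Matrix (Fin (a + 1) × Fin (b + 1)) (Fin (m + 1)) ℂ)
    (x y : ℕ) : ℂ :=
  if h : x < a + 1 ∧ y < b + 1 then j (⟨x, h.1⟩, ⟨y, h.2⟩) 0 else 0

theorem A10a_ext_fin {a b m : ℕ} (j : Matrix (Fin (a + 1) × Fin (b + 1)) (Fin (m + 1)) ℂ)
    (x : Fin (a + 1)) (y : Fin (b + 1)) : A10a_ext j x y = j (x, y) 0 := by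
  simp only [A10a_ext, x.2, y.2, and_self, dif_pos]

theorem A10a_ext_left {a b m : ℕ} (j : Matrix (Fin (a + 1) × Fin (b + 1)) (Fin (m + 1)) ℂ)
    {x : ℕ} (hx : a < x) (y : ℕ) : A10a_ext j x y = 0 := by
  rw [A10a_ext, dif_neg (by omega)]

theorem A10a_ext_right {a b m : ℕ} (j : Matrix (Fin (a + 1) × Fin (b + 1)) (Fin (m + 1)) ℂ)
    (x : ℕ) {y : ℕ} (hy : b < y) : A10a_ext j x y = 0 := by
  rw [A10a_ext, dif_neg (by omega)]

theorem A10a_sumE (q : ℂ) {a : ℕ} (x : Fin (a + 1)) (f : ℕ → ℂ) (hf : f (a + 1) = 0) :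
    ∑ x' : Fin (a + 1), (irr q a).E x x' * f x' = qi q ((a : ℤ) - (x : ℕ)) * f (x + 1) := by
  by_cases hx : (x : ℕ) < a
  · rw [Finset.sum_eq_single (⟨x + 1, by omega⟩ : Fin (a + 1))]
    · simp [irr]
    · intro y _ hy
      have : ¬ (y : ℕ) = x + 1 := fun h => hy (Fin.ext h)
      simp [irr, this]
    · simp
  · have hxa : (x : ℕ) = a := by omega
    rw [Finset.sum_eq_zero, hxa, hf, mul_zero]
    intro y _
    have : ¬ (y : ℕ) = x + 1 := by omega
    simp [irr, this]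

theorem A10a_rel {q : ℂ} {a b m : ℕ} {j : Matrix (Fin (a + 1) × Fin (b + 1)) (Fin (m + 1)) ℂ}
    (hj : IsHom (irr q m) (tensor q (irr q a) (irr q b)) j) (x y : ℕ) :
    qi q ((a : ℤ) - x) * A10a_ext j (x + 1) y +
      q ^ ((a : ℤ) - 2 * x) * (qi q ((b : ℤ) - y) * A10a_ext j x (y + 1)) = 0 := by
  by_cases hx : a < x
  · rw [A10a_ext_left j (by omega), A10a_ext_left j hx]; simp
  by_cases hy : b < y
  · rw [A10a_ext_right j _ hy, A10a_ext_right j _ (by omega)]; simp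
  obtain ⟨x, rfl⟩ : ∃ x' : Fin (a + 1), (x' : ℕ) = x := ⟨⟨x, by omega⟩, rfl⟩
  obtain ⟨y, rfl⟩ : ∃ y' : Fin (b + 1), (y' : ℕ) = y := ⟨⟨y, by omega⟩, rfl⟩
  have h := congrFun (congrFun hj.E (x, y)) 0
  have h0 : (j * (irr q m).E) (x, y) 0 = 0 := by
    rw [Matrix.mul_apply]
    exact Finset.sum_eq_zero fun k _ => by simp [irr]
  rw [h0] at h
  have h1 := A10a_sumE q x (fun x' => A10a_ext j x' y) (A10a_ext_left j (by omega) _)
  have h2 := A10a_sumE q y (fun y' => A10a_ext j x y') (A10a_ext_right j _ (by omega))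
  simp only [A10a_ext_fin] at h1 h2
  rw [← h1, ← h2]
  refine Eq.trans ?_ h.symm
  simp only [tensor]
  rw [Matrix.add_mul, Matrix.add_apply]
  simp only [Matrix.mul_apply, Fintype.sum_prod_type, kroneckerMap_apply, Kp]
  refine congrArg₂ (· + ·) (Eq.symm ?_) (Eq.symm ?_)
  · refine Finset.sum_congr rfl fun x' _ => ?_
    rw [Finset.sum_eq_single y]
    · simp
    · intro y' _ hy'
      simp [Matrix.one_apply_ne (Ne.symm hy')]
    · simp
  · rw [Finset.sum_eq_single x]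
    · rw [Finset.mul_sum]
      refine Finset.sum_congr rfl fun y' _ => ?_
      simp only [Matrix.diagonal_apply_eq, irr, mul_assoc]
    · intro x' _ hx'
      simp [Matrix.diagonal_apply_ne _ (Ne.symm hx')]
    · simp

theorem A10a_prod {q : ℂ} (hq : q ≠ 0) {a b m : ℕ}
    {j : Matrix (Fin (a + 1) × Fin (b + 1)) (Fin (m + 1)) ℂ}
    (hj : IsHom (irr q m) (tensor q (irr q a) (irr q b)) j) (i y : ℕ) :
    A10a_ext j i y * ∏ t ∈ range i, qi q ((a : ℤ) - t) =
      (-1) ^ i * q ^ ((i : ℤ) * a - i * (i - 1)) * (∏ t ∈ range i, qi q ((b : ℤ) - y - t)) *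
        A10a_ext j 0 (y + i) := by
  induction i generalizing y with
  | zero => simp
  | succ i ih =>
    have h := A10a_rel hj i y
    have h' := ih (y + 1)
    have e1 : ∀ t : ℕ, (b : ℤ) - y - ((t + 1 : ℕ) : ℤ) = (b : ℤ) - ((y + 1 : ℕ) : ℤ) - t := by
      intro t; push_cast; ring
    have e2 : ((i + 1 : ℕ) : ℤ) * a - ((i + 1 : ℕ) : ℤ) * (((i + 1 : ℕ) : ℤ) - 1) =
        ((a : ℤ) - 2 * i) + ((i : ℤ) * a - i * (i - 1)) := by push_cast; ring
    rw [Finset.prod_range_succ, Finset.prod_range_succ', e2, zpow_add₀ hq,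
      show y + (i + 1) = y + 1 + i by omega]
    simp only [e1, Nat.cast_zero, sub_zero]
    linear_combination (∏ t ∈ range i, qi q ((a : ℤ) - t)) * h -
      q ^ ((a : ℤ) - 2 * i) * qi q ((b : ℤ) - y) * h'

theorem A10a_prod_ne {q : ℂ} (hq : Gen q) {a i : ℕ} (h : i ≤ a) :
    ∏ t ∈ range i, qi q ((a : ℤ) - t) ≠ 0 := by
  refine Finset.prod_ne_zero_iff.2 fun t ht => hq.2 _ ?_
  have := Finset.mem_range.1 ht
  omega

theorem A10a_lead {A : ℂ} {a b m : ℕ}
    {c : Matrix (Fin (b + 1) × Fin (a + 1)) (Fin (a + 1) × Fin (b + 1)) ℂ}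
    (hc : IsBraid A true (irr (A ^ 2) a) (irr (A ^ 2) b) c)
    (j : Matrix (Fin (a + 1) × Fin (b + 1)) (Fin (m + 1)) ℂ) (s : ℕ) :
    A10a_ext (c * j) s 0 = A ^ ((a : ℤ) * ((b : ℤ) - 2 * s)) * A10a_ext j 0 s := by
  by_cases hs : b < s
  · rw [A10a_ext_left _ hs, A10a_ext_right _ _ hs, mul_zero]
  obtain ⟨s, rfl⟩ : ∃ s' : Fin (b + 1), (s' : ℕ) = s := ⟨⟨s, by omega⟩, rfl⟩
  have e1 := A10a_ext_fin (c * j) s 0
  have e2 := A10a_ext_fin j 0 s
  simp only [Fin.val_zero] at e1 e2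
  rw [e1, e2, Matrix.mul_apply, Finset.sum_eq_single (0, s)]
  · rw [hc.lead (s, 0) (0, s) rfl]
    simp [irr, sg]
  · intro p _ hp
    by_cases h0 : c (s, 0) p = 0
    · rw [h0, zero_mul]
    · have h1 := hc.tri _ _ h0
      simp only [irr, sg, if_true, one_mul, Fin.val_zero] at h1
      have h2 : p.1 = 0 := Fin.ext (by simp only [Fin.val_zero]; omega)
      rw [hc.lead (s, 0) p (by rw [h2]), if_neg, zero_mul]
      rintro ⟨h3, h4⟩
      exact hp (Prod.ext h2 h4.symm)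
  · simp

theorem bal_irr {A : ℂ} (hq : Gen (A ^ 2)) {a b m : ℕ}
    {c : Matrix (Fin (b + 1) × Fin (a + 1)) (Fin (a + 1) × Fin (b + 1)) ℂ}
    {c' : Matrix (Fin (a + 1) × Fin (b + 1)) (Fin (b + 1) × Fin (a + 1)) ℂ}
    (hc : IsBraid A true (irr (A ^ 2) a) (irr (A ^ 2) b) c)
    (hc' : IsBraid A true (irr (A ^ 2) b) (irr (A ^ 2) a) c')
    {j : Matrix (Fin (a + 1) × Fin (b + 1)) (Fin (m + 1)) ℂ}
    (hj : IsHom (irr (A ^ 2) m) (tensor (A ^ 2) (irr (A ^ 2) a) (irr (A ^ 2) b)) j) :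
    c' * c * j = A ^ ((m : ℤ) * (m + 2) - (a : ℤ) * (a + 2) - (b : ℤ) * (b + 2)) • j := by
  have hA : A ≠ 0 := fun h => hq.1 (by rw [h]; simp)
  have hj1 := hc.hom.mul hj
  have hj2 := hc'.hom.mul hj1
  rw [Matrix.mul_assoc]
  set l := A ^ ((m : ℤ) * (m + 2) - (a : ℤ) * (a + 2) - (b : ℤ) * (b + 2)) with hl
  have hj3 := hj2.sub (hj.smul l)
  refine hom_irr_ext hq hj2 (hj.smul l) ?_
  rintro ⟨x, y⟩
  by_contra hne
  have hne' : (c' * (c * j) - l • j) (x, y) 0 ≠ 0 := by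
    rw [Matrix.sub_apply]; exact sub_ne_zero.2 hne
  have hw := hj3.wt _ _ hne'
  simp only [tensor, irr, Fin.val_zero] at hw
  have hp := A10a_prod hq.1 hj3 x y
  rw [A10a_ext_fin] at hp
  have hx := A10a_prod_ne hq (a := a) (i := x) (by omega)
  refine mul_ne_zero hne' hx (hp.trans (mul_eq_zero_of_right _ ?_))
  obtain ⟨s, hs⟩ : ∃ s : ℕ, s = (y : ℕ) + x := ⟨_, rfl⟩
  rw [← hs]
  by_cases hb : b < s
  · exact A10a_ext_right _ _ hb
  have e : A10a_ext (c' * (c * j) - l • j) 0 s =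
      A10a_ext (c' * (c * j)) 0 s - l * A10a_ext j 0 s := by
    have h0 : 0 < a + 1 ∧ s < b + 1 := by omega
    simp only [A10a_ext, dif_pos h0, Matrix.sub_apply, Matrix.smul_apply, smul_eq_mul]
  rw [e, sub_eq_zero]
  have r1 := A10a_prod hq.1 hj1 s 0
  have r2 := A10a_prod hq.1 hj2 s 0
  have r3 := A10a_lead hc j s
  have r4 := A10a_lead hc' (c * j) s
  simp only [Nat.cast_zero, sub_zero, zero_add] at r1 r2
  have hb' := A10a_prod_ne hq (a := b) (i := s) (by omega)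
  have hm : (m : ℤ) = a + b - 2 * s := by rw [hs]; push_cast; omega
  have hz : ∀ n : ℤ, (A ^ 2) ^ n = A ^ (2 * n) := fun n => by
    rw [_root_.zpow_mul]; norm_cast
  have key : l * (A ^ 2) ^ ((s : ℤ) * a - s * (s - 1)) * (A ^ 2) ^ ((s : ℤ) * b - s * (s - 1)) =
      A ^ ((b : ℤ) * ((a : ℤ) - 2 * s)) * A ^ ((a : ℤ) * ((b : ℤ) - 2 * s)) := by
    rw [hl, hz, hz, ← zpow_add₀ hA, ← zpow_add₀ hA, ← zpow_add₀ hA, hm]
    congr 1; ring
  have n1 : (A ^ 2) ^ ((s : ℤ) * a - s * (s - 1)) ≠ 0 := zpow_ne_zero _ hq.1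
  have n2 : (A ^ 2) ^ ((s : ℤ) * b - s * (s - 1)) ≠ 0 := zpow_ne_zero _ hq.1
  have n3 : ((-1 : ℂ)) ^ s ≠ 0 := pow_ne_zero _ (by norm_num)
  apply mul_left_cancel₀ (mul_ne_zero (mul_ne_zero (mul_ne_zero n1 n2) n3) hb')
  have sq : ((-1 : ℂ)) ^ s * (-1) ^ s = 1 := by rw [← mul_pow]; simp
  generalize (A ^ 2) ^ ((s : ℤ) * a - s * (s - 1)) = u at *
  generalize (A ^ 2) ^ ((s : ℤ) * b - s * (s - 1)) = v at *
  generalize A ^ ((b : ℤ) * ((a : ℤ) - 2 * s)) = u' at *
  generalize A ^ ((a : ℤ) * ((b : ℤ) - 2 * s)) = v' at *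
  generalize ((-1 : ℂ)) ^ s = σ at *
  generalize ∏ t ∈ range s, qi (A ^ 2) ((a : ℤ) - t) = Pa at *
  generalize ∏ t ∈ range s, qi (A ^ 2) ((b : ℤ) - t) = Pb at *
  rw [r3] at r1
  rw [r4] at r2
  generalize A10a_ext j 0 s = h0 at *
  generalize A10a_ext (c * j) 0 s = h1 at *
  generalize A10a_ext (c' * (c * j)) 0 s = h2 at *
  linear_combination -v * r2 - σ * u' * r1 - σ * Pb * h0 * key - u' * v * h1 * Pa * sq

theorem isTwist_irr {A : ℂ} (hq : Gen (A ^ 2)) (n : ℕ) :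
    IsTwist A (irr (A ^ 2) n)
      (A ^ ((n : ℤ) * (n + 2)) • (1 : Matrix (Fin (n + 1)) (Fin (n + 1)) ℂ)) := by
  intro m i hi
  by_cases h : m = n
  · subst h
    rw [Matrix.smul_mul, Matrix.one_mul]
  · rw [schur_ne hq h hi]
    simp

omit [Fintype ι] [DecidableEq ι] [Fintype κ] [DecidableEq κ] in
theorem A10a_kron_sum {β γ : Type} [Fintype β] [Fintype γ] (S : β → Matrix ι ι ℂ)
    (T : γ → Matrix κ κ ℂ) : (∑ b, S b) ⊗ₖ (∑ g, T g) = ∑ b, ∑ g, S b ⊗ₖ T g := by
  ext p p'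
  simp only [kroneckerMap_apply, Matrix.sum_apply, Finset.sum_mul_sum]

theorem twist_tensor {A : ℂ} (hq : Gen (A ^ 2)) {X : QD ι} {Y : QD κ} (hX : IsMod (A ^ 2) X)
    (hY : IsMod (A ^ 2) Y) {c : Matrix (κ × ι) (ι × κ) ℂ} {c' : Matrix (ι × κ) (κ × ι) ℂ}
    (hc : IsBraid A true X Y c) (hc' : IsBraid A true Y X c') {θX : Matrix ι ι ℂ}
    {θY : Matrix κ κ ℂ} (hθX : IsTwist A X θX) (hθY : IsTwist A Y θY) :
    IsTwist A (tensor (A ^ 2) X Y) (c' * c * (θX ⊗ₖ θY)) := by
  have hA : A ≠ 0 := fun h => hq.1 (by rw [h]; simp)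
  intro m j hj
  obtain ⟨n, mX, iX, pX, hiX, hpX, -, -, hsX⟩ := decomp hq hX
  obtain ⟨n', mY, iY, pY, hiY, hpY, -, -, hsY⟩ := decomp hq hY
  have e : j = ∑ b, ∑ g, (iX b ⊗ₖ iY g) * ((pX b ⊗ₖ pY g) * j) := by
    simp only [← Matrix.mul_assoc, ← mul_kronecker_mul, ← Matrix.sum_mul]
    rw [← A10a_kron_sum, hsX, hsY, one_kronecker_one, Matrix.one_mul]
  have key : ∀ b g, c' * c * (θX ⊗ₖ θY) * ((iX b ⊗ₖ iY g) * ((pX b ⊗ₖ pY g) * j)) =
      A ^ ((m : ℤ) * (m + 2)) • ((iX b ⊗ₖ iY g) * ((pX b ⊗ₖ pY g) * j)) := by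
    intro b g
    have ha := isMod_irr hq (mX b)
    have hb := isMod_irr hq (mY g)
    obtain ⟨d, hd⟩ := exists_braid hq true ha hb
    obtain ⟨d', hd'⟩ := exists_braid hq true hb ha
    have n1 := braid_nat hq ha hb hX hY hd hc (hiX b) (hiY g)
    have n2 := braid_nat hq hb ha hY hX hd' hc' (hiY g) (hiX b)
    have hj' := ((hpX b).kron (A ^ 2) (hpY g)).mul hj
    have bal := bal_irr hq hd hd' hj'
    generalize (pX b ⊗ₖ pY g) * j = j' at *
    have t : (θX ⊗ₖ θY) * (iX b ⊗ₖ iY g) =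
        (A ^ ((mX b : ℤ) * (mX b + 2)) * A ^ ((mY g : ℤ) * (mY g + 2))) • (iX b ⊗ₖ iY g) := by
      rw [← mul_kronecker_mul, hθX _ _ (hiX b), hθY _ _ (hiY g), smul_kronecker, kronecker_smul,
        smul_smul]
    rw [Matrix.mul_assoc (c' * c), ← Matrix.mul_assoc (θX ⊗ₖ θY), t, Matrix.smul_mul,
      Matrix.mul_smul, Matrix.mul_assoc c', ← Matrix.mul_assoc c, n1,
      Matrix.mul_assoc (iY g ⊗ₖ iX b), ← Matrix.mul_assoc c', n2, Matrix.mul_assoc,
      ← Matrix.mul_assoc d', bal, Matrix.mul_smul, smul_smul, ← zpow_add₀ hA, ← zpow_add₀ hA]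
    congr 2
    ring
  conv_lhs => rw [e]
  conv_rhs => rw [e]
  simp only [Matrix.mul_sum, key, Finset.smul_sum]

end Pool.Agent.Work.MP_c404d3_gt
end

-- merged part: Pool.Agent.Work.MP_c404d3_gt.A10
section
/-!
A10: the full twist. Plan. W = irr n, c = cV A n, δ = rho c (k+2) (tor (k+2)), δ' = rho c (k+2)
(tor (k+1)), σ i = gen c (k+2) (i,true). tor (k+2) = crossWord 1 (k+1) 0 true, so δ is the
braiding cross c 1 (k+1) true (isBraid_cross) and braid_nat gives δ (S ⊗ 1) = (1 ⊗ S) δ for homs S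
of pow W (k+1); in particular δ σ i = σ (i+1) δ for i + 1 ≤ k. With δ = δ' σ k, induction on l
gives δ^l = δ'^l σ k σ (k-1) ... σ (k+1-l) for l ≤ k+1, so δ^(k+2) = δ'^(k+1) * c' * c0 where
c' = rho (crossWord (k+1) 1 0 true) = σ k ... σ 0 and c0 = δ. δ'^(k+1) = D ⊗ 1 (rho_app_left)
commutes with c' c0 (braid_nat twice). Induction on k with twist_tensor: the twist of pow W (k+1)
is A^((k+1) n (n+2)) • rho (tor (k+1))^(k+1); the twist of pow W 1 is the scalar (one1,
isTwist_irr); transport along app with isHom_app.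
-/

namespace Pool.Agent.Work.MP_c404d3_gt

open scoped BigOperators Real Kronecker
open Matrix Finset

variable {ι κ ι' κ' : Type} [Fintype ι] [DecidableEq ι] [Fintype κ] [DecidableEq κ]
  [Fintype ι'] [DecidableEq ι'] [Fintype κ'] [DecidableEq κ']

theorem A10_cross (c : Bool → Matrix (ι × ι) (ι × ι) ℂ) {a b M : ℕ} (h : a + b = M)
    (h' : b + a = M) (ε : Bool) :
    cross c a b ε = (rho c M (crossWord a b 0 ε)).submatrix (app h) (app h') := by
  subst h
  rfl

theorem A10_sub_inj {α β : Type} (e : α ≃ ι) (e' : β ≃ κ) {S T : Matrix ι κ ℂ}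
    (h : S.submatrix e e' = T.submatrix e e') : S = T := by
  ext a b
  simpa using congrFun (congrFun h (e.symm a)) (e'.symm b)

theorem A10_sub_pow (e : κ ≃ ι) (S : Matrix ι ι ℂ) (m : ℕ) :
    S.submatrix e e ^ m = (S ^ m).submatrix e e := by
  induction m with
  | zero => simp
  | succ m ih => rw [pow_succ, pow_succ, ih, submatrix_mul_equiv]

theorem A10_kron_pow (S : Matrix ι ι ℂ) (m : ℕ) :
    (S ^ m) ⊗ₖ (1 : Matrix κ κ ℂ) = (S ⊗ₖ (1 : Matrix κ κ ℂ)) ^ m := by
  induction m with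
  | zero => simp
  | succ m ih => rw [pow_succ, pow_succ, ← ih, ← mul_kronecker_mul, Matrix.one_mul]

theorem A10_twist_one {A : ℂ} (hq : Gen (A ^ 2)) (n : ℕ) :
    IsTwist A (pow (A ^ 2) (irr (A ^ 2) n) 1)
      (A ^ ((n : ℤ) * (n + 2)) • (1 : Matrix (Fin 1 → Fin (n + 1)) (Fin 1 → Fin (n + 1)) ℂ)) := by
  intro m i hi
  have h := congrArg ((one1 (Fin (n + 1)))ᵀ * ·)
    (isTwist_irr hq n m _ ((isHom_one1 _ _).mul hi))
  simp only [Matrix.smul_mul, Matrix.one_mul, Matrix.mul_smul, ← Matrix.mul_assoc,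
    one1_T_mul] at h
  rw [Matrix.smul_mul, Matrix.one_mul, h]

theorem A10_twist_app {A : ℂ} (hq : A ^ 2 ≠ 0) {W : QD ι} {a b M : ℕ} (h : a + b = M)
    {θ : Matrix (Fin M → ι) (Fin M → ι) ℂ}
    (H : IsTwist A (tensor (A ^ 2) (pow (A ^ 2) W a) (pow (A ^ 2) W b))
      (θ.submatrix (app h) (app h))) : IsTwist A (pow (A ^ 2) W M) θ := by
  intro m i hi
  have h1 : ∀ S : Matrix (Fin (m + 1)) (Fin (m + 1)) ℂ,
      i.submatrix (app h) id * S = (i * S).submatrix (app h) id := fun S => rfl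
  have h2 := H m (i.submatrix (app h) id)
    ⟨fun p x hx => (pow_app_wt _ W h p).symm.trans (hi.wt _ x hx),
      by rw [← pow_app_E hq W h, submatrix_mul_equiv, h1, hi.E],
      by rw [← pow_app_F hq W h, submatrix_mul_equiv, h1, hi.F]⟩
  rw [submatrix_mul_equiv] at h2
  exact A10_sub_inj (app h) (Equiv.refl _) h2

theorem A10_tor (k : ℕ) : tor (k + 1 + 1) = crossWord 1 (k + 1) 0 true := by
  simp [tor, crossWord]

theorem A10_tor_cons (k : ℕ) : tor (k + 1 + 1) = (0, true) :: shift 1 (tor (k + 1)) := by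
  simp [tor, shift, List.range_succ_eq_map, Function.comp_def]

theorem A10_tor_lt (k : ℕ) : ∀ x ∈ tor (k + 1), x.1 + 1 < k + 1 := by
  intro x hx
  obtain ⟨i, hi, rfl⟩ := List.mem_map.1 hx
  have := List.mem_range.1 hi
  simp only
  omega

theorem A10_cw (l : ℕ) : crossWord (l + 1) 1 0 true = (l, true) :: crossWord l 1 0 true := by
  simp only [crossWord, List.range_succ_eq_map (n := l), List.flatMap_cons, List.flatMap_map,
    List.range_one, List.map_cons, List.map_nil, List.singleton_append, Nat.add_sub_cancel,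
    Nat.sub_zero, zero_add, add_zero, Nat.succ_eq_add_one, Nat.sub_sub, Nat.add_comm 1]

theorem A10_slide {A : ℂ} (hq : Gen (A ^ 2)) {W : QD ι} (hW : IsMod (A ^ 2) W)
    {c : Bool → Matrix (ι × ι) (ι × ι) ℂ} (hc : ∀ ε, IsBraid A ε W W (c ε)) (k : ℕ) {w : Word}
    (hw : ∀ x ∈ w, x.1 + 1 < k + 1) :
    rho c (k + 1 + 1) (tor (k + 1 + 1)) * rho c (k + 1 + 1) w =
      rho c (k + 1 + 1) (shift 1 w) * rho c (k + 1 + 1) (tor (k + 1 + 1)) := by
  have hA : A ≠ 0 := fun h => hq.1 (by rw [h]; simp)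
  have h1 : k + 1 + 1 = k + 1 + 1 := rfl
  have h2 : 1 + (k + 1) = k + 1 + 1 := Nat.add_comm _ _
  have hb := isBraid_cross hA hc 1 (k + 1) true
  have h3 := braid_nat hq (isMod_pow hq hW (k + 1)) (isMod_pow hq hW 1) (isMod_pow hq hW (k + 1))
    (isMod_pow hq hW 1) hb hb (isHom_rho hq.1 (fun ε => (hc ε).hom) (k + 1) w) (IsHom.id _)
  rw [A10_cross _ h2 h1, ← rho_app_left c h1 hw, ← rho_app_right c h2 hw, submatrix_mul_equiv,
    submatrix_mul_equiv, ← A10_tor] at h3
  exact A10_sub_inj _ _ h3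

theorem A10_braid {A : ℂ} (hq : Gen (A ^ 2)) {W : QD ι} (hW : IsMod (A ^ 2) W)
    {c : Bool → Matrix (ι × ι) (ι × ι) ℂ} (hc : ∀ ε, IsBraid A ε W W (c ε)) (k : ℕ) :
    rho c (k + 1 + 1) (tor (k + 1 + 1)) ^ (k + 1 + 1) =
      rho c (k + 1 + 1) (crossWord (k + 1) 1 0 true) * rho c (k + 1 + 1) (tor (k + 1 + 1)) *
        rho c (k + 1 + 1) (tor (k + 1)) ^ (k + 1) := by
  have hs := fun w => A10_slide hq hW hc k (w := w)
  have h0 := congrArg (rho c (k + 1 + 1)) (A10_tor_cons k)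
  have h1 := hs _ (A10_tor_lt k)
  have hg : ∀ l, rho c (k + 1 + 1) (crossWord (l + 1) 1 0 true) =
      gen c (k + 1 + 1) (l, true) * rho c (k + 1 + 1) (crossWord l 1 0 true) := fun l => by
    rw [A10_cw, rho_cons]
  have hσ : ∀ l, l < k → rho c (k + 1 + 1) (tor (k + 1 + 1)) * gen c (k + 1 + 1) (l, true) =
      gen c (k + 1 + 1) (l + 1, true) * rho c (k + 1 + 1) (tor (k + 1 + 1)) := fun l hl => by
    simpa [shift, rho_cons] using hs [(l, true)] (by simpa using hl)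
  have hz : rho c (k + 1 + 1) (crossWord 0 1 0 true) = 1 := rho_nil _ _
  rw [rho_cons] at h0
  generalize rho c (k + 1 + 1) (tor (k + 1 + 1)) = δ at *
  generalize rho c (k + 1 + 1) (shift 1 (tor (k + 1))) = δ₂ at *
  generalize rho c (k + 1 + 1) (tor (k + 1)) = δ₁ at *
  have h2 : ∀ l, l ≤ k → δ * rho c (k + 1 + 1) (crossWord l 1 0 true) =
      rho c (k + 1 + 1) (crossWord (l + 1) 1 0 true) * δ₂ := fun l hl => by
    induction l with
    | zero => rw [hg, hz, mul_one, mul_one, h0]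
    | succ l ih => rw [hg (l + 1), mul_assoc, ← ih (by omega), hg l, ← mul_assoc, hσ l hl, mul_assoc]
  have h3 : ∀ l, l ≤ k + 1 → δ ^ l = rho c (k + 1 + 1) (crossWord l 1 0 true) * δ₂ ^ l :=
    fun l hl => by
    induction l with
    | zero => rw [hz, pow_zero, pow_zero, mul_one]
    | succ l ih => rw [pow_succ', ih (by omega), ← mul_assoc, h2 l (by omega), pow_succ', mul_assoc]
  rw [pow_succ, h3 _ le_rfl, mul_assoc, mul_assoc, (SemiconjBy.pow_right h1 (k + 1)).eq]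

theorem full_twist {A : ℂ} (hq : Gen (A ^ 2)) (n k : ℕ) :
    IsTwist A (pow (A ^ 2) (irr (A ^ 2) n) (k + 1))
      (A ^ (((k : ℤ) + 1) * ((n : ℤ) * (n + 2))) •
        rho (cV A n) (k + 1) (tor (k + 1)) ^ (k + 1)) := by
  have hA : A ≠ 0 := fun h => hq.1 (by rw [h]; simp)
  have hc := isBraid_cV hq n
  have hW := isMod_irr hq n
  induction k with
  | zero => simpa [tor] using A10_twist_one hq n
  | succ k ih =>
    have h1 : k + 1 + 1 = k + 1 + 1 := rfl
    have h2 : 1 + (k + 1) = k + 1 + 1 := Nat.add_comm _ _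
    refine A10_twist_app hq.1 h1 ?_
    have h3 := twist_tensor hq (isMod_pow hq hW (k + 1)) (isMod_pow hq hW 1)
      (isBraid_cross hA hc 1 (k + 1) true) (isBraid_cross hA hc (k + 1) 1 true) ih
      (A10_twist_one hq n)
    convert h3 using 1
    rw [A10_cross _ h2 h1, A10_cross _ h1 h2, submatrix_mul_equiv, smul_kronecker, kronecker_smul,
      A10_kron_pow, ← rho_app_left _ h1 (A10_tor_lt k), A10_sub_pow, smul_smul, Matrix.mul_smul,
      submatrix_mul_equiv, ← A10_tor, ← A10_braid hq hW hc k, ← zpow_add₀ hA]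
    rw [show ((k + 1 : ℕ) + 1 : ℤ) * (n * (n + 2)) = (k + 1) * (n * (n + 2)) + n * (n + 2) by
      push_cast; ring]
    rfl

end Pool.Agent.Work.MP_c404d3_gt
end

-- merged part: Pool.Agent.Work.MP_c404d3_gt.A5
section
/-!
A5: cabling is a change of alphabet. No module theory is needed.
Plan. Let blk : (Fin N → Fin j → ι) ≃ (Fin (N * j) → ι) send Y to the configuration with value
Y i a at the position a + j * i (finProdFinEquiv, Equiv.curry). Show
(1) (rho c (N*j) (crossWord j j (i*j) ε)).submatrix blk blk = gen (cross c j j) N (i, ε) for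
    i + 1 < N (crossWord j j (i*j) ε = shift (i*j) (crossWord j j 0 ε); use rho_app_right then
    rho_app_left with N*j = i*j + ((j+j) + rest), then compare entries),
(2) (rho c (N*j) v).submatrix blk blk = at0 N (rho c j v) (rho_app_left with N*j = j + rest),
(3) weights agree, so mu and qtr are transported (Equiv.sum_comp).
-/

namespace Pool.Agent.Work.MP_c404d3_gt

open scoped BigOperators Real Kronecker
open Matrix Finset

variable {ι κ ι' κ' : Type} [Fintype ι] [DecidableEq ι] [Fintype κ] [DecidableEq κ]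
  [Fintype ι'] [DecidableEq ι'] [Fintype κ'] [DecidableEq κ']

theorem a5_window (c : Bool → Matrix (ι × ι) (ι × ι) ℂ) {s m M : ℕ} (h : s + m ≤ M) {w : Word}
    (hw : ∀ x ∈ w, x.1 + 1 < m) (y z : Fin M → ι) :
    rho c M (shift s w) y z =
      if ∀ k : Fin M, (k : ℕ) < s ∨ s + m ≤ k → y k = z k then
        rho c m w (fun a => y ⟨s + a, by omega⟩) (fun a => z ⟨s + a, by omega⟩) else 0 := by
  obtain ⟨r, hr⟩ := Nat.exists_eq_add_of_le h
  have h' : s + (m + r) = M := by omega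
  have e : ∀ y : Fin M → ι, y = app h' (fun a => y ⟨a, by omega⟩,
      app rfl (fun a => y ⟨s + a, by omega⟩, fun a => y ⟨s + m + a, by omega⟩)) := fun y => by
    funext k
    rw [app_apply]
    split_ifs with h1
    · rfl
    · rw [app_apply]
      split_ifs with h2
      · exact congrArg y (Fin.ext (by simp only; omega))
      · exact congrArg y (Fin.ext (by simp only at h2 ⊢; omega))
  have e1 := fun p p' => congrFun (congrFun (rho_app_right c h' (w := w)
    fun x hx => (hw x hx).trans_le (Nat.le_add_right m r)) p) p'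
  have e2 := fun p p' => congrFun (congrFun (rho_app_left c (rfl : m + r = m + r) hw) p) p'
  simp only [submatrix_apply] at e1 e2
  conv_lhs => rw [e y, e z, e1, kroneckerMap_apply, e2, kroneckerMap_apply]
  simp only [one_apply]
  rw [mul_left_comm, ite_zero_mul_ite_zero, mul_one, mul_ite, mul_one, mul_zero]
  refine if_congr ⟨fun h1 k hk => ?_, fun h1 => ⟨funext fun a => h1 _ (Or.inl a.2),
    funext fun a => h1 _ (Or.inr (by simp))⟩⟩ rfl rfl
  rcases hk with hk | hk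
  · exact congrFun h1.1 ⟨k, hk⟩
  · have := congrFun h1.2 ⟨k - (s + m), by omega⟩
    simp only [Nat.add_sub_cancel' hk] at this
    exact this

/-- blocks of `j` consecutive positions -/
def a5Blk (ι : Type) (N j : ℕ) : (Fin N → Fin j → ι) ≃ (Fin (N * j) → ι) :=
  (Equiv.curry _ _ _).symm.trans (Equiv.arrowCongr finProdFinEquiv (Equiv.refl ι))

omit [Fintype ι] [DecidableEq ι] in
theorem a5_blk_apply {N j : ℕ} (Y : Fin N → Fin j → ι) (k : Fin (N * j)) (i : Fin N) (a : Fin j)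
    (h : (k : ℕ) = a + j * i) : a5Blk ι N j Y k = Y i a := by
  have e : k = finProdFinEquiv (i, a) := Fin.ext h
  subst e
  simp [a5Blk]

omit [Fintype ι] [DecidableEq ι] in
theorem a5_cond {N j i t s e : ℕ} (hs : s = j * i) (he : e = j * t) (Y Z : Fin N → Fin j → ι) :
    (∀ k : Fin (N * j), (k : ℕ) < s ∨ e ≤ k → a5Blk ι N j Y k = a5Blk ι N j Z k) ↔
      ∀ l : Fin N, (l : ℕ) < i ∨ t ≤ l → Y l = Z l := by
  have key : ∀ (l : Fin N) (a : Fin j), ((a : ℕ) + j * l < s ∨ e ≤ a + j * l) ↔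
      ((l : ℕ) < i ∨ t ≤ l) := fun l a => by
    have ha := a.2
    have k1 : ∀ n : ℕ, (a : ℕ) + j * l < j * n ↔ (l : ℕ) < n := fun n =>
      ⟨fun h => lt_of_mul_lt_mul_left (a := j) (by omega) (Nat.zero_le _), fun h => by
        have := Nat.mul_le_mul_left j h
        rw [Nat.mul_succ] at this
        omega⟩
    rw [hs, he, k1, ← not_lt, k1, not_lt]
  constructor
  · intro h l hl
    funext a
    have := h (finProdFinEquiv (l, a)) ((key l a).2 hl)
    rwa [a5_blk_apply Y _ l a rfl, a5_blk_apply Z _ l a rfl] at this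
  · intro h k hk
    obtain ⟨⟨l, a⟩, rfl⟩ := finProdFinEquiv.surjective k
    rw [a5_blk_apply Y _ l a rfl, a5_blk_apply Z _ l a rfl, h l ((key l a).1 hk)]

theorem a5_cross_shift (a b s : ℕ) (ε : Bool) :
    crossWord a b s ε = shift s (crossWord a b 0 ε) := by
  simp only [crossWord, shift, List.map_flatMap, List.map_map]
  refine congrArg (List.flatMap · _) (funext fun i => List.map_congr_left fun k _ => ?_)
  simp only [Function.comp_apply]
  congr 1
  omega

theorem a5_cross_valid (j : ℕ) (ε : Bool) : ∀ x ∈ crossWord j j 0 ε, x.1 + 1 < j + j := by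
  intro x hx
  simp only [crossWord, List.mem_flatMap, List.mem_map, List.mem_range] at hx
  obtain ⟨i, hi, k, hk, rfl⟩ := hx
  simp only
  omega

theorem a5_gen (c : Bool → Matrix (ι × ι) (ι × ι) ℂ) {N j : ℕ} {x : ℕ × Bool} (hx : x.1 + 1 < N) :
    (rho c (N * j) (crossWord j j (x.1 * j) x.2)).submatrix (a5Blk ι N j) (a5Blk ι N j) =
      gen (fun ε => cross c j j ε) N x := by
  have h : x.1 * j + (j + j) ≤ N * j := by
    have := Nat.mul_le_mul_right j (show x.1 + 2 ≤ N from hx)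
    rw [add_mul] at this
    omega
  have e : ∀ (Y : Fin N → Fin j → ι) (h' : j + j = j + j),
      (fun a : Fin (j + j) => a5Blk ι N j Y ⟨x.1 * j + a, by omega⟩) =
        app h' (Y ⟨x.1, by omega⟩, Y ⟨x.1 + 1, hx⟩) := fun Y h' => by
    funext a
    rw [app_apply]
    split_ifs with h1
    · exact a5_blk_apply Y _ _ _ (by simp only [mul_comm j]; omega)
    · exact a5_blk_apply Y _ _ _ (by simp only [mul_comm j, add_mul]; omega)
  ext Y Z
  rw [submatrix_apply, a5_cross_shift, a5_window c h (a5_cross_valid j x.2), gen, dif_pos hx,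
    of_apply, e Y rfl, e Z (Nat.add_comm j j)]
  refine if_congr ((a5_cond (i := x.1) (t := x.1 + 2) (mul_comm _ _) (by ring) Y Z).trans
    (forall_congr' fun l => ⟨fun h h1 h2 => h (by omega), fun h h1 => h (by omega) (by omega)⟩))
    rfl rfl

theorem a5_cable (c : Bool → Matrix (ι × ι) (ι × ι) ℂ) {N j : ℕ} {w : Word}
    (hw : ∀ x ∈ w, x.1 + 1 < N) :
    (rho c (N * j) (cable j w)).submatrix (a5Blk ι N j) (a5Blk ι N j) =
      rho (fun ε => cross c j j ε) N w := by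
  induction w with
  | nil => simp [cable]
  | cons x w ih =>
    rw [rho_cons, ← ih fun y hy => hw y (List.mem_cons_of_mem _ hy),
      ← a5_gen c (hw x List.mem_cons_self), submatrix_mul_equiv, ← rho_append, cable, cable,
      List.flatMap_cons]

theorem a5_at0 (c : Bool → Matrix (ι × ι) (ι × ι) ℂ) {N j : ℕ} (hN : 0 < N) {v : Word}
    (hv : ∀ x ∈ v, x.1 + 1 < j) :
    (rho c (N * j) v).submatrix (a5Blk ι N j) (a5Blk ι N j) = at0 N (rho c j v) := by
  obtain ⟨n, rfl⟩ := Nat.exists_eq_succ_of_ne_zero hN.ne'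
  have h : 0 + j ≤ (n + 1) * j := by
    rw [add_mul]
    omega
  have e0 : v = shift 0 v := by simp [shift]
  have e : ∀ Y : Fin (n + 1) → Fin j → ι,
      (fun a : Fin j => a5Blk ι (n + 1) j Y ⟨0 + a, by omega⟩) = Y 0 := fun Y =>
    funext fun a => a5_blk_apply Y _ _ _ (by simp)
  ext Y Z
  rw [submatrix_apply]
  conv_lhs => rw [e0, a5_window c h hv, e Y, e Z]
  rw [at0, tens, of_apply, Fin.prod_univ_succ]
  simp only [Fin.val_zero, Fin.val_succ, Nat.succ_ne_zero, if_false, one_apply,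
    Fintype.prod_boole, mul_ite, mul_one, mul_zero]
  refine if_congr ((a5_cond (i := 0) (t := 1) (by simp) (by simp) Y Z).trans
    ⟨fun h l => h _ (by simp), fun h l hl => ?_⟩) rfl rfl
  obtain ⟨l, rfl⟩ := Fin.exists_succ_eq.2 (show l ≠ 0 by rintro rfl; simp at hl)
  exact h l

theorem qtr_cable (q : ℂ) (W : QD ι) (c : Bool → Matrix (ι × ι) (ι × ι) ℂ) {N j : ℕ}
    (hN : 0 < N) {w v : Word} (hw : ∀ x ∈ w, x.1 + 1 < N) (hv : ∀ x ∈ v, x.1 + 1 < j) :
    qtr q (pow q W (N * j)) (rho c (N * j) (cable j w ++ v)) =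
      Finv q (pow q W j) (fun ε => cross c j j ε) N w (rho c j v) := by
  rw [Finv, ← a5_cable c hw, ← a5_at0 c hN hv, submatrix_mul_equiv, ← rho_append, qtr, qtr,
    ← (a5Blk ι N j).sum_comp]
  refine Finset.sum_congr rfl fun Y _ => ?_
  rw [submatrix_apply, mu, mu]
  congr 2
  simp only [pow]
  rw [← finProdFinEquiv.sum_comp, Fintype.sum_prod_type]
  exact Finset.sum_congr rfl fun l _ => Finset.sum_congr rfl fun a _ => by
    rw [a5_blk_apply Y _ l a rfl]

end Pool.Agent.Work.MP_c404d3_gt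
end

-- merged part: Pool.Agent.Work.MP_c404d3_gt.A13
section
/-!
A13: the state sum is the quantum trace. Plan: cK = cV 1 by fin_cases; gen (cK A) N (i,ε) =
∑ b : Bool, (if b = ε then A⁻¹ else A) • gen (cTL A) N (i,b); expand the product of the list
(induction on w, Fin.consEquiv or List.ofFn_succ); qtr is linear; loops_eq_count, qtr_TL.
-/

namespace Pool.Agent.Work.MP_c404d3_gt

open scoped BigOperators Real Kronecker
open Matrix Finset

variable {ι κ ι' κ' : Type} [Fintype ι] [DecidableEq ι] [Fintype κ] [DecidableEq κ]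
  [Fintype ι'] [DecidableEq ι'] [Fintype κ'] [DecidableEq κ']

theorem cK_eq {A : ℂ} (hA : A ≠ 0) : cK A = cV A 1 := by
  have hI : Complex.I ^ 2 = -1 := Complex.I_sq
  funext ε
  ext ⟨a, b⟩ ⟨c, d⟩
  cases ε <;> fin_cases a <;> fin_cases b <;> fin_cases c <;> fin_cases d <;>
    simp [cK, cV, tlU, cupM, qbin, qb] <;> field_simp <;>
    simp [hI] <;> ring

theorem A13_gen (A : ℂ) {N : ℕ} {x : ℕ × Bool} (hx : x.1 + 1 < N) :
    gen (cK A) N x = ∑ b : Bool, (if b = x.2 then A⁻¹ else A) • gen (cTL A) N (x.1, b) := by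
  obtain ⟨i, ε⟩ := x
  have e : cK A ε = (if true = ε then A⁻¹ else A) • cTL A true +
      (if false = ε then A⁻¹ else A) • cTL A false := by
    cases ε <;> simp [cK, cTL, add_comm]
  ext y z
  simp only [gen, dif_pos hx, Fintype.sum_bool, Matrix.add_apply, Matrix.smul_apply,
    Matrix.of_apply, smul_eq_mul, e]
  by_cases h : ∀ k : Fin N, (k : ℕ) ≠ i → (k : ℕ) ≠ i + 1 → y k = z k
  · simp only [if_pos h]
  · simp only [if_neg h, mul_zero, add_zero]

theorem A13_rho (A : ℂ) {N : ℕ} : ∀ {w : Word}, (∀ x ∈ w, x.1 + 1 < N) →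
    rho (cK A) N w = ∑ s : Fin w.length → Bool,
      (∏ t, if s t = (w.get t).2 then A⁻¹ else A) • rho (cTL A) N (smooth w s)
  | [], _ => by simp [smooth]
  | x :: w, hw => by
    rw [rho_cons, A13_gen A (hw x (by simp)), A13_rho A fun y hy => hw y (by simp [hy]),
      Finset.sum_mul_sum, ← Fintype.sum_prod_type']
    refine Fintype.sum_equiv (Fin.consEquiv fun _ : Fin (w.length + 1) => Bool) _ _ ?_
    rintro ⟨b, s⟩
    have e : smooth (x :: w) (Fin.cons b s) = (x.1, b) :: smooth w s := by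
      simp [smooth, List.ofFn_succ]
    change _ = (∏ t : Fin (w.length + 1), if (Fin.cons b s : Fin (w.length + 1) → Bool) t =
      ((x :: w).get t).2 then A⁻¹ else A) • rho (cTL A) N (smooth (x :: w) (Fin.cons b s))
    rw [e, rho_cons, Fin.prod_univ_succ, smul_mul_smul_comm]
    rfl

omit [DecidableEq ι] in
theorem A13_qtr_sum {β : Type} [Fintype β] (q : ℂ) (X : QD ι) (a : β → ℂ)
    (T : β → Matrix ι ι ℂ) : qtr q X (∑ b, a b • T b) = ∑ b, a b * qtr q X (T b) := by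
  simp only [qtr, Matrix.sum_apply, Matrix.smul_apply, smul_eq_mul, Finset.mul_sum]
  rw [Finset.sum_comm]
  exact Finset.sum_congr rfl fun b _ => Finset.sum_congr rfl fun i _ => by ring

theorem bracket_eq_J {A : ℂ} (hA : A ≠ 0) {N : ℕ} {w : Word} (hw : ∀ x ∈ w, x.1 + 1 < N) :
    bracket A N w = J A N w 1 := by
  rw [J, ← cK_eq hA, A13_rho A hw, A13_qtr_sum, bracket]
  refine Finset.sum_congr rfl fun s _ => ?_
  rw [loops_eq_count hw, qtr_TL hA]
  intro x hx
  obtain ⟨t, rfl⟩ := (List.mem_ofFn' _ _).1 hx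
  exact hw (w.get t) (List.get_mem w t)

end Pool.Agent.Work.MP_c404d3_gt
end

-- merged part: Pool.Agent.Work.MP_c404d3_gt.A12
section
/-!
A12: the Chebyshev-coloured bracket is J. Plan. bracket (N*j) (cable j w) = J (N*j) (cable j w) 1
(bracket_eq_J, cable_valid) = Finv (pow V j) (cross) N w 1 (qtr_cable with v = [], V = irr 1)
= ∑ m < B, (ch_j m - ch_j (m+2)) J m (Finv_eq_sum, B = n + 1 works since the degree of S n is
at most n; or any B > j), where ch_j w = ch (pow V j) 1 w counts x of weight w and satisfies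
ch_(j+1) w = ch_j (w-1) + ch_j (w+1). So a n w = (S n).sum (fun j c => c * ch_j w) satisfies
a (n+2) w = a (n+1) (w-1) + a (n+1) (w+1) - a n w, hence a n w = if |w| ≤ n and n - w even then 1
else 0 and a n m - a n (m+2) = if m = n then 1 else 0.
-/

namespace Pool.Agent.Work.MP_c404d3_gt

open scoped BigOperators Real Kronecker
open Matrix Finset

variable {ι κ ι' κ' : Type} [Fintype ι] [DecidableEq ι] [Fintype κ] [DecidableEq κ]
  [Fintype ι'] [DecidableEq ι'] [Fintype κ'] [DecidableEq κ']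

theorem cable_valid {N j : ℕ} {w : Word} (hw : ∀ x ∈ w, x.1 + 1 < N) :
    ∀ x ∈ cable j w, x.1 + 1 < N * j := by
  intro x hx
  simp only [cable, crossWord, List.mem_flatMap, List.mem_map, List.mem_range] at hx
  obtain ⟨y, hy, i, hi, k, hk, rfl⟩ := hx
  have h1 : (y.1 + 2) * j ≤ N * j := Nat.mul_le_mul_right _ (hw y hy)
  rw [add_mul] at h1
  simp only
  omega

/-- the number of configurations of weight `w` -/
noncomputable def A12_c (q : ℂ) (j : ℕ) (w : ℤ) : ℂ := ch (pow q (irr q 1) j) 1 w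

theorem A12_c_zero (q : ℂ) (w : ℤ) : A12_c q 0 w = if w = 0 then 1 else 0 := by
  simp [A12_c, ch, pow, eq_comm]

theorem A12_c_succ (q : ℂ) (j : ℕ) (w : ℤ) :
    A12_c q (j + 1) w = A12_c q j (w - 1) + A12_c q j (w + 1) := by
  simp only [A12_c, ch, pow, one_apply_eq]
  rw [← (Fin.consEquiv fun _ : Fin (j + 1) => Fin (1 + 1)).sum_comp, Fintype.sum_prod_type,
    Fin.sum_univ_two]
  congr 1 <;> refine Finset.sum_congr rfl fun x _ => if_congr ?_ rfl rfl <;>
    simp only [Fin.sum_univ_succ, Fin.consEquiv_apply, Fin.cons_zero, Fin.cons_succ] <;>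
    simp only [irr, Fin.val_zero, Fin.val_one] <;> omega

/-- pairing of a polynomial with a sequence -/
noncomputable def A12_L (f : ℕ → ℂ) (P : Polynomial ℤ) : ℂ := P.sum fun j a => (a : ℂ) * f j

theorem A12_L_add (f : ℕ → ℂ) (P Q : Polynomial ℤ) : A12_L f (P + Q) = A12_L f P + A12_L f Q :=
  Polynomial.sum_add_index P Q _ (fun _ => by simp) fun _ _ _ => by simp [add_mul]

theorem A12_L_sub (f : ℕ → ℂ) (P Q : Polynomial ℤ) : A12_L f (P - Q) = A12_L f P - A12_L f Q := by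
  rw [eq_sub_iff_add_eq, ← A12_L_add, sub_add_cancel]

theorem A12_L_mono (f : ℕ → ℂ) (j : ℕ) (a : ℤ) : A12_L f (Polynomial.monomial j a) = a * f j :=
  Polynomial.sum_monomial_index a _ (by simp)

theorem A12_L_X (f : ℕ → ℂ) (P : Polynomial ℤ) :
    A12_L f (Polynomial.X * P) = A12_L (fun j => f (j + 1)) P := by
  induction P using Polynomial.induction_on' with
  | add P Q hP hQ => rw [mul_add, A12_L_add, A12_L_add, hP, hQ]
  | monomial j a => rw [Polynomial.X_mul_monomial, A12_L_mono, A12_L_mono]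

theorem A12_L_fadd (f g : ℕ → ℂ) (P : Polynomial ℤ) :
    A12_L (fun j => f j + g j) P = A12_L f P + A12_L g P := by
  simp only [A12_L, Polynomial.sum_def, mul_add, Finset.sum_add_distrib]

theorem A12_char (q : ℂ) (n : ℕ) : ∀ w : ℤ,
    A12_L (fun j => A12_c q j w) (Polynomial.Chebyshev.S ℤ (n : ℤ)) =
      if -(n : ℤ) ≤ w ∧ w ≤ n ∧ (n - w) % 2 = 0 then 1 else 0 := by
  have h0 : ∀ w : ℤ, A12_L (fun j => A12_c q j w) 1 = if w = 0 then 1 else 0 := fun w => by
    rw [← Polynomial.monomial_zero_one, A12_L_mono, A12_c_zero]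
    simp
  induction n using Nat.twoStepInduction with
  | zero =>
    intro w
    rw [Nat.cast_zero, Polynomial.Chebyshev.S_zero, h0]
    exact if_congr (by omega) rfl rfl
  | one =>
    intro w
    rw [Nat.cast_one, Polynomial.Chebyshev.S_one, ← mul_one Polynomial.X, A12_L_X]
    simp only [A12_c_succ]
    rw [A12_L_fadd, h0, h0]
    split_ifs <;> first | omega | simp
  | more n h1 h2 =>
    intro w
    rw [Nat.cast_add, Nat.cast_ofNat, Polynomial.Chebyshev.S_add_two, A12_L_sub, A12_L_X]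
    simp only [A12_c_succ]
    push_cast at h2
    rw [A12_L_fadd, h2, h2, h1]
    split_ifs <;> first | omega | simp

theorem A12_bracket {A : ℂ} (hq : Gen (A ^ 2)) {N : ℕ} {w : Word} (hw : IsKnot N w) {j B : ℕ}
    (hB : j < B) : bracket A (N * j) (cable j w) =
      ∑ m ∈ range B, (A12_c (A ^ 2) j m - A12_c (A ^ 2) j (m + 2)) * J A N w m := by
  have hA : A ≠ 0 := fun h => hq.1 (by simp [h])
  have h := qtr_cable (A ^ 2) (irr (A ^ 2) 1) (cV A 1) (j := j) hw.1 hw.2.1 (v := []) (by simp)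
  rw [List.append_nil, rho_nil] at h
  rw [bracket_eq_J hA (cable_valid hw.2.1), J, h]
  refine Finv_eq_sum hq (isMod_pow hq (isMod_irr hq 1) j)
    (fun ε => isBraid_cross hA (isBraid_cV hq 1) j j ε) (isBraid_cV hq) hw (IsHom.id _) fun x => ?_
  have : ∑ k : Fin j, (irr (A ^ 2) 1).wt (x k) ≤ ∑ _k : Fin j, (1 : ℤ) :=
    Finset.sum_le_sum fun k _ => by simp [irr]
  simp only [Finset.sum_const, Finset.card_univ, Fintype.card_fin, nsmul_eq_mul,
    mul_one] at this
  exact this.trans_lt (by exact_mod_cast hB)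

theorem colBracket_eq_J {A : ℂ} (hq : Gen (A ^ 2)) {N : ℕ} {w : Word} (hw : IsKnot N w)
    (n : ℕ) : colBracket A N w n = J A N w n := by
  set P := Polynomial.Chebyshev.S ℤ (n : ℤ) with hP
  have h1 : colBracket A N w n = ∑ m ∈ range (P.natDegree + n + 1),
      (A12_L (fun j => A12_c (A ^ 2) j m) P - A12_L (fun j => A12_c (A ^ 2) j (m + 2)) P) *
        J A N w m := by
    simp only [colBracket, A12_L, ← hP, Polynomial.sum_def, ← Finset.sum_sub_distrib,
      Finset.sum_mul]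
    rw [Finset.sum_comm]
    refine Finset.sum_congr rfl fun j hj => ?_
    rw [A12_bracket hq hw (B := P.natDegree + n + 1)
      (by have := Polynomial.le_natDegree_of_mem_supp j hj; omega), Finset.mul_sum]
    exact Finset.sum_congr rfl fun m _ => by ring
  rw [h1, Finset.sum_eq_single n]
  · rw [hP, A12_char, A12_char, if_pos (by omega), if_neg (by omega), sub_zero, one_mul]
  · intro m _ hm
    rw [hP, A12_char, A12_char]
    split_ifs <;> first | omega | simp
  · intro h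
    exact (h (Finset.mem_range.2 (by omega))).elim

end Pool.Agent.Work.MP_c404d3_gt
end

-- merged part: Pool.Agent.Work.MP_c404d3_gt.A14
section
/-!
A14: the coloured bracket of KK.
-/

namespace Pool.Agent.Work.MP_c404d3_gt

open scoped BigOperators Real Kronecker
open Matrix Finset

/-- odd extension of `qb m * Hab m` -/
noncomputable def Yq (q : ℂ) (m : ℤ) : ℂ := qb q m * Hab q m.natAbs

theorem Yq_neg (q : ℂ) (m : ℤ) : Yq q (-m) = -Yq q m := by
  simp only [Yq, qb, Int.natAbs_neg, neg_neg]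
  ring

/-- odd extension: the value at `m + 1` is `g m` -/
noncomputable def oddExt (g : ℕ → ℂ) (x : ℤ) : ℂ :=
  if 0 < x then g (x - 1).toNat else if x < 0 then -g (-x - 1).toNat else 0

theorem oddExt_neg (g : ℕ → ℂ) (x : ℤ) : oddExt g (-x) = -oddExt g x := by
  unfold oddExt
  rcases lt_trichotomy x 0 with h | h | h
  · rw [if_pos (by omega), if_neg (by omega), if_pos h, neg_neg]
  · subst h; simp
  · rw [if_neg (by omega), if_pos (by omega), if_pos h, neg_neg]

theorem oddExt_succ (g : ℕ → ℂ) (m : ℕ) : oddExt g ((m : ℤ) + 1) = g m := by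
  unfold oddExt
  rw [if_pos (by omega)]
  simp

theorem sum_ind (g : ℕ → ℂ) (B : ℕ) (w : ℤ) (hw : w < B) :
    ∑ m ∈ range B, (if w = (m : ℤ) then g m else 0) = if 0 ≤ w then oddExt g (w + 1) else 0 := by
  split_ifs with h
  · obtain ⟨m0, rfl⟩ := Int.eq_ofNat_of_zero_le h
    rw [oddExt_succ, Finset.sum_eq_single m0]
    · simp
    · intro b _ hb
      rw [if_neg]
      intro h'
      exact hb (by exact_mod_cast h'.symm)
    · intro h'
      exact absurd (mem_range.2 (by exact_mod_cast hw)) h'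
  · refine Finset.sum_eq_zero fun m _ => ?_
    rw [if_neg (by omega)]

theorem cable_sum (g : ℕ → ℂ) (k n B : ℕ) (hB : (k : ℤ) * n < B) :
    ∑ m ∈ range B,
      ((((range (n + 1)).filter fun i : ℕ => (k : ℤ) * ((n : ℤ) - 2 * i) = m).card : ℂ) -
        (((range (n + 1)).filter fun i : ℕ => (k : ℤ) * ((n : ℤ) - 2 * i) = m + 2).card : ℂ)) *
        g m = ∑ i ∈ range (n + 1), oddExt g ((k : ℤ) * ((n : ℤ) - 2 * i) + 1) := by
  have hlt : ∀ i : ℕ, (k : ℤ) * ((n : ℤ) - 2 * i) < B := by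
    intro i
    have : (0 : ℤ) ≤ (k : ℤ) * (2 * i) := by positivity
    nlinarith
  have e1 : ∀ m : ℕ, (((range (n + 1)).filter
      fun i : ℕ => (k : ℤ) * ((n : ℤ) - 2 * i) = m).card : ℂ) * g m =
      ∑ i ∈ range (n + 1), if (k : ℤ) * ((n : ℤ) - 2 * i) = m then g m else 0 := by
    intro m
    rw [← Finset.sum_filter, Finset.sum_const, nsmul_eq_mul]
  have e2 : ∀ m : ℕ, (((range (n + 1)).filter
      fun i : ℕ => (k : ℤ) * ((n : ℤ) - 2 * i) = m + 2).card : ℂ) * g m =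
      ∑ i ∈ range (n + 1), if (k : ℤ) * ((n : ℤ) - 2 * i) - 2 = m then g m else 0 := by
    intro m
    rw [← Finset.sum_filter, Finset.sum_const, nsmul_eq_mul]
    congr 3
    refine Finset.filter_congr fun i _ => ?_
    constructor <;> intro h <;> linarith
  simp only [sub_mul, e1, e2, Finset.sum_sub_distrib]
  rw [Finset.sum_comm, Finset.sum_comm (s := range B)]
  rw [Finset.sum_congr rfl fun i _ => sum_ind g B _ (hlt i),
    Finset.sum_congr rfl fun (i : ℕ) _ => sum_ind g B _ (by have := hlt i; omega :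
      (k : ℤ) * ((n : ℤ) - 2 * i) - 2 < B)]
  have e3 : ∑ i ∈ range (n + 1), (if 0 ≤ (k : ℤ) * ((n : ℤ) - 2 * i) - 2 then
      oddExt g ((k : ℤ) * ((n : ℤ) - 2 * i) - 2 + 1) else 0) =
      ∑ i ∈ range (n + 1), -(if 0 ≤ (k : ℤ) * ((n : ℤ) - 2 * i) then 0 else
        oddExt g ((k : ℤ) * ((n : ℤ) - 2 * i) + 1)) := by
    rw [← Finset.sum_range_reflect]
    refine Finset.sum_congr rfl fun i hi => ?_
    have hi' : i ≤ n := by have := mem_range.1 hi; omega
    have e : (k : ℤ) * ((n : ℤ) - 2 * ((n + 1 - 1 - i : ℕ) : ℤ)) = -((k : ℤ) * ((n : ℤ) - 2 * i)) := by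
      have : ((n + 1 - 1 - i : ℕ) : ℤ) = n - i := by omega
      rw [this]; ring
    rw [e]
    generalize (k : ℤ) * ((n : ℤ) - 2 * i) = w
    by_cases h1 : 0 ≤ -w - 2
    · rw [if_pos h1, if_neg (by omega), ← oddExt_neg]
      congr 1; ring
    · rw [if_neg h1]
      by_cases h2 : 0 ≤ w
      · rw [if_pos h2, neg_zero]
      · rw [if_neg h2]
        have : w + 1 = 0 := by omega
        rw [this]; simp [oddExt]
  rw [e3, ← Finset.sum_sub_distrib]
  refine Finset.sum_congr rfl fun i _ => ?_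
  split_ifs <;> simp

theorem fold_two (G : ℤ → ℂ) (hG : ∀ x, G (-x) = -G x) (n : ℕ) :
    ∑ i ∈ range (n + 1), G (2 * ((n : ℤ) - 2 * i) + 1) =
      (-1) ^ n * ∑ s ∈ range (n + 1), (-1) ^ s * G (2 * (s : ℤ) + 1) := by
  induction n with
  | zero => simp
  | succ n ih =>
    rw [Finset.sum_range_succ' _ (n + 1), Finset.sum_range_succ _ (n + 1)]
    have e : ∑ i ∈ range (n + 1), G (2 * (((n + 1 : ℕ) : ℤ) - 2 * ((i + 1 : ℕ) : ℤ)) + 1) =
        -∑ i ∈ range (n + 1), G (2 * ((n : ℤ) - 2 * i) + 1) := by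
      rw [← Finset.sum_range_reflect, ← Finset.sum_neg_distrib]
      refine Finset.sum_congr rfl fun i hi => ?_
      have hi' : i ≤ n := by have := mem_range.1 hi; omega
      rw [← hG]
      congr 1
      have : ((n + 1 - 1 - i + 1 : ℕ) : ℤ) = n - i + 1 := by omega
      rw [this]; push_cast; ring
    rw [e, ih]
    have h2 : ((-1 : ℂ)) ^ (n + 1) * (-1) ^ (n + 1) = 1 := by
      rw [← pow_add, ← two_mul, pow_mul]; simp
    push_cast
    simp only [mul_zero, sub_zero]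
    linear_combination (-G (2 * ((n : ℤ) + 1) + 1)) * h2

theorem gen_pow {B : ℝ} (hB : 1 < B) {k : ℕ} (hk : k ≠ 0) : Gen (((B : ℂ) ^ k) ^ 2) := by
  have := gen_of_real (one_lt_pow₀ hB hk)
  rwa [Complex.ofReal_pow] at this

/-- the cabling formula for a general knot, with `A = B ^ k` -/
theorem J_cable {N k n : ℕ} {w v : Word} (hw : IsKnot N w) (hv : IsKnot k v) (e : ℕ → ℤ)
    (H : ∀ B : ℝ, 1 < B → ∀ (m : ℕ) (i : Matrix (Fin k → Fin (n + 1)) (Fin (m + 1)) ℂ),
      IsHom (irr (((B : ℂ) ^ k) ^ 2) m) (pow (((B : ℂ) ^ k) ^ 2) (irr (((B : ℂ) ^ k) ^ 2) n) k) i →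
        rho (cV ((B : ℂ) ^ k) n) k v ^ k * i = ((B : ℂ) ^ k) ^ (e m) • i)
    {B : ℝ} (hB : 1 < B) :
    J ((B : ℂ) ^ k) (N * k) (cable k w ++ v) n =
      ∑ i ∈ range (n + 1), oddExt (fun m => (B : ℂ) ^ (e m) * J ((B : ℂ) ^ k) N w m)
        ((k : ℤ) * ((n : ℤ) - 2 * i) + 1) := by
  have hk : k ≠ 0 := hv.1.ne'
  have hq := gen_pow hB hk
  have hA : ((B : ℂ) ^ k) ≠ 0 := pow_ne_zero _ (by exact_mod_cast (by linarith : B ≠ 0))
  unfold J
  rw [qtr_cable _ _ _ hw.1 hw.2.1 hv.2.1]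
  have hb := fun ε => isBraid_cV hq n ε
  rw [Finv_eq_sum hq (isMod_pow hq (isMod_irr hq n) k)
    (fun ε => isBraid_cross hA hb k k ε) (fun m ε => isBraid_cV hq m ε) hw
    (isHom_rho hq.1 (fun ε => (hb ε).hom) k v) (B := k * n + 1) ?_]
  · rw [← cable_sum _ k n (k * n + 1) (by push_cast; omega)]
    refine Finset.sum_congr rfl fun m _ => ?_
    rw [rosso_jones hv e H hB m]
    unfold J
    ring
  · intro x
    simp only [pow, irr]
    have : ∑ j : Fin k, ((n : ℤ) - 2 * ((x j : ℕ) : ℤ)) ≤ ∑ _j : Fin k, (n : ℤ) :=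
      Finset.sum_le_sum fun j _ => by omega
    simp only [Finset.sum_const, card_univ, Fintype.card_fin, nsmul_eq_mul] at this
    push_cast
    omega

theorem twist_H {A : ℂ} (hq : Gen (A ^ 2)) (n k m : ℕ)
    (i : Matrix (Fin (k + 1) → Fin (n + 1)) (Fin (m + 1)) ℂ)
    (hi : IsHom (irr (A ^ 2) m) (pow (A ^ 2) (irr (A ^ 2) n) (k + 1)) i) :
    rho (cV A n) (k + 1) (tor (k + 1)) ^ (k + 1) * i =
      A ^ ((m : ℤ) * (m + 2) - ((k : ℤ) + 1) * ((n : ℤ) * (n + 2))) • i := by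
  have hA : A ≠ 0 := fun h => hq.1 (by simp [h])
  have h := full_twist hq n k m i hi
  rw [Matrix.smul_mul] at h
  have h2 : A ^ (((k : ℤ) + 1) * ((n : ℤ) * (n + 2))) ≠ 0 := zpow_ne_zero _ hA
  rw [zpow_sub₀ hA, div_eq_inv_mul, mul_smul, ← h, smul_smul, inv_mul_cancel₀ h2, one_smul]

theorem exists_root {a : ℝ} (ha : 1 < a) {k : ℕ} (hk : k ≠ 0) :
    ∃ B : ℝ, 1 < B ∧ (B : ℂ) ^ k = a := by
  refine ⟨a ^ ((k : ℝ)⁻¹), Real.one_lt_rpow ha (by positivity), ?_⟩
  rw [← Complex.ofReal_pow, Real.rpow_inv_natCast_pow (by linarith) hk]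

theorem qb_J_fig8 {A : ℂ} (hq : Gen (A ^ 2)) (m : ℕ) :
    qb (A ^ 2) 1 * J A 3 fig8 m = (-1) ^ m * Yq (A ^ 2) ((m : ℤ) + 1) := by
  rw [J_fig8 hq, Yq, qb_eq hq ((m : ℤ) + 1)]
  have : ((m : ℤ) + 1).natAbs = m + 1 := by omega
  rw [this]
  simp only [qb, zpow_one, _root_.zpow_neg]
  ring

theorem J_K1 {a : ℝ} (ha : 1 < a) (s : ℕ) :
    qb ((a : ℂ) ^ 2) 1 * J (a : ℂ) 18 K1 (2 * s) =
      (a : ℂ) ^ (-(4 * (s : ℤ) * (s + 1))) *
        ∑ k ∈ Icc (-(s : ℤ)) s, (a : ℂ) ^ (24 * k ^ 2 + 4 * k) * Yq ((a : ℂ) ^ 2) (12 * k + 1) := by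
  obtain ⟨B, hB, hBa⟩ := exists_root ha (k := 6) (by norm_num)
  have hq : Gen ((a : ℂ) ^ 2) := gen_of_real ha
  have hB0 : (B : ℂ) ≠ 0 := by exact_mod_cast (by linarith : B ≠ 0)
  have h := J_cable (n := 2 * s) isKnot_fig8 isKnot_tor6
    (fun m => (m : ℤ) * (m + 2) - ((5 : ℕ) + 1 : ℤ) * (((2 * s : ℕ) : ℤ) * ((2 * s : ℕ) + 2)))
    (fun B hB m i hi => twist_H (gen_pow hB (by norm_num)) (2 * s) 5 m i hi) hB
  rw [hBa] at h
  have h' : J (a : ℂ) 18 K1 (2 * s) = _ := h
  rw [h', Finset.mul_sum, Finset.mul_sum]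
  have hpow : ∀ z : ℤ, (a : ℂ) ^ z = (B : ℂ) ^ (6 * z) := by
    intro z
    rw [← hBa, ← zpow_natCast, ← _root_.zpow_mul]
    rfl
  symm
  refine Finset.sum_bij' (fun k _ => ((s : ℤ) - k).toNat) (fun i _ => (s : ℤ) - i) ?_ ?_ ?_ ?_ ?_
  · intro k hk
    have := mem_Icc.1 hk
    exact mem_range.2 (by omega)
  · intro i hi
    have := mem_range.1 hi
    exact mem_Icc.2 (by omega)
  · intro k hk
    have := mem_Icc.1 hk
    omega
  · intro i hi
    omega
  · intro k hk
    have hk' := mem_Icc.1 hk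
    have e : ((6 : ℕ) : ℤ) * (((2 * s : ℕ) : ℤ) - 2 * ((((s : ℤ) - k).toNat : ℕ) : ℤ)) + 1 =
        12 * k + 1 := by
      have : ((((s : ℤ) - k).toNat : ℕ) : ℤ) = s - k := by omega
      rw [this]; push_cast; ring
    rw [e]
    rcases le_or_gt 0 k with h0 | h0
    · obtain ⟨j, rfl⟩ := Int.eq_ofNat_of_zero_le h0
      have e1 : (12 * (j : ℤ) + 1) = ((12 * j : ℕ) : ℤ) + 1 := by push_cast; ring
      rw [e1, oddExt_succ, mul_left_comm (qb ((a : ℂ) ^ 2) 1), qb_J_fig8 hq, pow_mul, hpow, hpow,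
        ← mul_assoc, ← zpow_add₀ hB0]
      norm_num
      left
      congr 1
      ring
    · obtain ⟨j, hj⟩ := Int.eq_ofNat_of_zero_le (by omega : 0 ≤ -k - 1)
      have hk2 : k = -(j : ℤ) - 1 := by omega
      subst hk2
      have e1 : (12 * (-(j : ℤ) - 1) + 1) = -(((12 * j + 10 : ℕ) : ℤ) + 1) := by push_cast; ring
      rw [e1, oddExt_neg, oddExt_succ, Yq_neg, mul_neg, mul_neg, mul_neg,
        mul_left_comm (qb ((a : ℂ) ^ 2) 1), qb_J_fig8 hq, hpow, hpow,
        ← mul_assoc, ← zpow_add₀ hB0]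
      have e2 : ((-1 : ℂ)) ^ (12 * j + 10) = 1 := by
        rw [pow_add, pow_mul]; norm_num
      rw [e2, one_mul]
      congr 3
      push_cast
      ring

theorem rho_rep7 {ι : Type} [Fintype ι] [DecidableEq ι] (c : Bool → Matrix (ι × ι) (ι × ι) ℂ) :
    rho c 2 (List.replicate 7 (0, true)) = rho c 2 (tor 2) ^ 7 := by
  have : tor 2 = [(0, true)] := rfl
  rw [this]
  simp only [rho, List.map_replicate, List.prod_replicate, List.map_cons, List.map_nil,
    List.prod_cons, List.prod_nil, mul_one]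

theorem J_K2 {a : ℝ} (ha : 1 < a) (n : ℕ) :
    J (a : ℂ) 36 K2 n =
      (a : ℂ) ^ (-(7 * (n : ℤ) * (n + 2))) * (-1) ^ n *
        ∑ s ∈ range (n + 1), (-1) ^ s * (a : ℂ) ^ (14 * (s : ℤ) * (s + 1)) * J (a : ℂ) 18 K1 (2 * s) := by
  obtain ⟨B, hB, hBa⟩ := exists_root ha (k := 2) (by norm_num)
  have hB0 : (B : ℂ) ≠ 0 := by exact_mod_cast (by linarith : B ≠ 0)
  have h := J_cable (n := n) isKnot_K1 isKnot_rep7
    (fun m => 7 * ((m : ℤ) * (m + 2) - ((1 : ℕ) + 1 : ℤ) * ((n : ℤ) * (n + 2))))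
    (fun B hB m i hi => by
      have h1 := twist_H (gen_pow hB (k := 2) (by norm_num)) n 1 m i hi
      rw [rho_rep7, ← pow_mul, mul_comm 7 2, pow_mul]
      have key : ∀ j : ℕ, (rho (cV ((B : ℂ) ^ 2) n) 2 (tor 2) ^ 2) ^ j * i =
          (((B : ℂ) ^ 2) ^ ((m : ℤ) * (m + 2) - ((1 : ℕ) + 1 : ℤ) * ((n : ℤ) * (n + 2)))) ^ j • i := by
        intro j
        induction j with
        | zero => simp
        | succ j ih =>
          rw [pow_succ, Matrix.mul_assoc]
          erw [h1]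
          rw [Matrix.mul_smul, ih, smul_smul, pow_succ' _ j]
      rw [key 7, ← zpow_natCast, ← _root_.zpow_mul, mul_comm]
      rfl) hB
  rw [hBa] at h
  have h' : J (a : ℂ) 36 K2 n = _ := h
  rw [h']
  have hf := fold_two _ (oddExt_neg (fun m : ℕ => (B : ℂ) ^
    (7 * ((m : ℤ) * (m + 2) - ((1 : ℕ) + 1 : ℤ) * ((n : ℤ) * (n + 2)))) * J (a : ℂ) 18 K1 m)) n
  have hpow : ∀ z : ℤ, (a : ℂ) ^ z = (B : ℂ) ^ (2 * z) := by
    intro z
    rw [← hBa, ← zpow_natCast, ← _root_.zpow_mul]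
    rfl
  refine (hf.trans ?_)
  rw [mul_comm ((a : ℂ) ^ _) ((-1) ^ n), mul_assoc]
  congr 1
  rw [Finset.mul_sum]
  refine Finset.sum_congr rfl fun s _ => ?_
  have e1 : (2 * (s : ℤ) + 1) = ((2 * s : ℕ) : ℤ) + 1 := by push_cast; ring
  rw [e1, oddExt_succ, hpow, hpow]
  have e2 : (B : ℂ) ^ (7 * ((((2 * s : ℕ) : ℤ)) * (((2 * s : ℕ) : ℤ) + 2) -
      ((1 : ℕ) + 1 : ℤ) * ((n : ℤ) * (n + 2)))) =
      (B : ℂ) ^ (2 * -(7 * (n : ℤ) * (n + 2))) * (B : ℂ) ^ (2 * (14 * (s : ℤ) * (s + 1))) := by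
    rw [← zpow_add₀ hB0]
    congr 1
    push_cast
    ring
  rw [e2]
  ring

theorem formula_gen {a : ℝ} (ha : 1 < a) (n : ℕ) :
    qb ((a : ℂ) ^ 2) 1 * colBracket (a : ℂ) 38 KK n =
      Hab ((a : ℂ) ^ 2) (n + 1) * ((a : ℂ) ^ (-(7 * (n : ℤ) * (n + 2))) * (-1) ^ n *
        ∑ s ∈ range (n + 1), (-1) ^ s * (a : ℂ) ^ (10 * (s : ℤ) * (s + 1)) *
          ∑ k ∈ Icc (-(s : ℤ)) s,
            (a : ℂ) ^ (24 * k ^ 2 + 4 * k) * Yq ((a : ℂ) ^ 2) (12 * k + 1)) := by
  have hq : Gen ((a : ℂ) ^ 2) := gen_of_real ha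
  have ha0 : (a : ℂ) ≠ 0 := by exact_mod_cast (by linarith : a ≠ 0)
  rw [colBracket_eq_J hq isKnot_KK]
  have h := J_sum hq (N1 := 36) (N2 := 3) (by norm_num) (by norm_num) isKnot_K2.2.1
    isKnot_fig8.2.1 n
  have h' : J (a : ℂ) 38 KK n * _ = _ := h
  rw [J_fig8 hq] at h'
  have hne : ((-1 : ℂ) ^ n * qi ((a : ℂ) ^ 2) ((n : ℤ) + 1)) ≠ 0 :=
    mul_ne_zero (pow_ne_zero _ (by norm_num)) (hq.2 _ (by omega))
  have h2 : J (a : ℂ) 38 KK n = J (a : ℂ) 36 K2 n * Hab ((a : ℂ) ^ 2) (n + 1) := by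
    apply mul_right_cancel₀ hne
    rw [h']; ring
  rw [h2, J_K2 ha]
  have e : ∀ s : ℕ, (-1) ^ s * (a : ℂ) ^ (10 * (s : ℤ) * (s + 1)) *
      ∑ k ∈ Icc (-(s : ℤ)) s, (a : ℂ) ^ (24 * k ^ 2 + 4 * k) * Yq ((a : ℂ) ^ 2) (12 * k + 1) =
      qb ((a : ℂ) ^ 2) 1 *
        ((-1) ^ s * (a : ℂ) ^ (14 * (s : ℤ) * (s + 1)) * J (a : ℂ) 18 K1 (2 * s)) := by
    intro s
    rw [mul_left_comm (qb ((a : ℂ) ^ 2) 1), J_K1 ha]
    have : (a : ℂ) ^ (10 * (s : ℤ) * (s + 1)) =
        (a : ℂ) ^ (14 * (s : ℤ) * (s + 1)) * (a : ℂ) ^ (-(4 * (s : ℤ) * (s + 1))) := by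
      rw [← zpow_add₀ ha0]; congr 1; ring
    rw [this]; ring
  simp only [e, ← Finset.mul_sum]
  ring

theorem diff_zpow (m : ℤ) : Differentiable ℂ fun u : ℂ => Complex.exp u ^ m := by
  have : (fun u : ℂ => Complex.exp u ^ m) = fun u => Complex.exp (m * u) := by
    ext u; rw [Complex.exp_int_mul]
  rw [this]; fun_prop

theorem diff_qb (m : ℤ) : Differentiable ℂ fun u : ℂ => qb (Complex.exp u ^ 2) m := by
  have : (fun u : ℂ => qb (Complex.exp u ^ 2) m) =
      fun u => Complex.exp u ^ (2 * m) - Complex.exp u ^ (2 * -m) := by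
    ext u
    simp only [qb, _root_.zpow_mul]
    rfl
  rw [this]
  exact (diff_zpow _).sub (diff_zpow _)

theorem diff_Hab (N : ℕ) : Differentiable ℂ fun u : ℂ => Hab (Complex.exp u ^ 2) N := by
  unfold Hab
  refine Differentiable.fun_sum fun k _ => ?_
  refine Differentiable.fun_finset_prod fun j _ => ?_
  exact (diff_qb _).mul (diff_qb _)

theorem diff_bracket (N : ℕ) (w : Word) :
    Differentiable ℂ fun u : ℂ => bracket (Complex.exp u) N w := by
  have hi : Differentiable ℂ fun u : ℂ => (Complex.exp u)⁻¹ := by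
    have := diff_zpow (-1)
    simpa using this
  unfold bracket
  refine Differentiable.fun_sum fun s _ => ?_
  refine Differentiable.mul (Differentiable.fun_finset_prod fun t _ => ?_) ?_
  · split_ifs
    · exact hi
    · exact Complex.differentiable_exp
  · exact (((Complex.differentiable_exp.pow 2).neg).sub (hi.pow 2)).pow _

theorem formula {A : ℂ} (hA : A ≠ 0) (n : ℕ) :
    qb (A ^ 2) 1 * colBracket A 38 KK n =
      Hab (A ^ 2) (n + 1) * (A ^ (-(7 * (n : ℤ) * (n + 2))) * (-1) ^ n *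
        ∑ s ∈ range (n + 1), (-1) ^ s * A ^ (10 * (s : ℤ) * (s + 1)) *
          ∑ k ∈ Icc (-(s : ℤ)) s, A ^ (24 * k ^ 2 + 4 * k) * Yq (A ^ 2) (12 * k + 1)) := by
  let f : ℂ → ℂ := fun u => qb (Complex.exp u ^ 2) 1 * colBracket (Complex.exp u) 38 KK n
  let g : ℂ → ℂ := fun u => Hab (Complex.exp u ^ 2) (n + 1) *
    (Complex.exp u ^ (-(7 * (n : ℤ) * (n + 2))) * (-1) ^ n *
      ∑ s ∈ range (n + 1), (-1) ^ s * Complex.exp u ^ (10 * (s : ℤ) * (s + 1)) *
        ∑ k ∈ Icc (-(s : ℤ)) s, Complex.exp u ^ (24 * k ^ 2 + 4 * k) *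
          Yq (Complex.exp u ^ 2) (12 * k + 1))
  have hf : Differentiable ℂ f := by
    refine (diff_qb 1).mul ?_
    unfold colBracket Polynomial.sum
    exact Differentiable.fun_sum fun j _ => (diff_bracket _ _).const_mul _
  have hg : Differentiable ℂ g := by
    refine (diff_Hab _).mul (((diff_zpow _).mul_const _).mul ?_)
    refine Differentiable.fun_sum fun s _ => ((diff_zpow _).const_mul _).mul ?_
    refine Differentiable.fun_sum fun k _ => (diff_zpow _).mul ?_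
    exact (diff_qb _).mul (diff_Hab _)
  have hreal : ∀ t : ℝ, 0 < t → f t = g t := by
    intro t ht
    have := formula_gen (a := Real.exp t) (Real.one_lt_exp_iff.2 ht) n
    rw [Complex.ofReal_exp] at this
    exact this
  have hfreq : ∃ᶠ z in nhdsWithin (1 : ℂ) {1}ᶜ, f z = g z := by
    have ht : Filter.Tendsto (fun t : ℝ => (t : ℂ)) (nhdsWithin (1 : ℝ) {1}ᶜ)
        (nhdsWithin (1 : ℂ) {1}ᶜ) := by
      refine tendsto_nhdsWithin_iff.2 ⟨?_, ?_⟩
      · have := (Complex.continuous_ofReal.tendsto (1 : ℝ)).mono_left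
          (nhdsWithin_le_nhds (s := {1}ᶜ))
        simpa using this
      · filter_upwards [self_mem_nhdsWithin] with t ht
        intro h
        have h1 : (t : ℂ) = 1 := h
        exact ht (show t = 1 by exact_mod_cast h1)
    refine ht.frequently (Filter.Eventually.frequently ?_)
    filter_upwards [mem_nhdsWithin_of_mem_nhds (Ioi_mem_nhds (zero_lt_one' ℝ))] with t ht
    exact hreal t ht
  have hfg : f = g :=
    AnalyticOnNhd.eq_of_frequently_eq (fun z _ => hf.analyticAt z) (fun z _ => hg.analyticAt z) hfreq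
  have := congrFun hfg (Complex.log A)
  simp only [f, g, Complex.exp_log hA] at this
  exact this

end Pool.Agent.Work.MP_c404d3_gt
end

-- merged part: Pool.Agent.Work.MP_c404d3_gt.Main
section
/-!
Bridge and final theorem.
-/

namespace Pool.Agent.Work.MP_c404d3_gt

open scoped BigOperators Real Topology
open Finset Filter Complex

theorem term_eq {R : ℕ} (hodd : Odd R) (h3 : 3 ≤ R) {n : ℕ} (hn : n + 1 < R) :
    ‖br R 1‖ * ‖colBracket (cexp (π * I / R)) 38 KK n‖ =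
      ‖Y R ((n + 1 : ℕ) : ℤ) / br R ((n + 1 : ℕ) : ℤ) * Ssum R (n + 1)‖ := by
  set A := cexp (π * I / R) with hA
  have hA0 : A ≠ 0 := Complex.exp_ne_zero _
  have hA2 : A ^ 2 = zeta R := by
    rw [hA, ← Complex.exp_nat_mul, zeta]
    congr 1; push_cast; ring
  have hn1 : ‖A‖ = 1 := by
    have : (π * I / R : ℂ) = ((π / R : ℝ) : ℂ) * I := by push_cast; ring
    rw [hA, this, Complex.norm_exp_ofReal_mul_I]
  have hz : ∀ m : ℤ, A ^ (2 * m) = zeta R ^ m := by
    intro m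
    rw [zpow_mul, ← hA2]; rfl
  have h := formula hA0 n
  rw [hA2] at h
  have hbr : br R ((n + 1 : ℕ) : ℤ) ≠ 0 := by
    refine br_ne hodd fun hd => ?_
    have := Int.le_of_dvd (by omega) hd
    omega
  have hH : Hab (zeta R) (n + 1) = Y R ((n + 1 : ℕ) : ℤ) / br R ((n + 1 : ℕ) : ℤ) := by
    rw [eq_div_iff hbr, ← qb_Hab_eq hodd, Int.natAbs_natCast, mul_comm]
    rfl
  have hS : ∑ s ∈ range (n + 1), (-1) ^ s * A ^ (10 * (s : ℤ) * (s + 1)) *
      ∑ k ∈ Icc (-(s : ℤ)) s, A ^ (24 * k ^ 2 + 4 * k) * Yq (zeta R) (12 * k + 1) =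
      Ssum R (n + 1) := by
    unfold Ssum
    refine Finset.sum_congr rfl fun s _ => ?_
    congr 1
    · rw [psi, ← hz, zpow_natCast]
      congr 2; ring
    · refine Finset.sum_congr rfl fun k _ => ?_
      rw [chirp, ← hz, Yq, qb_Hab_eq hodd]
      congr 2; ring
  rw [hH, hS] at h
  have h' := congrArg norm h
  rw [norm_mul] at h'
  rw [br, h', norm_mul, norm_mul, norm_mul, norm_mul (Y R _ / br R _), norm_zpow, hn1, one_zpow,
    norm_pow, norm_neg, norm_one, one_pow, one_mul, one_mul]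

theorem stateNorm_eq {r : ℕ} (hr : 1 ≤ r) : stateNorm 38 KK r = Real.sqrt (Tsum (2 * r + 1)) := by
  unfold stateNorm Tsum
  congr 1
  have hodd : Odd (2 * r + 1) := ⟨r, rfl⟩
  have e : (2 * r + 1) / 2 = r := by omega
  rw [e, ← Finset.Ico_add_one_right_eq_Icc, Finset.sum_Ico_eq_sum_range, Nat.add_sub_cancel,
    Finset.sum_div]
  refine Finset.sum_congr rfl fun n hn => ?_
  have hn' := mem_range.1 hn
  have ht := term_eq hodd (by omega) (n := n) (by omega)
  rw [add_comm 1 n, ← ht, norm_mul, norm_br, Complex.norm_real, Real.norm_eq_abs, abs_div,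
    abs_of_nonneg (Real.sqrt_nonneg _), mul_pow, mul_pow, div_pow, Real.sq_sqrt (by positivity)]
  push_cast
  rw [mul_one]
  ring

theorem no_limit (V : ℝ) :
    ¬ Tendsto (fun r : ℕ => 2 * π / r * Real.log (stateNorm 38 KK r)) atTop (𝓝 V) := by
  intro hV
  obtain ⟨δ0, hδ0, hU⟩ := T_upper
  have hg := gam_pos
  set δ := min δ0 (4 * gam) with hδdef
  have hδ : 0 < δ := lt_min hδ0 (by linarith)
  have hδa : δ ≤ δ0 := min_le_left _ _
  have hδb : δ ≤ 4 * gam := min_le_right _ _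
  have hL := T_lower (half_pos hδ)
  have hlog : ∀ r : ℕ, 1 ≤ r → 2 * π / r * Real.log (stateNorm 38 KK r) =
      π / r * Real.log (Tsum (2 * r + 1)) := by
    intro r hr
    have h0 : 0 ≤ Tsum (2 * r + 1) := by unfold Tsum; positivity
    rw [stateNorm_eq hr, Real.log_sqrt h0]
    ring
  have hlim : ∀ c : ℝ, Tendsto (fun r : ℕ => π / r * (c * ((2 * r + 1 : ℕ) : ℝ))) atTop
      (𝓝 (2 * π * c)) := by
    intro c
    have h1 : Tendsto (fun r : ℕ => 2 * π * c + π * c * (r : ℝ)⁻¹) atTop (𝓝 (2 * π * c + π * c * 0)) :=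
      tendsto_const_nhds.add (tendsto_inv_atTop_nhds_zero_nat.const_mul _)
    rw [mul_zero, add_zero] at h1
    refine h1.congr' ?_
    filter_upwards [eventually_gt_atTop 0] with r hr
    have : (r : ℝ) ≠ 0 := by positivity
    push_cast
    field_simp
  have t1 : Tendsto (fun j : ℕ => 15 * j + 7) atTop atTop :=
    tendsto_atTop_mono (fun j => by simp only [id]; omega) tendsto_id
  have t2 : Tendsto (fun j : ℕ => 15 * j + 2) atTop atTop :=
    tendsto_atTop_mono (fun j => by simp only [id]; omega) tendsto_id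
  have t3 : Tendsto (fun r : ℕ => 2 * r + 1) atTop atTop :=
    tendsto_atTop_mono (fun j => by simp only [id]; omega) tendsto_id
  have up : V ≤ 2 * π * (4 * gam - δ) := by
    refine le_of_tendsto_of_tendsto (hV.comp t1) ((hlim (4 * gam - δ)).comp t1) ?_
    filter_upwards [(t3.comp t1).eventually hU] with j hj
    simp only [Function.comp] at hj ⊢
    have hT := (hj ⟨15 * j + 7, rfl⟩ ⟨2 * j + 1, by ring⟩).trans
      (exp_mono (by linarith : 4 * gam - δ0 ≤ 4 * gam - δ))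
    rw [hlog _ (by omega)]
    refine mul_le_mul_of_nonneg_left ?_ (by positivity)
    have h0 : 0 ≤ Tsum (2 * (15 * j + 7) + 1) := by unfold Tsum; positivity
    rcases h0.eq_or_lt with h | h
    · rw [← h, Real.log_zero]
      exact mul_nonneg (by linarith) (by positivity)
    · exact (Real.log_le_iff_le_exp h).2 hT
  have lo : 2 * π * (4 * gam - δ / 2) ≤ V := by
    refine le_of_tendsto_of_tendsto ((hlim (4 * gam - δ / 2)).comp t2) (hV.comp t2) ?_
    filter_upwards [(t3.comp t2).eventually hL] with j hj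
    simp only [Function.comp] at hj ⊢
    have hT := hj ⟨15 * j + 2, rfl⟩ ⟨6 * j + 1, by ring⟩ (by omega)
    rw [hlog _ (by omega)]
    refine mul_le_mul_of_nonneg_left ?_ (by positivity)
    exact (Real.le_log_iff_exp_le (lt_of_lt_of_le (Real.exp_pos _) hT)).2 hT
  nlinarith [Real.pi_pos]

theorem main : ∃ (N : ℕ) (w : Word), IsKnot N w ∧ ∀ V : ℝ,
    ¬ Tendsto (fun r : ℕ => 2 * π / r * Real.log (stateNorm N w r)) atTop (𝓝 V) :=
  ⟨38, KK, isKnot_KK, no_limit⟩

end Pool.Agent.Work.MP_c404d3_gt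
end
end
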